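import Mathlib
import Pool.Agent.Lib.MP_f9389f_co.Defs

/-! Graphs whose spheres are connected inside thin annuli. -/

namespace Pool.Agent.Lib.MP_f9389f_co

/-- Two vertices at the same distance `n` from `o` that are joined by a walk outside the open ball
of radius `n` about `o` are joined by a walk inside the annulus `n - s ≤ d(o, ·) ≤ n + s`. -/
def AnnConn {V : Type*} (G : SimpleGraph V) (o : V) (s : ℕ) : Prop :=
  ∀ (x y : V) (p : G.Walk x y), G.dist o x = G.dist o y →
    (∀ v ∈ p.support, G.dist o x ≤ G.dist o v) →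
    ∃ q : G.Walk x y, ∀ v ∈ q.support, G.dist o x ≤ G.dist o v + s ∧ G.dist o v ≤ G.dist o x + s

end Pool.Agent.Lib.MP_f9389f_co
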