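import Mathlib
import Pool.Agent.Lib.MP_f9389f_co.Defs

/-! Graphs whose cycle space is generated by short cycles. -/

namespace Pool.Agent.Lib.MP_f9389f_co

/-- The cycle space of `G` (mod 2) is generated by cycles of length at most `s`: the edge set of
every cycle is the sum mod 2 of the edge sets of finitely many cycles of length at most `s`. -/
def ShortCycles {V : Type*} (G : SimpleGraph V) (s : ℕ) : Prop :=
  ∀ (v : V) (p : G.Walk v v), p.IsCycle →
    ∃ (n : ℕ) (w : Fin n → V) (z : ∀ i, G.Walk (w i) (w i)),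
      (∀ i, (z i).IsCycle ∧ (z i).length ≤ s) ∧
      ∀ e : Sym2 V, e ∈ p.edges ↔ Odd {i | e ∈ (z i).edges}.ncard

end Pool.Agent.Lib.MP_f9389f_co
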