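import Mathlib
import Pool.Agent.Lib.MP_f9389f_co.CbBasic
import Pool.Agent.Lib.MP_f9389f_co.SC.Stmt
import Pool.Agent.Lib.MP_f9389f_co.SC.Ann

-- part Pool.Agent.Lib.MP_f9389f_co.SC.Comb
section

/-! Combinatorial definitions and statements for the short cycle case: chords on a line. -/

namespace Pool.Agent.Lib.MP_f9389f_co.SC

universe u

open SimpleGraph

/-- `x` lies strictly between `a` and `c`. -/
def Btw (a c x : ℕ) : Prop := (a < x ∧ x < c) ∨ (c < x ∧ x < a)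

/-- `x` lies strictly outside the interval spanned by `a` and `c`. -/
def Out (a c x : ℕ) : Prop := (x < a ∧ x < c) ∨ (a < x ∧ c < x)

/-- The chords `(a, c)` and `(b, d)` cross strictly. -/
def Sep (a c b d : ℕ) : Prop := (Btw a c b ∧ Out a c d) ∨ (Out a c b ∧ Btw a c d)

/-- No two edges cross. -/
def NC (E : SimpleGraph ℕ) : Prop := ∀ a c b d, E.Adj a c → E.Adj b d → ¬ Sep a c b d

/-- No edge of `E` crosses the chord `(x, y)`. -/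
def Wall (E : SimpleGraph ℕ) (x y : ℕ) : Prop := ∀ c d, E.Adj c d → ¬ Sep c d x y

/-- Some cross pair of the pairs `(a, c)` and `(b, d)` satisfies `R`. -/
def Cr {α : Type*} (R : α → α → Prop) (a c b d : α) : Prop := R a b ∨ R a d ∨ R c b ∨ R c d

/-- Two chords cross or share an end. -/
def Tch (p q : ℕ × ℕ) : Prop := Sep p.1 p.2 q.1 q.2 ∨ Cr Eq p.1 p.2 q.1 q.2

/-- `v 0, ..., v n` is a chain of at most 13 touching members of `C` from `A` to `B`. -/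
def ChainOn (C : ℕ → ℕ → Prop) (A B n : ℕ) (v : ℕ → ℕ × ℕ) : Prop :=
  n ≤ 12 ∧ (∀ i ≤ n, C (v i).1 (v i).2) ∧ (∀ i < n, Tch (v i) (v (i + 1))) ∧
    (A = (v 0).1 ∨ A = (v 0).2) ∧ (B = (v n).1 ∨ B = (v n).2)

/-- `H` is a noncrossing emulator of the chord family `C`. -/
structure EmuOut (C : ℕ → ℕ → Prop) (X : Finset ℕ) (H : SimpleGraph ℕ) : Prop where
  nc : NC H
  mem : ∀ a b, H.Adj a b → a ∈ X
  near : ∀ a c, C a c → Near H 5 a c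
  chain : ∀ A B, H.Adj A B → ∃ n v, ChainOn C A B n v
  wall : ∀ x y, (∀ a c, C a c → ¬ Sep a c x y) → Wall H x y

def EmuStmt : Prop := ∀ (C : ℕ → ℕ → Prop) (X : Finset ℕ), (∀ a c, C a c → C c a) →
  (∀ a c, C a c → a ∈ X) → ∃ H, EmuOut C X H

/-- Paths in noncrossing graphs and chains of chords. -/
structure PathStmt : Prop where
  /-- a path that crosses an uncrossed chord passes through one of its ends -/
  thru : ∀ (E : SimpleGraph ℕ) n a b x y, Near E n a b → Sep a b x y → Wall E x y →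
    ∃ i j, i + j ≤ n ∧ ((Near E i a x ∧ Near E j x b) ∨ (Near E i a y ∧ Near E j y b))
  /-- paths along crossing chords meet -/
  meet : ∀ (E : SimpleGraph ℕ) n m a c b d, NC E → Near E n a c → Near E m b d → Sep a c b d →
    Near E (n + m) a b
  /-- a point separated from a near point by a short chord is near the chord -/
  cut : ∀ (E : SimpleGraph ℕ) n m a a' c d, NC E → Near E n a a' → Near E m c d → Sep c d a a' →
    Near E (n + m) a c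
  /-- a chord crossing an edge touches a member of its chain -/
  touch : ∀ C A B n v a b, ChainOn C A B n v → Sep A B a b →
    ∃ i ≤ n, Sep (v i).1 (v i).2 a b ∨ Cr Eq (v i).1 (v i).2 a b
  /-- all ends of a chain are joined to its start by at most 26 links -/
  links : ∀ (C R : ℕ → ℕ → Prop) A B n v, ChainOn C A B n v → (∀ a c, C a c → R a c) →
    (∀ a c b d, C a c → C b d → Sep a c b d → Cr R a c b d) →
    ∀ i ≤ n, Near (fromRel R) 26 A (v i).1 ∧ Near (fromRel R) 26 A (v i).2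
  /-- walks pass through maps that send edges to short walks -/
  lip : ∀ (α β : Type) (Γ : SimpleGraph α) (Δ : SimpleGraph β) (f : α → β) k n a b,
    (∀ x y, Γ.Adj x y → Near Δ k (f x) (f y)) → Near Γ n a b → Near Δ (n * k) (f a) (f b)
  /-- a sequence with few labels can be shortened -/
  label : ∀ (Γ : SimpleGraph ℕ) (S : Finset ℕ) (e lab : ℕ → ℕ) (n k₁ k₂ : ℕ),
    (∀ i ≤ n, lab i ∈ S) → (∀ i < n, Near Γ k₁ (e i) (e (i + 1))) →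
    (∀ i ≤ n, ∀ j ≤ n, lab i = lab j → Near Γ k₂ (e i) (e j)) →
    Near Γ (S.card * (k₁ + k₂)) (e 0) (e n)

/-- A rank function for a finite set with an injective key. -/
def RankStmt : Prop := ∀ (ι : Type u) (κ : Type) [LinearOrder κ] (Θ : Finset ι) (key : ι → κ),
  Set.InjOn key Θ → ∃ r : ι → ℕ, (∀ t, 0 < r t) ∧ ∀ t ∈ Θ, ∀ u ∈ Θ, (r t < r u ↔ key t < key u)

/-- Two objects cross. -/
def Xing {ι : Type u} (Θ : Finset ι) (r oid : ι → ℕ) (t u : ι) : Prop :=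
  t ∈ Θ ∧ u ∈ Θ ∧ (oid t = oid u ∨ ∃ t' ∈ Θ, ∃ u' ∈ Θ, oid t = oid t' ∧ oid u = oid u' ∧
    Sep (r t) (r t') (r u) (r u'))

/-- The groups: classes generated by crossings of objects. -/
def Grp {ι : Type u} (Θ : Finset ι) (r oid : ι → ℕ) : ι → ι → Prop :=
  Relation.TransGen (Xing Θ r oid)

/-- Different groups do not cross. -/
def NcgStmt : Prop := ∀ (ι : Type u) (Θ : Finset ι) (r oid : ι → ℕ), Set.InjOn r Θ →
  ∀ a c b d, Grp Θ r oid a c → Grp Θ r oid b d → Sep (r a) (r c) (r b) (r d) → Grp Θ r oid a b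

/-- A connected graph of maximum degree two has a Hamiltonian path. -/
def HamStmt : Prop := ∀ (ι : Type u) (Θ : Finset ι) (R : ι → ι → Prop),
  (∀ a b, R a b → R b a) → (∀ a b, R a b → a ∈ Θ ∧ a ≠ b) →
  (∀ a ∈ Θ, ∀ b ∈ Θ, Relation.ReflTransGen R a b) →
  (∀ v a b d, R v a → R v b → R v d → a = b ∨ a = d ∨ b = d) →
  ∃ ρ : ι → ℕ, Set.InjOn ρ Θ ∧ (∀ a ∈ Θ, ρ a < Θ.card) ∧
    ∀ a ∈ Θ, ∀ b ∈ Θ, ρ b = ρ a + 1 → R a b

/-! ### Faces -/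

/-- The top of a face: an edge, or the outer top. -/
def IsTop (E : SimpleGraph ℕ) (X : Finset ℕ) (T : ℕ × ℕ) : Prop :=
  (E.Adj T.1 T.2 ∧ T.1 < T.2) ∨ T = (0, X.sup id + 1)

/-- The vertices of the face below `T`. -/
def Face (E : SimpleGraph ℕ) (X : Finset ℕ) (T : ℕ × ℕ) : Set ℕ :=
  {w | w ∈ X ∧ T.1 ≤ w ∧ w ≤ T.2 ∧
    ∀ c d, E.Adj c d → T.1 ≤ c → d ≤ T.2 → (c, d) ≠ T → ¬ (c < w ∧ w < d)}

open Classical in
/-- The projection to a face. -/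
noncomputable def proj (E : SimpleGraph ℕ) (X : Finset ℕ) (T : ℕ × ℕ) (a : ℕ) : ℕ :=
  if ∃ w ∈ Face E X T, a ≤ w then sInf {w | w ∈ Face E X T ∧ a ≤ w} else sSup (Face E X T)

/-- `a` lies strictly on the side of the chord `(c, d)` that holds no point of `F`. -/
def Bey (F : Set ℕ) (c d a : ℕ) : Prop :=
  (Btw c d a ∧ ∀ w ∈ F, ¬ Btw c d w) ∨ (Out c d a ∧ ∀ w ∈ F, ¬ Out c d w)

/-- A noncrossing graph on a finite set of positive numbers. -/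
structure NCOn (E : SimpleGraph ℕ) (X : Finset ℕ) : Prop where
  nc : NC E
  mem : ∀ a b, E.Adj a b → a ∈ X
  pos : 0 ∉ X

structure FaceStmt : Prop where
  mem : ∀ E X T a, NCOn E X → IsTop E X T → a ∈ X → proj E X T a ∈ Face E X T
  fix : ∀ E X T a, a ∈ Face E X T → proj E X T a = a
  mono : ∀ E X T a b, NCOn E X → IsTop E X T → a ∈ X → b ∈ X → a ≤ b →
    proj E X T a ≤ proj E X T b
  bey : ∀ E X T a, NCOn E X → IsTop E X T → a ∈ X → a ∉ Face E X T →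
    ∃ c d, E.Adj c d ∧ c ∈ Face E X T ∧ d ∈ Face E X T ∧ Bey (Face E X T) c d a ∧ c < d ∧
      (Btw c d a → ¬ (c ≤ T.1 ∧ T.2 ≤ d)) ∧ (Out c d a → (c, d) = T) ∧
      ∀ a' ∈ X, (a' = c ∨ a' = d ∨ (a' ≠ c ∧ a' ≠ d ∧ ¬ Sep c d a a')) →
        proj E X T a' = c ∨ proj E X T a' = d
  wall : ∀ E X T w w', NCOn E X → IsTop E X T → w ∈ Face E X T → w' ∈ Face E X T → Wall E w w'
  near : ∀ E X T n a b, NCOn E X → IsTop E X T → a ∈ X → b ∈ X → Near E n a b →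
    Near E (n + 2) (proj E X T a) (proj E X T b)
  ex : ∀ E X a b, NCOn E X → a ∈ X → b ∈ X → Wall E a b →
    ∃ T, IsTop E X T ∧ a ∈ Face E X T ∧ b ∈ Face E X T
  side : ∀ E X T w c d, NCOn E X → IsTop E X T → w ∈ Face E X T → E.Adj c d → c < d →
    ((c ≤ T.1 ∧ T.2 ≤ d) → c ≤ w ∧ w ≤ d) ∧ (¬ (c ≤ T.1 ∧ T.2 ≤ d) → ¬ (c < w ∧ w < d))
  ofIn : ∀ E X (P : ℕ → ℕ → Prop), NCOn E X →
    (∀ c d c' d', E.Adj c d → E.Adj c' d' → c < d → c' < d' → P c d → P c' d' →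
      (c ≤ c' ∧ d' ≤ d) ∨ (c' ≤ c ∧ d ≤ d')) →
    (∀ c d c' d', E.Adj c d → E.Adj c' d' → c < d → c' ≤ c → d ≤ d' → P c d → P c' d') →
    ∃ T, IsTop E X T ∧ ∀ c d, E.Adj c d → c < d → (P c d ↔ c ≤ T.1 ∧ T.2 ≤ d)
  fin : ∀ E X, NCOn E X → {T | IsTop E X T}.Finite
  two : ∀ E X T T', NCOn E X → IsTop E X T → IsTop E X T' → T ≠ T' →
    ∃ c d, E.Adj c d ∧ ∀ w, w ∈ Face E X T → w ∈ Face E X T' → w = c ∨ w = d

/-! ### Cyclic orders by potentials -/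

/-- The wrap count of a linear order. -/
def df {ι : Type u} (r : ι → ℕ) (t u : ι) : ℤ := if r u < r t then 1 else 0

/-- `δ` is the wrap count of `r` up to the potential `i`. -/
def Pot {ι : Type u} (δ : ι → ι → ℤ) (r : ι → ℕ) (i : ι → ℤ) (t u : ι) : Prop :=
  δ t u = df r t u + i u - i t

/-- Potentials exist when short cycles have positive weight. -/
def PotStmt : Prop := ∀ (ι : Type u) (Θ : Finset ι) (pid rp : ι → ℕ) (U : ι → ι → Prop)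
  (δ : ι → ι → ℤ), Set.InjOn rp Θ → (∀ t u, U t u → U u t) → (∀ t u, U t u → pid t = pid u) →
  (∀ t ∈ Θ, ∀ u ∈ Θ, t ≠ u → δ t u + δ u t = 1) →
  (∀ t ∈ Θ, ∀ u ∈ Θ, pid t = pid u → δ t u = df rp t u) →
  (∀ t ∈ Θ, ∀ u ∈ Θ, -1 ≤ δ t u) →
  (∀ t ∈ Θ, ∀ u ∈ Θ, ∀ v ∈ Θ, t ≠ u → u ≠ v → v ≠ t → ¬ U t u → ¬ U u v → ¬ U v t →
    1 ≤ δ t u + δ u v + δ v t) →
  (∀ t ∈ Θ, ∀ u ∈ Θ, ∀ v ∈ Θ, ∀ w ∈ Θ, U t v → U u w → pid t ≠ pid u →
    1 ≤ δ t u + δ u v + δ v w + δ w t) →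
  ∃ (ρ : ι → ℕ) (i : ι → ℤ), Set.InjOn ρ Θ ∧
    ∀ t ∈ Θ, ∀ u ∈ Θ, t ≠ u → ¬ U t u → Pot δ ρ i t u

/-- The lifted maximum rule. -/
def MaxStmt : Prop := ∀ (ι : Type u) (Θ : Finset ι) (ρ val : ι → ℕ) (i : ι → ℤ),
  Set.InjOn ρ Θ → ∃ (ρ' φ : ι → ℕ) (i' : ι → ℤ), Set.InjOn ρ' Θ ∧
    (∀ t ∈ Θ, ∀ u ∈ Θ, t ≠ u → df ρ t u + i u - i t = df ρ' t u + i' u - i' t) ∧
    (∀ t ∈ Θ, ∀ u ∈ Θ, ρ' t ≤ ρ' u → φ t ≤ φ u) ∧
    ∀ t ∈ Θ, φ t = val t ∨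
      ∃ u ∈ Θ, u ≠ t ∧ df ρ u t + i t - i u < df val u t ∧ φ t = val u

/-- Crossing is a parity. -/
def ParStmt : Prop := ∀ (ι : Type u) (r : ι → ℕ) (t t' u u' : ι), r t ≠ r u → r t ≠ r u' →
  r t' ≠ r u → r t' ≠ r u' →
  (Sep (r t) (r t') (r u) (r u') ↔ Odd (df r t u + df r t u' + df r t' u + df r t' u'))

/-- Step A: making the feet of a large core monotone. -/
def StepAStmt : Prop := ∀ (ι : Type u) (B : Finset ι) (ρ p : ι → ℕ) (nr : ℕ → ℕ → Prop)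
  (a : Fin 4 → ι), Set.InjOn ρ B → (∀ x, nr x x) → (∀ x y, nr x y → nr y x) → (∀ i, a i ∈ B) →
  (∀ x i k, nr x (p (a i)) → nr x (p (a k)) → i = k) →
  (∀ t ∈ B, ∀ t' ∈ B, ∀ u ∈ B, ∀ u' ∈ B, ¬ nr (p t) (p t') → ¬ nr (p u) (p u') →
    ¬ Cr nr (p t) (p t') (p u) (p u') → Sep (p t) (p t') (p u) (p u') →
    Sep (ρ t) (ρ t') (ρ u) (ρ u')) →
  ∃ (ρ' : ι → ℕ) (s : ι → ι), Set.InjOn ρ' B ∧
    (∀ t ∈ B, ∀ t' ∈ B, ∀ u ∈ B, ∀ u' ∈ B,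
      (Sep (ρ' t) (ρ' t') (ρ' u) (ρ' u') ↔ Sep (ρ t) (ρ t') (ρ u) (ρ u'))) ∧
    (∀ t ∈ B, ∀ u ∈ B, ρ' t ≤ ρ' u → p (s t) ≤ p (s u)) ∧
    ∀ t ∈ B, s t ∈ B ∧ (s t = t ∨ (s t ≠ t ∧ ∃ x ∈ B, ∃ y ∈ B, ¬ nr (p t) (p x) ∧ ¬ nr (p t) (p y) ∧
      ¬ nr (p (s t)) (p x) ∧ ¬ nr (p (s t)) (p y) ∧ ¬ nr (p x) (p y) ∧
      ¬ Sep (ρ t) (ρ x) (ρ (s t)) (ρ y) ∧ Sep (p t) (p x) (p (s t)) (p y)))

/-- The data on one face. `N n t u` says that the tokens `t`, `u` have values at distance `≤ n`. -/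
structure FaceIn {ι : Type u} (Θ : Finset ι) (oid pid val rp : ι → ℕ) (N : ℕ → ι → ι → Prop)
    (U : ι → ι → Prop) (c : ℕ) : Prop where
  refl : ∀ t u, val t = val u → N 0 t u
  symm : ∀ n t u, N n t u → N n u t
  trans : ∀ n m t u v, N n t u → N m u v → N (n + m) t v
  mono : ∀ n m t u, N n t u → n ≤ m → N m t u
  inj : Set.InjOn rp Θ
  vmono : ∀ t ∈ Θ, ∀ u ∈ Θ, rp t ≤ rp u → val t ≤ val u
  op : ∀ t ∈ Θ, ∀ u ∈ Θ, oid t = oid u → pid t = pid u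
  fs : ∀ n, ∀ a ∈ Θ, ∀ b ∈ Θ, ∀ x ∈ Θ, ∀ y ∈ Θ, N n a b → Sep (rp a) (rp b) (rp x) (rp y) →
    (N n a x ∧ N n b x) ∨ (N n a y ∧ N n b y)
  usymm : ∀ t u, U t u → U u t
  usub : ∀ t u, U t u → pid t = pid u ∧ oid t ≠ oid u ∧ N c t u
  ni : ∀ t ∈ Θ, ∀ t' ∈ Θ, ∀ u ∈ Θ, ∀ u' ∈ Θ, oid t = oid t' → oid u = oid u' → pid t ≠ pid u →
    Sep (rp t) (rp t') (rp u) (rp u') → Cr (N c) t t' u u'
  tl : ∀ t ∈ Θ, ∀ a ∈ Θ, ∀ v ∈ Θ, ∀ e ∈ Θ, ∀ u ∈ Θ, ∀ b ∈ Θ, oid t = oid a → oid v = oid e →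
    oid t ≠ oid v → pid t = pid v → oid u = oid b → pid u ≠ pid t →
    Sep (rp t) (rp a) (rp v) (rp e) → ¬ U t v → ¬ N c t e → ¬ N c a v → ¬ N c a e →
    Sep (rp a) (rp e) (rp u) (rp b) → Cr (N c) a e u b
  ref : ∀ t ∈ Θ, (∃ t' ∈ Θ, oid t' = oid t ∧ ¬ N (12 * c) t t' ∧
      ∀ s ∈ Θ, oid s = oid t → s = t ∨ s = t') ∨
    ∃ a : Fin 4 → ι, (∀ i, a i ∈ Θ ∧ oid (a i) = oid t) ∧ ∀ i k, i ≠ k → ¬ N (12 * c) (a i) (a k)
  np : ∀ t ∈ Θ, ∀ t' ∈ Θ, ∀ u ∈ Θ, ∀ u' ∈ Θ, oid t = oid t' → oid u = oid u' → pid t ≠ pid u →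
    (∀ s ∈ Θ, oid s = oid t → s = t ∨ s = t') → (∀ s ∈ Θ, oid s = oid u → s = u ∨ s = u') →
    t ≠ t' → u ≠ u' → N (3 * c) t u → ¬ N (3 * c) t' u'

/-- The orientation of a triple: `1` if `t, u, v` is the cyclic order, `2` if it is reversed. -/
def ori {ι : Type u} (r : ι → ℕ) (t u v : ι) : ℤ := df r t u + df r u v + df r v t

/-- Seen from the token `k`, a far token of the object of `t` comes before a far token of the
object of `u`, and the two are not near. -/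
def Bef {ι : Type u} (Θ : Finset ι) (oid rp : ι → ℕ) (N : ℕ → ι → ι → Prop) (c : ℕ)
    (k t u : ι) : Prop :=
  ∃ a ∈ Θ, ∃ b ∈ Θ, oid a = oid t ∧ oid b = oid u ∧ ¬ N (4 * c) k a ∧ ¬ N (4 * c) k b ∧
    ¬ N (3 * c) a b ∧ ori rp k a b = 1

/-- Uniqueness and existence of the local order of objects. -/
structure BefOut {ι : Type u} (Θ : Finset ι) (oid pid rp : ι → ℕ) (N : ℕ → ι → ι → Prop)
    (c : ℕ) : Prop where
  two : ∀ k ∈ Θ, ∀ t ∈ Θ, ∀ u ∈ Θ, pid t ≠ pid u → N (2 * c) k t → N (2 * c) k u →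
    Bef Θ oid rp N c k t u → ¬ Bef Θ oid rp N c k u t
  three : ∀ k ∈ Θ, ∀ t ∈ Θ, ∀ u ∈ Θ, ∀ v ∈ Θ, pid t ≠ pid u → pid u ≠ pid v → pid v ≠ pid t →
    N (2 * c) k t → N (2 * c) k u → N (2 * c) k v → Bef Θ oid rp N c k t u →
    Bef Θ oid rp N c k u v → ¬ Bef Θ oid rp N c k v t
  four : ∀ k ∈ Θ, ∀ t ∈ Θ, ∀ u ∈ Θ, ∀ v ∈ Θ, ∀ w ∈ Θ, pid t ≠ pid u → pid u ≠ pid v →
    pid v ≠ pid w → pid w ≠ pid t → N (2 * c) k t → N (2 * c) k u → N (2 * c) k v →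
    N (2 * c) k w → Bef Θ oid rp N c k t u → Bef Θ oid rp N c k u v → Bef Θ oid rp N c k v w →
    ¬ Bef Θ oid rp N c k w t
  mid : ∀ k ∈ Θ, ∀ t ∈ Θ, ∀ u ∈ Θ, ∀ v ∈ Θ, pid t ≠ pid u → pid u ≠ pid v → N (2 * c) k t →
    N (2 * c) k u → N (2 * c) k v → Bef Θ oid rp N c k v u → Bef Θ oid rp N c k u t →
    ∃ e ∈ Θ, ∃ b ∈ Θ, ∃ a ∈ Θ, oid e = oid v ∧ oid b = oid u ∧ oid a = oid t ∧
      ¬ N (4 * c) k e ∧ ¬ N (4 * c) k b ∧ ¬ N (4 * c) k a ∧ ¬ N c e b ∧ ¬ N c b a ∧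
      ori rp k e b = 1 ∧ ori rp k b a = 1
  ex : ∀ t ∈ Θ, ∀ u ∈ Θ, pid t ≠ pid u → N (3 * c) t u →
    ∃ a ∈ Θ, ∃ b ∈ Θ, oid a = oid t ∧ oid b = oid u ∧ ¬ N (6 * c) t a ∧ ¬ N (6 * c) u b ∧
      ¬ N (6 * c) t b ∧ ¬ N (6 * c) u a ∧ ¬ N (3 * c) a b

def BefStmt : Prop := ∀ (ι : Type u) (Θ : Finset ι) (oid pid val rp : ι → ℕ) N U c,
  FaceIn Θ oid pid val rp N U c → BefOut Θ oid pid rp N c

/-- The corrected wrap count on a face. -/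
structure DelOut {ι : Type u} (Θ : Finset ι) (oid pid rp : ι → ℕ) (N : ℕ → ι → ι → Prop) (c : ℕ)
    (δ : ι → ι → ℤ) : Prop where
  anti : ∀ t ∈ Θ, ∀ u ∈ Θ, t ≠ u → δ t u + δ u t = 1
  plain : ∀ t ∈ Θ, ∀ u ∈ Θ, (pid t = pid u ∨ ¬ N c t u) → δ t u = df rp t u
  rule : ∀ t ∈ Θ, ∀ u ∈ Θ, pid t ≠ pid u → N c t u → ∀ a ∈ Θ, ∀ b ∈ Θ, oid a = oid t →
    oid b = oid u → ¬ N (4 * c) t a → ¬ N (4 * c) t b → ¬ N (3 * c) a b →
    δ t u = df rp t b + df rp a u - df rp a b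

def DelStmt : Prop := ∀ (ι : Type u) (Θ : Finset ι) (oid pid val rp : ι → ℕ) N U c,
  FaceIn Θ oid pid val rp N U c → BefOut Θ oid pid rp N c → ∃ δ, DelOut Θ oid pid rp N c δ

def TriStmt : Prop := ∀ (ι : Type u) (Θ : Finset ι) (oid pid val rp : ι → ℕ) N U c δ,
  FaceIn Θ oid pid val rp N U c → BefOut Θ oid pid rp N c → DelOut Θ oid pid rp N c δ →
  (∀ t ∈ Θ, ∀ u ∈ Θ, ∀ v ∈ Θ, t ≠ u → u ≠ v → v ≠ t → ¬ U t u → ¬ U u v → ¬ U v t →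
    1 ≤ δ t u + δ u v + δ v t) ∧
  (∀ t ∈ Θ, ∀ u ∈ Θ, ∀ v ∈ Θ, ∀ w ∈ Θ, U t v → U u w → pid t ≠ pid u →
    1 ≤ δ t u + δ u v + δ v w + δ w t)

def EvenStmt : Prop := ∀ (ι : Type u) (Θ : Finset ι) (oid pid val rp : ι → ℕ) N U c δ,
  FaceIn Θ oid pid val rp N U c → BefOut Θ oid pid rp N c → DelOut Θ oid pid rp N c δ →
  ∀ t ∈ Θ, ∀ t' ∈ Θ, ∀ u ∈ Θ, ∀ u' ∈ Θ, oid t = oid t' → oid u = oid u' → pid t ≠ pid u →
    Even (δ t u + δ t u' + δ t' u + δ t' u')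

/-- The order on a face. -/
structure FaceOut {ι : Type u} (Θ : Finset ι) (oid pid val rp : ι → ℕ) (N : ℕ → ι → ι → Prop)
    (U : ι → ι → Prop) (c : ℕ) (θ φ : ι → ℕ) : Prop where
  inj : Set.InjOn θ Θ
  mono : ∀ t ∈ Θ, ∀ u ∈ Θ, θ t ≤ θ u → φ t ≤ φ u
  near : ∀ t ∈ Θ, ∃ u ∈ Θ, φ t = val u ∧ N c u t
  same : ∀ t ∈ Θ, ∀ t' ∈ Θ, ∀ u ∈ Θ, ∀ u' ∈ Θ, pid t = pid t' → pid t = pid u → pid t = pid u' →
    ¬ Cr U t t' u u' → (Sep (θ t) (θ t') (θ u) (θ u') ↔ Sep (rp t) (rp t') (rp u) (rp u'))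
  diff : ∀ t ∈ Θ, ∀ t' ∈ Θ, ∀ u ∈ Θ, ∀ u' ∈ Θ, oid t = oid t' → oid u = oid u' → pid t ≠ pid u →
    ¬ Sep (θ t) (θ t') (θ u) (θ u')

def OrdStmt : Prop := ∀ (ι : Type u) (Θ : Finset ι) (oid pid val rp : ι → ℕ) N U c,
  FaceIn Θ oid pid val rp N U c → ∃ θ φ, FaceOut Θ oid pid val rp N U c θ φ

/-- The global order of the next level. -/
def GlobStmt : Prop := ∀ (ι : Type u) (E : SimpleGraph ℕ) (X : Finset ℕ) (Θ : Finset ι)
  (sm : ι → Prop) (T : ι → ℕ × ℕ) (φ oid θ : ι → ℕ), NCOn E X → (∀ t ∈ Θ, φ t ∈ X) →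
  (∀ t ∈ Θ, ¬ sm t → IsTop E X (T t) ∧ φ t ∈ Face E X (T t)) →
  (∀ t ∈ Θ, ∀ u ∈ Θ, oid t = oid u → sm t → sm u ∧ φ t = φ u ∧ (θ t = θ u → t = u)) →
  (∀ t ∈ Θ, ∀ u ∈ Θ, ¬ sm t → ¬ sm u → T t = T u → (θ t = θ u → t = u) ∧ (θ t ≤ θ u → φ t ≤ φ u)) →
  ∃ r : ι → ℕ, Set.InjOn r Θ ∧ (∀ t, 0 < r t) ∧ (∀ t ∈ Θ, ∀ u ∈ Θ, r t ≤ r u → φ t ≤ φ u) ∧
    (∀ t ∈ Θ, ∀ u ∈ Θ, ((sm t ∧ oid t = oid u) ∨ (¬ sm t ∧ ¬ sm u ∧ T t = T u)) →
      (r t < r u ↔ θ t < θ u)) ∧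
    (∀ t ∈ Θ, ∀ t' ∈ Θ, ∀ u ∈ Θ, sm t → oid t = oid t' → oid u ≠ oid t →
      ¬ Btw (r t) (r t') (r u)) ∧
    ∀ t ∈ Θ, ∀ t' ∈ Θ, ∀ u ∈ Θ, ∀ u' ∈ Θ, ¬ sm t → ¬ sm t' → ¬ sm u → ¬ sm u' → T t = T t' →
      T u = T u' → T t ≠ T u → ¬ Sep (r t) (r t') (r u) (r u')

end Pool.Agent.Lib.MP_f9389f_co.SC
end

-- part Pool.Agent.Lib.MP_f9389f_co.SC.Band
section

/-! The combinatorial band: members, child cores, the emulators `H` and `E`. -/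

namespace Pool.Agent.Lib.MP_f9389f_co.SC

universe u

open SimpleGraph

/-- The combinatorial data of a band: positions `X`, members `Mem`, low members `V0`, arches `Ar`,
the relation `Sc` (base points of the same child core) and the feet `p`. -/
structure Band (ι : Type u) where
  X : Finset ℕ
  Mem : ℕ → ℕ → Prop
  V0 : ℕ → ℕ → Prop
  Ar : ℕ → ℕ → Prop
  Sc : ι → ι → Prop
  p : ι → ℕ

namespace Band

variable {ι : Type u} (b : Band ι)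

/-- A member or a repetition. -/
def Mq (x y : ℕ) : Prop := b.Mem x y ∨ x = y

/-- A child core that crosses the chord `(a, e)` has a foot two members away from an end. -/
def Free (a e : ℕ) : Prop := ∀ t r, b.Sc t r → Sep a e (b.p t) (b.p r) →
  Cr (fun x s => ∃ y, b.Mq s y ∧ b.Mq y x) a e (b.p t) (b.p r)

structure OK : Prop where
  pos : 0 ∉ b.X
  memS : ∀ a c, b.Mem a c → b.Mem c a
  memX : ∀ a c, b.Mem a c → a ∈ b.X
  v0S : ∀ a c, b.V0 a c → b.V0 c a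
  v0M : ∀ a c, b.V0 a c → b.Mem a c
  arS : ∀ a c, b.Ar a c → b.Ar c a
  scS : ∀ t r, b.Sc t r → b.Sc r t
  scT : ∀ t r s, b.Sc t r → b.Sc r s → b.Sc t s
  pX : ∀ t r, b.Sc t r → b.p t ∈ b.X
  free : ∀ a c, b.V0 a c → b.Free a c
  tie : ∀ a c x y, b.V0 a c → b.Mem x y → Sep a c x y → Cr b.Free a c x y
  link : ∀ a c x y, b.Mem a c → b.Mem x y → Sep a c x y →
    (b.V0 a c ∧ b.V0 x y) ∨ Cr (fun s s' => b.V0 s s' ∨ b.Ar s s') a c x y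
  arch : ∀ a c, b.Mem a c → b.V0 a c ∨ b.Ar a c
  conn : ∀ t r, b.Sc t r →
    Relation.ReflTransGen (fun x y => b.Sc t x ∧ b.Sc t y ∧ b.Mq (b.p x) (b.p y)) t r

/-- The core of `t` has two far feet. -/
def Large (H : SimpleGraph ℕ) (t : ι) : Prop :=
  ∃ r r', b.Sc t r ∧ b.Sc t r' ∧ ¬ Near H 3700000 (b.p r) (b.p r')

/-- The chord `(a, c)` does not separate far feet of a large core. -/
def Fr (H : SimpleGraph ℕ) (n a c : ℕ) : Prop := ∀ t r, b.Large H t → b.Sc t r →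
  Sep a c (b.p t) (b.p r) → Cr (Near H n) a c (b.p t) (b.p r)

/-- The edges of `H` that are kept. -/
def K0 (H : SimpleGraph ℕ) : SimpleGraph ℕ := fromRel fun a c => H.Adj a c ∧ b.Fr H 100 a c

/-- The edges of `H` that are lifted. -/
def Lift (H : SimpleGraph ℕ) (x z : ℕ) : Prop := H.Adj x z ∧ ¬ b.Fr H 100 x z

/-- `a'` is the entry point of `a` in the face `T` of the kept edges. -/
def Att (H : SimpleGraph ℕ) (T : ℕ × ℕ) (a a' : ℕ) : Prop :=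
  a' ∈ Face (b.K0 H) b.X T ∧ Near H 5 a a' ∧
    (a' = a ∨ ∃ e, (b.K0 H).Adj a' e ∧ Bey (Face (b.K0 H) b.X T) a' e a)

/-- Projected low members. -/
def G0 (H : SimpleGraph ℕ) (c' d' : ℕ) : Prop :=
  ∃ T a c, IsTop (b.K0 H) b.X T ∧ b.V0 a c ∧ b.Att H T a c' ∧ b.Att H T c d' ∧ Near H 5 c' d'

/-- Pairs of ends of projected low members that cross the same lifted edge. -/
def G1 (H : SimpleGraph ℕ) (y y' : ℕ) : Prop :=
  ∃ x z d d', b.Lift H x z ∧ b.G0 H y d ∧ b.G0 H y' d' ∧ Sep x z y d ∧ Sep x z y' d' ∧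
    b.Fr H 300 y y'

/-- The two emulators. The final graph of the level is `b.K0 H ⊔ Hv`. -/
structure Set2 (H Hv : SimpleGraph ℕ) : Prop where
  ok : b.OK
  e1 : EmuOut b.Mem b.X H
  e2 : EmuOut (fun y y' => b.G0 H y y' ∨ b.G1 H y y') b.X Hv

/-- What the rest of the proof uses. -/
structure HOut (H E : SimpleGraph ℕ) : Prop where
  ok : b.OK
  e1 : EmuOut b.Mem b.X H
  nc : NCOn E b.X
  cv : ∀ a c, E.Adj a c → Near H 624 a c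
  v0 : ∀ a c, b.V0 a c → Near E 30 a c
  fr : ∀ a c, E.Adj a c → b.Fr H 1000 a c
  route : ∀ Γ : SimpleGraph ℕ, E ≤ Γ →
    (∀ T a c, IsTop E b.X T → a ∈ b.X → c ∈ b.X → b.Ar a c → Near H 10 a c →
      Near Γ 1 (proj E b.X T a) (proj E b.X T c)) →
    ∀ x z, H.Adj x z → Near Γ 61000 x z

end Band

/-- First facts on the second family of chords. -/
structure GFacts {ι : Type u} (b : Band ι) (H : SimpleGraph ℕ) : Prop where
  nc0 : NCOn (b.K0 H) b.X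
  g0S : ∀ y y', b.G0 H y y' → b.G0 H y' y
  g1S : ∀ y y', b.G1 H y y' → b.G1 H y' y
  gX : ∀ y y', b.G0 H y y' ∨ b.G1 H y y' → y ∈ b.X
  gW : ∀ y y', b.G0 H y y' ∨ b.G1 H y y' → Wall (b.K0 H) y y'
  gN : ∀ y y', b.G0 H y y' ∨ b.G1 H y y' → Near H 12 y y'
  gF : ∀ y y', b.G0 H y y' ∨ b.G1 H y y' → b.Fr H 300 y y'
  rk : ∀ y y' x z, b.G1 H y y' → b.Lift H x z → Sep x z y y' →
    (∃ d, b.G0 H y d ∧ Sep x z y d) ∨ ∃ d, b.G0 H y' d ∧ Sep x z y' d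

def GFactsStmt : Prop := ∀ (ι : Type u) (b : Band ι) (H : SimpleGraph ℕ), b.OK →
  EmuOut b.Mem b.X H → GFacts b H

/-- The crossers of a lifted edge fall into at most 26 classes. -/
def TieStmt : Prop := ∀ (ι : Type u) (b : Band ι) (H : SimpleGraph ℕ), b.OK →
  EmuOut b.Mem b.X H → GFacts b H → ∀ x z, b.Lift H x z →
  ∃ (S : Finset ℕ) (lab : ℕ → ℕ → ℕ), S.card ≤ 26 ∧
    (∀ y d, b.G0 H y d → Sep x z y d → lab y d ∈ S) ∧
    ∀ y d y' d', b.G0 H y d → Sep x z y d → b.G0 H y' d' → Sep x z y' d' → lab y d = lab y' d' →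
      b.G1 H y y'

def V0Stmt : Prop := ∀ (ι : Type u) (b : Band ι) (H Hv : SimpleGraph ℕ), b.Set2 H Hv →
  GFacts b H → ∀ a c, b.V0 a c → Near (b.K0 H ⊔ Hv) 30 a c

/-- Inside a face the ends of an edge of `H` are joined by a short route. -/
def InFaceStmt : Prop := ∀ (ι : Type u) (b : Band ι) (H E Γ : SimpleGraph ℕ), b.OK →
  EmuOut b.Mem b.X H → NCOn E b.X → (∀ a c, b.V0 a c → Near E 30 a c) → E ≤ Γ →
  (∀ T a c, IsTop E b.X T → a ∈ b.X → c ∈ b.X → b.Ar a c → Near H 10 a c →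
    Near Γ 1 (proj E b.X T a) (proj E b.X T c)) →
  ∀ x z T, H.Adj x z → IsTop E b.X T → Near Γ 1612 (proj E b.X T x) (proj E b.X T z)

/-- The edges crossing a chord, in order, with the faces between them. -/
def SeqStmt : Prop := ∀ (E : SimpleGraph ℕ) (X : Finset ℕ) (x z : ℕ), NCOn E X → x ∈ X → z ∈ X →
  ∃ (n : ℕ) (e : ℕ → ℕ), e 0 = x ∧ e n = z ∧
    (∀ i, 0 < i → i < n → ∃ d, E.Adj (e i) d ∧ Sep x z (e i) d) ∧
    ∀ i < n, ∃ T, IsTop E X T ∧ Near E 2 (e i) (proj E X T x) ∧ Near E 2 (e (i + 1)) (proj E X T z)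

def HStmt : Prop := ∀ (ι : Type u) (b : Band ι), b.OK → ∃ H E, b.HOut H E

/-- References and faces of large cores. -/
structure CoreFace {ι : Type u} (b : Band ι) (H E : SimpleGraph ℕ) : Prop where
  refs : ∀ t, b.Large H t → ∃ a : Fin 4 → ι, (∀ i, b.Sc t (a i)) ∧
    ∀ i k, i ≠ k → ¬ Near H 1210000 (b.p (a i)) (b.p (a k))
  face : ∀ t, b.Large H t → ∃ T, IsTop E b.X T ∧ ∀ r a, b.Sc t r → a ∈ b.X →
    Near H 55 (b.p r) a → Near H 1700 (b.p r) (proj E b.X T a)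

def CoreFaceStmt : Prop := ∀ (ι : Type u) (b : Band ι) (H E : SimpleGraph ℕ), b.HOut H E →
  CoreFace b H E

end Pool.Agent.Lib.MP_f9389f_co.SC
end

-- part Pool.Agent.Lib.MP_f9389f_co.SC.Geo
section

/-! Geometric definitions and statements for the short cycle case: rims of upper components. -/

namespace Pool.Agent.Lib.MP_f9389f_co.SC

universe u

open SimpleGraph

variable {V : Type u}

/-- Mod 2 cocycles on triangles are coboundaries. -/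
def TC (G : SimpleGraph V) : Prop := ∀ ω : V → V → ZMod 2, (∀ a b, ω a b = ω b a) →
  (∀ a b d, G.Adj a b → G.Adj b d → G.Adj a d → ω a b + ω b d + ω a d = 0) →
  ∃ g : V → ZMod 2, ∀ a b, G.Adj a b → ω a b = g a + g b

/-- Inner boundaries of bonds are connected. -/
def Uni (G : SimpleGraph V) : Prop := ∀ A : Set V, Conn G 1 A → Conn G 1 Aᶜ →
  Conn G 1 {a | a ∈ A ∧ ∃ b, b ∉ A ∧ G.Adj a b}

/-- The power graph is connected, locally finite, and its triangles generate its cycles. -/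
def PowStmt : Prop := ∀ (V : Type u) (G : SimpleGraph V) (s : ℕ), G.Connected →
  (∀ v, (G.neighborSet v).Finite) → ShortCycles G s →
  ∃ G' : SimpleGraph V, G'.Connected ∧ (∀ v, (G'.neighborSet v).Finite) ∧ TC G' ∧
    (∀ x y, G'.dist x y ≤ G.dist x y) ∧ ∀ x y, G.dist x y ≤ (s + 1) * G'.dist x y

/-- The bases of the components outside the balls about `o` are connected. -/
def BaseC (G : SimpleGraph V) (o : V) : Prop := ∀ n x, n ≤ G.dist o x →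
  Conn G 1 {v | G.dist o v = n ∧ Ch G 1 {w | n ≤ G.dist o w} x v}

/-- In a power of the graph the bases are connected. -/
def AnnStmt : Prop := ∀ (V : Type u) (G : SimpleGraph V) (o : V) (s : ℕ), G.Connected →
  (∀ v, (G.neighborSet v).Finite) → AnnConn G o s →
  ∃ G' : SimpleGraph V, G'.Connected ∧ (∀ v, (G'.neighborSet v).Finite) ∧ BaseC G' o ∧
    (∀ x y, G'.dist x y ≤ G.dist x y) ∧ ∀ x y, G.dist x y ≤ (2 * s + 1) * G'.dist x y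

def UniStmt : Prop := ∀ (V : Type u) (G : SimpleGraph V), G.Connected → TC G → Uni G

/-- A rooted graph with vertical geodesics `σ x`. -/
structure Cx (V : Type u) where
  G : SimpleGraph V
  K : ℕ
  o : V
  σ : V → ℕ → V

namespace Cx

variable (c : Cx V)

/-- Distance. -/
noncomputable def d (u v : V) : ℕ := c.G.dist u v

/-- Level. -/
noncomputable def lv (v : V) : ℕ := c.G.dist c.o v

/-- The vertices of level at least `n`. -/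
def Up (n : ℕ) : Set V := {v | n ≤ c.lv v}

/-- The interval between two vertices. -/
def I (a b : V) : Set V := {v | c.G.dist a v + c.G.dist v b = c.G.dist a b}

/-- `x` and `y` lie in the same component of the part above level `n`. -/
def Sc (n : ℕ) (x y : V) : Prop := n ≤ c.lv x ∧ Ch c.G 1 (c.Up n) x y

/-- `x` and `y` are base points of the same component of the part above level `n`. -/
def Bc (n : ℕ) (x y : V) : Prop := c.lv x = n ∧ c.lv y = n ∧ Ch c.G 1 (c.Up n) x y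

/-- The distance of the verticals at level `n`. -/
noncomputable def D (n : ℕ) (x y : V) : ℕ := c.d (c.σ x n) (c.σ y n)

structure Env : Prop where
  conn : c.G.Connected
  one : 1 ≤ c.K
  nof : ¬ HasFatMinor c.G K33 c.K
  base : BaseC c.G c.o
  fin : ∀ n, {v | c.lv v ≤ n}.Finite
  lev : ∀ x t, t ≤ c.lv x → c.lv (c.σ x t) = t
  stop : ∀ x t, c.lv x ≤ t → c.σ x t = x
  step : ∀ x t, c.d (c.σ x t) (c.σ x (t + 1)) ≤ 1
  coh : ∀ x s t, s ≤ t → c.σ (c.σ x t) s = c.σ x s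

/-- The whole vertical of `x`. -/
def Vt (x : V) : Set V := Seg c.σ x 0 (c.lv x)

/-- No claw with three verticals. `lam` is the level of the centre, `L` the level of the core. -/
def Claw : Prop := ∀ (lam L n₀ n : ℕ) (x : Fin 3 → V) (A : Fin 3 → Set V) (z : V),
  n₀ + c.K ≤ n → n + 3 * c.K ≤ lam → lam + n + 3 * c.K ≤ L → (∀ i k, c.Bc L (x i) (x k)) →
  2 * n₀ + 7 * c.K ≤ c.D lam (x 1) (x 2) → 2 * n + 6 * c.K ≤ c.D lam (x 0) (x 1) →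
  2 * n + 6 * c.K ≤ c.D lam (x 0) (x 2) → (∀ i, Conn c.G 1 (A i)) → (∀ i, z ∈ A i) →
  (∀ i, c.σ (x i) lam ∈ A i) → (∀ i k, i ≠ k → Apart c.G c.K (A i) (c.Vt (x k))) →
  (∀ i, ∀ v ∈ A i, (lam ≤ c.lv v + n₀ ∧ c.lv v ≤ lam + n₀) ∨ c.d (c.σ (x 0) lam) v ≤ n) → False

/-- Tokens of the core of `x₀` with their order and rims. -/
structure Rim (lam L : ℕ) (x₀ : V) (Tk : Finset V) (τ : V → ℕ) : Prop where
  base : ∀ A ∈ Tk, c.Bc L x₀ A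
  sep : ∀ A ∈ Tk, ∀ B ∈ Tk, A ≠ B → 15 * c.K ≤ c.D lam A B
  net : ∀ x, c.Bc L x₀ x → ∃ A ∈ Tk, c.D lam x A < 15 * c.K
  inj : Set.InjOn τ Tk
  rim : ∀ A ∈ Tk, ∀ B ∈ Tk, τ A < τ B → ∃ M : Set V, Conn c.G 1 M ∧
    (∀ v ∈ M, lam ≤ c.lv v + 2 * c.K ∧ c.lv v ≤ lam + 2 * c.K) ∧
    (∀ E ∈ Tk, (τ E ≤ τ A ∨ τ B ≤ τ E) → Apart c.G c.K M (c.Vt E)) ∧
    (∃ m ∈ M, c.d (c.σ A lam) m ≤ 4 * c.K) ∧ ∃ m ∈ M, c.d (c.σ B lam) m ≤ 4 * c.K

/-- `M` is a rim between `A` and `B` that avoids the verticals of `A`, `B` and `E`. -/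
def RimSet (lam : ℕ) (M : Set V) (A B E : V) : Prop := Conn c.G 1 M ∧
  (∀ v ∈ M, lam ≤ c.lv v + 2 * c.K ∧ c.lv v ≤ lam + 2 * c.K) ∧ Apart c.G c.K M (c.Vt A) ∧
  Apart c.G c.K M (c.Vt B) ∧ Apart c.G c.K M (c.Vt E) ∧
  (∃ m ∈ M, c.d (c.σ A lam) m ≤ 4 * c.K) ∧ ∃ m ∈ M, c.d (c.σ B lam) m ≤ 4 * c.K

/-- Consequences of the claw lemma. -/
structure Side (lam L : ℕ) : Prop where
  /-- two rims at `C` and a short connection from `C` to `A` -/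
  side : ∀ n A B C E M M', 5 * c.K ≤ n → n ≤ 500 * c.K → c.Bc L A B → c.Bc L A C → c.Bc L A E →
    c.RimSet lam M C B E → c.RimSet lam M' C E B → Apart c.G c.K M (c.Vt A) →
    Apart c.G c.K M' (c.Vt A) → 15 * c.K ≤ c.D lam B C → 15 * c.K ≤ c.D lam C E →
    15 * c.K ≤ c.D lam B E → 15 * c.K ≤ c.D lam A C → c.D lam A C ≤ n → 2 * n + 6 * c.K ≤ c.D lam A B →
    2 * n + 6 * c.K ≤ c.D lam A E → False
  /-- a rim stays far from a third far vertical -/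
  far : ∀ n A B E M, 5 * c.K ≤ n → n ≤ 500 * c.K → c.Bc L A B → c.Bc L A E →
    c.RimSet lam M A B E → 15 * c.K ≤ c.D lam A B → 2 * n + 6 * c.K ≤ c.D lam A E →
    2 * n + 6 * c.K ≤ c.D lam B E → ∀ p ∈ M, n < c.d (c.σ E lam) p
  /-- two rims are not near each other -/
  two : ∀ A B E M M', c.Bc L A B → c.Bc L A E → c.RimSet lam M A B E → Conn c.G 1 M' →
    (∀ v ∈ M', lam ≤ c.lv v + 2 * c.K ∧ c.lv v ≤ lam + 2 * c.K) → Apart c.G c.K M' (c.Vt A) →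
    Apart c.G c.K M' (c.Vt B) → (∃ m ∈ M', c.d (c.σ E lam) m ≤ 4 * c.K) →
    32 * c.K ≤ c.D lam A B → 32 * c.K ≤ c.D lam A E → 32 * c.K ≤ c.D lam B E →
    ∀ p ∈ M, ∀ p' ∈ M', 24 * c.K ≤ c.d (c.σ A lam) p' → 24 * c.K ≤ c.d (c.σ B lam) p' →
      10 * c.K ≤ c.d p p'

/-- The cross lemma for tokens that are pairwise far. -/
def XL (lam L : ℕ) : Prop := ∀ (x₀ : V) (Tk : Finset V) (τ : V → ℕ), c.Rim lam L x₀ Tk τ →
  ∀ A ∈ Tk, ∀ B ∈ Tk, ∀ C ∈ Tk, ∀ E ∈ Tk, τ A < τ B → τ B < τ C → τ C < τ E →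
  152 * c.K ≤ c.D lam A B → 152 * c.K ≤ c.D lam A C → 152 * c.K ≤ c.D lam A E →
  152 * c.K ≤ c.D lam B C → 152 * c.K ≤ c.D lam B E → 152 * c.K ≤ c.D lam C E →
  ∀ a b e f, c.lv a = L → c.lv b = L → c.lv e = L → c.lv f = L → c.D lam a A < 15 * c.K →
  c.D lam b B < 15 * c.K → c.D lam e C < 15 * c.K → c.D lam f E < 15 * c.K →
  ∀ P Q : Set V, Conn c.G 1 P → Conn c.G 1 Q → P ⊆ c.Up (lam + 25 * c.K) →
  Q ⊆ c.Up (lam + 25 * c.K) → c.σ a (lam + 25 * c.K) ∈ P → c.σ e (lam + 25 * c.K) ∈ P →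
  c.σ b (lam + 25 * c.K) ∈ Q → c.σ f (lam + 25 * c.K) ∈ Q → ¬ Apart c.G (6 * c.K) P Q

/-- The order `ρ` and the fuzz `F` on the base points of the cores at level `lam + 4000 K`. -/
structure Prov (lam : ℕ) (ρ : V → ℕ) (F : V → V → Prop) : Prop where
  inj : ∀ a b, c.Bc (lam + 4000 * c.K) a b → ρ a = ρ b → a = b
  sub : ∀ a b, F a b → c.Bc (lam + 4000 * c.K) a b
  symm : ∀ a b, F a b → F b a
  close : ∀ a b, c.Bc (lam + 4000 * c.K) a b → c.D lam a b ≤ 400 * c.K → F a b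
  bound : ∀ a b, F a b → c.D lam a b ≤ 3042 * c.K
  clo : ∀ a e b f, F a e → c.Bc (lam + 4000 * c.K) a b → c.Bc (lam + 4000 * c.K) a f →
    Sep (ρ a) (ρ e) (ρ b) (ρ f) → Cr F a e b f
  xl : ∀ a e b f, c.Bc (lam + 4000 * c.K) a e → c.Bc (lam + 4000 * c.K) a b →
    c.Bc (lam + 4000 * c.K) a f → Sep (ρ a) (ρ e) (ρ b) (ρ f) → ¬ Cr F a e b f →
    ∀ P Q : Set V, Conn c.G 1 P → Conn c.G 1 Q → P ⊆ c.Up (lam + 25 * c.K) →
    Q ⊆ c.Up (lam + 25 * c.K) → c.σ a (lam + 25 * c.K) ∈ P → c.σ e (lam + 25 * c.K) ∈ P →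
    c.σ b (lam + 25 * c.K) ∈ Q → c.σ f (lam + 25 * c.K) ∈ Q → ¬ Apart c.G (6 * c.K) P Q
  rim : ∀ a b, c.Bc (lam + 4000 * c.K) a b → 200 * c.K ≤ c.D lam a b → ∃ R : Set V,
    Conn c.G 1 R ∧ c.σ a lam ∈ R ∧ c.σ b lam ∈ R ∧
    (∀ v ∈ R, lam ≤ c.lv v + 15 * c.K ∧ c.lv v ≤ lam + 15 * c.K) ∧
    ∀ e, c.Bc (lam + 4000 * c.K) a e → Out (ρ a) (ρ b) (ρ e) → 200 * c.K ≤ c.D lam a e →
      200 * c.K ≤ c.D lam b e → Apart c.G (6 * c.K) R (c.Vt e)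

end Cx

def EnvStmt : Prop := ∀ (V : Type u) (G : SimpleGraph V) (K : ℕ) (o : V), G.Connected →
  (∀ v, (G.neighborSet v).Finite) → BaseC G o → 1 ≤ K → ¬ HasFatMinor G K33 K →
  ∃ σ : V → ℕ → V, (Cx.mk G K o σ).Env

def ClawStmt : Prop := ∀ (V : Type u) (c : Cx V), c.Env → c.Claw

def RimStmt : Prop := ∀ (V : Type u) (c : Cx V), c.Env → c.Claw → ∀ lam x₀, 6000 * c.K ≤ lam →
  c.lv x₀ = lam + 4000 * c.K → ∃ Tk τ, c.Rim lam (lam + 4000 * c.K) x₀ Tk τ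

def SideStmt : Prop := ∀ (V : Type u) (c : Cx V), c.Env → c.Claw → ∀ lam, 6000 * c.K ≤ lam →
  c.Side lam (lam + 4000 * c.K)

def XLStmt : Prop := ∀ (V : Type u) (c : Cx V), c.Env → ∀ lam, 6000 * c.K ≤ lam →
  c.Side lam (lam + 4000 * c.K) → c.XL lam (lam + 4000 * c.K)

def ProvStmt : Prop := ∀ (V : Type u) (c : Cx V), c.Env → ∀ lam, 6000 * c.K ≤ lam →
  ∃ ρ F, c.Prov lam ρ F

end Pool.Agent.Lib.MP_f9389f_co.SC
end

-- part Pool.Agent.Lib.MP_f9389f_co.SC.Lev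
section

/-! Levels, tokens and links for the short cycle case. -/

namespace Pool.Agent.Lib.MP_f9389f_co.SC

universe u

open SimpleGraph

variable {V : Type u}

/-- The data of a level: positions, positions of base points, locations, anchors, fuzz, groups,
floors. -/
structure LD (V : Type u) where
  X : Finset ℕ
  rt : V → ℕ
  loc : ℕ → V
  An : ℕ → Set V
  Fz : ℕ → ℕ → Prop
  Sg : ℕ → ℕ → Prop
  fl : ℕ → ℕ

namespace Cx

variable (c : Cx V)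

/-- Two sets come closer than `6 K`. -/
def Cl (P Q : Set V) : Prop := ¬ Apart c.G (6 * c.K) P Q

/-- The anchor of `a` with the part of the band above it. -/
def Lg (L : ℕ) (D : LD V) (a : ℕ) : Set V :=
  D.An a ∪ {v | L ≤ c.lv v ∧ c.lv v ≤ L + 10000 * c.K ∧ D.rt (c.σ v L) = a}

/-- A jump of height at most `h`. -/
def J (L : ℕ) (D : LD V) (h a e : ℕ) : Prop := a ∈ D.X ∧ e ∈ D.X ∧ D.Sg a e ∧
  ∃ u ∈ c.Lg L D a, ∃ w ∈ c.Lg L D e, c.d u w < 20 * c.K ∧ c.lv u ≤ h ∧ c.lv w ≤ h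

def Mem (L : ℕ) (D : LD V) (a e : ℕ) : Prop := D.Fz a e ∨ c.J L D (L + 10000 * c.K) a e

def V0 (L : ℕ) (D : LD V) (a e : ℕ) : Prop := D.Fz a e ∨ c.J L D (L + 300 * c.K) a e

/-- An arch with ends `u`, `w`. -/
def Arch (L : ℕ) (u w : V) : Prop := L + 220 * c.K ≤ c.lv u ∧ c.lv u ≤ L + 10000 * c.K ∧
  L + 220 * c.K ≤ c.lv w ∧ c.lv w ≤ L + 10000 * c.K ∧ c.d u w < 40 * c.K

def Ar (L : ℕ) (D : LD V) (a e : ℕ) : Prop :=
  ∃ u w, c.Arch L u w ∧ D.rt (c.σ u L) = a ∧ D.rt (c.σ w L) = e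

/-- The band above level `L`. -/
def band (L : ℕ) (D : LD V) : Band V where
  X := D.X
  Mem := c.Mem L D
  V0 := c.V0 L D
  Ar := c.Ar L D
  Sc := c.Bc (L + 10000 * c.K)
  p := fun t => D.rt (c.σ t L)

/-- The invariants of a level `L = lam + 4000 K`. -/
structure Lev (lam : ℕ) (ρ : V → ℕ) (F : V → V → Prop) (D : LD V) : Prop where
  pos : 0 ∉ D.X
  rtX : ∀ v, c.lv v = lam + 4000 * c.K → D.rt v ∈ D.X ∧ D.loc (D.rt v) = v
  conn : ∀ a ∈ D.X, Conn c.G 1 (D.An a)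
  locA : ∀ a ∈ D.X, D.loc a ∈ D.An a
  rad : ∀ a ∈ D.X, ∀ z ∈ D.An a, c.d (D.loc a) z ≤ 40000 * c.K
  hi : ∀ a ∈ D.X, ∀ z ∈ D.An a, c.lv z ≤ lam + 4040 * c.K
  lo : ∀ a ∈ D.X, D.An a ⊆ c.Up (D.fl a)
  seg : ∀ v, c.lv v = lam + 4000 * c.K →
    Seg c.σ v (lam + 25 * c.K) (lam + 4000 * c.K) ⊆ D.An (D.rt v)
  flo : ∀ a ∈ D.X, D.fl a ≤ lam + 25 * c.K
  sgR : ∀ a ∈ D.X, D.Sg a a
  sgS : ∀ a e, D.Sg a e → D.Sg e a
  sgT : ∀ a e f, D.Sg a e → D.Sg e f → D.Sg a f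
  sgX : ∀ a e, D.Sg a e → a ∈ D.X
  sgF : ∀ a e, D.Sg a e → D.fl a = D.fl e
  sgC : ∀ v w, c.Bc (lam + 4000 * c.K) v w → D.Sg (D.rt v) (D.rt w)
  sgN : ∀ a e b f, D.Sg a e → D.Sg b f → Sep a e b f → D.Sg a b
  fzS : ∀ a e, D.Fz a e → D.Fz e a
  fzG : ∀ a e, D.Fz a e → D.Sg a e ∧ c.d (D.loc a) (D.loc e) ≤ 140000 * c.K
  cl : ∀ a e b f, D.Sg a e → D.Sg a b → D.Sg a f → Sep a e b f → ∀ P Q : Set V, Conn c.G 1 P →
    Conn c.G 1 Q → P ⊆ c.Up (D.fl a) → Q ⊆ c.Up (D.fl a) → D.An a ⊆ P → D.An e ⊆ P →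
    D.An b ⊆ Q → D.An f ⊆ Q → Cr D.Fz a e b f ∨ c.Cl P Q
  fzc : ∀ a e b f, D.Fz a e → D.Sg a b → D.Sg a f → Sep a e b f →
    Cr (fun x y => D.Fz x y ∨ c.Cl (D.An x) (D.An y)) a e b f
  dip : ∀ a e, D.Sg a e → ∀ u ∈ D.An a, ∀ w ∈ D.An e, c.d u w < 40 * c.K →
    c.lv u < D.fl a + 40 * c.K → D.Fz a e
  ord : ∀ v w x y, c.Bc (lam + 4000 * c.K) v w → c.Bc (lam + 4000 * c.K) v x →
    c.Bc (lam + 4000 * c.K) v y →
    (Sep (D.rt v) (D.rt w) (D.rt x) (D.rt y) ↔ Sep (ρ v) (ρ w) (ρ x) (ρ y))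
  fF : ∀ v w, F v w → D.Fz (D.rt v) (D.rt w) ∨ (D.An (D.rt v) ∩ D.An (D.rt w)).Nonempty

/-- The setting of a step from level `lam + 4000 K` to level `lam + 14000 K`. -/
structure St (lam : ℕ) (ρ : V → ℕ) (F : V → V → Prop) (ρ' : V → ℕ) (F' : V → V → Prop)
    (D : LD V) : Prop where
  env : c.Env
  big : 6000 * c.K ≤ lam
  pv : c.Prov lam ρ F
  pv' : c.Prov (lam + 10000 * c.K) ρ' F'
  lev : c.Lev lam ρ F D

/-- Further facts on the band. -/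
structure BandG (L : ℕ) (D : LD V) (H : SimpleGraph ℕ) : Prop where
  sg : ∀ a e, H.Adj a e → D.Sg a e
  len : ∀ a e, H.Adj a e → c.d (D.loc a) (D.loc e) ≤ 3640000 * c.K
  jump : ∀ n u w, c.d u w ≤ n * (19 * c.K) →
    (∀ v ∈ c.I u w, L ≤ c.lv v ∧ c.lv v ≤ L + 10000 * c.K) →
    Near H (5 * n) (D.rt (c.σ u L)) (D.rt (c.σ w L))

/-- The virtual leg `W` of a token with top `x`, order foot `pp` and anchor foot `q`. -/
structure Tok (lam : ℕ) (F : V → V → Prop) (D : LD V) (x pp q : V) (W : Set V) : Prop where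
  fq : F q pp
  xq : c.Sc (lam + 4000 * c.K) x q
  xlo : lam + 4220 * c.K ≤ c.lv x
  xhi : c.lv x ≤ lam + 14000 * c.K
  conn : Conn c.G 1 W
  xW : x ∈ W
  qW : q ∈ W
  rad : ∀ z ∈ W, c.d x z ≤ 30000 * c.K
  lo : W ⊆ c.Up (lam + 105 * c.K)
  hi : ∀ z ∈ W, c.lv z ≤ lam + 14040 * c.K
  low : ∀ z ∈ W, c.lv z ≤ lam + 4112 * c.K → ∃ e, ∃ z₀ ∈ c.Lg (lam + 4000 * c.K) D e,
    (e = D.rt q ∨ c.V0 (lam + 4000 * c.K) D e (D.rt q)) ∧ c.d z z₀ ≤ 3 * c.K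
  up : ∀ h, h ≤ 100 * c.K → ∀ z ∈ W, lam + 4000 * c.K + h + 6 * c.K ≤ c.lv z →
    Ch c.G 1 (c.Up (lam + 4000 * c.K + h)) z x

/-- The anchor of a token for the next level. -/
def An' (lam : ℕ) (q : V) (W : Set V) : Set V :=
  W ∪ Seg c.σ q (lam + 25 * c.K) (lam + 4000 * c.K)

/-- Four base points of a child core whose feet cross while they do not. -/
def Quad (lam : ℕ) (ρ' : V → ℕ) (F : V → V → Prop) (D : LD V) : Prop := ∀ t a u b,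
  c.Bc (lam + 14000 * c.K) t a → c.Bc (lam + 14000 * c.K) t u → c.Bc (lam + 14000 * c.K) t b →
  200 * c.K ≤ c.D (lam + 10000 * c.K) t a → 200 * c.K ≤ c.D (lam + 10000 * c.K) u b →
  ¬ Cr (fun x y => c.D (lam + 10000 * c.K) x y < 200 * c.K) t a u b →
  ¬ Sep (ρ' t) (ρ' a) (ρ' u) (ρ' b) →
  Sep (D.rt (c.σ t (lam + 4000 * c.K))) (D.rt (c.σ a (lam + 4000 * c.K)))
    (D.rt (c.σ u (lam + 4000 * c.K))) (D.rt (c.σ b (lam + 4000 * c.K))) →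
  Cr (fun x y => F (c.σ x (lam + 4000 * c.K)) (c.σ y (lam + 4000 * c.K)) ∨
    c.Cl (Seg c.σ x (lam + 25 * c.K) (lam + 14000 * c.K))
      (Seg c.σ y (lam + 25 * c.K) (lam + 14000 * c.K))) t a u b

/-- The three ways in which the verticals of `t` and `u` can be related. -/
def Inv (lam : ℕ) (F : V → V → Prop) (t u : V) : Prop :=
  c.D (lam + 10000 * c.K) t u < 200 * c.K ∨
    F (c.σ t (lam + 4000 * c.K)) (c.σ u (lam + 4000 * c.K)) ∨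
    c.Cl (Seg c.σ t (lam + 25 * c.K) (lam + 14000 * c.K))
      (Seg c.σ u (lam + 25 * c.K) (lam + 14000 * c.K))

/-- The part of a virtual leg near the next level. -/
def Cap (lam : ℕ) (t : V) : Set V := Seg c.σ t (lam + 10000 * c.K) (lam + 14000 * c.K) ∪
  Nb c.G (3042 * c.K) {c.σ t (lam + 10000 * c.K)}

/-- Virtual legs exist. -/
structure Legs (lam : ℕ) (F : V → V → Prop) (D : LD V) : Prop where
  core : ∀ t u, c.Bc (lam + 14000 * c.K) t u → c.Inv lam F t u →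
    ∃ q W, c.Tok lam F D t (c.σ u (lam + 4000 * c.K)) q W ∧ c.Cap lam t ⊆ W
  tiny : ∀ u w, c.Arch (lam + 4000 * c.K) u w →
    c.Tok lam F D u (c.σ u (lam + 4000 * c.K)) (c.σ u (lam + 4000 * c.K))
      (Seg c.σ u (lam + 4000 * c.K) (c.lv u) ∪ c.I u w)

/-- Three steps of fuzz. -/
def F3 (F : V → V → Prop) (a b : V) : Prop := ∃ x y, F a x ∧ F x y ∧ F y b

/-- The anchors come close at a low level. -/
def LowCl (lam : ℕ) (A B : Set V) : Prop := ∃ z ∈ A, ∃ z' ∈ B, c.d z z' < 6 * c.K ∧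
  (c.lv z ≤ lam + 4100 * c.K ∨ c.lv z' ≤ lam + 4100 * c.K)

/-- Geometric facts on pairs of tokens. -/
structure TokG (lam : ℕ) (ρ : V → ℕ) (F : V → V → Prop) (D : LD V) : Prop where
  /-- low closeness gives a chain of low members -/
  low : ∀ x pp q W x' pp' q' W', c.Tok lam F D x pp q W → c.Tok lam F D x' pp' q' W' →
    D.Sg (D.rt q) (D.rt q') → c.LowCl lam (c.An' lam q W) (c.An' lam q' W') →
    Near (fromRel (c.V0 (lam + 4000 * c.K) D)) 3 (D.rt q) (D.rt q')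
  /-- different parents -/
  ni : ∀ (x pp q : Fin 4 → V) (W : Fin 4 → Set V), (∀ i, c.Tok lam F D (x i) (pp i) (q i) (W i)) →
    Ch c.G 1 (c.Up (lam + 4088 * c.K)) (x 0) (x 1) → Ch c.G 1 (c.Up (lam + 4088 * c.K)) (x 2) (x 3) →
    ¬ c.Bc (lam + 4000 * c.K) (q 0) (q 2) →
    Sep (D.rt (q 0)) (D.rt (q 1)) (D.rt (q 2)) (D.rt (q 3)) →
    Cr (Near (fromRel (c.V0 (lam + 4000 * c.K) D)) 3) (D.rt (q 0)) (D.rt (q 1)) (D.rt (q 2))
      (D.rt (q 3))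
  /-- fuzz closure -/
  f3 : ∀ a e b f, F3 F a e → c.Bc (lam + 4000 * c.K) a b → c.Bc (lam + 4000 * c.K) a f →
    Sep (ρ a) (ρ e) (ρ b) (ρ f) → Cr (F3 F) a e b f
  /-- the cross lemma for tokens with the same parent -/
  xl : ∀ (x pp q : Fin 4 → V) (W : Fin 4 → Set V), (∀ i, c.Tok lam F D (x i) (pp i) (q i) (W i)) →
    (∀ i, c.Bc (lam + 4000 * c.K) (pp 0) (pp i)) →
    Sep (ρ (pp 0)) (ρ (pp 1)) (ρ (pp 2)) (ρ (pp 3)) → ¬ Cr (F3 F) (pp 0) (pp 1) (pp 2) (pp 3) →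
    ∀ P Q : Set V, Conn c.G 1 P → Conn c.G 1 Q → P ⊆ c.Up (lam + 25 * c.K) →
    Q ⊆ c.Up (lam + 25 * c.K) → c.An' lam (q 0) (W 0) ⊆ P → c.An' lam (q 1) (W 1) ⊆ P →
    c.An' lam (q 2) (W 2) ⊆ Q → c.An' lam (q 3) (W 3) ⊆ Q → c.Cl P Q
  /-- crossing objects with the same parent are close at a low level or joined at a high level -/
  join : ∀ (x pp q : Fin 4 → V) (W : Fin 4 → Set V), (∀ i, c.Tok lam F D (x i) (pp i) (q i) (W i)) →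
    (∀ i, c.Bc (lam + 4000 * c.K) (pp 0) (pp i)) →
    Sep (ρ (pp 0)) (ρ (pp 1)) (ρ (pp 2)) (ρ (pp 3)) → ¬ Cr (F3 F) (pp 0) (pp 1) (pp 2) (pp 3) →
    Ch c.G 1 (c.Up (lam + 4180 * c.K)) (x 0) (x 1) → Ch c.G 1 (c.Up (lam + 4180 * c.K)) (x 2) (x 3) →
    Cr (fun i k => c.LowCl lam (c.An' lam (q i) (W i)) (c.An' lam (q k) (W k))) 0 1 2 3 ∨
      Ch c.G 1 (c.Up (lam + 4088 * c.K)) (x 0) (x 2)

end Cx

/-- The tokens of the next level before they are ordered. -/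
structure TD (V : Type u) (ι : Type u) where
  Θ : Finset ι
  em : V → ι
  sm : ι → Prop
  oid : ι → ℕ
  pid : ι → ℕ
  x : ι → V
  pp : ι → V
  q : ι → V
  W : ι → Set V
  T : ι → ℕ × ℕ
  lr : ι → ℕ
  val : ι → ℕ

namespace Cx

variable (c : Cx V) {ι : Type u}

structure TDok (lam : ℕ) (F : V → V → Prop) (ρ' : V → ℕ) (D : LD V) (H E : SimpleGraph ℕ)
    (S : TD V ι) : Prop where
  emΘ : ∀ t, c.lv t = lam + 14000 * c.K → S.em t ∈ S.Θ ∧ S.x (S.em t) = t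
  emO : ∀ t r, c.Bc (lam + 14000 * c.K) t r → S.oid (S.em t) = S.oid (S.em r)
  emR : ∀ t r s v, c.Bc (lam + 14000 * c.K) t r → c.Bc (lam + 14000 * c.K) t s →
    c.Bc (lam + 14000 * c.K) t v →
    (Sep (S.lr (S.em t)) (S.lr (S.em r)) (S.lr (S.em s)) (S.lr (S.em v)) ↔
      Sep (ρ' t) (ρ' r) (ρ' s) (ρ' v))
  emC : ∀ t, c.lv t = lam + 14000 * c.K → ¬ S.sm (S.em t) → c.Cap lam t ⊆ S.W (S.em t)
  smE : ∀ τ ∈ S.Θ, ∀ τ' ∈ S.Θ, S.sm τ → S.oid τ = S.oid τ' → S.sm τ' ∧ S.val τ = S.val τ' ∧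
    τ = S.em (S.x τ) ∧ c.Bc (lam + 14000 * c.K) (S.x τ) (S.x τ')
  lrI : ∀ τ ∈ S.Θ, ∀ τ' ∈ S.Θ, S.oid τ = S.oid τ' → S.lr τ = S.lr τ' → τ = τ'
  valX : ∀ τ ∈ S.Θ, S.val τ ∈ D.X
  foot : ∀ τ ∈ S.Θ, lam + 4000 * c.K ≤ c.lv (S.x τ) ∧ c.lv (S.x τ) ≤ lam + 14000 * c.K ∧
    Near H 3700000 (D.rt (c.σ (S.x τ) (lam + 4000 * c.K))) (S.val τ)
  tok : ∀ τ ∈ S.Θ, ¬ S.sm τ → c.Tok lam F D (S.x τ) (S.pp τ) (S.q τ) (S.W τ) ∧
    IsTop E D.X (S.T τ) ∧ S.val τ = proj E D.X (S.T τ) (D.rt (S.pp τ)) ∧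
    Near H 1700 (D.rt (c.σ (S.x τ) (lam + 4000 * c.K))) (S.val τ)
  obj : ∀ τ ∈ S.Θ, ∀ τ' ∈ S.Θ, ¬ S.sm τ → S.oid τ = S.oid τ' → S.T τ = S.T τ' ∧
    Ch c.G 1 (c.Up (lam + 4180 * c.K)) (S.x τ) (S.x τ') ∧
    (S.lr τ ≤ S.lr τ' → D.rt (S.pp τ) ≤ D.rt (S.pp τ'))
  par : ∀ τ ∈ S.Θ, ∀ τ' ∈ S.Θ, ¬ S.sm τ → ¬ S.sm τ' →
    (S.pid τ = S.pid τ' ↔ c.Bc (lam + 4000 * c.K) (S.pp τ) (S.pp τ'))
  ref : ∀ τ ∈ S.Θ, ¬ S.sm τ → (∃ τ' ∈ S.Θ, S.oid τ' = S.oid τ ∧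
      ¬ Near E 1920 (S.val τ) (S.val τ') ∧ ∀ s ∈ S.Θ, S.oid s = S.oid τ → s = τ ∨ s = τ') ∨
    ∃ a : Fin 4 → ι, (∀ i, a i ∈ S.Θ ∧ S.oid (a i) = S.oid τ) ∧
      ∀ i k, i ≠ k → ¬ Near E 1920 (S.val (a i)) (S.val (a k))
  np : ∀ t ∈ S.Θ, ∀ t' ∈ S.Θ, ∀ u ∈ S.Θ, ∀ u' ∈ S.Θ, ¬ S.sm t → ¬ S.sm u → S.T t = S.T u →
    S.oid t = S.oid t' → S.oid u = S.oid u' → S.pid t ≠ S.pid u →
    (∀ s ∈ S.Θ, S.oid s = S.oid t → s = t ∨ s = t') →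
    (∀ s ∈ S.Θ, S.oid s = S.oid u → s = u ∨ s = u') → t ≠ t' → u ≠ u' →
    Near E 480 (S.val t) (S.val u) → ¬ Near E 480 (S.val t') (S.val u')
  cov : ∀ T a e, IsTop E D.X T → c.Ar (lam + 4000 * c.K) D a e → Near H 10 a e →
    Near E 1920 (proj E D.X T a) (proj E D.X T e) ∨ ∃ τ ∈ S.Θ, ∃ τ' ∈ S.Θ, ¬ S.sm τ ∧
      S.oid τ = S.oid τ' ∧ Near E 480 (proj E D.X T a) (S.val τ) ∧
      Near E 480 (proj E D.X T e) (S.val τ') ∧ (S.W τ ∩ S.W τ').Nonempty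

/-- The choices for the child cores. -/
structure CoreOK (lam : ℕ) (F : V → V → Prop) (ρ' : V → ℕ) (D : LD V) (H E : SimpleGraph ℕ)
    (sm : V → Prop) (pp q : V → V) (W : V → Set V) (T : V → ℕ × ℕ) (lr val : V → ℕ) : Prop where
  sep : ∀ t r s v, c.Bc (lam + 14000 * c.K) t r → c.Bc (lam + 14000 * c.K) t s →
    c.Bc (lam + 14000 * c.K) t v →
    (Sep (lr t) (lr r) (lr s) (lr v) ↔ Sep (ρ' t) (ρ' r) (ρ' s) (ρ' v))
  inj : ∀ t r, c.Bc (lam + 14000 * c.K) t r → lr t = lr r → t = r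
  small : ∀ t r, c.Bc (lam + 14000 * c.K) t r → sm t → sm r ∧ val t = val r
  valX : ∀ t, c.lv t = lam + 14000 * c.K → val t ∈ D.X ∧
    Near H 3700000 (D.rt (c.σ t (lam + 4000 * c.K))) (val t)
  tok : ∀ t, c.lv t = lam + 14000 * c.K → ¬ sm t → c.Cap lam t ⊆ W t ∧
    c.Tok lam F D t (pp t) (q t) (W t) ∧ IsTop E D.X (T t) ∧
    val t = proj E D.X (T t) (D.rt (pp t)) ∧
    Near H 1700 (D.rt (c.σ t (lam + 4000 * c.K))) (val t)
  obj : ∀ t r, c.Bc (lam + 14000 * c.K) t r → ¬ sm t → T t = T r ∧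
    (lr t ≤ lr r → D.rt (pp t) ≤ D.rt (pp r))
  ref : ∀ t, c.lv t = lam + 14000 * c.K → ¬ sm t → ∃ a : Fin 4 → V,
    (∀ i, c.Bc (lam + 14000 * c.K) t (a i)) ∧ ∀ i k, i ≠ k → ¬ Near E 1920 (val (a i)) (val (a k))

/-- The projected foot of `u`. -/
noncomputable def pf (L : ℕ) (D : LD V) (E : SimpleGraph ℕ) (T : ℕ × ℕ) (u : V) : ℕ :=
  proj E D.X T (D.rt (c.σ u L))

/-- The family of tiny blocks. -/
structure TinyOK (L : ℕ) (D : LD V) (H E : SimpleGraph ℕ) (Y : Finset (V × V × (ℕ × ℕ))) :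
    Prop where
  cand : ∀ k ∈ Y, c.Arch L k.1 k.2.1 ∧ IsTop E D.X k.2.2 ∧
    ¬ Near E 1920 (c.pf L D E k.2.2 k.1) (c.pf L D E k.2.2 k.2.1) ∧
    Near H 1700 (D.rt (c.σ k.1 L)) (c.pf L D E k.2.2 k.1) ∧
    Near H 1700 (D.rt (c.σ k.2.1 L)) (c.pf L D E k.2.2 k.2.1)
  np : ∀ u w u' w' T, (u, w, T) ∈ Y → (u', w', T) ∈ Y → ¬ c.Bc L (c.σ u L) (c.σ u' L) →
    ¬ (Near E 480 (c.pf L D E T u) (c.pf L D E T u') ∧
      Near E 480 (c.pf L D E T w) (c.pf L D E T w')) ∧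
    ¬ (Near E 480 (c.pf L D E T u) (c.pf L D E T w') ∧
      Near E 480 (c.pf L D E T w) (c.pf L D E T u'))
  cov : ∀ T a e, IsTop E D.X T → c.Ar L D a e → Near H 10 a e →
    Near E 1920 (proj E D.X T a) (proj E D.X T e) ∨ ∃ u w, (u, w, T) ∈ Y ∧
      ((Near E 480 (proj E D.X T a) (c.pf L D E T u) ∧
        Near E 480 (proj E D.X T e) (c.pf L D E T w)) ∨
      (Near E 480 (proj E D.X T a) (c.pf L D E T w) ∧
        Near E 480 (proj E D.X T e) (c.pf L D E T u)))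

/-- Pairs of tokens whose order is free. -/
def U (lam : ℕ) (F : V → V → Prop) (S : TD V ι) (t u : ι) : Prop :=
  S.pid t = S.pid u ∧ S.oid t ≠ S.oid u ∧ t ∈ S.Θ ∧ u ∈ S.Θ ∧ ¬ S.sm t ∧ ¬ S.sm u ∧
    S.T t = S.T u ∧ (F3 F (S.pp t) (S.pp u) ∨
      c.LowCl lam (c.An' lam (S.q t) (S.W t)) (c.An' lam (S.q u) (S.W u)))

/-- The order of the next level and the map to the present level. -/
structure Ord (lam : ℕ) (F : V → V → Prop) (D : LD V) (E : SimpleGraph ℕ) (S : TD V ι)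
    (r φ : ι → ℕ) : Prop where
  inj : Set.InjOn r S.Θ
  pos : ∀ t, 0 < r t
  mono : ∀ t ∈ S.Θ, ∀ u ∈ S.Θ, r t ≤ r u → φ t ≤ φ u
  small : ∀ t ∈ S.Θ, S.sm t → φ t = S.val t
  large : ∀ t ∈ S.Θ, ¬ S.sm t → φ t ∈ Face E D.X (S.T t) ∧ Near E 160 (φ t) (S.val t)
  xing : ∀ t ∈ S.Θ, ∀ t' ∈ S.Θ, ∀ u ∈ S.Θ, ∀ u' ∈ S.Θ, S.oid t = S.oid t' → S.oid u = S.oid u' →
    Sep (r t) (r t') (r u) (r u') →
    S.oid t = S.oid u ∨ (¬ S.sm t ∧ ¬ S.sm u ∧ S.T t = S.T u ∧ S.pid t = S.pid u)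
  feet : ∀ t ∈ S.Θ, ∀ t' ∈ S.Θ, ∀ u ∈ S.Θ, ∀ u' ∈ S.Θ, ¬ S.sm t → ¬ S.sm t' → ¬ S.sm u →
    ¬ S.sm u' → S.T t = S.T t' → S.T t = S.T u → S.T t = S.T u' → S.pid t = S.pid t' →
    S.pid t = S.pid u → S.pid t = S.pid u' → Sep (r t) (r t') (r u) (r u') →
    Cr (c.U lam F S) t t' u u' ∨ Cr (fun a b => D.rt (S.pp a) = D.rt (S.pp b)) t t' u u' ∨
      Sep (D.rt (S.pp t)) (D.rt (S.pp t')) (D.rt (S.pp u)) (D.rt (S.pp u'))
  own : ∀ t ∈ S.Θ, ∀ t' ∈ S.Θ, ∀ u ∈ S.Θ, ∀ u' ∈ S.Θ, S.oid t = S.oid t' → S.oid t = S.oid u →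
    S.oid t = S.oid u' → (Sep (r t) (r t') (r u) (r u') ↔ Sep (S.lr t) (S.lr t') (S.lr u) (S.lr u'))

/-- How the next level is built from the tokens. -/
structure Next (S : TD V ι) (r : ι → ℕ) (D' : LD V) : Prop where
  X : D'.X = S.Θ.image r
  rt : ∀ t, D'.rt t = r (S.em t)
  loc : ∀ τ ∈ S.Θ, D'.loc (r τ) = S.x τ
  An : ∀ τ ∈ S.Θ, ¬ S.sm τ → S.W τ ⊆ D'.An (r τ)
  sg : ∀ τ ∈ S.Θ, ∀ τ' ∈ S.Θ, S.oid τ = S.oid τ' → D'.Sg (r τ) (r τ')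
  sg' : ∀ τ ∈ S.Θ, ∀ τ' ∈ S.Θ, D'.Sg (r τ) (r τ') → (S.sm τ ∧ S.oid τ = S.oid τ') ∨
    (¬ S.sm τ ∧ ¬ S.sm τ' ∧ S.T τ = S.T τ' ∧ S.pid τ = S.pid τ')

/-- The local graph on two consecutive levels. -/
def LG (L : ℕ) (D' : LD V) (E : SimpleGraph ℕ) (φ : ℕ → ℕ) : SimpleGraph (ℕ ⊕ ℕ) :=
  fromRel fun s t => match s, t with
    | Sum.inl a, Sum.inl e => E.Adj a e
    | Sum.inr w, Sum.inl a => w ∈ D'.X ∧ φ w = a
    | Sum.inr w, Sum.inr w' => c.V0 (L + 10000 * c.K) D' w w'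
    | Sum.inl _, Sum.inr _ => False

/-- The link between the levels `L` and `L + 10000 K`. -/
structure Lnk (L : ℕ) (D D' : LD V) (E : SimpleGraph ℕ) (φ : ℕ → ℕ) (In : ℕ → ℕ → ℕ → Prop) :
    Prop where
  nc : NCOn E D.X
  rtX : ∀ v, c.lv v = L → D.rt v ∈ D.X ∧ D.loc (D.rt v) = v
  eS : ∀ a e, E.Adj a e → D.Sg a e
  φX : ∀ w ∈ D'.X, φ w ∈ D.X
  mono : ∀ w ∈ D'.X, ∀ w' ∈ D'.X, w ≤ w' → φ w ≤ φ w'
  inφ : ∀ a e, E.Adj a e → a < e → ∀ w ∈ D'.X, φ w ≠ a → φ w ≠ e →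
    (In a e w ↔ a < φ w ∧ φ w < e)
  inS : ∀ a e, E.Adj a e → a < e → ∀ w ∈ D'.X, ∀ w' ∈ D'.X, D'.Sg w w' → In a e w → In a e w'
  sgS : ∀ w w', D'.Sg w w' → D'.Sg w' w
  φS : ∀ w ∈ D'.X, ∀ w' ∈ D'.X, D'.Sg w w' → D.Sg (φ w) (φ w')
  lenE : ∀ a e, E.Adj a e → c.d (D.loc a) (D.loc e) ≤ 10 ^ 14 * c.K
  lenT : ∀ w ∈ D'.X, c.d (D'.loc w) (D.loc (φ w)) ≤ 10 ^ 14 * c.K
  v0 : ∀ a e, c.V0 L D a e → Near E 30 a e
  edge : ∀ u v, c.G.Adj u v → L ≤ c.lv u → c.lv u ≤ L + 10000 * c.K → L ≤ c.lv v →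
    c.lv v ≤ L + 10000 * c.K →
    Near (c.LG L D' E φ) (10 ^ 15) (Sum.inl (D.rt (c.σ u L))) (Sum.inl (D.rt (c.σ v L)))
  base : ∀ t, c.lv t = L + 10000 * c.K →
    Near (c.LG L D' E φ) (10 ^ 15) (Sum.inr (D'.rt t)) (Sum.inl (D.rt (c.σ t L)))
  dense : ∀ w ∈ D'.X, ∃ t, c.lv t = L ∧
    Near (c.LG L D' E φ) (10 ^ 15) (Sum.inr w) (Sum.inl (D.rt t))

end Cx

def BandStmt : Prop := ∀ (V : Type u) (c : Cx V) lam ρ F D, c.Env → c.Lev lam ρ F D →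
  (c.band (lam + 4000 * c.K) D).OK

def BandGStmt : Prop := ∀ (V : Type u) (c : Cx V) lam ρ F D H, c.Env → c.Lev lam ρ F D →
  EmuOut (c.Mem (lam + 4000 * c.K) D) D.X H → c.BandG (lam + 4000 * c.K) D H

def QuadStmt : Prop := ∀ (V : Type u) (c : Cx V) lam ρ F ρ' F' D, c.St lam ρ F ρ' F' D →
  c.Quad lam ρ' F D

def LegsStmt : Prop := ∀ (V : Type u) (c : Cx V) lam ρ F ρ' F' D, c.St lam ρ F ρ' F' D →
  c.Legs lam F D

def TokGStmt : Prop := ∀ (V : Type u) (c : Cx V) lam ρ F ρ' F' D, c.St lam ρ F ρ' F' D →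
  c.TokG lam ρ F D

def CoreDStmt : Prop := ∀ (V : Type u) (c : Cx V) lam ρ F ρ' F' D H E, c.St lam ρ F ρ' F' D →
  (c.band (lam + 4000 * c.K) D).HOut H E →
  ∃ sm pp q W T lr val, c.CoreOK lam F ρ' D H E sm pp q W T lr val

def TinyStmt : Prop := ∀ (V : Type u) (c : Cx V) lam ρ F D H E, c.Env → c.Lev lam ρ F D →
  (c.band (lam + 4000 * c.K) D).HOut H E → ∃ Y, c.TinyOK (lam + 4000 * c.K) D H E Y

def TDStmt : Prop := ∀ (V : Type u) (c : Cx V) lam ρ F ρ' F' D H E, c.St lam ρ F ρ' F' D →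
  (c.band (lam + 4000 * c.K) D).HOut H E →
  ∃ S : TD V (V ⊕ (V × V × (ℕ × ℕ) × Bool)), c.TDok lam F ρ' D H E S

def Ord2Stmt : Prop := ∀ (V ι : Type u) (c : Cx V) lam ρ F ρ' F' D H E (S : TD V ι),
  c.St lam ρ F ρ' F' D → (c.band (lam + 4000 * c.K) D).HOut H E → c.TDok lam F ρ' D H E S →
  ∃ r φ, c.Ord lam F D E S r φ

def ChildStmt : Prop := ∀ (V ι : Type u) (c : Cx V) lam ρ F ρ' F' D H E (S : TD V ι) r φ,
  c.St lam ρ F ρ' F' D → c.TDok lam F ρ' D H E S → c.Ord lam F D E S r φ →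
  ∃ D', c.Lev (lam + 10000 * c.K) ρ' F' D' ∧ Cx.Next S r D'

def LinkStmt : Prop := ∀ (V ι : Type u) (c : Cx V) lam ρ F ρ' F' D H E (S : TD V ι) r φ D',
  c.St lam ρ F ρ' F' D → (c.band (lam + 4000 * c.K) D).HOut H E → c.TDok lam F ρ' D H E S →
  c.Ord lam F D E S r φ → c.Lev (lam + 10000 * c.K) ρ' F' D' → Cx.Next S r D' →
  ∃ ψ In, c.Lnk (lam + 4000 * c.K) D D' E ψ In

def StepStmt : Prop := ∀ (V : Type u) (c : Cx V) lam ρ F ρ' F' D, c.St lam ρ F ρ' F' D →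
  ∃ D' E ψ In, c.Lev (lam + 10000 * c.K) ρ' F' D' ∧ c.Lnk (lam + 4000 * c.K) D D' E ψ In

def BaseStmt : Prop := ∀ (V : Type u) (c : Cx V) ρ F, c.Env → c.Prov (6000 * c.K) ρ F →
  ∃ D D' E ψ In, D.X = {1} ∧ c.Lev (6000 * c.K) ρ F D' ∧ c.Lnk 0 D D' E ψ In

/-- The final graph. -/
def Fin2 (X : ℕ → Finset ℕ) (E : ℕ → SimpleGraph ℕ) (φ : ℕ → ℕ → ℕ) :
    SimpleGraph {p : ℕ × ℕ // p.2 ∈ X p.1} :=
  fromRel fun s t => (s.1.1 = t.1.1 ∧ (E s.1.1).Adj s.1.2 t.1.2) ∨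
    (s.1.1 = t.1.1 + 1 ∧ φ t.1.1 s.1.2 = t.1.2)

def PlanarStmt : Prop := ∀ (X : ℕ → Finset ℕ) (E : ℕ → SimpleGraph ℕ) (φ : ℕ → ℕ → ℕ)
  (Sg : ℕ → ℕ → ℕ → Prop) (In : ℕ → ℕ → ℕ → ℕ → Prop), (∀ m, NCOn (E m) (X m)) →
  (∀ m a e, (E m).Adj a e → Sg m a e) → (∀ m, ∀ w ∈ X (m + 1), φ m w ∈ X m) →
  (∀ m, ∀ w ∈ X (m + 1), ∀ w' ∈ X (m + 1), w ≤ w' → φ m w ≤ φ m w') →
  (∀ m a e, (E m).Adj a e → a < e → ∀ w ∈ X (m + 1), φ m w ≠ a → φ m w ≠ e →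
    (In m a e w ↔ a < φ m w ∧ φ m w < e)) →
  (∀ m a e, (E m).Adj a e → a < e → ∀ w ∈ X (m + 1), ∀ w' ∈ X (m + 1), Sg (m + 1) w w' →
    (In m a e w ↔ In m a e w')) →
  (∀ m, ∀ w ∈ X (m + 1), ∀ w' ∈ X (m + 1), Sg (m + 1) w w' → Sg m (φ m w) (φ m w')) →
  ¬ HasMinor (Fin2 X E φ) (⊤ : SimpleGraph (Fin 5)) ∧ ¬ HasMinor (Fin2 X E φ) K33

def QIStmt : Prop := ∀ K : ℕ, ∃ M A : ℕ, 1 ≤ M ∧ ∀ (V : Type u) (c : Cx V) (D : ℕ → LD V)
  (E : ℕ → SimpleGraph ℕ) (φ : ℕ → ℕ → ℕ) (In : ℕ → ℕ → ℕ → ℕ → Prop), c.K = K → c.Env →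
  (D 0).X = {1} → (∀ m, c.Lnk (m * (10000 * c.K)) (D m) (D (m + 1)) (E m) (φ m) (In m)) →
  (Fin2 (fun m => (D m).X) E φ).Connected ∧
    ∃ f, IsQI c.G (Fin2 (fun m => (D m).X) E φ) f M A

def CoreStmt : Prop := ∀ K : ℕ, ∃ M A : ℕ, 1 ≤ M ∧ ∀ (V : Type u) (c : Cx V), c.K = K → c.Env →
  ∃ (W : Type) (G' : SimpleGraph W) (f : V → W), Countable W ∧ G'.Connected ∧ IsQI c.G G' f M A ∧
    ¬ HasMinor G' (⊤ : SimpleGraph (Fin 5)) ∧ ¬ HasMinor G' K33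

def MainStmt : Prop := ∀ K s : ℕ, ∃ M A : ℕ, 1 ≤ M ∧ ∀ (V : Type u) (G : SimpleGraph V),
  G.Connected → (∀ v, (G.neighborSet v).Finite) → (∃ o, AnnConn G o s) →
  ¬ HasFatMinor G K33 K →
  ∃ (W : Type) (G' : SimpleGraph W) (f : V → W), Countable W ∧ G'.Connected ∧ IsQI G G' f M A ∧
    ¬ HasMinor G' (⊤ : SimpleGraph (Fin 5)) ∧ ¬ HasMinor G' K33

end Pool.Agent.Lib.MP_f9389f_co.SC
end

-- part Pool.Agent.Lib.MP_f9389f_co.SC.Basic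
section

/-! Basic lemmas for the short cycle case. -/

namespace Pool.Agent.Lib.MP_f9389f_co.SC

universe u

open SimpleGraph

theorem Sep.symm {a c b d : ℕ} (h : Sep a c b d) : Sep b d a c := by
  unfold Sep Btw Out at *; omega

theorem Sep.swap {a c b d : ℕ} (h : Sep a c b d) : Sep c a b d := by
  unfold Sep Btw Out at *; omega

theorem Sep.swap' {a c b d : ℕ} (h : Sep a c b d) : Sep a c d b := by
  unfold Sep Btw Out at *; omega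

theorem near_rel {α : Type*} {R : α → α → Prop} {a b : α} (h : R a b) : Near (fromRel R) 1 a b := by
  by_cases e : a = b
  · subst e; exact ⟨Walk.nil, by simp⟩
  · exact ⟨(show (fromRel R).Adj a b from ⟨e, Or.inl h⟩).toWalk, by simp⟩

theorem Near.le {α : Type*} {Γ Δ : SimpleGraph α} {n : ℕ} {a b : α} (h : Near Γ n a b)
    (hle : Γ ≤ Δ) : Near Δ n a b := by
  obtain ⟨p, hp⟩ := h
  exact ⟨p.mapLe hle, by simpa using hp⟩

namespace Cx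

variable {V : Type u} {c : Cx V}

theorem d_comm (u v : V) : c.d u v = c.d v u := dist_comm

theorem d_self (u : V) : c.d u u = 0 := dist_self

theorem Env.tri (h : c.Env) (u v w : V) : c.d u w ≤ c.d u v + c.d v w := h.conn.dist_triangle

theorem Env.lip (h : c.Env) (u v : V) : c.lv v ≤ c.lv u + c.d u v := h.conn.dist_triangle

theorem Env.lip' (h : c.Env) (u v : V) : c.lv u ≤ c.lv v + c.d u v := by
  rw [d_comm]; exact h.lip v u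

theorem Env.dσ (h : c.Env) (x : V) {s t : ℕ} (hst : s ≤ t) : c.d (c.σ x s) (c.σ x t) ≤ t - s := by
  induction t, hst using Nat.le_induction with
  | base => simp [d_self]
  | succ t hst ih =>
    have := h.tri (c.σ x s) (c.σ x t) (c.σ x (t + 1))
    have := h.step x t
    omega

/-- The distance along a vertical is at most any bound for the difference of the times. -/
theorem Env.dσ' (h : c.Env) (x : V) {s t n : ℕ} (h1 : s ≤ t + n) (h2 : t ≤ s + n) :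
    c.d (c.σ x s) (c.σ x t) ≤ n := by
  rcases le_total s t with e | e
  · have := h.dσ x e; omega
  · have := h.dσ x e; rw [d_comm] at this; omega

theorem Env.top (h : c.Env) (x : V) : c.σ x (c.lv x) = x := h.stop x _ le_rfl

theorem Env.zero (h : c.Env) (x : V) : c.σ x 0 = c.o := by
  have := h.lev x 0 (Nat.zero_le _)
  exact ((h.conn.dist_eq_zero_iff).1 this).symm

theorem Env.lev_le (h : c.Env) (x : V) (t : ℕ) : c.lv (c.σ x t) ≤ t := by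
  rcases le_total t (c.lv x) with e | e
  · exact (h.lev x t e).le
  · rw [h.stop x t e]; exact e

theorem Env.conn_seg (h : c.Env) (x : V) (s t : ℕ) : Conn c.G 1 (Seg c.σ x s t) := by
  refine conn_of_base (c.σ x s) ?_
  rintro _ ⟨i, h1, h2, rfl⟩
  induction i, h1 using Nat.le_induction with
  | base => exact Ch.refl _
  | succ i hi ih =>
    exact (ih (by omega)).tail ⟨i, hi, by omega, rfl⟩ ⟨i + 1, by omega, h2, rfl⟩ (h.step x i)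

theorem mem_seg (x : V) {s t i : ℕ} (h1 : s ≤ i) (h2 : i ≤ t) : c.σ x i ∈ Seg c.σ x s t :=
  ⟨i, h1, h2, rfl⟩

/-- A point of a segment below the top is determined by its level. -/
theorem Env.seg_lv (h : c.Env) {x v : V} {s t : ℕ} (ht : t ≤ c.lv x) (hv : v ∈ Seg c.σ x s t) :
    s ≤ c.lv v ∧ c.lv v ≤ t ∧ c.σ x (c.lv v) = v := by
  obtain ⟨i, h1, h2, rfl⟩ := hv
  rw [h.lev x i (by omega)]
  exact ⟨h1, h2, rfl⟩

theorem Env.seg_vt (h : c.Env) {x : V} {s t : ℕ} : Seg c.σ x s t ⊆ c.Vt x := by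
  rintro _ ⟨i, -, -, rfl⟩
  rcases le_total i (c.lv x) with e | e
  · exact ⟨i, Nat.zero_le _, e, rfl⟩
  · exact ⟨c.lv x, Nat.zero_le _, le_rfl, by rw [h.top, h.stop x i e]⟩

/-- A point of the vertical of `x` is near the point of level `n` if its level is near `n`. -/
theorem Env.vt_near (h : c.Env) {x v : V} {n k : ℕ} (hv : v ∈ c.Vt x) (h1 : n ≤ c.lv v + k)
    (h2 : c.lv v ≤ n + k) : c.d (c.σ x n) v ≤ k := by
  obtain ⟨-, -, e⟩ := h.seg_lv le_rfl hv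
  have := h.dσ' x h1 h2
  rwa [e] at this

theorem Env.conn_I (h : c.Env) (a b : V) : Conn c.G 1 (c.I a b) := conn_interval h.conn a b

theorem left_I (a b : V) : a ∈ c.I a b := by simp [I]

theorem right_I (a b : V) : b ∈ c.I a b := by simp [I]

theorem mem_I {a b v : V} (hv : v ∈ c.I a b) : c.d a v + c.d v b = c.d a b := hv

theorem I_comm (a b : V) : c.I a b = c.I b a := by
  ext v
  simp only [I, Set.mem_ofPred_eq]
  rw [dist_comm (u := b) (v := v), dist_comm (u := v) (v := a), dist_comm (u := b) (v := a)]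
  omega

theorem Env.I_sub (h : c.Env) {a b v : V} (hv : v ∈ c.I a b) : c.I a v ⊆ c.I a b := by
  intro w hw
  have h1 := mem_I hv
  have h2 := mem_I hw
  have h3 := h.tri w v b
  have h4 := h.tri a w b
  show c.d a w + c.d w b = c.d a b
  omega

theorem Env.exists_I (h : c.Env) (a b : V) {n : ℕ} (hn : n ≤ c.d a b) :
    ∃ v ∈ c.I a b, c.d a v = n := by
  have key : ∀ k, k ≤ c.d a b → ∃ v ∈ c.I a b, c.d a v + k = c.d a b := by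
    intro k
    induction k with
    | zero => exact fun _ => ⟨b, right_I a b, rfl⟩
    | succ k ih =>
      intro hk
      obtain ⟨v, hv, e⟩ := ih (by omega)
      obtain ⟨m, hm⟩ : ∃ m, c.d a v = m + 1 := ⟨c.d a v - 1, by omega⟩
      obtain ⟨x, hx1, hx2⟩ := exists_step h.conn hm
      have h1 := mem_I hv
      have h3 := h.tri x v b
      have h4 := h.tri a x b
      have h5 : c.d a x = m := hx1
      have h6 : c.d x v ≤ 1 := hx2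
      exact ⟨x, show c.d a x + c.d x b = c.d a b by omega, by omega⟩
  obtain ⟨v, hv, e⟩ := key (c.d a b - n) (by omega)
  exact ⟨v, hv, by omega⟩

/-- A chain along an interval. -/
theorem Env.ch_I (h : c.Env) {a b : V} {A : Set V} (hA : c.I a b ⊆ A) : Ch c.G 1 A a b :=
  (h.conn_I a b a (left_I a b) b (right_I a b)).mono le_rfl hA

/-- Two near points of high level are joined above level `n`. -/
theorem Env.ch_up (h : c.Env) {a b : V} {n : ℕ} (ha : n + c.d a b ≤ c.lv a) :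
    Ch c.G 1 (c.Up n) a b := h.ch_I fun v hv => by
  have := mem_I hv
  have := h.lip' a v
  show n ≤ c.lv v
  omega

/-- A vertex is joined to the points of its vertical above level `n`. -/
theorem Env.ch_σ (h : c.Env) (x : V) {n i : ℕ} (h1 : n ≤ i) (h2 : i ≤ c.lv x) :
    Ch c.G 1 (c.Up n) x (c.σ x i) := by
  have := h.conn_seg x i (c.lv x) x ⟨c.lv x, h2, le_rfl, h.top x⟩ _ (mem_seg x le_rfl h2)
  exact this.mono le_rfl fun v hv => h1.trans (h.seg_lv le_rfl hv).1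

theorem ch_lv {n : ℕ} {x y : V} (e : Ch c.G 1 (c.Up n) x y) (hx : n ≤ c.lv x) : n ≤ c.lv y :=
  Ch.mem (A := c.Up n) e hx

theorem up_mono {m n : ℕ} (h : m ≤ n) : c.Up n ⊆ c.Up m := fun _ hv => h.trans hv

theorem Env.conn_ball (h : c.Env) (a : V) (n : ℕ) : Conn c.G 1 (Nb c.G n {a}) :=
  (conn_singleton c.G n a).nb h.conn

theorem mem_ball {a v : V} {n : ℕ} : v ∈ Nb c.G n {a} ↔ c.d a v ≤ n := by
  simp [Nb, d]

theorem Env.conn_low (h : c.Env) (n : ℕ) : Conn c.G 1 {v | c.lv v ≤ n} := by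
  refine conn_of_base c.o fun v hv => ?_
  have := h.conn_seg v 0 (c.lv v) _ (mem_seg v le_rfl (Nat.zero_le _)) v
    ⟨c.lv v, Nat.zero_le _, le_rfl, h.top v⟩
  rw [h.zero] at this
  exact this.mono le_rfl fun w hw => (h.seg_lv le_rfl hw).2.1.trans hv

theorem Bc.refl {n : ℕ} {x : V} (h : c.lv x = n) : c.Bc n x x := ⟨h, h, Ch.refl _⟩

theorem Bc.symm {n : ℕ} {x y : V} (h : c.Bc n x y) : c.Bc n y x := ⟨h.2.1, h.1, h.2.2.symm⟩

theorem Bc.trans {n : ℕ} {x y z : V} (h : c.Bc n x y) (h' : c.Bc n y z) : c.Bc n x z :=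
  ⟨h.1, h'.2.1, h.2.2.trans h'.2.2⟩

/-- Vertices joined above level `n` have their feet in the same core. -/
theorem Env.bc_feet (h : c.Env) {n : ℕ} {x y : V} (hx : n ≤ c.lv x) (e : Ch c.G 1 (c.Up n) x y) :
    c.Bc n (c.σ x n) (c.σ y n) := by
  have hy : n ≤ c.lv y := ch_lv e hx
  exact ⟨h.lev x n hx, h.lev y n hy,
    ((h.ch_σ x le_rfl hx).symm.trans e).trans (h.ch_σ y le_rfl hy)⟩

/-- The base of a core is connected. -/
theorem Env.conn_base (h : c.Env) {n : ℕ} (_hn : 1 ≤ n) {x : V} (hx : n ≤ c.lv x) :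
    Conn c.G 1 {v | c.lv v = n ∧ Ch c.G 1 (c.Up n) x v} := h.base n x hx

theorem cl_iff {P Q : Set V} : c.Cl P Q ↔ ∃ z ∈ P, ∃ z' ∈ Q, c.d z z' < 6 * c.K := by
  simp [Cl, Apart, d]

variable {lam : ℕ} {ρ : V → ℕ} {F : V → V → Prop} {D : LD V}

theorem Prov.refl (h : c.Prov lam ρ F) {a : V} (ha : c.lv a = lam + 4000 * c.K) : F a a :=
  h.close a a (Bc.refl ha) (by simp [D, d_self])

theorem Lev.rt_inj (h : c.Lev lam ρ F D) {v w : V} (hv : c.lv v = lam + 4000 * c.K)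
    (hw : c.lv w = lam + 4000 * c.K) (e : D.rt v = D.rt w) : v = w := by
  rw [← (h.rtX v hv).2, e, (h.rtX w hw).2]

theorem Lev.mem_An (h : c.Lev lam ρ F D) {v : V} (hv : c.lv v = lam + 4000 * c.K) :
    v ∈ D.An (D.rt v) := by
  have := h.locA _ (h.rtX v hv).1
  rwa [(h.rtX v hv).2] at this

/-- The vertical of a vertex of the band lies in the leg of its root. -/
theorem Lev.seg_Lg (he : c.Env) (h : c.Lev lam ρ F D) {t : V} (h1 : lam + 4000 * c.K ≤ c.lv t)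
    (h2 : c.lv t ≤ lam + 14000 * c.K) {i : ℕ} (h3 : lam + 25 * c.K ≤ i) :
    c.σ t i ∈ c.Lg (lam + 4000 * c.K) D (D.rt (c.σ t (lam + 4000 * c.K))) := by
  rcases le_total i (lam + 4000 * c.K) with e | e
  · refine Or.inl (h.seg _ (he.lev t _ h1) ⟨i, h3, e, he.coh t i _ e⟩)
  · refine Or.inr ⟨?_, ?_, by rw [he.coh t _ i e]⟩
    · rcases le_total i (c.lv t) with e' | e'
      · rw [he.lev t i e']; exact e
      · rw [he.stop t i e']; exact h1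
    · rcases le_total i (c.lv t) with e' | e'
      · rw [he.lev t i e']; omega
      · rw [he.stop t i e']; omega

theorem Lev.v0_sg (h : c.Lev lam ρ F D) {L a e : ℕ} (hv : c.V0 L D a e) : D.Sg a e := by
  rcases hv with hv | hv
  exacts [(h.fzG a e hv).1, hv.2.2.1]

theorem Lev.mem_sg (h : c.Lev lam ρ F D) {L a e : ℕ} (hv : c.Mem L D a e) : D.Sg a e := by
  rcases hv with hv | hv
  exacts [(h.fzG a e hv).1, hv.2.2.1]

/-- Fuzz of the provider gives a low member. -/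
theorem Lev.v0_of_F (hp : c.Prov lam ρ F) (h : c.Lev lam ρ F D) (hK : 1 ≤ c.K) {v w : V}
    (e : F v w) : c.V0 (lam + 4000 * c.K) D (D.rt v) (D.rt w) := by
  have hb := hp.sub v w e
  rcases h.fF v w e with h1 | ⟨z, h1, h2⟩
  · exact Or.inl h1
  · have := h.hi _ (h.rtX v hb.1).1 z h1
    exact Or.inr ⟨(h.rtX v hb.1).1, (h.rtX w hb.2.1).1, h.sgC v w hb, z, Or.inl h1, z, Or.inl h2,
      by rw [d_self]; omega, by omega, by omega⟩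

/-- A point of a leg is joined to the anchor inside the leg. -/
theorem Lev.leg (he : c.Env) (h : c.Lev lam ρ F D) {a : ℕ} (ha : a ∈ D.X) {u : V}
    (hu : u ∈ c.Lg (lam + 4000 * c.K) D a) : ∃ Y : Set V, Conn c.G 1 Y ∧ D.An a ⊆ Y ∧ u ∈ Y ∧
      Y ⊆ c.Lg (lam + 4000 * c.K) D a ∧ Y ⊆ c.Up (D.fl a) ∧
      ∀ z ∈ Y, c.lv z ≤ c.lv u ∨ c.lv z ≤ lam + 4040 * c.K := by
  rcases hu with hu | ⟨h1, h2, rfl⟩
  · exact ⟨D.An a, h.conn a ha, subset_rfl, hu, Set.subset_union_left, h.lo a ha,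
      fun z hz => Or.inr (h.hi a ha z hz)⟩
  · have hl := he.lev u _ h1
    refine ⟨D.An _ ∪ Seg c.σ u (lam + 4000 * c.K) (c.lv u),
      (h.conn _ ha).union' (he.conn_seg u _ _) (h.mem_An hl) (mem_seg u le_rfl h1),
      Set.subset_union_left, Or.inr ⟨c.lv u, h1, le_rfl, he.top u⟩, ?_, ?_, ?_⟩
    · rintro z (hz | ⟨i, h3, -, rfl⟩)
      · exact Or.inl hz
      · exact h.seg_Lg he h1 (by omega) (by omega)
    · rintro z (hz | hz)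
      · exact h.lo _ ha hz
      · have := (he.seg_lv le_rfl hz).1
        have := h.flo _ ha
        show D.fl _ ≤ c.lv z
        omega
    · rintro z (hz | hz)
      · exact Or.inr (h.hi _ ha z hz)
      · exact Or.inl (he.seg_lv le_rfl hz).2.1

end Cx

end Pool.Agent.Lib.MP_f9389f_co.SC
end
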