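import Mathlib
import Pool.Agent.Lib.MP_f9389f_co.SC.Basic

-- part Pool.Agent.Lib.MP_f9389f_co.SC.Ord
section

/-! The order on a face. -/

namespace Pool.Agent.Lib.MP_f9389f_co.SC

universe u

open SimpleGraph

theorem ord_df {ι : Type u} (r : ι → ℕ) (t u : ι) : 0 ≤ df r t u ∧ df r t u ≤ 1 := by
  unfold df; split_ifs <;> omega

theorem ord_eq {ι : Type u} (r : ι → ℕ) {t t' u u' : ι} (h : Cr Eq t t' u u') :
    ¬ Sep (r t) (r t') (r u) (r u') := by
  unfold Sep Btw Out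
  rcases h with rfl | rfl | rfl | rfl <;> omega

theorem ordStmt (hBef : BefStmt.{u}) (hDel : DelStmt.{u}) (hTri : TriStmt.{u})
    (hEven : EvenStmt.{u}) (hPot : PotStmt.{u}) (hMax : MaxStmt.{u}) (hPar : ParStmt.{u})
    : OrdStmt.{u} := by
  intro ι Θ oid pid val rp N U c h
  have hB := hBef ι Θ oid pid val rp N U c h
  obtain ⟨δ, hD⟩ := hDel ι Θ oid pid val rp N U c h hB
  obtain ⟨h3, h4⟩ := hTri ι Θ oid pid val rp N U c δ h hB hD
  obtain ⟨ρ, i, hρ, hP⟩ := hPot ι Θ pid rp U δ h.inj h.usymm (fun t u k => (h.usub t u k).1) hD.anti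
    (fun t ht u hu k => hD.plain t ht u hu (.inl k)) (fun t ht u hu => by
      by_cases k : pid t = pid u ∨ ¬ N c t u
      · rw [hD.plain t ht u hu k]
        have := ord_df rp t u
        omega
      · rw [not_or, not_not] at k
        obtain ⟨a, ha, b, hb, oa, ob, k1, -, k3, -, k5⟩ :=
          hB.ex t ht u hu k.1 (h.mono _ _ _ _ k.2 (by omega))
        rw [hD.rule t ht u hu k.1 k.2 a ha b hb oa ob (fun j => k1 (h.mono _ _ _ _ j (by omega)))
          (fun j => k3 (h.mono _ _ _ _ j (by omega))) k5]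
        have := ord_df rp t b
        have := ord_df rp a u
        have := ord_df rp a b
        omega) h3 h4
  obtain ⟨θ, φ, i', hθ, e, mono, near⟩ := hMax ι Θ ρ val i hρ
  have pot : ∀ t ∈ Θ, ∀ u ∈ Θ, t ≠ u → ¬ U t u → δ t u = df θ t u + i' u - i' t :=
    fun t ht u hu k j => (hP t ht u hu k j).trans (e t ht u hu k)
  have par : ∀ r : ι → ℕ, Set.InjOn r Θ → ∀ t ∈ Θ, ∀ t' ∈ Θ, ∀ u ∈ Θ, ∀ u' ∈ Θ, t ≠ u → t ≠ u' →
      t' ≠ u → t' ≠ u' → (Sep (r t) (r t') (r u) (r u') ↔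
        (df r t u + df r t u' + df r t' u + df r t' u') % 2 = 1) :=
    fun r hr t ht t' ht' u hu u' hu' k1 k2 k3 k4 => by
      rw [hPar ι r t t' u u' (hr.ne ht hu k1) (hr.ne ht hu' k2) (hr.ne ht' hu k3)
        (hr.ne ht' hu' k4), Int.odd_iff]
  refine ⟨θ, φ, hθ, mono, fun t ht => ?_, fun t ht t' ht' u hu u' hu' p1 p2 p3 k => ?_,
    fun t ht t' ht' u hu u' hu' ot ou hp => ?_⟩
  · rcases near t ht with k | ⟨u, hu, k1, k2, k3⟩
    · exact ⟨t, ht, k, h.mono _ _ _ _ (h.refl _ _ rfl) (Nat.zero_le _)⟩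
    refine ⟨u, hu, k3, by_contra fun j => ?_⟩
    have j1 : δ u t = _ := hP u hu t ht k1 fun f => j (h.usub _ _ f).2.2
    rw [← j1, hD.plain u hu t ht (.inr j)] at k2
    have := h.vmono u hu t ht
    unfold df at k2
    split_ifs at k2 <;> omega
  · by_cases j : Cr Eq t t' u u'
    · exact iff_of_false (ord_eq θ j) (ord_eq rp j)
    simp only [Cr, not_or] at j k
    obtain ⟨j1, j2, j3, j4⟩ := j
    obtain ⟨k1, k2, k3, k4⟩ := k
    rw [par θ hθ t ht t' ht' u hu u' hu' j1 j2 j3 j4, par rp h.inj t ht t' ht' u hu u' hu' j1 j2 j3 j4,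
      ← hD.plain t ht u hu (.inl p2), ← hD.plain t ht u' hu' (.inl p3),
      ← hD.plain t' ht' u hu (.inl (p1 ▸ p2)), ← hD.plain t' ht' u' hu' (.inl (p1 ▸ p3)),
      pot t ht u hu j1 k1, pot t ht u' hu' j2 k2, pot t' ht' u hu j3 k3, pot t' ht' u' hu' j4 k4]
    omega
  · have ev := hEven ι Θ oid pid val rp N U c δ h hB hD t ht t' ht' u hu u' hu' ot ou hp
    have pt := h.op t ht t' ht' ot
    have pu := h.op u hu u' hu' ou
    have ne : ∀ x y, pid x = pid t → pid y = pid u → x ≠ y ∧ ¬ U x y := fun x y a b =>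
      ⟨fun f => hp (by rw [← a, ← b, f]), fun f => hp (by rw [← a, ← b, (h.usub _ _ f).1])⟩
    have j1 := ne t u rfl rfl
    have j2 := ne t u' rfl pu.symm
    have j3 := ne t' u pt.symm rfl
    have j4 := ne t' u' pt.symm pu.symm
    rw [pot t ht u hu j1.1 j1.2, pot t ht u' hu' j2.1 j2.2, pot t' ht' u hu j3.1 j3.2,
      pot t' ht' u' hu' j4.1 j4.2, Int.even_iff] at ev
    rw [par θ hθ t ht t' ht' u hu u' hu' j1.1 j2.1 j3.1 j4.1]
    omega

end Pool.Agent.Lib.MP_f9389f_co.SC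
end

-- part Pool.Agent.Lib.MP_f9389f_co.SC.Glob
section

/-! The global order. -/

namespace Pool.Agent.Lib.MP_f9389f_co.SC

universe u

open SimpleGraph

/-- The second component of the key of a large token. -/
def glob_k (N : ℕ) (T : ℕ × ℕ) (w : ℕ) : ℕ :=
  if w = T.2 then N - T.1 else if w = T.1 then 2 * N + 3 - T.2 else N + 2

theorem glob_top {E : SimpleGraph ℕ} {X : Finset ℕ} {T : ℕ × ℕ} (h : NCOn E X)
    (hT : IsTop E X T) : T.1 < T.2 ∧ T.2 ≤ X.sup id + 1 := by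
  rcases hT with ⟨h1, h2⟩ | rfl
  · exact ⟨h2, (Finset.le_sup (f := id) (h.mem _ _ h1.symm)).trans (Nat.le_succ _)⟩
  · exact ⟨Nat.succ_pos _, le_rfl⟩

theorem glob_cov (hFace : FaceStmt) {E : SimpleGraph ℕ} {X : Finset ℕ} {A B : ℕ × ℕ} {w : ℕ}
    (h : NCOn E X) (hA : IsTop E X A) (hB : IsTop E X B) (hw : w ∈ Face E X B)
    (k : A.1 < w ∧ w < A.2) : A.1 ≤ B.1 ∧ B.2 ≤ A.2 := by
  rcases hA with ⟨h1, h2⟩ | rfl
  · exact by_contra fun j => (hFace.side E X B w _ _ h hB hw h1 h2).2 j k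
  · exact ⟨Nat.zero_le _, (glob_top h hB).2⟩

theorem glob_ne {N w : ℕ} {A : ℕ × ℕ} (h : A.1 < A.2 ∧ A.2 ≤ N) : glob_k N A w ≠ N + 1 := by
  unfold glob_k
  split_ifs <;> omega

theorem glob_eq {N w : ℕ} {A B : ℕ × ℕ} (hA : A.1 < A.2 ∧ A.2 ≤ N) (hB : B.1 < B.2 ∧ B.2 ≤ N)
    (a1 : A.1 ≤ w ∧ w ≤ A.2) (b1 : B.1 ≤ w ∧ w ≤ B.2)
    (a2 : A.1 < w ∧ w < A.2 → A.1 ≤ B.1 ∧ B.2 ≤ A.2)
    (b2 : B.1 < w ∧ w < B.2 → B.1 ≤ A.1 ∧ A.2 ≤ B.2) (e : glob_k N A w = glob_k N B w) :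
    A = B := by
  unfold glob_k at e
  refine Prod.ext ?_ ?_ <;> split_ifs at e <;> omega

theorem glob_out {N w : ℕ} {A B : ℕ × ℕ} (hA : A.1 < A.2 ∧ A.2 ≤ N) (hB : B.1 < B.2 ∧ B.2 ≤ N)
    (a1 : ¬ (A.1 ≤ B.1 ∧ B.2 ≤ A.2)) (a2 : ¬ (A.1 < w ∧ w < A.2)) :
    (∀ v, A.1 ≤ v ∧ v ≤ A.2 → w < v ∨ w = v ∧ glob_k N B w < glob_k N A v) ∨
      ∀ v, A.1 ≤ v ∧ v ≤ A.2 → v < w ∨ v = w ∧ glob_k N A v < glob_k N B w := by
  rcases (by omega : w ≤ A.1 ∨ A.2 ≤ w) with k | k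
  · refine Or.inl fun v hv => ?_
    unfold glob_k
    split_ifs <;> omega
  · refine Or.inr fun v hv => ?_
    unfold glob_k
    split_ifs <;> omega

theorem globStmt (hFace : FaceStmt) (hRank : RankStmt.{u}) : GlobStmt.{u} := by
  classical
  intro ι E X Θ sm T φ oid θ h _ hl hs ht
  obtain ⟨κ, hκ⟩ : ∃ κ : ι → ℕ, ∀ t, κ t =
    if sm t then X.sup id + 1 + 1 else glob_k (X.sup id + 1) (T t) (φ t) := ⟨_, fun _ => rfl⟩
  obtain ⟨o, ho⟩ : ∃ o : ι → ℕ, ∀ t, o t = if sm t then oid t else 0 := ⟨_, fun _ => rfl⟩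
  have k1 : ∀ t, sm t → κ t = X.sup id + 1 + 1 ∧ o t = oid t := fun t k => by
    rw [hκ, ho, if_pos k, if_pos k]; exact ⟨rfl, rfl⟩
  have k2 : ∀ t, ¬ sm t → κ t = glob_k (X.sup id + 1) (T t) (φ t) ∧ o t = 0 := fun t k => by
    rw [hκ, ho, if_neg k, if_neg k]; exact ⟨rfl, rfl⟩
  have k3 : ∀ t ∈ Θ, κ t = X.sup id + 1 + 1 → sm t := fun t a e => by_contra fun k =>
    glob_ne (glob_top h (hl t a k).1) ((k2 t k).1 ▸ e)
  have k4 : ∀ t ∈ Θ, ¬ sm t → (T t).1 ≤ φ t ∧ φ t ≤ (T t).2 := fun t a k =>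
    ⟨(hl t a k).2.2.1, (hl t a k).2.2.2.1⟩
  have inj : ∀ t ∈ Θ, ∀ u ∈ Θ, φ t = φ u → κ t = κ u → o t = o u → θ t = θ u → t = u := by
    intro t a u b e1 e2 e3 e4
    by_cases k : sm t
    · have k' := k3 u b (e2 ▸ (k1 t k).1)
      exact (hs t a u b (by rw [← (k1 t k).2, ← (k1 u k').2, e3]) k).2.2 e4
    · have k' : ¬ sm u := fun j => k (k3 t a (e2 ▸ (k1 u j).1))
      refine (ht t a u b k k' (glob_eq (w := φ t) (glob_top h (hl t a k).1)
        (glob_top h (hl u b k').1) (k4 t a k) (e1 ▸ k4 u b k')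
        (glob_cov hFace h (hl t a k).1 (hl u b k').1 (e1 ▸ (hl u b k').2))
        (glob_cov hFace h (hl u b k').1 (hl t a k).1 (hl t a k).2) ?_)).1 e4
      rw [← (k2 t k).1, e2, (k2 u k').1, e1]
  obtain ⟨r, r0, hr⟩ := hRank ι (ℕ ×ₗ ℕ ×ₗ ℕ ×ₗ ℕ) Θ
    (fun t => toLex (φ t, toLex (κ t, toLex (o t, θ t)))) fun t a u b e => by
      simp only [toLex_inj, Prod.mk.injEq] at e
      exact inj t a u b e.1 e.2.1 e.2.2.1 e.2.2.2
  simp only [Prod.Lex.toLex_lt_toLex] at hr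
  have out : ∀ t ∈ Θ, ∀ t' ∈ Θ, ∀ u ∈ Θ, ¬ sm t → ¬ sm t' → ¬ sm u → T t = T t' →
      ¬ ((T t).1 ≤ (T u).1 ∧ (T u).2 ≤ (T t).2) → Out (r t) (r t') (r u) := by
    intro t a t' a' u b j j' k e n
    have e1 := (k2 t j).1
    have e2 := (k2 t' j').1
    have e3 := (k2 u k).1
    rw [← e] at e2
    rcases glob_out (w := φ u) (glob_top h (hl t a j).1) (glob_top h (hl u b k).1) n
      (fun i => n (glob_cov hFace h (hl t a j).1 (hl u b k).1 (hl u b k).2 i)) with i | i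
    · have i1 := i _ (k4 t a j)
      have i2 := i _ (e ▸ k4 t' a' j')
      exact Or.inl ⟨(hr u b t a).2 (by omega), (hr u b t' a').2 (by omega)⟩
    · have i1 := i _ (k4 t a j)
      have i2 := i _ (e ▸ k4 t' a' j')
      exact Or.inr ⟨(hr t a u b).2 (by omega), (hr t' a' u b).2 (by omega)⟩
  refine ⟨r, fun t a u b e => ?_, r0, fun t a u b e => ?_, fun t a u b k => ?_,
    fun t a t' a' u b k e n j => ?_, fun t a t' a' u b u' b' j j' k k' e e' n s => ?_⟩
  · have h1 := hr t a u b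
    have h2 := hr u b t a
    exact inj t a u b (by omega) (by omega) (by omega) (by omega)
  · have h2 := hr u b t a
    omega
  · rw [hr t a u b]
    rcases k with ⟨k, e⟩ | ⟨k, k', e⟩
    · obtain ⟨k', e1, -⟩ := hs t a u b e k
      have := k1 t k
      have := k1 u k'
      omega
    · have h1 := (ht t a u b k k' e).2
      have h2 := (ht u b t a k' k e.symm).2
      have h3 : φ t = φ u → κ t = κ u := fun i => by rw [(k2 t k).1, (k2 u k').1, e, i]
      have := (k2 t k).2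
      have := (k2 u k').2
      omega
  · obtain ⟨k', e1, -⟩ := hs t a t' a' e k
    have h1 := k1 t k
    have h2 := k1 t' k'
    have h3 : κ u = X.sup id + 1 + 1 → o u = oid u := fun i => (k1 u (k3 u b i)).2
    rcases j with ⟨j1, j2⟩ | ⟨j1, j2⟩
    · rw [hr t a u b] at j1
      rw [hr u b t' a'] at j2
      omega
    · rw [hr t' a' u b] at j1
      rw [hr u b t a] at j2
      omega
  · by_cases c : (T t).1 ≤ (T u).1 ∧ (T u).2 ≤ (T t).2
    · have c' : ¬ ((T u).1 ≤ (T t).1 ∧ (T t).2 ≤ (T u).2) := fun i =>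
        n (Prod.ext (le_antisymm c.1 i.1) (le_antisymm i.2 c.2))
      have h1 := out u b u' b' t a k k' j e' c'
      have h2 := out u b u' b' t' a' k k' j' e' (e ▸ c')
      unfold Sep Btw Out at *
      omega
    · have h1 := out t a t' a' u b j j' k e c
      have h2 := out t a t' a' u' b' j j' k' e (e' ▸ c)
      unfold Sep Btw Out at *
      omega

end Pool.Agent.Lib.MP_f9389f_co.SC
end

-- part Pool.Agent.Lib.MP_f9389f_co.SC.V0
section

/-! Low members are short in the final graph. -/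

namespace Pool.Agent.Lib.MP_f9389f_co.SC

universe u

open SimpleGraph

theorem v0_swap {F : Set ℕ} {c d a : ℕ} (h : Bey F c d a) : Bey F d c a := by
  simpa only [Bey, Btw, Out, or_comm, and_comm] using h

/-- A path from beyond an edge to the face passes through an end of the edge. -/
theorem v0_exit {H : SimpleGraph ℕ} (nc : NC H) {F : Set ℕ} {c d m : ℕ} {u : ℕ → ℕ}
    (hu : ∀ i < m, H.Adj (u i) (u (i + 1))) (e : H.Adj c d) (h0 : Bey F c d (u 0)) (hm : u m ∈ F) :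
    ∃ i, 0 < i ∧ i ≤ m ∧ (u i = c ∨ u i = d) := by
  by_contra! k
  have key : ∀ i ≤ m, Bey F c d (u i) := fun i => by
    induction i with
    | zero => exact fun _ => h0
    | succ i ih =>
      intro hi
      have h1 := nc _ _ _ _ e (hu i hi)
      have h2 := k (i + 1) i.succ_pos hi
      have h3 := e.ne
      refine (ih (by omega)).imp (And.imp_left fun l => ?_) (And.imp_left fun l => ?_) <;>
      · unfold Sep Btw Out at *
        omega
  exact (key m le_rfl).elim (fun l => l.2 _ hm l.1) fun l => l.2 _ hm l.1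

theorem v0_seg {H : SimpleGraph ℕ} {n : ℕ} {w : ℕ → ℕ} (hw : ∀ i < n, H.Adj (w i) (w (i + 1)))
    {i k : ℕ} (h : i ≤ k) (hk : k ≤ n) : Near H (k - i) (w i) (w k) := by
  induction k, h using Nat.le_induction with
  | base => exact Near.refl _ _ _
  | succ k h ih => exact ((ih (by omega)).trans (Near.of_adj (hw k hk))).mono (by omega)

theorem v0_geo {H : SimpleGraph ℕ} {m a c : ℕ} (h : Near H m a c) : ∃ (n : ℕ) (w : ℕ → ℕ),
    n ≤ m ∧ w 0 = a ∧ w n = c ∧ (∀ i < n, H.Adj (w i) (w (i + 1))) ∧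
      ∀ i k, i ≤ k → k ≤ n → Near H 1 (w i) (w k) → k ≤ i + 1 := by
  classical
  have ex : ∃ m, Near H m a c := ⟨m, h⟩
  obtain ⟨p, hp⟩ := Nat.find_spec ex
  have hw : ∀ i < p.length, H.Adj (p.getVert i) (p.getVert (i + 1)) := fun i => p.adj_getVert_succ
  refine ⟨p.length, p.getVert, hp.trans (Nat.find_min' ex h), p.getVert_zero, p.getVert_length, hw,
    fun i k h1 h2 h3 => ?_⟩
  have h4 := ((v0_seg hw (Nat.zero_le i) (h1.trans h2)).trans h3).trans (v0_seg hw h2 le_rfl)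
  rw [p.getVert_zero, p.getVert_length] at h4
  have := Nat.find_min' ex h4
  omega

theorem v0Stmt (hPath : PathStmt) (hFace : FaceStmt) : V0Stmt.{u} := by
  classical
  intro ι b H Hv S gf a c hac
  have _ := hPath
  have hm := S.ok.v0M a c hac
  obtain ⟨n, w, hn, rfl, rfl, hw, geo⟩ := v0_geo (S.e1.near a c hm)
  have le : ∀ {x y}, (b.K0 H).Adj x y → H.Adj x y := fun h => h.2.elim (·.1) (·.1.symm)
  have wX : ∀ i ≤ n, w i ∈ b.X := fun i hi => by
    rcases hi.eq_or_lt with rfl | hi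
    exacts [S.ok.memX _ _ (S.ok.memS _ _ hm), S.e1.mem _ _ (hw i hi)]
  have back : ∀ j ≤ n, ∀ m ≤ j, ∀ i < m, H.Adj (w (j - i)) (w (j - (i + 1))) := fun j hj m hm i hi =>
    by simpa only [show j - (i + 1) + 1 = j - i by omega] using (hw (j - (i + 1)) (by omega)).symm
  have contig : ∀ T, IsTop (b.K0 H) b.X T → ∀ i j k, i ≤ j → j ≤ k → k ≤ n →
      w i ∈ Face (b.K0 H) b.X T → w k ∈ Face (b.K0 H) b.X T → w j ∈ Face (b.K0 H) b.X T := by
    intro T hT i j k h1 h2 h3 hi hk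
    by_contra hj
    obtain ⟨x, y, e, -, -, bey, -⟩ := hFace.bey _ _ T _ gf.nc0 hT (wX j (h2.trans h3)) hj
    obtain ⟨s, s1, s2, s3⟩ := v0_exit S.e1.nc (u := fun t => w (j - t)) (m := j - i)
      (back j (h2.trans h3) _ (by omega)) (le e) bey (by rwa [Nat.sub_sub_self h1])
    obtain ⟨t, t1, t2, t3⟩ := v0_exit S.e1.nc (u := fun t => w (j + t)) (m := k - j)
      (fun t ht => hw _ (by omega)) (le e) bey (by rwa [Nat.add_sub_cancel' h2])
    have := geo (j - s) (j + t) (by omega) (by omega) (by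
      rcases s3 with s3 | s3 <;> rcases t3 with t3 | t3 <;> rw [s3, t3]
      exacts [Near.refl _ _ _, Near.of_adj (le e), Near.of_adj (le e).symm, Near.refl _ _ _])
    omega
  have att : ∀ T (u : ℕ → ℕ) f, IsTop (b.K0 H) b.X T → u 0 ∈ b.X → f ≤ n →
      (∀ i < f, H.Adj (u i) (u (i + 1))) → u f ∈ Face (b.K0 H) b.X T →
      (∀ i < f, u i ∉ Face (b.K0 H) b.X T) → b.Att H T (u 0) (u f) := by
    intro T u f hT h0 h1 h2 h3 h4
    refine ⟨h3, (v0_seg h2 (Nat.zero_le f) le_rfl).mono (by omega), ?_⟩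
    rcases f.eq_zero_or_pos with rfl | hf
    · exact Or.inl rfl
    obtain ⟨x, y, e, hx, hy, bey, -⟩ := hFace.bey _ _ T _ gf.nc0 hT h0 (h4 0 hf)
    obtain ⟨s, -, s2, s3⟩ := v0_exit S.e1.nc h2 (le e) bey h3
    obtain rfl : s = f := s2.eq_of_not_lt fun k => h4 s k (s3.elim (· ▸ hx) (· ▸ hy))
    rcases s3 with s3 | s3 <;> rw [s3]
    exacts [Or.inr ⟨y, e, bey⟩, Or.inr ⟨x, e.symm, v0_swap bey⟩]
  have main : ∀ k ≤ n, ∃ g, k ≤ g ∧ g ≤ n ∧ Near (b.K0 H ⊔ Hv) (6 * g) (w 0) (w g) ∧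
      ∀ T j, IsTop (b.K0 H) b.X T → w g ∈ Face (b.K0 H) b.X T → w j ∈ Face (b.K0 H) b.X T →
        (∀ i < j, w i ∉ Face (b.K0 H) b.X T) → Near (b.K0 H ⊔ Hv) (6 * g + 1) (w 0) (w j) := by
    intro k
    induction k with
    | zero =>
      refine fun _ => ⟨0, le_rfl, Nat.zero_le n, Near.refl _ _ _, fun T j _ h1 _ h2 => ?_⟩
      obtain rfl : j = 0 := by_contra fun e => h2 0 (Nat.pos_of_ne_zero e) h1
      exact Near.refl _ _ _
    | succ k ih =>
      intro hk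
      obtain ⟨g, g1, g2, g3, g4⟩ := ih (by omega)
      rcases g1.eq_or_lt with rfl | g1
      swap
      · exact ⟨g, g1, g2, g3, g4⟩
      obtain ⟨T, hT, t1, t2⟩ := hFace.ex _ _ _ _ gf.nc0 (wX k g2) (wX (k + 1) hk)
        fun x y e => S.e1.nc _ _ _ _ (le e) (hw k hk)
      have ex : ∃ j, w j ∈ Face (b.K0 H) b.X T := ⟨k, t1⟩
      obtain ⟨f, f1, f2, f3⟩ : ∃ f, w f ∈ Face (b.K0 H) b.X T ∧
          (∀ i < f, w i ∉ Face (b.K0 H) b.X T) ∧ f ≤ k :=
        ⟨_, Nat.find_spec ex, fun _ => Nat.find_min ex, Nat.find_min' ex t1⟩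
      obtain ⟨l, l1, l2, l3, l4⟩ : ∃ l, w l ∈ Face (b.K0 H) b.X T ∧
          (∀ i, l < i → i ≤ n → w i ∉ Face (b.K0 H) b.X T) ∧ k + 1 ≤ l ∧ l ≤ n :=
        ⟨_, Nat.findGreatest_spec (P := fun j => w j ∈ Face (b.K0 H) b.X T) hk t2,
          fun _ => Nat.findGreatest_is_greatest, Nat.le_findGreatest hk t2, Nat.findGreatest_le n⟩
      have a1 := att T w f hT (wX 0 (Nat.zero_le n)) (by omega) (fun i hi => hw i (by omega)) f1 f2
      have a2 := att T (fun t => w (n - t)) (n - l) hT (wX n le_rfl) (by omega)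
        (back n le_rfl _ (by omega)) (by rwa [Nat.sub_sub_self l4])
        fun i hi => l2 _ (by omega) (by omega)
      simp only [Nat.sub_zero, Nat.sub_sub_self l4] at a2
      have a3 := g4 T f hT t1 f1 f2
      have a4 := (a3.trans (Near.le (S.e2.near _ _ (Or.inl ⟨T, _, _, hT, hac, a1, a2,
        (v0_seg hw (by omega) l4).mono (by omega)⟩)) le_sup_right)).mono
          (show 6 * k + 1 + 5 ≤ 6 * l by omega)
      refine ⟨l, l3, l4, a4, fun U j hU u1 u2 u3 => ?_⟩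
      have j1 : j ≤ l := le_of_not_gt fun e => u3 l e u1
      by_cases hj : w j ∈ Face (b.K0 H) b.X T
      · by_cases e : U = T
        · subst e
          obtain rfl : j = f := le_antisymm (le_of_not_gt fun e => u3 f e f1)
            (le_of_not_gt fun e => f2 j e u2)
          exact a3.mono (by omega)
        obtain ⟨x, y, e, h2⟩ := hFace.two _ _ U T gf.nc0 hU hT e
        refine a4.trans (Near.le (Γ := b.K0 H) ?_ le_sup_left)
        rcases h2 _ u1 l1 with s | s <;> rcases h2 _ u2 hj with t | t <;> rw [s, t]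
        exacts [Near.refl _ _ _, Near.of_adj e, Near.of_adj e.symm, Near.refl _ _ _]
      · have j2 : j ≤ f := le_of_not_ge fun e => hj (contig T hT f j l e j1 l4 f1 l1)
        exact (g4 U j hU (contig U hU j k l (by omega) (by omega) l4 u2 u1) u2 u3).mono (by omega)
  obtain ⟨g, g1, g2, g3, -⟩ := main n le_rfl
  obtain rfl : n = g := le_antisymm g1 g2
  exact g3.mono (by omega)

end Pool.Agent.Lib.MP_f9389f_co.SC
end

-- part Pool.Agent.Lib.MP_f9389f_co.SC.InFace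
section

/-! Routes inside a face. -/

namespace Pool.Agent.Lib.MP_f9389f_co.SC

universe u

open SimpleGraph

theorem inFaceStmt (hPath : PathStmt) (hFace : FaceStmt) : InFaceStmt.{u} := by
  intro ι b H E Γ ok e1 nc v0 hle har x z T hxz hT
  obtain ⟨n, v, hv⟩ := e1.chain x z hxz
  have mX : ∀ a c, b.Mem a c → c ∈ b.X := fun a c h => ok.memX c a (ok.memS a c h)
  have one : ∀ a c y d, b.Mem a c → b.Mem y d → Sep a c y d → b.V0 a y ∨ b.Ar a y →
      a ∈ b.X ∧ y ∈ b.X ∧ (Near E 60 a y ∨ (b.Ar a y ∧ Near H 10 a y)) := fun a c y d h k s l =>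
    ⟨ok.memX a c h, ok.memX y d k, l.imp (fun l => (v0 a y l).mono (by norm_num)) fun l =>
      ⟨l, hPath.meet H 5 5 a c y d e1.nc (e1.near a c h) (e1.near y d k) s⟩⟩
  have h1 := hPath.links b.Mem
    (fun s t => s ∈ b.X ∧ t ∈ b.X ∧ (Near E 60 s t ∨ (b.Ar s t ∧ Near H 10 s t))) x z n v hv
    (fun a c h => ⟨ok.memX a c h, mX a c h, (ok.arch a c h).imp
      (fun l => (v0 a c l).mono (by norm_num)) fun l => ⟨l, (e1.near a c h).mono (by norm_num)⟩⟩)
    (fun a c y d h k s => by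
      rcases ok.link a c y d h k s with l | l | l | l | l
      · exact Or.inl ⟨ok.memX a c h, ok.memX y d k,
          Or.inl (hPath.meet E 30 30 a c y d nc.nc (v0 a c l.1) (v0 y d l.2) s)⟩
      · exact Or.inl (one a c y d h k s l)
      · exact Or.inr (Or.inl (one a c d y h (ok.memS _ _ k) s.swap' l))
      · exact Or.inr (Or.inr (Or.inl (one c a y d (ok.memS _ _ h) k s.swap l)))
      · exact Or.inr (Or.inr (Or.inr (one c a d y (ok.memS _ _ h) (ok.memS _ _ k) s.swap.swap' l))))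
    n le_rfl
  have two : ∀ s t, s ∈ b.X ∧ t ∈ b.X ∧ (Near E 60 s t ∨ (b.Ar s t ∧ Near H 10 s t)) →
      Near Γ 62 (proj E b.X T s) (proj E b.X T t) := fun s t h => h.2.2.elim
    (fun l => Near.le (hFace.near E b.X T 60 s t nc hT h.1 h.2.1 l) hle)
    fun l => (har T s t hT h.1 h.2.1 l.1 l.2).mono (by norm_num)
  refine hPath.lip ℕ ℕ _ Γ (proj E b.X T) 62 26 x z ?_
    (hv.2.2.2.2.elim (fun e => e ▸ h1.1) fun e => e ▸ h1.2)
  exact fun s t h => h.2.elim (two s t) fun l => (two t s l).symm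

end Pool.Agent.Lib.MP_f9389f_co.SC
end

-- part Pool.Agent.Lib.MP_f9389f_co.SC.Seq
section

/-! Edges crossing a chord. -/

namespace Pool.Agent.Lib.MP_f9389f_co.SC

universe u

open SimpleGraph

theorem seq_A {a b b2 c d z : ℕ} (h1 : Sep b b2 a z) (h2 : Sep c d a b) (h3 : ¬ Sep c d b b2) :
    Sep c d a z := by
  unfold Sep Btw Out at *
  rcases h1 with ⟨h1 | h1, h1' | h1'⟩ | ⟨h1 | h1, h1' | h1'⟩ <;>
  rcases h2 with ⟨h2 | h2, h2' | h2'⟩ | ⟨h2 | h2, h2' | h2'⟩ <;> omega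

theorem seq_B0 {a a2 x b c d : ℕ} (h1 : Sep a a2 x b) (h2 : ¬ Sep a a2 c b) (h3 : ¬ Sep a a2 d b)
    (h4 : a ≠ c) (h5 : a ≠ d) : ¬ Sep c d x a := by
  intro h6
  unfold Sep Btw Out at *
  rcases h1 with ⟨h1 | h1, h1' | h1'⟩ | ⟨h1 | h1, h1' | h1'⟩ <;>
  rcases h6 with ⟨h6 | h6, h6' | h6'⟩ | ⟨h6 | h6, h6' | h6'⟩ <;> omega

theorem seq_C {a a2 x z b b2 : ℕ} (h1 : Sep a a2 x z) (h2 : Sep b b2 a z) (h3 : ¬ Sep a a2 b b2) :
    (b = a2 ∨ Sep a a2 x b) ∧ Sep b b2 x z := by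
  unfold Sep Btw Out at *
  rcases h1 with ⟨h1 | h1, h1' | h1'⟩ | ⟨h1 | h1, h1' | h1'⟩ <;>
  rcases h2 with ⟨h2 | h2, h2' | h2'⟩ | ⟨h2 | h2, h2' | h2'⟩ <;> constructor <;> omega

theorem seq_D {F : Set ℕ} {c d x a : ℕ} (h : Bey F c d x) (ha : a ∈ F) (h1 : a ≠ c) (h2 : a ≠ d)
    (h3 : c < d) : Sep c d x a := by
  rcases h with ⟨h4, h5⟩ | ⟨h4, h5⟩
  · have := h5 a ha
    unfold Sep Btw Out at *; omega
  · have := h5 a ha
    unfold Sep Btw Out at *; omega

theorem seq_E {F : Set ℕ} {c d x : ℕ} (h : Bey F c d x) : x ≠ c ∧ x ≠ d ∧ ¬ Sep c d x x := by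
  rcases h with ⟨h4, -⟩ | ⟨h4, -⟩ <;> (unfold Sep Btw Out at *; omega)

theorem seq_F {a b b2 : ℕ} : ¬ Sep b b2 a b := by
  unfold Sep Btw Out; omega

theorem seq_B (hFace : FaceStmt) {E : SimpleGraph ℕ} {X : Finset ℕ} (h : NCOn E X) {T : ℕ × ℕ}
    (hT : IsTop E X T) {a a2 b x : ℕ} (hx : x ∈ X) (ha : a ∈ Face E X T) (hb : b ∈ Face E X T)
    (e : E.Adj a a2) (s : Sep a a2 x b) : Near E 1 a (proj E X T x) := by
  have hn : x ∉ Face E X T := fun hf => hFace.wall E X T x b h hT hf hb a a2 e s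
  obtain ⟨c, d, e', hc, hd, hB, hlt, -, -, hp⟩ := hFace.bey E X T x h hT hx hn
  have h1 : a = c ∨ a = d := by
    by_contra hne
    push Not at hne
    exact seq_B0 s (hFace.wall E X T c b h hT hc hb a a2 e)
      (hFace.wall E X T d b h hT hd hb a a2 e) hne.1 hne.2 (seq_D hB ha hne.1 hne.2 hlt)
  have h2 : proj E X T x = c ∨ proj E X T x = d := hp x hx (Or.inr (Or.inr (seq_E hB)))
  rcases h1 with rfl | rfl <;> rcases h2 with h2 | h2 <;> rw [h2]
  exacts [Near.refl _ _ _, Near.of_adj e', Near.of_adj e'.symm, Near.refl _ _ _]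

open Classical in
/-- The number of edges that cross a chord. -/
noncomputable def seqN (E : SimpleGraph ℕ) (X : Finset ℕ) (a w : ℕ) : ℕ :=
  ((X ×ˢ X).filter fun p => E.Adj p.1 p.2 ∧ Sep p.1 p.2 a w).card

theorem seq_lt {E : SimpleGraph ℕ} {X : Finset ℕ} (h : NCOn E X) {a b b2 z : ℕ} (e : E.Adj b b2)
    (s : Sep b b2 a z) : seqN E X a b < seqN E X a z := by
  classical
  unfold seqN
  refine Finset.card_lt_card ⟨fun p hp => ?_, fun hs => ?_⟩
  · rw [Finset.mem_filter] at hp ⊢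
    exact ⟨hp.1, hp.2.1, seq_A s hp.2.2 (h.nc _ _ _ _ hp.2.1 e)⟩
  · have := hs (x := (b, b2)) (Finset.mem_filter.2
      ⟨Finset.mem_product.2 ⟨h.mem _ _ e, h.mem _ _ e.symm⟩, e, s⟩)
    exact seq_F (Finset.mem_filter.1 this).2.2

theorem seq_wall {E : SimpleGraph ℕ} {X : Finset ℕ} (h : NCOn E X) (a : ℕ) (m : ℕ) :
    ∀ z, seqN E X a z < m → ¬ Wall E a z → ∃ b b2, E.Adj b b2 ∧ Sep b b2 a z ∧ Wall E a b := by
  induction m with
  | zero => intro z hz; omega
  | succ m ih =>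
    intro z hz hw
    unfold Wall at hw
    push Not at hw
    obtain ⟨b, b2, e, s⟩ := hw
    by_cases hb : Wall E a b
    · exact ⟨b, b2, e, s, hb⟩
    · have := seq_lt h e s
      obtain ⟨c, d, e', s', hc⟩ := ih b (by omega) hb
      exact ⟨c, d, e', seq_A s s' (h.nc _ _ _ _ e' e), hc⟩

theorem seq_main (hFace : FaceStmt) {E : SimpleGraph ℕ} {X : Finset ℕ} (h : NCOn E X) {x z : ℕ}
    (hx : x ∈ X) (hz : z ∈ X) (m : ℕ) : ∀ a a2, seqN E X z a < m →
    ((a = x ∧ a2 = x) ∨ (E.Adj a a2 ∧ Sep a a2 x z)) →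
    ∃ (n : ℕ) (e : ℕ → ℕ), e n = z ∧ (∀ i < n, ∃ d, E.Adj (e i) d ∧ Sep x z (e i) d) ∧
      (∀ i < n, ∃ T, IsTop E X T ∧ Near E 2 (e i) (proj E X T x) ∧
        Near E 2 (e (i + 1)) (proj E X T z)) ∧
      ∃ T, IsTop E X T ∧ (Near E 1 a (proj E X T x) ∨ Near E 1 a2 (proj E X T x)) ∧
        Near E 2 (e 0) (proj E X T z) := by
  induction m with
  | zero => intro a a2 hm; omega
  | succ m ih =>
    intro a a2 hm hs
    have ha : a ∈ X := by
      rcases hs with ⟨rfl, -⟩ | ⟨e, -⟩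
      exacts [hx, h.mem _ _ e]
    by_cases hw : Wall E a z
    · obtain ⟨T, hT, h1, h2⟩ := hFace.ex E X a z h ha hz hw
      refine ⟨0, fun _ => z, rfl, fun i hi => by omega, fun i hi => by omega, T, hT, Or.inl ?_, ?_⟩
      · rcases hs with ⟨rfl, -⟩ | ⟨e, s⟩
        · rw [hFace.fix E X T a h1]; exact Near.refl _ _ _
        · exact seq_B hFace h hT hx h1 h2 e s
      · rw [hFace.fix E X T z h2]; exact Near.refl _ _ _
    · obtain ⟨b, b2, e, s, hb⟩ := seq_wall h a _ z (Nat.lt_succ_self _) hw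
      have hlt := seq_lt h e s.swap'
      obtain ⟨T, hT, h1, h2⟩ := hFace.ex E X a b h ha (h.mem _ _ e) hb
      have h3 := seq_B hFace h hT hz h2 h1 e s.swap'
      have key : Sep b b2 x z → Near E 1 a (proj E X T x) →
          ∃ (n : ℕ) (e : ℕ → ℕ), e n = z ∧ (∀ i < n, ∃ d, E.Adj (e i) d ∧ Sep x z (e i) d) ∧
            (∀ i < n, ∃ T, IsTop E X T ∧ Near E 2 (e i) (proj E X T x) ∧
              Near E 2 (e (i + 1)) (proj E X T z)) ∧
            ∃ T, IsTop E X T ∧ (Near E 1 a (proj E X T x) ∨ Near E 1 a2 (proj E X T x)) ∧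
              Near E 2 (e 0) (proj E X T z) := by
        intro s' h4
        obtain ⟨n, f, g1, g2, g3, T', hT', g4, g5⟩ := ih b b2 (by omega) (Or.inr ⟨e, s'⟩)
        refine ⟨n + 1, fun i => Nat.casesOn i b f, g1, fun i hi => ?_, fun i hi => ?_, T, hT,
          Or.inl h4, h3.mono (by omega)⟩
        · cases i with
          | zero => exact ⟨b2, e, s'.symm⟩
          | succ i => exact g2 i (by omega)
        · cases i with
          | zero =>
            refine ⟨T', hT', ?_, g5⟩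
            rcases g4 with g4 | g4
            exacts [g4.mono (by omega), (Near.of_adj e).trans g4]
          | succ i => exact g3 i (by omega)
      rcases hs with ⟨rfl, -⟩ | ⟨e', s'⟩
      · exact key s (by rw [hFace.fix E X T a h1]; exact Near.refl _ _ _)
      · obtain ⟨h4 | h4, h5⟩ := seq_C s' s (h.nc _ _ _ _ e' e)
        · subst h4
          obtain ⟨n, f, g1, g2, g3, T', hT', g4, g5⟩ :=
            ih b a (by omega) (Or.inr ⟨e'.symm, s'.swap⟩)
          exact ⟨n, f, g1, g2, g3, T', hT', g4.symm, g5⟩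
        · exact key h5 (seq_B hFace h hT hx h1 h2 e' h4)

theorem seqStmt (hPath : PathStmt) (hFace : FaceStmt) : SeqStmt := by
  intro E X x z h hx hz
  have _ := hPath
  obtain ⟨n, f, g1, g2, g3, T, hT, g4, g5⟩ :=
    seq_main hFace h hx hz _ x x (Nat.lt_succ_self _) (Or.inl ⟨rfl, rfl⟩)
  refine ⟨n + 1, fun i => Nat.casesOn i x f, rfl, g1, fun i h0 hi => ?_, fun i hi => ?_⟩
  · cases i with
    | zero => omega
    | succ i => exact g2 i (by omega)
  · cases i with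
    | zero => exact ⟨T, hT, (g4.elim id id).mono (by omega), g5⟩
    | succ i => exact g3 i (by omega)

end Pool.Agent.Lib.MP_f9389f_co.SC
end

-- part Pool.Agent.Lib.MP_f9389f_co.SC.H
section

/-! The graph of a level. -/

namespace Pool.Agent.Lib.MP_f9389f_co.SC

universe u

open SimpleGraph

/-- All ends of a chain of short members are near the start in a noncrossing graph. -/
theorem h_ends (hPath : PathStmt) {C : ℕ → ℕ → Prop} {G : SimpleGraph ℕ} (hG : NC G) {k : ℕ}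
    (hC : ∀ a c, C a c → Near G k a c) {A B n : ℕ} {v : ℕ → ℕ × ℕ} (hv : ChainOn C A B n v)
    {i : ℕ} (hi : i ≤ n) :
    Near G (26 * (k + k)) A (v i).1 ∧ Near G (26 * (k + k)) A (v i).2 := by
  have h1 := hPath.links C (Near G (k + k)) A B n v hv
    (fun a c h => (hC a c h).mono (Nat.le_add_right _ _))
    (fun a c b d h h' hs => Or.inl (hPath.meet G k k a c b d hG (hC a c h) (hC b d h') hs)) i hi
  have h2 : ∀ x y, (fromRel (Near G (k + k))).Adj x y → Near G (k + k) (id x) (id y) := by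
    intro x y h
    rcases ((fromRel_adj _ _ _).1 h).2 with h | h
    exacts [h, h.symm]
  exact ⟨hPath.lip ℕ ℕ _ G id _ 26 _ _ h2 h1.1, hPath.lip ℕ ℕ _ G id _ 26 _ _ h2 h1.2⟩

theorem h_k0 {ι : Type u} {b : Band ι} {H : SimpleGraph ℕ} {a c : ℕ} (h : (b.K0 H).Adj a c) :
    H.Adj a c ∧ b.Fr H 100 a c := by
  rcases ((fromRel_adj _ _ _).1 h).2 with h | h
  · exact h
  · refine ⟨h.1.symm, fun t r h1 h2 h3 => ?_⟩
    rcases h.2 t r h1 h2 h3.swap with h4 | h4 | h4 | h4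
    exacts [Or.inr (Or.inr (Or.inl h4)), Or.inr (Or.inr (Or.inr h4)), Or.inl h4,
      Or.inr (Or.inl h4)]

theorem h_nc {ι : Type u} {b : Band ι} {H Hv : SimpleGraph ℕ} (h : b.Set2 H Hv)
    (g : GFacts b H) : NCOn (b.K0 H ⊔ Hv) b.X := by
  have hw : ∀ a c, (b.K0 H).Adj a c → Wall Hv a c := fun a c hac =>
    h.e2.wall a c fun y y' hy hs => g.gW y y' hy a c hac hs.symm
  refine ⟨fun a c x y h1 h2 hs => ?_, fun a c h1 => ?_, h.ok.pos⟩
  · rcases h1 with h1 | h1 <;> rcases h2 with h2 | h2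
    · exact g.nc0.nc a c x y h1 h2 hs
    · exact hw a c h1 x y h2 hs.symm
    · exact hw x y h2 a c h1 hs
    · exact h.e2.nc a c x y h1 h2 hs
  · rcases h1 with h1 | h1
    exacts [g.nc0.mem a c h1, h.e2.mem a c h1]

theorem h_cv (hPath : PathStmt) {ι : Type u} {b : Band ι} {H Hv : SimpleGraph ℕ}
    (h : b.Set2 H Hv) (g : GFacts b H) (a c : ℕ) (e : (b.K0 H ⊔ Hv).Adj a c) :
    Near H 624 a c := by
  rcases e with e | e
  · exact (Near.of_adj (h_k0 e).1).mono (by norm_num)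
  · obtain ⟨n, v, hv⟩ := h.e2.chain a c e
    have h1 := h_ends hPath h.e1.nc g.gN hv le_rfl
    rcases hv.2.2.2.2 with h2 | h2 <;> rw [h2]
    exacts [h1.1, h1.2]

theorem h_fr (hPath : PathStmt) {ι : Type u} {b : Band ι} {H Hv : SimpleGraph ℕ}
    (h : b.Set2 H Hv) (g : GFacts b H) (a c : ℕ) (e : (b.K0 H ⊔ Hv).Adj a c) :
    b.Fr H 1000 a c := by
  intro t r h1 h2 h3
  rcases e with e | e
  · rcases (h_k0 e).2 t r h1 h2 h3 with h4 | h4 | h4 | h4
    exacts [Or.inl (h4.mono (by norm_num)), Or.inr (Or.inl (h4.mono (by norm_num))),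
      Or.inr (Or.inr (Or.inl (h4.mono (by norm_num)))),
      Or.inr (Or.inr (Or.inr (h4.mono (by norm_num))))]
  · obtain ⟨n, v, hv⟩ := h.e2.chain a c e
    obtain ⟨i, hi, h4⟩ := hPath.touch _ a c n v _ _ hv h3
    have h5 := h_ends hPath h.e1.nc g.gN hv hi
    have h6 : Cr (Near H 300) (v i).1 (v i).2 (b.p t) (b.p r) := by
      rcases h4 with h4 | h4
      · exact g.gF _ _ (hv.2.1 i hi) t r h1 h2 h4
      · rcases h4 with h4 | h4 | h4 | h4
        exacts [Or.inl (h4 ▸ Near.refl _ _ _), Or.inr (Or.inl (h4 ▸ Near.refl _ _ _)),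
          Or.inr (Or.inr (Or.inl (h4 ▸ Near.refl _ _ _))),
          Or.inr (Or.inr (Or.inr (h4 ▸ Near.refl _ _ _)))]
    rcases h6 with h6 | h6 | h6 | h6
    exacts [Or.inl ((h5.1.trans h6).mono (by norm_num)),
      Or.inr (Or.inl ((h5.1.trans h6).mono (by norm_num))),
      Or.inl ((h5.2.trans h6).mono (by norm_num)),
      Or.inr (Or.inl ((h5.2.trans h6).mono (by norm_num)))]

/-- An end of an edge crossing a lifted edge is near an end or a crosser. -/
theorem h_cross (hPath : PathStmt) {ι : Type u} {b : Band ι} {H Hv : SimpleGraph ℕ}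
    (h : b.Set2 H Hv) (g : GFacts b H) {x z w d : ℕ} (hl : b.Lift H x z)
    (e : (b.K0 H ⊔ Hv).Adj w d) (hs : Sep x z w d) :
    Near Hv 260 w x ∨ Near Hv 260 w z ∨
      ∃ y d', b.G0 H y d' ∧ Sep x z y d' ∧ Near Hv 260 w y := by
  rcases e with e | e
  · exact absurd hs (h.e1.nc x z w d hl.1 (h_k0 e).1)
  · obtain ⟨n, v, hv⟩ := h.e2.chain w d e
    obtain ⟨i, hi, h4⟩ := hPath.touch _ w d n v _ _ hv hs.symm
    have h5 := h_ends hPath h.e2.nc h.e2.near hv hi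
    rcases h4 with h4 | h4 | h4 | h4 | h4
    · rcases hv.2.1 i hi with h6 | h6
      · exact Or.inr (Or.inr ⟨_, _, h6, h4.symm, h5.1⟩)
      · rcases g.rk _ _ x z h6 hl h4.symm with ⟨d', h7, h8⟩ | ⟨d', h7, h8⟩
        exacts [Or.inr (Or.inr ⟨_, _, h7, h8, h5.1⟩), Or.inr (Or.inr ⟨_, _, h7, h8, h5.2⟩)]
    · exact Or.inl (h4 ▸ h5.1)
    · exact Or.inr (Or.inl (h4 ▸ h5.1))
    · exact Or.inl (h4 ▸ h5.2)
    · exact Or.inr (Or.inl (h4 ▸ h5.2))

theorem hStmt (hEmu : EmuStmt) (hGFacts : GFactsStmt.{u}) (hTie : TieStmt.{u}) (hV0 : V0Stmt.{u})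
    (hInFace : InFaceStmt.{u}) (hSeq : SeqStmt) (hPath : PathStmt) (hFace : FaceStmt)
    : HStmt.{u} := by
  intro ι b ok
  have _ := hFace
  obtain ⟨H, e1⟩ := hEmu b.Mem b.X ok.memS ok.memX
  have g := hGFacts ι b H ok e1
  obtain ⟨Hv, e2⟩ := hEmu (fun y y' => b.G0 H y y' ∨ b.G1 H y y') b.X
    (fun a c h => h.imp (g.g0S a c) (g.g1S a c)) g.gX
  have h : b.Set2 H Hv := ⟨ok, e1, e2⟩
  have nc := h_nc h g
  have v0 := hV0 ι b H Hv h g
  refine ⟨H, b.K0 H ⊔ Hv, ok, e1, nc, h_cv hPath h g, v0, h_fr hPath h g, ?_⟩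
  intro Γ hle har x z hxz
  by_cases hf : b.Fr H 100 x z
  · have : (b.K0 H).Adj x z := (fromRel_adj _ _ _).2 ⟨hxz.ne, Or.inl ⟨hxz, hf⟩⟩
    exact (Near.of_adj (hle (Or.inl this))).mono (by norm_num)
  have hl : b.Lift H x z := ⟨hxz, hf⟩
  have hv : Hv ≤ Γ := le_sup_right.trans hle
  obtain ⟨n, e, e0, en, hmid, hstep⟩ :=
    hSeq _ b.X x z nc (e1.mem x z hxz) (e1.mem z x hxz.symm)
  obtain ⟨S, lab, hS, hlab, hsame⟩ := hTie ι b H ok e1 g x z hl
  have key : ∀ i, ∃ l : ℕ, i ≤ n → (l = 0 ∧ Near Hv 260 (e i) x) ∨ (l = 1 ∧ Near Hv 260 (e i) z) ∨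
      ∃ y d', b.G0 H y d' ∧ Sep x z y d' ∧ Near Hv 260 (e i) y ∧ l = lab y d' + 2 := by
    intro i
    by_cases h0 : i = 0
    · exact ⟨0, fun _ => Or.inl ⟨rfl, by rw [h0, e0]; exact Near.refl _ _ _⟩⟩
    by_cases h1 : i < n
    · obtain ⟨d, hd, hs⟩ := hmid i (Nat.pos_of_ne_zero h0) h1
      rcases h_cross hPath h g hl hd hs with h2 | h2 | ⟨y, d', h2, h3, h4⟩
      · exact ⟨0, fun _ => Or.inl ⟨rfl, h2⟩⟩
      · exact ⟨1, fun _ => Or.inr (Or.inl ⟨rfl, h2⟩)⟩
      · exact ⟨_, fun _ => Or.inr (Or.inr ⟨y, d', h2, h3, h4, rfl⟩)⟩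
    · refine ⟨1, fun h2 => Or.inr (Or.inl ⟨rfl, ?_⟩)⟩
      rw [show i = n by omega, en]; exact Near.refl _ _ _
  choose l hl' using key
  have hc : (insert 0 (insert 1 (S.image (· + 2)))).card ≤ 28 := by
    have h1 := Finset.card_insert_le 0 (insert 1 (S.image (· + 2)))
    have h2 := Finset.card_insert_le 1 (S.image (· + 2))
    have h3 := Finset.card_image_le (s := S) (f := (· + 2))
    omega
  have main := hPath.label Γ (insert 0 (insert 1 (S.image (· + 2)))) e l n 1616 525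
    (fun i hi => by
      rcases hl' i hi with ⟨h1, -⟩ | ⟨h1, -⟩ | ⟨y, d', h1, h2, -, h3⟩
      · rw [h1]; simp
      · rw [h1]; simp
      · rw [h3]
        exact Finset.mem_insert_of_mem (Finset.mem_insert_of_mem
          (Finset.mem_image_of_mem _ (hlab y d' h1 h2))))
    (fun i hi => by
      obtain ⟨T, hT, h1, h2⟩ := hstep i hi
      have h3 := hInFace ι b H _ Γ ok e1 nc v0 hle har x z T hxz hT
      exact ((Near.le h1 hle).trans h3).trans (Near.le h2 hle).symm)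
    (fun i hi j hj hij => by
      refine Near.le ?_ hv
      rcases hl' i hi with ⟨h1, h2⟩ | ⟨h1, h2⟩ | ⟨y, d', h1, h2, h3, h4⟩ <;>
        rcases hl' j hj with ⟨k1, k2⟩ | ⟨k1, k2⟩ | ⟨y', d'', k1, k2, k3, k4⟩
      · exact (h2.trans k2.symm).mono (by norm_num)
      · omega
      · omega
      · omega
      · exact (h2.trans k2.symm).mono (by norm_num)
      · omega
      · omega
      · omega
      · have h5 := e2.near y y' (Or.inr (hsame y d' y' d'' h1 h2 k1 k2 (by omega)))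
        exact (h3.trans h5).trans k3.symm)
  rw [e0, en] at main
  exact main.mono (by omega)

end Pool.Agent.Lib.MP_f9389f_co.SC
end

-- part Pool.Agent.Lib.MP_f9389f_co.SC.CoreFace
section

/-! Faces of large cores. -/

namespace Pool.Agent.Lib.MP_f9389f_co.SC

universe u

open SimpleGraph

section

variable {ι : Type u} {b : Band ι} {H E : SimpleGraph ℕ}

/-- First exit from a ball along the chain of feet. -/
theorem coreFace_exit (h : b.HOut H E) {r r' : ι} (hr : b.Sc r r') (n : ℕ)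
    (hn : ¬ Near H n (b.p r) (b.p r')) :
    ∃ x, b.Sc r x ∧ ¬ Near H n (b.p r) (b.p x) ∧ Near H (n + 5) (b.p r) (b.p x) := by
  have key : ∀ y, Relation.ReflTransGen
      (fun x y => b.Sc r x ∧ b.Sc r y ∧ b.Mq (b.p x) (b.p y)) r y →
      Near H n (b.p r) (b.p y) ∨
        ∃ x, b.Sc r x ∧ ¬ Near H n (b.p r) (b.p x) ∧ Near H (n + 5) (b.p r) (b.p x) := by
    intro y hy
    induction hy with
    | refl => exact Or.inl (Near.refl _ _ _)
    | @tail x y _ h2 ih =>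
      rcases ih with h3 | h3
      · by_cases h4 : Near H n (b.p r) (b.p y)
        · exact Or.inl h4
        · refine Or.inr ⟨y, h2.2.1, h4, h3.trans ?_⟩
          rcases h2.2.2 with h5 | h5
          · exact h.e1.near _ _ h5
          · rw [h5]; exact Near.refl _ _ _
      · exact Or.inr h3
  exact (key r' (h.ok.conn r r' hr)).resolve_left hn

theorem coreFace_refs (h : b.HOut H E) {t : ι} (ht : b.Large H t) :
    ∃ a : Fin 4 → ι, (∀ i, b.Sc t (a i)) ∧
      ∀ i k, i ≠ k → ¬ Near H 1210000 (b.p (a i)) (b.p (a k)) := by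
  obtain ⟨r, r', h1, h2, h3⟩ := ht
  have h4 : b.Sc r r' := h.ok.scT _ _ _ (h.ok.scS _ _ h1) h2
  obtain ⟨x, x1, x2, x3⟩ := coreFace_exit h h4 1210000 fun e => h3 (e.mono (by norm_num))
  obtain ⟨y, y1, y2, y3⟩ := coreFace_exit h h4 2420005 fun e => h3 (e.mono (by norm_num))
  have n02 : ¬ Near H 1210000 (b.p r) (b.p y) := fun e => y2 (e.mono (by norm_num))
  have n03 : ¬ Near H 1210000 (b.p r) (b.p r') := fun e => h3 (e.mono (by norm_num))
  have n12 : ¬ Near H 1210000 (b.p x) (b.p y) := fun e => y2 ((x3.trans e).mono (by norm_num))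
  have n13 : ¬ Near H 1210000 (b.p x) (b.p r') := fun e => h3 ((x3.trans e).mono (by norm_num))
  have n23 : ¬ Near H 1210000 (b.p y) (b.p r') := fun e => h3 ((y3.trans e).mono (by norm_num))
  refine ⟨![r, x, y, r'], fun i => ?_, fun i k hik => ?_⟩
  · fin_cases i
    exacts [h1, h.ok.scT _ _ _ h1 x1, h.ok.scT _ _ _ h1 y1, h2]
  · fin_cases i <;> fin_cases k
    exacts [absurd rfl hik, x2, n02, n03, fun e => x2 e.symm, absurd rfl hik, n12, n13,
      fun e => n02 e.symm, fun e => n12 e.symm, absurd rfl hik, n23, fun e => n03 e.symm,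
      fun e => n13 e.symm, fun e => n23 e.symm, absurd rfl hik]

/-- Far feet of a large core lie on one side of an edge. -/
theorem coreFace_side (h : b.HOut H E) {t r r' : ι} (ht : b.Large H t) (hr : b.Sc t r)
    (hr' : b.Sc t r') {c d : ℕ} (hcd : E.Adj c d) (h1 : ¬ Near H 1000 c (b.p r))
    (h2 : ¬ Near H 1000 d (b.p r)) (h3 : ¬ Near H 1000 c (b.p r'))
    (h4 : ¬ Near H 1000 d (b.p r')) (h5 : c < b.p r) (h6 : b.p r < d) :
    c < b.p r' ∧ b.p r' < d := by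
  have hl : b.Large H r := by
    obtain ⟨s, s', e1, e2, e3⟩ := ht
    exact ⟨s, s', h.ok.scT _ _ _ (h.ok.scS _ _ hr) e1, h.ok.scT _ _ _ (h.ok.scS _ _ hr) e2, e3⟩
  have hs : ¬ Sep c d (b.p r) (b.p r') := fun e => by
    rcases h.fr c d hcd r r' hl (h.ok.scT _ _ _ (h.ok.scS _ _ hr) hr') e with e | e | e | e
    exacts [h1 e, h3 e, h2 e, h4 e]
  have e1 : c ≠ b.p r' := fun e => h3 (e ▸ Near.refl _ _ _)
  have e2 : d ≠ b.p r' := fun e => h4 (e ▸ Near.refl _ _ _)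
  unfold Sep Btw Out at hs
  omega

/-- Some foot is far from two given edges. -/
theorem coreFace_far (h : b.HOut H E) {t : ι} (ht : b.Large H t) {c d c' d' : ℕ}
    (hcd : E.Adj c d) (hcd' : E.Adj c' d') : ∃ r, b.Sc t r ∧ ¬ Near H 1000 c (b.p r) ∧
      ¬ Near H 1000 d (b.p r) ∧ ¬ Near H 1000 c' (b.p r) ∧ ¬ Near H 1000 d' (b.p r) := by
  obtain ⟨a, ha, hf⟩ := coreFace_refs h ht
  have one : ∀ x y, E.Adj x y → ∀ i k, Near H 1000 x (b.p (a i)) ∨ Near H 1000 y (b.p (a i)) →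
      Near H 1000 x (b.p (a k)) ∨ Near H 1000 y (b.p (a k)) → i = k := by
    intro x y hxy i k hi hk
    by_contra e
    have hc := h.cv x y hxy
    refine hf i k e ?_
    rcases hi with hi | hi <;> rcases hk with hk | hk
    · exact (hi.symm.trans hk).mono (by norm_num)
    · exact ((hi.symm.trans hc).trans hk).mono (by norm_num)
    · exact ((hi.symm.trans hc.symm).trans hk).mono (by norm_num)
    · exact (hi.symm.trans hk).mono (by norm_num)
  by_contra hn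
  have all : ∀ i, (Near H 1000 c (b.p (a i)) ∨ Near H 1000 d (b.p (a i))) ∨
      (Near H 1000 c' (b.p (a i)) ∨ Near H 1000 d' (b.p (a i))) := by
    intro i
    by_contra e
    exact hn ⟨a i, ha i, fun e' => e (Or.inl (Or.inl e')), fun e' => e (Or.inl (Or.inr e')),
      fun e' => e (Or.inr (Or.inl e')), fun e' => e (Or.inr (Or.inr e'))⟩
  rcases all 0 with e0 | e0 <;> rcases all 1 with e1 | e1 <;> rcases all 2 with e2 | e2
  · exact absurd (one _ _ hcd _ _ e0 e1) (by decide)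
  · exact absurd (one _ _ hcd _ _ e0 e1) (by decide)
  · exact absurd (one _ _ hcd _ _ e0 e2) (by decide)
  · exact absurd (one _ _ hcd' _ _ e1 e2) (by decide)
  · exact absurd (one _ _ hcd _ _ e1 e2) (by decide)
  · exact absurd (one _ _ hcd' _ _ e0 e2) (by decide)
  · exact absurd (one _ _ hcd' _ _ e0 e1) (by decide)
  · exact absurd (one _ _ hcd' _ _ e0 e1) (by decide)

end

theorem coreFaceStmt (hPath : PathStmt) (hFace : FaceStmt) : CoreFaceStmt.{u} := by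
  intro ι b H E h
  refine ⟨fun t ht => coreFace_refs h ht, fun t ht => ?_⟩
  obtain ⟨T, hT, hP⟩ := hFace.ofIn E b.X (fun c d => ∃ r, b.Sc t r ∧ ¬ Near H 1000 c (b.p r) ∧
      ¬ Near H 1000 d (b.p r) ∧ c < b.p r ∧ b.p r < d) h.nc (by
    rintro c d c' d' hcd hcd' h1 h2 ⟨r, r1, r2, r3, r4, r5⟩ ⟨s, s1, s2, s3, s4, s5⟩
    obtain ⟨v, v1, v2, v3, v4, v5⟩ := coreFace_far h ht hcd hcd'
    have e1 := coreFace_side h ht r1 v1 hcd r2 r3 v2 v3 r4 r5
    have e2 := coreFace_side h ht s1 v1 hcd' s2 s3 v4 v5 s4 s5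
    have e3 := h.nc.nc _ _ _ _ hcd hcd'
    unfold Sep Btw Out at e3
    omega) (by
    rintro c d c' d' hcd hcd' h1 h2 h3 ⟨r, r1, r2, r3, r4, r5⟩
    obtain ⟨v, v1, v2, v3, v4, v5⟩ := coreFace_far h ht hcd hcd'
    have e1 := coreFace_side h ht r1 v1 hcd r2 r3 v2 v3 r4 r5
    exact ⟨v, v1, v4, v5, by omega, by omega⟩)
  refine ⟨T, hT, fun r a hr ha hn => ?_⟩
  by_cases hf : a ∈ Face E b.X T
  · rw [hFace.fix E b.X T a hf]; exact hn.mono (by norm_num)
  obtain ⟨c, d, hcd, -, -, hb, hlt, b1, b2, b3⟩ := hFace.bey E b.X T a h.nc hT ha hf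
  have hb' : Btw c d a ∨ Out c d a := hb.imp And.left And.left
  have hc := h.cv c d hcd
  have hp := b3 a ha (Or.inr (Or.inr (by unfold Sep Btw Out at *; omega)))
  have fin : Near H 1000 c (b.p r) ∨ Near H 1000 d (b.p r) := by
    by_contra e
    have e1 : ¬ Near H 1000 c (b.p r) := fun e' => e (Or.inl e')
    have e2 : ¬ Near H 1000 d (b.p r) := fun e' => e (Or.inr e')
    have e3 : c ≠ b.p r := fun e' => e1 (e' ▸ Near.refl _ _ _)
    have e4 : d ≠ b.p r := fun e' => e2 (e' ▸ Near.refl _ _ _)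
    have hs : Sep c d (b.p r) a := by
      rcases hb' with hb' | hb'
      · have e5 : ¬ (c < b.p r ∧ b.p r < d) := fun e' =>
          b1 hb' ((hP c d hcd hlt).1 ⟨r, hr, e1, e2, e'.1, e'.2⟩)
        unfold Sep Btw Out at *
        omega
      · obtain ⟨s, s1, s2, s3, s4, s5⟩ := (hP c d hcd hlt).2 (by rw [← b2 hb']; exact ⟨le_rfl, le_rfl⟩)
        have e5 := coreFace_side h ht s1 hr hcd s2 s3 e1 e2 s4 s5
        unfold Sep Btw Out at *
        omega
    exact e1 ((hPath.cut H 55 624 (b.p r) a c d h.e1.nc hn hc hs).symm.mono (by norm_num))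
  rcases hp with hp | hp <;> rw [hp] <;> rcases fin with e | e
  · exact e.symm.mono (by norm_num)
  · exact (e.symm.trans hc.symm).mono (by norm_num)
  · exact (e.symm.trans hc).mono (by norm_num)
  · exact e.symm.mono (by norm_num)

end Pool.Agent.Lib.MP_f9389f_co.SC
end
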