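import Mathlib
import Pool.Agent.Lib.MP_f9389f_co.SC.Basic

-- part Pool.Agent.Lib.MP_f9389f_co.SC.Prov
section

/-! The order and the fuzz on a core. -/

namespace Pool.Agent.Lib.MP_f9389f_co.SC

universe u

open SimpleGraph

namespace Cx

variable {V : Type u} {c : Cx V} {lam : ℕ}

theorem prov_D_comm (a b : V) : c.D lam a b = c.D lam b a := d_comm _ _

theorem prov_D_self (a : V) : c.D lam a a = 0 := d_self _

theorem Env.prov_tri (h : c.Env) (lam : ℕ) (a b e : V) :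
    c.D lam a e ≤ c.D lam a b + c.D lam b e := h.tri _ _ _

variable (c lam) in
/-- Connected sets above the rims that join `a, e` and `b, f` are near each other. -/
def ProvX (a e b f : V) : Prop :=
  ∀ P Q : Set V, Conn c.G 1 P → Conn c.G 1 Q → P ⊆ c.Up (lam + 25 * c.K) →
    Q ⊆ c.Up (lam + 25 * c.K) → c.σ a (lam + 25 * c.K) ∈ P → c.σ e (lam + 25 * c.K) ∈ P →
    c.σ b (lam + 25 * c.K) ∈ Q → c.σ f (lam + 25 * c.K) ∈ Q → ¬ Apart c.G (6 * c.K) P Q

theorem ProvX.left {a e b f : V} (h : c.ProvX lam a e b f) : c.ProvX lam e a b f :=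
  fun P Q h1 h2 h3 h4 h5 h6 h7 h8 => h P Q h1 h2 h3 h4 h6 h5 h7 h8

theorem ProvX.right {a e b f : V} (h : c.ProvX lam a e b f) : c.ProvX lam a e f b :=
  fun P Q h1 h2 h3 h4 h5 h6 h7 h8 => h P Q h1 h2 h3 h4 h5 h6 h8 h7

theorem ProvX.symm {a e b f : V} (h : c.ProvX lam a e b f) : c.ProvX lam b f a e :=
  fun P Q h1 h2 h3 h4 h5 h6 h7 h8 h9 => h Q P h2 h1 h4 h3 h7 h8 h5 h6 h9.symm

variable (c lam) in
/-- A rim from `a` to `b` that avoids the far outer points of the class `S`. -/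
def ProvR (S : V → Prop) (ρ : V → ℕ) (a b : V) : Prop :=
  ∃ R : Set V, Conn c.G 1 R ∧ c.σ a lam ∈ R ∧ c.σ b lam ∈ R ∧
    (∀ v ∈ R, lam ≤ c.lv v + 15 * c.K ∧ c.lv v ≤ lam + 15 * c.K) ∧
    ∀ e, S e → Out (ρ a) (ρ b) (ρ e) → 200 * c.K ≤ c.D lam a e →
      200 * c.K ≤ c.D lam b e → Apart c.G (6 * c.K) R (c.Vt e)

theorem ProvR.symm {S : V → Prop} {ρ : V → ℕ} {a b : V} (h : c.ProvR lam S ρ a b) :
    c.ProvR lam S ρ b a := by
  obtain ⟨R, h1, h2, h3, h4, h5⟩ := h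
  exact ⟨R, h1, h3, h2, h4, fun e he ho ha hb => h5 e he (by unfold Out at *; omega) hb ha⟩

variable (c lam) in
/-- The order and the fuzz on one class `S`. -/
structure ProvAt (S : V → Prop) (ρ : V → ℕ) (F : V → V → Prop) : Prop where
  inj : ∀ a b, S a → S b → ρ a = ρ b → a = b
  symm : ∀ a b, F a b → F b a
  close : ∀ a b, S a → S b → c.D lam a b ≤ 400 * c.K → F a b
  bound : ∀ a b, S a → S b → F a b → c.D lam a b ≤ 3042 * c.K
  clo : ∀ a e b f, S a → S e → S b → S f → F a e → Sep (ρ a) (ρ e) (ρ b) (ρ f) → Cr F a e b f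
  xl : ∀ a e b f, S a → S e → S b → S f → Sep (ρ a) (ρ e) (ρ b) (ρ f) → ¬ Cr F a e b f →
    c.ProvX lam a e b f
  rim : ∀ a b, S a → S b → 200 * c.K ≤ c.D lam a b → c.ProvR lam S ρ a b

section Tok

variable {L : ℕ} {x₀ : V} {Tk : Finset V} {τ : V → ℕ}

theorem Rim.prov_bc (h : c.Rim lam L x₀ Tk τ) {A B : V} (hA : A ∈ Tk) (hB : B ∈ Tk) :
    c.Bc L A B := (h.base A hA).symm.trans (h.base B hB)

theorem Rim.prov_sep (h : c.Rim lam L x₀ Tk τ) {A B : V} (hA : A ∈ Tk) (hB : B ∈ Tk)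
    (e : τ A ≠ τ B) : 15 * c.K ≤ c.D lam A B := h.sep A hA B hB fun e' => e (by rw [e'])

theorem Rim.prov_ne (h : c.Rim lam L x₀ Tk τ) {A B : V} (hA : A ∈ Tk) (hB : B ∈ Tk)
    (e : 0 < c.D lam A B) : τ A ≠ τ B := fun e' => by
  rw [h.inj hA hB e', prov_D_self] at e
  exact lt_irrefl _ e

theorem Rim.prov_s1 (h : c.Rim lam L x₀ Tk τ) (hS : c.Side lam L) {n : ℕ} (h1 : 5 * c.K ≤ n)
    (h2 : n ≤ 500 * c.K) {A B C E : V} (hA : A ∈ Tk) (hB : B ∈ Tk) (hC : C ∈ Tk) (hE : E ∈ Tk)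
    (l1 : τ A < τ B) (l2 : τ B < τ C) (l3 : τ C < τ E) (d1 : c.D lam A C ≤ n)
    (d2 : 2 * n + 6 * c.K ≤ c.D lam A B) (d3 : 2 * n + 6 * c.K ≤ c.D lam A E) : False := by
  obtain ⟨M, m1, m2, m3, m4, m5⟩ := h.rim B hB C hC l2
  obtain ⟨M', n1, n2, n3, n4, n5⟩ := h.rim C hC E hE l3
  exact hS.side n A B C E M M' h1 h2 (h.prov_bc hA hB) (h.prov_bc hA hC) (h.prov_bc hA hE)
    ⟨m1, m2, m3 C hC (by omega), m3 B hB (by omega), m3 E hE (by omega), m5, m4⟩
    ⟨n1, n2, n3 C hC (by omega), n3 E hE (by omega), n3 B hB (by omega), n4, n5⟩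
    (m3 A hA (by omega)) (n3 A hA (by omega)) (h.prov_sep hB hC (by omega))
    (h.prov_sep hC hE (by omega)) (h.prov_sep hB hE (by omega)) (h.prov_sep hA hC (by omega))
    d1 d2 d3

theorem Rim.prov_s2 (h : c.Rim lam L x₀ Tk τ) (hS : c.Side lam L) {n : ℕ} (h1 : 5 * c.K ≤ n)
    (h2 : n ≤ 500 * c.K) {A B C E : V} (hA : A ∈ Tk) (hB : B ∈ Tk) (hC : C ∈ Tk) (hE : E ∈ Tk)
    (l1 : τ E < τ C) (l2 : τ C < τ B) (l3 : τ B < τ A) (d1 : c.D lam A C ≤ n)
    (d2 : 2 * n + 6 * c.K ≤ c.D lam A B) (d3 : 2 * n + 6 * c.K ≤ c.D lam A E) : False := by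
  obtain ⟨M, m1, m2, m3, m4, m5⟩ := h.rim C hC B hB l2
  obtain ⟨M', n1, n2, n3, n4, n5⟩ := h.rim E hE C hC l1
  exact hS.side n A B C E M M' h1 h2 (h.prov_bc hA hB) (h.prov_bc hA hC) (h.prov_bc hA hE)
    ⟨m1, m2, m3 C hC (by omega), m3 B hB (by omega), m3 E hE (by omega), m4, m5⟩
    ⟨n1, n2, n3 C hC (by omega), n3 E hE (by omega), n3 B hB (by omega), n5, n4⟩
    (m3 A hA (by omega)) (n3 A hA (by omega)) (h.prov_sep hB hC (by omega))
    (h.prov_sep hC hE (by omega)) (h.prov_sep hB hE (by omega)) (h.prov_sep hA hC (by omega))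
    d1 d2 d3

variable (c lam Tk τ) in
/-- The fuzz on tokens: both lie on a short side of a short chord. -/
def ProvG (B E : V) : Prop :=
  ∃ A ∈ Tk, ∃ C ∈ Tk, τ A ≤ τ C ∧
    (((∀ X ∈ Tk, τ A ≤ τ X ∧ τ X ≤ τ C → c.D lam A X ≤ 1506 * c.K) ∧
      (τ A ≤ τ B ∧ τ B ≤ τ C) ∧ (τ A ≤ τ E ∧ τ E ≤ τ C)) ∨
    ((∀ X ∈ Tk, τ X ≤ τ A ∨ τ C ≤ τ X → c.D lam A X ≤ 1506 * c.K) ∧
      (τ B ≤ τ A ∨ τ C ≤ τ B) ∧ (τ E ≤ τ A ∨ τ C ≤ τ E)))

theorem ProvG.symm {B E : V} (h : c.ProvG lam Tk τ B E) : c.ProvG lam Tk τ E B := by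
  obtain ⟨A, hA, C, hC, h1, h2⟩ := h
  exact ⟨A, hA, C, hC, h1, h2.imp (fun h => ⟨h.1, h.2.2, h.2.1⟩) fun h => ⟨h.1, h.2.2, h.2.1⟩⟩

theorem ProvG.bound (he : c.Env) {B E : V} (hB : B ∈ Tk) (hE : E ∈ Tk)
    (h : c.ProvG lam Tk τ B E) : c.D lam B E ≤ 3012 * c.K := by
  obtain ⟨A, -, C, -, -, h2⟩ := h
  have h3 := he.prov_tri lam B A E
  rw [prov_D_comm B A] at h3
  rcases h2 with ⟨h, h4, h5⟩ | ⟨h, h4, h5⟩
  · have := h B hB h4; have := h E hE h5; omega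
  · have := h B hB h4; have := h E hE h5; omega

theorem Rim.prov_key' (he : c.Env) (h : c.Rim lam L x₀ Tk τ) (hS : c.Side lam L) {A C : V}
    (hA : A ∈ Tk) (hC : C ∈ Tk) (l : τ A ≤ τ C) (d : c.D lam A C ≤ 500 * c.K) :
    c.ProvG lam Tk τ A C := by
  refine ⟨A, hA, C, hC, l, ?_⟩
  by_cases h1 : ∀ X ∈ Tk, τ A ≤ τ X ∧ τ X ≤ τ C → c.D lam A X ≤ 1506 * c.K
  · exact Or.inl ⟨h1, by omega, by omega⟩
  refine Or.inr ⟨fun E hE lE => ?_, by omega, by omega⟩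
  by_contra dE
  push Not at h1
  obtain ⟨B, hB, lB, dB⟩ := h1
  have hK := he.one
  have t1 := he.prov_tri lam A C B
  have t2 := he.prov_tri lam A C E
  have n1 := h.prov_ne hA hB (by omega)
  have n2 := h.prov_ne hC hB (by omega)
  have n3 := h.prov_ne hA hE (by omega)
  have n4 := h.prov_ne hC hE (by omega)
  rcases lE with lE | lE
  · exact h.prov_s2 hS (n := 500 * c.K) (by omega) le_rfl hC hB hA hE (by omega) (by omega)
      (by omega) (by rw [prov_D_comm]; exact d) (by omega) (by omega)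
  · exact h.prov_s1 hS (n := 500 * c.K) (by omega) le_rfl hA hB hC hE (by omega) (by omega)
      (by omega) d (by omega) (by omega)

theorem Rim.prov_key (he : c.Env) (h : c.Rim lam L x₀ Tk τ) (hS : c.Side lam L) {A C : V}
    (hA : A ∈ Tk) (hC : C ∈ Tk) (d : c.D lam A C ≤ 500 * c.K) : c.ProvG lam Tk τ A C := by
  rcases le_total (τ A) (τ C) with l | l
  · exact h.prov_key' he hS hA hC l d
  · exact (h.prov_key' he hS hC hA l (by rw [prov_D_comm]; exact d)).symm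

theorem ProvG.clo {A E X Y : V} (h : c.ProvG lam Tk τ A E)
    (hX : (τ A ≤ τ X ∧ τ X ≤ τ E) ∨ (τ E ≤ τ X ∧ τ X ≤ τ A))
    (hY : (τ Y ≤ τ A ∧ τ Y ≤ τ E) ∨ (τ A ≤ τ Y ∧ τ E ≤ τ Y)) :
    c.ProvG lam Tk τ A X ∨ c.ProvG lam Tk τ A Y := by
  obtain ⟨P, hP, Q, hQ, l, ⟨h1, h2, h3⟩ | ⟨h1, h2, h3⟩⟩ := h
  · exact Or.inl ⟨P, hP, Q, hQ, l, Or.inl ⟨h1, h2, by omega⟩⟩
  · by_cases h4 : τ X ≤ τ P ∨ τ Q ≤ τ X
    · exact Or.inl ⟨P, hP, Q, hQ, l, Or.inr ⟨h1, h2, h4⟩⟩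
    · exact Or.inr ⟨P, hP, Q, hQ, l, Or.inr ⟨h1, h2, by omega⟩⟩

variable {tok : V → V}

theorem Rim.prov_xs (h : c.Rim lam L x₀ Tk τ) (hS : c.Side lam L) (hX : c.XL lam L)
    (ht : ∀ a, c.Bc L x₀ a → tok a ∈ Tk ∧ c.D lam a (tok a) < 15 * c.K) {a b e f : V}
    (ha : c.Bc L x₀ a) (hb : c.Bc L x₀ b) (hc : c.Bc L x₀ e) (hf : c.Bc L x₀ f)
    (l1 : τ (tok a) ≤ τ (tok b)) (l2 : τ (tok b) ≤ τ (tok e)) (l3 : τ (tok e) ≤ τ (tok f))
    (d1 : 500 * c.K < c.D lam (tok a) (tok b)) (d2 : 500 * c.K < c.D lam (tok b) (tok e))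
    (d3 : 500 * c.K < c.D lam (tok e) (tok f)) (d4 : 500 * c.K < c.D lam (tok a) (tok f)) :
    c.ProvX lam a e b f := by
  obtain ⟨hA, a1⟩ := ht a ha
  obtain ⟨hB, b1⟩ := ht b hb
  obtain ⟨hC, c1⟩ := ht e hc
  obtain ⟨hE, e1⟩ := ht f hf
  have n1 := h.prov_ne hA hB (by omega)
  have n2 := h.prov_ne hB hC (by omega)
  have n3 := h.prov_ne hC hE (by omega)
  have g1 : 152 * c.K ≤ c.D lam (tok a) (tok e) := by
    by_contra g
    exact h.prov_s1 hS (n := 152 * c.K) (by omega) (by omega) hA hB hC hE (by omega) (by omega)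
      (by omega) (by omega) (by omega) (by omega)
  have g2 : 152 * c.K ≤ c.D lam (tok b) (tok f) := by
    by_contra g
    exact h.prov_s2 hS (n := 152 * c.K) (by omega) (by omega) hE hC hB hA (by omega) (by omega)
      (by omega) (by rw [prov_D_comm]; omega) (by rw [prov_D_comm]; omega)
      (by rw [prov_D_comm]; omega)
  exact hX x₀ Tk τ h _ hA _ hB _ hC _ hE (by omega) (by omega) (by omega) (by omega) g1 (by omega)
    (by omega) g2 (by omega) a b e f ha.2.1 hb.2.1 hc.2.1 hf.2.1 a1 b1 c1 e1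

theorem Rim.prov_rim (he : c.Env) (h : c.Rim lam L x₀ Tk τ) (hS : c.Side lam L) (hL : lam ≤ L)
    (ht : ∀ a, c.Bc L x₀ a → tok a ∈ Tk ∧ c.D lam a (tok a) < 15 * c.K) {ρ : V → ℕ}
    (hm : ∀ a b, c.Bc L x₀ a → c.Bc L x₀ b → ρ a < ρ b → τ (tok a) ≤ τ (tok b)) {a b : V}
    (ha : c.Bc L x₀ a) (hb : c.Bc L x₀ b) (l : τ (tok a) < τ (tok b))
    (d : 200 * c.K ≤ c.D lam a b) : c.ProvR lam (c.Bc L x₀) ρ a b := by
  obtain ⟨hA, a1⟩ := ht a ha
  obtain ⟨hB, b1⟩ := ht b hb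
  obtain ⟨M, m1, m2, m3, ⟨m, hm1, hm2⟩, m', hm3, hm4⟩ := h.rim _ hA _ hB l
  have arm : ∀ x, c.Bc L x₀ x → ∀ z, c.d (c.σ (tok x) lam) z ≤ 4 * c.K →
      Conn c.G 1 (c.I (c.σ x lam) (c.σ (tok x) lam) ∪ c.I (c.σ (tok x) lam) z) ∧
      ∀ v ∈ c.I (c.σ x lam) (c.σ (tok x) lam) ∪ c.I (c.σ (tok x) lam) z,
        (lam ≤ c.lv v + 15 * c.K ∧ c.lv v ≤ lam + 15 * c.K) ∧ c.d (c.σ x lam) v ≤ 19 * c.K := by
    intro x hx z hz
    obtain ⟨hX, x1⟩ := ht x hx
    have x2 : c.d (c.σ x lam) (c.σ (tok x) lam) < 15 * c.K := x1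
    have v1 := he.lev x lam (by rw [hx.2.1]; exact hL)
    have v2 := he.lev (tok x) lam (by rw [(h.base _ hX).2.1]; exact hL)
    refine ⟨(he.conn_I _ _).union' (he.conn_I _ _) (right_I _ _) (left_I _ _), ?_⟩
    rintro v (hv | hv)
    · have := mem_I hv
      have := he.lip (c.σ x lam) v
      have := he.lip' (c.σ x lam) v
      omega
    · have := mem_I hv
      have := he.lip (c.σ (tok x) lam) v
      have := he.lip' (c.σ (tok x) lam) v
      have := he.tri (c.σ x lam) (c.σ (tok x) lam) v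
      omega
  obtain ⟨ca, pa⟩ := arm a ha m hm2
  obtain ⟨cb, pb⟩ := arm b hb m' hm4
  have lv : ∀ v ∈ (M ∪ (c.I (c.σ a lam) (c.σ (tok a) lam) ∪ c.I (c.σ (tok a) lam) m)) ∪
      (c.I (c.σ b lam) (c.σ (tok b) lam) ∪ c.I (c.σ (tok b) lam) m'),
      lam ≤ c.lv v + 15 * c.K ∧ c.lv v ≤ lam + 15 * c.K := by
    rintro v ((hv | hv) | hv)
    exacts [by have := m2 v hv; omega, (pa v hv).1, (pb v hv).1]
  refine ⟨_, (m1.union' ca hm1 (Or.inr (right_I _ _))).union' cb (Or.inl hm3)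
    (Or.inr (right_I _ _)), Or.inl (Or.inr (Or.inl (left_I _ _))), Or.inr (Or.inl (left_I _ _)),
    lv, fun e hc ho da db v hv w hw => ?_⟩
  obtain ⟨hE, e1⟩ := ht e hc
  by_contra hvw
  have s1 : c.d v w < 6 * c.K := not_le.1 hvw
  have s2 := lv v hv
  have s3 := he.lip v w
  have s4 := he.lip' v w
  have s5 := he.vt_near (n := lam) (k := 21 * c.K) hw (by omega) (by omega)
  have s6 := he.tri (c.σ e lam) w v
  rw [d_comm w v] at s6
  have s7 : ∀ x, c.D lam x e ≤ c.d (c.σ x lam) v + c.d (c.σ e lam) v := fun x => by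
    rw [d_comm (c.σ e lam)]; exact he.tri _ _ _
  rcases hv with (hv | hv) | hv
  · have tk : ∀ x y, c.Bc L x₀ x → c.Bc L x₀ y →
        c.D lam x y ≤ c.D lam (tok x) (tok y) + 30 * c.K := fun x y hx hy => by
      have := (ht x hx).2
      have := (ht y hy).2
      have := he.prov_tri lam x (tok x) y
      have := he.prov_tri lam (tok x) (tok y) y
      rw [prov_D_comm (tok y) y] at this
      omega
    have t1 := tk a b ha hb
    have t2 := tk a e ha hc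
    have t3 := tk b e hb hc
    have o1 := hm e a hc ha
    have o2 := hm b e hb hc
    have := hS.far (42 * c.K) _ _ _ M (by omega) (by omega) (h.prov_bc hA hB) (h.prov_bc hA hE)
      ⟨m1, m2, m3 _ hA (by omega), m3 _ hB (by omega), m3 _ hE (by unfold Out at ho; omega),
        ⟨m, hm1, hm2⟩, m', hm3, hm4⟩ (by omega) (by omega) (by omega) v hv
    have t4 := he.tri (c.σ (tok e) lam) (c.σ e lam) v
    have t5 : c.d (c.σ (tok e) lam) (c.σ e lam) < 15 * c.K := by rw [d_comm]; exact e1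
    omega
  · have := (pa v hv).2
    have := s7 a
    omega
  · have := (pb v hv).2
    have := s7 b
    omega

theorem Rim.prov_at (he : c.Env) (hRank : RankStmt.{u}) (h : c.Rim lam L x₀ Tk τ)
    (hS : c.Side lam L) (hX : c.XL lam L) (hL : lam ≤ L) :
    ∃ ρ F, c.ProvAt lam (c.Bc L x₀) ρ F := by
  have hK := he.one
  have fin : {a | c.Bc L x₀ a}.Finite := (he.fin L).subset fun a ha => ha.2.1.le
  obtain ⟨enc, henc⟩ := Set.countable_iff_exists_injOn.1 fin.countable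
  choose! tok ht1 ht2 using h.net
  have ht : ∀ a, c.Bc L x₀ a → tok a ∈ Tk ∧ c.D lam a (tok a) < 15 * c.K :=
    fun a ha => ⟨ht1 a ha, ht2 a ha⟩
  have kinj : Set.InjOn (fun a => toLex (τ (tok a), enc a)) fin.toFinset := fun a ha b hb e =>
    henc (by simpa using ha) (by simpa using hb) (congrArg (fun x => (ofLex x).2) e)
  obtain ⟨ρ, -, hρ⟩ := hRank V (ℕ ×ₗ ℕ) fin.toFinset _ kinj
  have hρ' := fun a b (ha : c.Bc L x₀ a) (hb : c.Bc L x₀ b) =>
    hρ a (fin.mem_toFinset.2 ha) b (fin.mem_toFinset.2 hb)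
  have hm : ∀ a b, c.Bc L x₀ a → c.Bc L x₀ b → ρ a < ρ b → τ (tok a) ≤ τ (tok b) :=
    fun a b ha hb l => by
      have := Prod.Lex.toLex_lt_toLex.1 ((hρ' a b ha hb).1 l)
      dsimp only at this
      omega
  have tk : ∀ x y, c.Bc L x₀ x → c.Bc L x₀ y →
      c.D lam x y ≤ c.D lam (tok x) (tok y) + 30 * c.K ∧
        c.D lam (tok x) (tok y) ≤ c.D lam x y + 30 * c.K := fun x y hx hy => by
    have := ht2 x hx
    have := ht2 y hy
    have := he.prov_tri lam x (tok x) y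
    have := he.prov_tri lam (tok x) (tok y) y
    have := he.prov_tri lam (tok x) x (tok y)
    have := he.prov_tri lam x y (tok y)
    have := prov_D_comm (c := c) (lam := lam) (tok y) y
    have := prov_D_comm (c := c) (lam := lam) (tok x) x
    omega
  have far : ∀ x y, c.Bc L x₀ x → c.Bc L x₀ y → ¬ c.ProvG lam Tk τ (tok x) (tok y) →
      500 * c.K < c.D lam (tok x) (tok y) ∧ 500 * c.K < c.D lam (tok y) (tok x) :=
    fun x y hx hy hn => by
      rw [prov_D_comm (tok y), and_self]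
      exact not_le.1 fun d => hn (h.prov_key he hS (ht1 x hx) (ht1 y hy) d)
  have clo : ∀ a e x y, c.Bc L x₀ a → c.Bc L x₀ e → c.Bc L x₀ x → c.Bc L x₀ y →
      c.ProvG lam Tk τ (tok a) (tok e) → Btw (ρ a) (ρ e) (ρ x) → Out (ρ a) (ρ e) (ρ y) →
      c.ProvG lam Tk τ (tok a) (tok x) ∨ c.ProvG lam Tk τ (tok a) (tok y) :=
    fun a e x y ha hc hx hy g h1 h2 => g.clo
      (h1.imp (fun l => ⟨hm _ _ ha hx l.1, hm _ _ hx hc l.2⟩)
        fun l => ⟨hm _ _ hc hx l.1, hm _ _ hx ha l.2⟩)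
      (h2.imp (fun l => ⟨hm _ _ hy ha l.1, hm _ _ hy hc l.2⟩)
        fun l => ⟨hm _ _ ha hy l.1, hm _ _ hc hy l.2⟩)
  have xl : ∀ a e x y, c.Bc L x₀ a → c.Bc L x₀ e → c.Bc L x₀ x → c.Bc L x₀ y →
      Btw (ρ a) (ρ e) (ρ x) → Out (ρ a) (ρ e) (ρ y) →
      ¬ c.ProvG lam Tk τ (tok a) (tok x) → ¬ c.ProvG lam Tk τ (tok a) (tok y) →
      ¬ c.ProvG lam Tk τ (tok e) (tok x) → ¬ c.ProvG lam Tk τ (tok e) (tok y) →
      c.ProvX lam a e x y := fun a e x y ha hc hx hy h1 h2 g1 g2 g3 g4 => by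
    have f1 := far a x ha hx g1
    have f2 := far a y ha hy g2
    have f3 := far e x hc hx g3
    have f4 := far e y hc hy g4
    rcases h1 with l | l <;> rcases h2 with l' | l'
    · exact (h.prov_xs hS hX ht hy ha hx hc (hm _ _ hy ha l'.1) (hm _ _ ha hx l.1)
        (hm _ _ hx hc l.2) f2.2 f1.1 f3.2 f4.2).symm.right
    · exact h.prov_xs hS hX ht ha hx hc hy (hm _ _ ha hx l.1) (hm _ _ hx hc l.2)
        (hm _ _ hc hy l'.2) f1.1 f3.2 f4.1 f2.1
    · exact (h.prov_xs hS hX ht hy hc hx ha (hm _ _ hy hc l'.2) (hm _ _ hc hx l.1)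
        (hm _ _ hx ha l.2) f4.2 f3.1 f1.2 f2.2).symm.right.left
    · exact (h.prov_xs hS hX ht hc hx ha hy (hm _ _ hc hx l.1) (hm _ _ hx ha l.2)
        (hm _ _ ha hy l'.1) f3.1 f1.2 f2.1 f4.1).left
  refine ⟨ρ, fun a b => c.ProvG lam Tk τ (tok a) (tok b), fun a b ha hb e => ?_,
    fun a b g => g.symm, fun a b ha hb d => ?_, fun a b ha hb g => ?_,
    fun a e b f ha hc hb hf g s => ?_, fun a e b f ha hc hb hf s g => ?_, fun a b ha hb d => ?_⟩
  · exact kinj (by simpa using ha) (by simpa using hb) (le_antisymm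
      (not_lt.1 fun l => ((hρ' b a hb ha).2 l).ne' e) (not_lt.1 fun l => ((hρ' a b ha hb).2 l).ne e))
  · exact h.prov_key he hS (ht1 a ha) (ht1 b hb) (by have := (tk a b ha hb).2; omega)
  · have := g.bound he (ht1 a ha) (ht1 b hb)
    have := (tk a b ha hb).1
    omega
  · rcases s with s | s
    · exact (clo a e b f ha hc hb hf g s.1 s.2).imp id Or.inl
    · exact (clo a e f b ha hc hf hb g s.2 s.1).symm.imp id Or.inl
  · simp only [Cr, not_or] at g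
    rcases s with s | s
    · exact xl a e b f ha hc hb hf s.1 s.2 g.1 g.2.1 g.2.2.1 g.2.2.2
    · exact (xl a e f b ha hc hf hb s.2 s.1 g.2.1 g.1 g.2.2.2 g.2.2.1).right
  · have := (tk a b ha hb).1
    rcases lt_or_gt_of_ne (h.prov_ne (ht1 a ha) (ht1 b hb) (by omega)) with l | l
    · exact h.prov_rim he hS hL ht hm ha hb l d
    · exact (h.prov_rim he hS hL ht hm hb ha l (by rw [prov_D_comm]; exact d)).symm

end Tok

end Cx

theorem provStmt (hRim : RimStmt.{u}) (hSide : SideStmt.{u}) (hXL : XLStmt.{u})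
    (hClaw : ClawStmt.{u}) (hRank : RankStmt.{u}) : ProvStmt.{u} := by
  intro V c he lam hlam
  have hC := hClaw V c he
  have hS := hSide V c he hC lam hlam
  have hX := hXL V c he lam hlam hS
  have loc : ∀ x₀, ∃ ρ F, c.lv x₀ = lam + 4000 * c.K →
      c.ProvAt lam (c.Bc (lam + 4000 * c.K) x₀) ρ F := fun x₀ => by
    by_cases h : c.lv x₀ = lam + 4000 * c.K
    · obtain ⟨Tk, τ, hR⟩ := hRim V c he hC lam x₀ hlam h
      obtain ⟨ρ, F, hp⟩ := hR.prov_at he hRank hS hX (Nat.le_add_right _ _)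
      exact ⟨ρ, F, fun _ => hp⟩
    · exact ⟨fun _ => 0, fun _ _ => False, fun h' => (h h').elim⟩
  choose ρ F hp using loc
  have : Nonempty V := ⟨c.o⟩
  obtain ⟨rep, hrep⟩ : ∃ rep : V → V, ∀ a, c.lv a = lam + 4000 * c.K → ∃ x₀,
      c.ProvAt lam (c.Bc (lam + 4000 * c.K) x₀) (ρ x₀) (F x₀) ∧
      ∀ x, c.Bc (lam + 4000 * c.K) a x → c.Bc (lam + 4000 * c.K) x₀ x ∧ rep x = x₀ := by
    refine ⟨fun a => Classical.epsilon (c.Bc (lam + 4000 * c.K) a), fun a ha => ?_⟩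
    have h1 := Classical.epsilon_spec (p := c.Bc (lam + 4000 * c.K) a) ⟨a, Cx.Bc.refl ha⟩
    refine ⟨_, hp _ h1.2.1, fun x hx => ⟨h1.symm.trans hx, congrArg _ ?_⟩⟩
    exact funext fun y => propext ⟨hx.trans, hx.symm.trans⟩
  refine ⟨fun a => ρ (rep a) a, fun a b => c.Bc (lam + 4000 * c.K) a b ∧ F (rep a) a b,
    fun a b hb e => ?_, fun a b h => h.1, fun a b h => ?_, fun a b hb d => ?_, fun a b h => ?_,
    fun a e b f h hb hf s => ?_, fun a e b f hc hb hf s g => ?_, fun a b hb d => ?_⟩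
  · obtain ⟨x₀, p, r⟩ := hrep a hb.1
    have ha := r a (Cx.Bc.refl hb.1)
    simp only [ha.2, (r b hb).2] at e
    exact p.inj a b ha.1 (r b hb).1 e
  · obtain ⟨x₀, p, r⟩ := hrep a h.1.1
    have ha := r a (Cx.Bc.refl h.1.1)
    rw [(r b h.1).2]
    exact ⟨h.1.symm, p.symm a b (ha.2 ▸ h.2)⟩
  · obtain ⟨x₀, p, r⟩ := hrep a hb.1
    have ha := r a (Cx.Bc.refl hb.1)
    rw [ha.2]
    exact ⟨hb, p.close a b ha.1 (r b hb).1 d⟩
  · obtain ⟨x₀, p, r⟩ := hrep a h.1.1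
    have ha := r a (Cx.Bc.refl h.1.1)
    exact p.bound a b ha.1 (r b h.1).1 (ha.2 ▸ h.2)
  · obtain ⟨x₀, p, r⟩ := hrep a hb.1
    have ha := r a (Cx.Bc.refl hb.1)
    have hc := h.1
    simp only [ha.2, (r b hb).2, (r e hc).2, (r f hf).2] at s
    simp only [Cr, ha.2, (r e hc).2]
    exact (p.clo a e b f ha.1 (r e hc).1 (r b hb).1 (r f hf).1 (ha.2 ▸ h.2) s).imp
      (fun g => ⟨hb, g⟩) (Or.imp (fun g => ⟨hf, g⟩)
        (Or.imp (fun g => ⟨hc.symm.trans hb, g⟩) fun g => ⟨hc.symm.trans hf, g⟩))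
  · obtain ⟨x₀, p, r⟩ := hrep a hb.1
    have ha := r a (Cx.Bc.refl hb.1)
    simp only [ha.2, (r b hb).2, (r e hc).2, (r f hf).2] at s
    simp only [Cr, ha.2, (r e hc).2] at g
    exact p.xl a e b f ha.1 (r e hc).1 (r b hb).1 (r f hf).1 s fun g' => g (g'.imp
      (fun g => ⟨hb, g⟩) (Or.imp (fun g => ⟨hf, g⟩)
        (Or.imp (fun g => ⟨hc.symm.trans hb, g⟩) fun g => ⟨hc.symm.trans hf, g⟩)))
  · obtain ⟨x₀, p, r⟩ := hrep a hb.1
    have ha := r a (Cx.Bc.refl hb.1)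
    obtain ⟨R, h1, h2, h3, h4, h5⟩ := p.rim a b ha.1 (r b hb).1 d
    refine ⟨R, h1, h2, h3, h4, fun e hc o => h5 e (r e hc).1 ?_⟩
    simpa only [ha.2, (r b hb).2, (r e hc).2] using o

end Pool.Agent.Lib.MP_f9389f_co.SC
end

-- part Pool.Agent.Lib.MP_f9389f_co.SC.Path
section

/-! Paths in noncrossing graphs. -/

namespace Pool.Agent.Lib.MP_f9389f_co.SC

universe u

open SimpleGraph

theorem path_split {a c x y : ℕ} (b : ℕ) (h : Sep a c x y) :
    b = x ∨ b = y ∨ Sep a b x y ∨ Sep b c x y := by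
  unfold Sep Btw Out at *; omega

theorem path_irr {a x y : ℕ} : ¬ Sep a a x y := by
  unfold Sep Btw Out; omega

theorem path_thru (E : SimpleGraph ℕ) (n a b x y : ℕ) (h : Near E n a b) (hs : Sep a b x y)
    (hw : Wall E x y) :
    ∃ i j, i + j ≤ n ∧ ((Near E i a x ∧ Near E j x b) ∨ (Near E i a y ∧ Near E j y b)) := by
  induction n generalizing a with
  | zero => exact absurd (h.zero ▸ hs) path_irr
  | succ n ih =>
    obtain ⟨a', h1, h2⟩ := h.succ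
    have h3 := Near.of_or h1
    rcases path_split a' hs with rfl | rfl | e | e
    · exact ⟨1, n, by omega, .inl ⟨h3, h2⟩⟩
    · exact ⟨1, n, by omega, .inr ⟨h3, h2⟩⟩
    · rcases h1 with rfl | h1
      exacts [absurd e path_irr, absurd e (hw _ _ h1)]
    · obtain ⟨i, j, k, e⟩ := ih a' h2 e
      exact ⟨1 + i, j, by omega, e.imp (fun e => ⟨h3.trans e.1, e.2⟩) fun e => ⟨h3.trans e.1, e.2⟩⟩

theorem path_meet (E : SimpleGraph ℕ) (n m a c b d : ℕ) (hE : NC E) (h : Near E n a c)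
    (h' : Near E m b d) (hs : Sep a c b d) : Near E (n + m) a b := by
  induction m generalizing b with
  | zero => exact absurd (h'.zero ▸ hs.symm) path_irr
  | succ m ih =>
    obtain ⟨b', h1, h2⟩ := h'.succ
    have h3 := (Near.of_or h1).symm
    rcases path_split b' hs.symm with rfl | rfl | e | e
    · exact h3.mono (by omega)
    · exact (h.trans h3).mono (by omega)
    · rcases h1 with rfl | h1
      · exact absurd e path_irr
      obtain ⟨i, j, k, e | e⟩ := path_thru E n a c b b' h e.symm fun _ _ g => hE _ _ _ _ g h1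
      exacts [e.1.mono (by omega), (e.1.trans h3).mono (by omega)]
    · exact (ih b' h2 e.symm).trans h3

theorem path_same {p q a b : ℕ} (h : ¬ (Sep p q a b ∨ Cr Eq p q a b)) :
    p ≠ a ∧ p ≠ b ∧ q ≠ a ∧ q ≠ b ∧ (Btw a b p ↔ Btw a b q) := by
  unfold Cr Sep Btw Out at *; omega

theorem path_cross {p q r s a b : ℕ} (h1 : p ≠ a ∧ p ≠ b ∧ q ≠ a ∧ q ≠ b ∧ (Btw a b p ↔ Btw a b q))
    (h2 : Btw a b r ↔ Btw a b s) (h : Sep p q r s) : Btw a b r ↔ Btw a b p := by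
  unfold Sep Btw Out at *; omega

theorem path_touch (C : ℕ → ℕ → Prop) (A B n : ℕ) (v : ℕ → ℕ × ℕ) (a b : ℕ)
    (h : ChainOn C A B n v) (hs : Sep A B a b) :
    ∃ i ≤ n, Sep (v i).1 (v i).2 a b ∨ Cr Eq (v i).1 (v i).2 a b := by
  obtain ⟨-, -, h1, h2, h3⟩ := h
  by_contra k
  have k1 := fun i hi => path_same fun e => k ⟨i, hi, e⟩
  have key : ∀ i ≤ n, (Btw a b (v i).1 ↔ Btw a b (v 0).1) := fun i => by
    induction i with
    | zero => exact fun _ => Iff.rfl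
    | succ i ih =>
      intro hi
      have a1 := k1 i (by omega)
      have a2 := (k1 (i + 1) hi).2.2.2.2
      refine Iff.trans ?_ (ih (by omega))
      rcases h1 i hi with e | e | e | e | e
      · exact path_cross a1 a2 e
      · rw [e]
      · rw [e]; exact a2
      · rw [← e]; exact a1.2.2.2.2.symm
      · rw [a2, ← e]; exact a1.2.2.2.2.symm
  have b1 : Btw a b A ↔ Btw a b (v 0).1 := by
    rcases h2 with rfl | rfl
    exacts [Iff.rfl, (k1 0 (Nat.zero_le _)).2.2.2.2.symm]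
  have b2 : Btw a b B ↔ Btw a b (v n).1 := by
    rcases h3 with rfl | rfl
    exacts [Iff.rfl, (k1 n le_rfl).2.2.2.2.symm]
  have b3 := b2.trans ((key n le_rfl).trans b1.symm)
  clear b1 b2 key k1 k h1 h2 h3
  unfold Sep Btw Out at *; omega

theorem path_links (C R : ℕ → ℕ → Prop) (A B n : ℕ) (v : ℕ → ℕ × ℕ) (h : ChainOn C A B n v)
    (hC : ∀ a c, C a c → R a c) (hS : ∀ a c b d, C a c → C b d → Sep a c b d → Cr R a c b d) :
    ∀ i ≤ n, Near (fromRel R) 26 A (v i).1 ∧ Near (fromRel R) 26 A (v i).2 := by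
  obtain ⟨h0, h1, h2, h3, -⟩ := h
  have one := fun i hi => near_rel (hC _ _ (h1 i hi))
  have key : ∀ i ≤ n, Near (fromRel R) (2 * i + 1) A (v i).1 ∧
      Near (fromRel R) (2 * i + 1) A (v i).2 := fun i => by
    induction i with
    | zero =>
      intro hi
      rcases h3 with rfl | rfl
      exacts [⟨Near.refl _ _ _, one 0 hi⟩, ⟨(one 0 hi).symm, Near.refl _ _ _⟩]
    | succ i ih =>
      intro hi
      obtain ⟨a1, a2⟩ := ih (by omega)
      have a3 : Cr (Near (fromRel R) 1) (v i).1 (v i).2 (v (i + 1)).1 (v (i + 1)).2 := by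
        have r : ∀ {x y : ℕ}, x = y → Near (fromRel R) 1 x y := fun e => Near.of_or (.inl e)
        rcases h2 i hi with e | e
        · exact (hS _ _ _ _ (h1 i (by omega)) (h1 _ hi) e).imp near_rel
            (Or.imp near_rel (Or.imp near_rel near_rel))
        · exact e.imp r (Or.imp r (Or.imp r r))
      have a4 := one _ hi
      rcases a3 with e | e | e | e
      · exact ⟨(a1.trans e).mono (by omega), (a1.trans e).trans a4⟩
      · exact ⟨(a1.trans e).trans a4.symm, (a1.trans e).mono (by omega)⟩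
      · exact ⟨(a2.trans e).mono (by omega), (a2.trans e).trans a4⟩
      · exact ⟨(a2.trans e).trans a4.symm, (a2.trans e).mono (by omega)⟩
  exact fun i hi => ⟨(key i hi).1.mono (by omega), (key i hi).2.mono (by omega)⟩

theorem path_lip (α β : Type) (Γ : SimpleGraph α) (Δ : SimpleGraph β) (f : α → β) (k n : ℕ)
    (a b : α) (hf : ∀ x y, Γ.Adj x y → Near Δ k (f x) (f y)) (h : Near Γ n a b) :
    Near Δ (n * k) (f a) (f b) := by
  induction n generalizing a with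
  | zero => rw [h.zero]; exact Near.refl _ _ _
  | succ n ih =>
    obtain ⟨x, h1 | h1, h2⟩ := h.succ
    · rw [h1]; exact (ih x h2).mono (by rw [Nat.succ_mul]; omega)
    · exact ((hf _ _ h1).trans (ih x h2)).mono (by rw [Nat.succ_mul]; omega)

theorem path_label (Γ : SimpleGraph ℕ) (S : Finset ℕ) (e lab : ℕ → ℕ) (n k₁ k₂ : ℕ)
    (h1 : ∀ i ≤ n, lab i ∈ S) (h2 : ∀ i < n, Near Γ k₁ (e i) (e (i + 1)))
    (h3 : ∀ i ≤ n, ∀ j ≤ n, lab i = lab j → Near Γ k₂ (e i) (e j)) :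
    Near Γ (S.card * (k₁ + k₂)) (e 0) (e n) := by
  induction hc : S.card generalizing S e lab n with
  | zero => exact absurd (Finset.card_eq_zero.1 hc ▸ h1 0 (Nat.zero_le _)) (Finset.notMem_empty _)
  | succ c ih =>
    obtain ⟨j, hj⟩ : ∃ j, j = Nat.findGreatest (fun j => lab j = lab 0) n := ⟨_, rfl⟩
    have j1 : j ≤ n := hj ▸ Nat.findGreatest_le n
    have j2 : lab j = lab 0 :=
      hj ▸ Nat.findGreatest_spec (P := fun j => lab j = lab 0) (Nat.zero_le n) rfl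
    have j3 : ∀ i, j < i → i ≤ n → lab i ≠ lab 0 := fun i a b =>
      Nat.findGreatest_is_greatest (P := fun j => lab j = lab 0) (hj ▸ a) b
    have a1 := h3 0 (Nat.zero_le _) j j1 j2.symm
    rcases j1.eq_or_lt with rfl | j4
    · exact a1.mono (by rw [Nat.succ_mul]; omega)
    have a2 := ih (S.erase (lab 0)) (fun i => e (j + 1 + i)) (fun i => lab (j + 1 + i))
      (n - (j + 1)) (fun i hi => Finset.mem_erase.2 ⟨j3 _ (by omega) (by omega), h1 _ (by omega)⟩)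
      (fun i hi => h2 _ (by omega)) (fun i hi i' hi' => h3 _ (by omega) _ (by omega))
      (by rw [Finset.card_erase_of_mem (h1 0 (Nat.zero_le _)), hc]; rfl)
    simp only [Nat.add_zero, show j + 1 + (n - (j + 1)) = n by omega] at a2
    exact ((a1.trans (h2 j j4)).trans a2).mono (by rw [Nat.succ_mul]; omega)

theorem pathStmt : PathStmt where
  thru := path_thru
  meet := path_meet
  cut E n m a a' c d hE h h' hs := path_meet E n m a a' c d hE h h' hs.symm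
  touch := path_touch
  links := path_links
  lip := path_lip
  label := path_label

end Pool.Agent.Lib.MP_f9389f_co.SC
end

-- part Pool.Agent.Lib.MP_f9389f_co.SC.Emu
section

/-! The noncrossing emulator. -/

namespace Pool.Agent.Lib.MP_f9389f_co.SC

universe u

open SimpleGraph

namespace Emu

/-- `z` is an end of the chord `p`. -/
def En (z : ℕ) (p : ℕ × ℕ) : Prop := z = p.1 ∨ z = p.2

variable (C : ℕ → ℕ → Prop)

/-- Members with increasing ends. -/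
def Mb (p : ℕ × ℕ) : Prop := C p.1 p.2 ∧ p.1 < p.2

/-- The graph of touching members. -/
def Gt : SimpleGraph (ℕ × ℕ) := fromRel fun p q => C p.1 p.2 ∧ C q.1 q.2 ∧ Tch p q

/-- The graph of crossing members. -/
def Gx : SimpleGraph (ℕ × ℕ) where
  Adj p q := Mb C p ∧ Mb C q ∧ Sep p.1 p.2 q.1 q.2
  symm := ⟨fun _ _ h => ⟨h.2.1, h.1, h.2.2.symm⟩⟩
  loopless := ⟨fun p h => by have := h.2.2; unfold Sep Btw Out at this; omega⟩

/-- Chains of at most `j + 1` touching members. -/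
def Chn (j A B : ℕ) : Prop :=
  A = B ∨ ∃ p q, C p.1 p.2 ∧ C q.1 q.2 ∧ En A p ∧ En B q ∧ Near (Gt C) j p q

/-- The member of a component with least left end and then largest right end. -/
def Root (ρ : ℕ × ℕ) : Prop :=
  Mb C ρ ∧ ∀ k p, Near (Gx C) k p ρ → ρ.1 < p.1 ∨ ρ.1 = p.1 ∧ p.2 ≤ ρ.2

variable (ρ : ℕ × ℕ)

/-- Ends of members at distance at most `k` from the root. -/
def P (k z : ℕ) : Prop := ∃ p, Near (Gx C) k p ρ ∧ En z p

/-- No point of level `k` lies between `y` and `z`. -/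
def Gap (k y z : ℕ) : Prop := ∀ w, P C ρ k w → ¬ Btw y z w

/-- Members at distance exactly `k + 1`. -/
def Ex (k : ℕ) (m : ℕ × ℕ) : Prop := Near (Gx C) (k + 1) m ρ ∧ ¬ Near (Gx C) k m ρ

/-- The point `y` is attached to the left. -/
def Lf (k y : ℕ) : Prop := ∃ m, Ex C ρ k m ∧ y ≤ m.2 ∧ ∀ w, P C ρ k w → ¬ (y ≤ w ∧ w ≤ m.2)

/-- Edges of level `k`. -/
def Ed (k y z : ℕ) : Prop := P C ρ k z ∧ Gap C ρ k y z ∧
  (P C ρ k y ∨ (P C ρ (k + 1) y ∧ ¬ P C ρ k y ∧ (z < y ↔ Lf C ρ k y)))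

/-- The emulator. -/
def H : SimpleGraph ℕ := fromRel fun y z => Chn C 12 y z ∧ ∃ ρ k, Root C ρ ∧ Ed C ρ k y z

variable {C ρ} {j j' k k' A B D y z a b x : ℕ} {p q m : ℕ × ℕ}

theorem tch_symm (h : Tch p q) : Tch q p := by
  unfold Tch Cr Sep Btw Out at *; omega

theorem Chn.symm (h : Chn C j A B) : Chn C j B A :=
  h.imp Eq.symm fun ⟨p, q, h1, h2, h3, h4, h5⟩ => ⟨q, p, h2, h1, h4, h3, h5.symm⟩

theorem Chn.trans (h : Chn C j A B) (h' : Chn C j' B D) : Chn C (j + 1 + j') A D := by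
  rcases h with rfl | ⟨p, q, h1, h2, h3, h4, h5⟩
  · exact h'.imp id fun ⟨p, q, h1, h2, h3, h4, h5⟩ => ⟨p, q, h1, h2, h3, h4, h5.mono (by omega)⟩
  rcases h' with rfl | ⟨p', q', g1, g2, g3, g4, g5⟩
  · exact .inr ⟨p, q, h1, h2, h3, h4, h5.mono (by omega)⟩
  refine .inr ⟨p, q', h1, g2, h3, g4, (h5.trans (near_rel ⟨h2, g1, .inr ?_⟩)).trans g5⟩
  unfold En Cr at *
  omega

theorem Chn.on (h : Chn C 12 A B) (ne : A ≠ B) : ∃ n v, ChainOn C A B n v := by
  obtain ⟨p, q, h1, h2, h3, h4, w, hw⟩ := h.resolve_left ne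
  refine ⟨w.length, w.getVert, hw, fun i hi => ?_, fun i hi => ?_, by rwa [w.getVert_zero],
    by rwa [w.getVert_length]⟩
  · rcases hi.eq_or_lt with rfl | hi
    · rwa [w.getVert_length]
    · exact (w.adj_getVert_succ hi).2.elim (·.1) (·.2.1)
  · exact (w.adj_getVert_succ hi).2.elim (·.2.2) fun h => tch_symm h.2.2

theorem mb_of (hρ : Root C ρ) (h : Near (Gx C) k p ρ) : Mb C p :=
  h.symm.induct (Mb C) hρ.1 fun _ _ _ h => h.2.1

theorem near_cross (hρ : Root C ρ) (h : Near (Gx C) k q ρ) (hm : Mb C m)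
    (s : Sep q.1 q.2 m.1 m.2) : Near (Gx C) (k + 1) m ρ :=
  ((Near.of_adj (L := Gx C) ⟨hm, mb_of hρ h, s.symm⟩).trans h).mono (by omega)

theorem P.mono (h : P C ρ k z) (hk : k ≤ k') : P C ρ k' z :=
  h.imp fun _ h => ⟨h.1.mono hk, h.2⟩

theorem crs (hρ : Root C ρ) (hm : Near (Gx C) k' m ρ) : ∀ (k : ℕ) (q : ℕ × ℕ) (z : ℕ),
    Near (Gx C) k q ρ → ¬ Near (Gx C) k m ρ → En z q → m.1 < z → z < m.2 →
    Sep q.1 q.2 m.1 m.2 := by
  intro k
  induction k with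
  | zero =>
    intro q z hq _ h1 h2 h3
    obtain rfl := hq.zero
    have := hρ.2 _ _ hm
    unfold En Sep Btw Out at *
    omega
  | succ k ih =>
    intro q z hq hk h1 h2 h3
    have hk' : ¬ Near (Gx C) k m ρ := fun h => hk (h.mono (by omega))
    obtain ⟨x, rfl | h4, h5⟩ := hq.succ
    · exact ih q z h5 hk' h1 h2 h3
    have h6 : ∀ w, En w x → ¬ (m.1 < w ∧ w < m.2) := fun w hw h =>
      hk (near_cross hρ h5 (mb_of hρ hm) (ih x w h5 hk' hw h.1 h.2))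
    have h7 := h6 _ (.inl rfl)
    have h8 := h6 _ (.inr rfl)
    have h9 := h4.2.2
    have := h4.1.2
    have := h4.2.1.2
    unfold En Sep Btw Out at *
    omega

theorem Ex.inner (h : Ex C ρ k m) : ∃ u, P C ρ k u ∧ m.1 < u ∧ u < m.2 := by
  obtain ⟨x, rfl | h1, h2⟩ := h.1.succ
  · exact (h.2 h2).elim
  have h3 := h1.2.2
  have := h1.1.2
  by_cases h4 : m.1 < x.1 ∧ x.1 < m.2
  · exact ⟨_, ⟨x, h2, .inl rfl⟩, h4⟩
  · refine ⟨_, ⟨x, h2, .inr rfl⟩, ?_⟩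
    unfold Sep Btw Out at h3
    omega

theorem Ex.tch (hρ : Root C ρ) (h : Ex C ρ k m) (hz : P C ρ k z) (h1 : m.1 < z) (h2 : z < m.2) :
    ∃ q, C q.1 q.2 ∧ En z q ∧ Near (Gt C) 1 m q := by
  obtain ⟨q, hq, e⟩ := hz
  exact ⟨q, (mb_of hρ hq).1, e, near_rel ⟨(mb_of hρ h.1).1, (mb_of hρ hq).1,
    .inl (crs hρ h.1 k q z hq h.2 e h1 h2).symm⟩⟩

theorem exists_par (hρ : Root C ρ) (h : P C ρ (k + 1) y) (h' : ¬ P C ρ k y) :
    ∃ z, Ed C ρ k y z ∧ Chn C 2 y z := by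
  classical
  obtain ⟨m, hm, e⟩ := id h
  have hx : Ex C ρ k m := ⟨hm, fun h => h' ⟨m, h, e⟩⟩
  obtain ⟨u, u1, u2, u3⟩ := hx.inner
  have dir : ∀ z, P C ρ k z → m.1 < z → z < m.2 → Chn C 2 y z := fun z h1 h2 h3 => by
    obtain ⟨q, q1, q2, q3⟩ := hx.tch hρ h1 h2 h3
    exact .inr ⟨m, q, (mb_of hρ hm).1, q1, e, q2, q3.mono one_le_two⟩
  by_cases hl : Lf C ρ k y
  · obtain ⟨n, hn, n1, n2⟩ := id hl
    obtain ⟨v, v1, v2, v3⟩ := hn.inner
    have v4 := n2 v v1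
    have g1 : ∀ w, w < y → P C ρ k w → w ≤ Nat.findGreatest (P C ρ k) (y - 1) := fun w h1 h2 =>
      Nat.le_findGreatest (by omega) h2
    have g2 : P C ρ k (Nat.findGreatest (P C ρ k) (y - 1)) :=
      Nat.findGreatest_spec (show v ≤ y - 1 by omega) v1
    have g3 := Nat.findGreatest_le (P := P C ρ k) (y - 1)
    generalize Nat.findGreatest (P C ρ k) (y - 1) = z at g1 g2 g3
    have g4 := g1 v (by omega) v1
    refine ⟨z, ⟨g2, fun w h1 h2 => ?_, .inr ⟨h, h', iff_of_true (by omega) hl⟩⟩, ?_⟩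
    · have := fun h => g1 w h h1
      unfold Btw at h2
      omega
    rcases e with e | e
    · obtain ⟨q, q1, q2, q3⟩ := hn.tch hρ g2 (by omega) (by omega)
      have := n2 u u1
      refine .inr ⟨m, q, (mb_of hρ hm).1, q1, .inl e, q2,
        (near_rel ⟨(mb_of hρ hm).1, (mb_of hρ hn.1).1, ?_⟩).trans q3⟩
      unfold Tch Cr Sep Btw Out
      omega
    · have := g1 u (by omega) u1
      exact dir z g2 (by omega) (by omega)
  · have e1 : y = m.1 := e.resolve_right fun e => hl ⟨m, hx, e.le, fun w h1 h2 =>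
      h' (by rwa [show y = w by omega])⟩
    have ex : ∃ w, y < w ∧ P C ρ k w := ⟨u, by omega, u1⟩
    have g1 := Nat.find_spec ex
    have g2 : ∀ w, y < w → P C ρ k w → Nat.find ex ≤ w := fun w h1 h2 => Nat.find_min' ex ⟨h1, h2⟩
    generalize Nat.find ex = z at g1 g2
    have := g2 u (by omega) u1
    refine ⟨z, ⟨g1.2, fun w h1 h2 => ?_, .inr ⟨h, h', iff_of_false (by omega) hl⟩⟩,
      dir z g1.2 (by omega) (by omega)⟩
    have := fun h => g2 w h h1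
    unfold Btw at h2
    omega

theorem Chn.mono (h : Chn C j A B) (hj : j ≤ j') : Chn C j' A B :=
  h.imp id fun ⟨p, q, h1, h2, h3, h4, h5⟩ => ⟨p, q, h1, h2, h3, h4, h5.mono hj⟩

theorem down (hρ : Root C ρ) (h : P C ρ (k + 1) y) : ∃ z, P C ρ k z ∧ Gap C ρ k y z ∧
    Chn C 2 y z ∧ Near (H C) 1 y z ∧ (P C ρ k y → z = y) := by
  by_cases h' : P C ρ k y
  · exact ⟨y, h', fun w _ h => by unfold Btw at h; omega, .inl rfl, Near.refl _ _ _, fun _ => rfl⟩
  obtain ⟨z, h1, h2⟩ := exists_par hρ h h'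
  exact ⟨z, h1.1, h1.2.1, h2, near_rel ⟨h2.mono (by omega), ρ, k, hρ, h1⟩, fun h => (h' h).elim⟩

theorem near_mem (hρ : Root C ρ) (hm : Near (Gx C) k m ρ) : Near (H C) 5 m.1 m.2 := by
  have c0 : Chn C 0 m.1 m.2 :=
    .inr ⟨m, m, (mb_of hρ hm).1, (mb_of hρ hm).1, .inl rfl, .inr rfl, Near.refl _ _ _⟩
  have cs : Near (Gx C) 1 m ρ ∨ ∃ j, Ex C ρ (j + 1) m := by
    clear c0
    induction k with
    | zero => exact .inl (hm.mono zero_le_one)
    | succ k ih =>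
      by_cases h : Near (Gx C) k m ρ
      · exact ih h
      · cases k with
        | zero => exact .inl hm
        | succ k => exact .inr ⟨k, hm, h⟩
  rcases cs with h | ⟨j, h⟩
  · obtain ⟨l, l1, -, l2, l3, -⟩ := down hρ ⟨m, h, .inl rfl⟩
    obtain ⟨r, r1, -, r2, r3, -⟩ := down hρ ⟨m, h, .inr rfl⟩
    refine ((l3.trans (near_rel ⟨((l2.symm.trans c0).trans r2).mono (by omega), ρ, 0, hρ, r1,
      ?_, .inl l1⟩)).trans r3.symm).mono (by omega)
    rintro w ⟨p, p1, p2⟩ hw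
    obtain ⟨q, q1, q2⟩ := l1
    obtain ⟨s, s1, s2⟩ := r1
    obtain rfl := p1.zero
    obtain rfl := q1.zero
    obtain rfl := s1.zero
    unfold En Btw at *
    omega
  obtain ⟨l, l1, l2, l3, l4, l5⟩ := down hρ ⟨m, h.1, .inl rfl⟩
  obtain ⟨r, r1, r2, r3, r4, r5⟩ := down hρ ⟨m, h.1, .inr rfl⟩
  obtain ⟨l', l6, l7, l8, l9, l0⟩ := down hρ l1
  obtain ⟨r', r6, r7, r8, r9, r0⟩ := down hρ r1
  refine (((l4.trans l9).trans (near_rel ⟨(((l8.symm.trans l3.symm).trans c0).trans r3).trans r8,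
    ρ, j, hρ, r6, fun w hw hb => ?_, .inl l6⟩)).trans r9.symm).trans r4.symm
  have w1 := hw.mono (Nat.le_succ j)
  have a1 := l2 w w1
  have a2 := r2 w w1
  have a3 := l7 w hw
  have a4 := r7 w hw
  have a5 : w = m.1 → l = w := fun e => e ▸ l5 (e ▸ w1)
  have a6 : w = m.2 → r = w := fun e => e ▸ r5 (e ▸ w1)
  have a7 : w = l → l' = w := fun e => e ▸ l0 (e ▸ hw)
  have a8 : w = r → r' = w := fun e => e ▸ r0 (e ▸ hw)
  have a9 : ¬ (m.1 < w ∧ w < m.2) := fun h' => by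
    obtain ⟨q, q1, q2⟩ := hw
    exact h.2 (near_cross hρ q1 (mb_of hρ h.1)
      (crs hρ h.1 j q w q1 (fun k => h.2 (k.mono (Nat.le_succ j))) q2 h'.1 h'.2))
  have := (mb_of hρ h.1).2
  unfold Btw at *
  omega

theorem Ed.left (h : Ed C ρ k y z) : P C ρ (k + 1) y :=
  h.2.2.elim (·.mono (Nat.le_succ k)) (·.1)

theorem Ed.nc (h : Ed C ρ k a b) (h' : Ed C ρ k' y z) (hk : k ≤ k') : ¬ Sep a b y z := by
  intro s
  have h1 := h'.2.1 b (h.1.mono hk)
  rcases hk.eq_or_lt with rfl | hk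
  · have h2 := h.2.1 z h'.1
    rcases h.2.2 with g | ⟨-, g1, g2⟩
    · have := h'.2.1 a g
      unfold Sep Btw Out at *
      omega
    rcases h'.2.2 with g | ⟨-, g3, g4⟩
    · have := h.2.1 y g
      unfold Sep Btw Out at *
      omega
    have key : ∀ {a y : ℕ}, a < y → (∀ w, P C ρ k w → ¬ (a ≤ w ∧ w < y)) → Lf C ρ k y →
        Lf C ρ k a := fun h1 h2 ⟨m, m1, m2, m3⟩ => ⟨m, m1, by omega, fun w hw => by
      have := h2 w hw
      have := m3 w hw
      omega⟩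
    rcases lt_trichotomy a y with l | l | l
    · have := key l fun w hw => by
        have := h.2.1 w hw
        have := h'.2.1 w hw
        have : w ≠ a := fun e => g1 (e ▸ hw)
        unfold Sep Btw Out at *
        omega
      rw [← g2, ← g4] at this
      unfold Sep Btw Out at *
      omega
    · unfold Sep Btw Out at *
      omega
    · have := key l fun w hw => by
        have := h.2.1 w hw
        have := h'.2.1 w hw
        have : w ≠ y := fun e => g3 (e ▸ hw)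
        unfold Sep Btw Out at *
        omega
      rw [← g2, ← g4] at this
      unfold Sep Btw Out at *
      omega
  · have := h'.2.1 a (h.left.mono hk)
    unfold Sep Btw Out at *
    omega

theorem wall (h : ∀ k p, Near (Gx C) k p ρ → ¬ Sep p.1 p.2 x y) (ha : P C ρ k a)
    (hb : P C ρ k' b) : ¬ Sep a b x y := by
  have key : ∀ {k k' a b : ℕ}, P C ρ k a → P C ρ k' b → Btw x y a → ¬ Out x y b := by
    rintro k k' a b ⟨p, p1, p2⟩ ⟨q, q1, q2⟩ h1
    have := (p1.trans q1.symm).induct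
      (fun p => (∃ k, Near (Gx C) k p ρ) ∧ ¬ Out x y p.1 ∧ ¬ Out x y p.2) ⟨⟨k, p1⟩, by
        have := h k p p1
        unfold En Sep Btw Out at *
        omega⟩ fun u v ⟨⟨k, h1⟩, h2⟩ e => ⟨⟨_, (Near.of_adj e.symm).trans h1⟩, by
        have := h _ v ((Near.of_adj e.symm).trans h1)
        have := e.2.2
        unfold Sep Btw Out at *
        omega⟩
    rcases q2 with rfl | rfl
    exacts [this.2.1, this.2.2]
  rintro s
  rcases s.symm with s | s
  exacts [key ha hb s.1 s.2, key hb ha s.2 s.1]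

theorem exists_root {X : Finset ℕ} (hs : ∀ a c, C a c → C c a) (hX : ∀ a c, C a c → a ∈ X)
    (hm : Mb C m) : ∃ ρ k, Root C ρ ∧ Near (Gx C) k m ρ := by
  have mb : ∀ {k p}, Near (Gx C) k p m → Mb C p := fun h =>
    h.symm.induct (Mb C) hm fun _ _ _ h => h.2.1
  obtain ⟨ρ, ⟨k, h1⟩, h2⟩ := Set.exists_min_image {p | ∃ k, Near (Gx C) k p m}
    (fun p => toLex (p.1, OrderDual.toDual p.2)) ((X ×ˢ X).finite_toSet.subset fun p ⟨_, h⟩ =>
      Finset.mem_product.2 ⟨hX _ _ (mb h).1, hX _ _ (hs _ _ (mb h).1)⟩) ⟨m, 0, Near.refl _ _ _⟩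
  exact ⟨ρ, k, ⟨mb h1, fun j p hp => Prod.Lex.toLex_le_toLex.1 (h2 p ⟨_, hp.trans h1⟩)⟩, h1.symm⟩

theorem ed_nc {ρ' : ℕ × ℕ} (hρ : Root C ρ) (hρ' : Root C ρ') (h : Ed C ρ k a b)
    (h' : Ed C ρ' k' y z) : ¬ Sep a b y z := by
  by_cases e : ρ = ρ'
  · subst e
    rcases le_total k k' with l | l
    exacts [h.nc h' l, fun s => h'.nc h l s.symm]
  refine wall (fun i p hp s => wall (fun j q hq s => e ?_) h'.left h'.1 s.symm) h.left h.1
  have n := hp.symm.trans (near_cross hρ' hq (mb_of hρ hp) s)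
  have := hρ'.2 _ _ n
  have := hρ.2 _ _ n.symm
  exact Prod.ext (by omega) (by omega)

theorem adj_elim (h : (H C).Adj a b) : Chn C 12 a b ∧ ∃ ρ k, Root C ρ ∧
    (Ed C ρ k a b ∨ Ed C ρ k b a) := by
  rcases h.2 with ⟨h, ρ, k, h1, h2⟩ | ⟨h, ρ, k, h1, h2⟩
  exacts [⟨h, ρ, k, h1, .inl h2⟩, ⟨h.symm, ρ, k, h1, .inr h2⟩]

end Emu

open Emu in
theorem emuStmt : EmuStmt := by
  intro C X hs hX
  refine ⟨H C, fun a c b d h h' s => ?_, fun a b h => ?_, fun a c h => ?_,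
    fun A B h => (adj_elim h).1.on h.ne, fun x y h c d e => ?_⟩
  · obtain ⟨-, ρ, k, h1, h2⟩ := adj_elim h
    obtain ⟨-, ρ', k', h3, h4⟩ := adj_elim h'
    rcases h2 with h2 | h2 <;> rcases h4 with h4 | h4
    exacts [ed_nc h1 h3 h2 h4 s, ed_nc h1 h3 h2 h4 s.swap', ed_nc h1 h3 h2 h4 s.swap,
      ed_nc h1 h3 h2 h4 s.swap.swap']
  · obtain ⟨p, -, h1, -, rfl | rfl, -⟩ := (adj_elim h).1.resolve_left h.ne
    exacts [hX _ _ h1, hX _ _ (hs _ _ h1)]
  · rcases lt_trichotomy a c with l | rfl | l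
    · obtain ⟨ρ, k, h1, h2⟩ := exists_root (m := (a, c)) hs hX ⟨h, l⟩
      exact near_mem h1 h2
    · exact Near.refl _ _ _
    · obtain ⟨ρ, k, h1, h2⟩ := exists_root (m := (c, a)) hs hX ⟨hs _ _ h, l⟩
      exact (near_mem h1 h2).symm
  · obtain ⟨-, ρ, k, h1, h2 | h2⟩ := adj_elim e
    · exact wall (fun _ _ hp => h _ _ (mb_of h1 hp).1) h2.left h2.1
    · exact wall (fun _ _ hp => h _ _ (mb_of h1 hp).1) h2.1 h2.left

end Pool.Agent.Lib.MP_f9389f_co.SC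
end
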