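import Mathlib
import Pool.Agent.Lib.MP_f9389f_co.SC.Basic

-- part Pool.Agent.Lib.MP_f9389f_co.SC.Bef
section

/-! The local order of objects. -/

namespace Pool.Agent.Lib.MP_f9389f_co.SC

universe u

open SimpleGraph

/-- The rotation of positions that puts `K` first. -/
def befRot (K M a : ℕ) : ℕ := if K ≤ a then a else a + M

/-- The strict cyclic order of three numbers. -/
def befCy (a b c : ℕ) : Prop := (a < b ∧ b < c) ∨ (b < c ∧ c < a) ∨ (c < a ∧ a < b)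

theorem bef_sep_cy {a c b d : ℕ} :
    Sep a c b d ↔ (befCy a b c ∧ befCy c d a) ∨ (befCy c b a ∧ befCy a d c) := by
  unfold Sep Btw Out befCy
  constructor <;> intro h <;> omega

theorem bef_rot_cy {K M a b c : ℕ} (ha : a < M) (hb : b < M) (hc : c < M) :
    befCy (befRot K M a) (befRot K M b) (befRot K M c) ↔ befCy a b c := by
  unfold befRot befCy
  split_ifs <;> constructor <;> intro h <;> omega

theorem bef_rot_sep {K M a c b d : ℕ} (ha : a < M) (hc : c < M) (hb : b < M) (hd : d < M) :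
    Sep (befRot K M a) (befRot K M c) (befRot K M b) (befRot K M d) ↔ Sep a c b d := by
  rw [bef_sep_cy, bef_sep_cy, bef_rot_cy ha hb hc, bef_rot_cy hc hd ha, bef_rot_cy hc hb ha,
    bef_rot_cy ha hd hc]

theorem bef_rot_ori {ι : Type u} {r : ι → ℕ} {k a b : ι} {M : ℕ} (ha : r a < M) (hb : r b < M)
    (h1 : r a ≠ r k) (h2 : r b ≠ r k) (h3 : r a ≠ r b) :
    ori r k a b = 1 ↔ befRot (r k) M (r a) < befRot (r k) M (r b) := by
  unfold befRot ori df
  split_ifs <;> omega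

theorem bef_tri {x y z : ℕ} (h1 : z ≠ x) (h2 : z ≠ y) : Btw x y z ∨ Out x y z := by
  unfold Btw Out; omega

theorem bef_quad {g u b b' : ℕ} (h1 : g ≠ u) (h2 : g ≠ b) (h3 : g ≠ b') (h4 : u ≠ b)
    (h5 : u ≠ b') (h6 : b ≠ b') : Btw b' b g ∨ Btw b' b u ∨ Sep g b' u b ∨ Sep g b u b' := by
  rcases bef_tri h3 h2 with e1 | e1
  · exact Or.inl e1
  rcases bef_tri h5 h4 with e2 | e2
  · exact Or.inr (Or.inl e2)
  refine Or.inr (Or.inr ?_)
  rcases lt_or_gt_of_ne h1 with h1 | h1 <;> rcases lt_or_gt_of_ne h6 with h6 | h6 <;>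
    rcases e1 with e1 | e1 <;> rcases e2 with e2 | e2 <;>
    first
    | exact Or.inl (by unfold Sep Btw Out; omega)
    | exact Or.inr (by unfold Sep Btw Out; omega)

theorem bef_move {g x y u b : ℕ} (h : Sep g x u b) (h1 : y ≠ u) (h2 : y ≠ b) :
    Sep g y u b ∨ Sep y x u b := by
  rcases h.symm with h | h <;> rcases bef_tri h1 h2 with e | e
  · exact Or.inr (Sep.symm (Or.inl ⟨e, h.2⟩))
  · exact Or.inl (Sep.symm (Or.inl ⟨h.1, e⟩))
  · exact Or.inl (Sep.symm (Or.inr ⟨h.1, e⟩))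
  · exact Or.inr (Sep.symm (Or.inr ⟨e, h.2⟩))

/-- The data seen from the token `k`, which comes first in the order `π`. -/
structure BefLoc {ι : Type u} (Θ : Finset ι) (oid pid π : ι → ℕ) (N : ℕ → ι → ι → Prop)
    (c : ℕ) (k : ι) : Prop where
  refl : ∀ t, N 0 t t
  symm : ∀ n t u, N n t u → N n u t
  trans : ∀ n m t u v, N n t u → N m u v → N (n + m) t v
  mono : ∀ n m t u, N n t u → n ≤ m → N m t u
  inj : Set.InjOn π Θ
  op : ∀ t ∈ Θ, ∀ u ∈ Θ, oid t = oid u → pid t = pid u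
  fs : ∀ n, ∀ a ∈ Θ, ∀ b ∈ Θ, ∀ x ∈ Θ, ∀ y ∈ Θ, N n a b → Sep (π a) (π b) (π x) (π y) →
    (N n a x ∧ N n b x) ∨ (N n a y ∧ N n b y)
  ni : ∀ t ∈ Θ, ∀ t' ∈ Θ, ∀ u ∈ Θ, ∀ u' ∈ Θ, oid t = oid t' → oid u = oid u' → pid t ≠ pid u →
    Sep (π t) (π t') (π u) (π u') → Cr (N c) t t' u u'
  ref : ∀ t ∈ Θ, (∃ t' ∈ Θ, oid t' = oid t ∧ ¬ N (12 * c) t t' ∧
      ∀ s ∈ Θ, oid s = oid t → s = t ∨ s = t') ∨
    ∃ a : Fin 4 → ι, (∀ i, a i ∈ Θ ∧ oid (a i) = oid t) ∧ ∀ i k, i ≠ k → ¬ N (12 * c) (a i) (a k)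
  kmem : k ∈ Θ
  kmin : ∀ x ∈ Θ, π k ≤ π x

theorem bef_pick {ι : Type u} {N : ℕ → ι → ι → Prop} {c : ℕ}
    (symm : ∀ n t u, N n t u → N n u t) (trans : ∀ n m t u v, N n t u → N m u v → N (n + m) t v)
    {a : Fin 4 → ι} (ha : ∀ i k, i ≠ k → ¬ N (12 * c) (a i) (a k)) (x y z : ι) :
    ∃ i, ¬ N (6 * c) x (a i) ∧ ¬ N (6 * c) y (a i) ∧ ¬ N (6 * c) z (a i) := by
  by_contra h
  have h1 : ∀ i, ∃ j : Fin 3, N (6 * c) (![x, y, z] j) (a i) := fun i => by
    by_contra h2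
    exact h ⟨i, fun e => h2 ⟨0, e⟩, fun e => h2 ⟨1, e⟩, fun e => h2 ⟨2, e⟩⟩
  choose f hf using h1
  obtain ⟨i, j, hij, e⟩ := Fintype.exists_ne_map_eq_of_card_lt f (by simp)
  have := trans _ _ _ _ _ (symm _ _ _ (hf i)) (e ▸ hf j)
  exact ha i j hij (by rwa [show 12 * c = 6 * c + 6 * c by ring])

namespace BefLoc

variable {ι : Type u} {Θ : Finset ι} {oid pid π : ι → ℕ} {N : ℕ → ι → ι → Prop} {c : ℕ} {k : ι}

/-- A far token of the object of `t`. -/
structure Far (Θ : Finset ι) (oid : ι → ℕ) (N : ℕ → ι → ι → Prop) (c : ℕ) (k t a : ι) :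
    Prop where
  mem : a ∈ Θ
  obj : oid a = oid t
  far : ¬ N (4 * c) k a

variable (h : BefLoc Θ oid pid π N c k)
include h

theorem tr {n m l : ℕ} {x y z : ι} (h1 : N n x y) (h2 : N m y z) (hl : n + m ≤ l) : N l x z :=
  h.mono _ _ _ _ (h.trans _ _ _ _ _ h1 h2) hl

theorem sy {n : ℕ} {x y : ι} (h1 : N n x y) : N n y x := h.symm _ _ _ h1

theorem ne {n : ℕ} {x y : ι} (hx : x ∈ Θ) (hy : y ∈ Θ) (h1 : ¬ N n x y) : π x ≠ π y := fun e => by
  obtain rfl := h.inj hx hy e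
  exact h1 (h.mono _ _ _ _ (h.refl x) (Nat.zero_le _))

theorem pne {x y : ι} (hx : x ∈ Θ) (hy : y ∈ Θ) (h1 : pid x ≠ pid y) : π x ≠ π y := fun e =>
  h1 (by rw [h.inj hx hy e])

theorem fp {t a : ι} (ht : t ∈ Θ) (ha : Far Θ oid N c k t a) : pid a = pid t :=
  h.op a ha.mem t ht ha.obj

theorem fne {t u a b : ι} (ht : t ∈ Θ) (hu : u ∈ Θ) (htu : pid t ≠ pid u)
    (ha : Far Θ oid N c k t a) (hb : Far Θ oid N c k u b) : π a ≠ π b :=
  h.pne ha.mem hb.mem (by rwa [h.fp ht ha, h.fp hu hb])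

theorem nf {s t a : ι} (hs : N (2 * c) k s) (ha : Far Θ oid N c k t a) : ¬ N c s a := fun e =>
  ha.far (h.tr hs e (by omega))

/-- A near token does not lie between two far tokens. -/
theorem out {s t x y : ι} (hs : s ∈ Θ) (hn : N (2 * c) k s) (hx : Far Θ oid N c k t x)
    (hy : Far Θ oid N c k t y) : ¬ Btw (π x) (π y) (π s) := fun e => by
  have h1 := h.ne h.kmem hx.mem hx.far
  have h2 := h.ne h.kmem hy.mem hy.far
  have h3 := h.kmin x hx.mem
  have h4 := h.kmin y hy.mem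
  rcases h.fs _ k h.kmem s hs x hx.mem y hy.mem hn (by unfold Sep Btw Out at *; omega) with e | e
  · exact hx.far (h.mono _ _ _ _ e.1 (by omega))
  · exact hy.far (h.mono _ _ _ _ e.1 (by omega))

/-- A far token between two far tokens of another object is near one of them. -/
theorem btw {s t e x y : ι} (hs : s ∈ Θ) (ht : t ∈ Θ) (hst : pid s ≠ pid t) (hn : N (2 * c) k s)
    (he : e ∈ Θ) (ho : oid e = oid s) (hx : Far Θ oid N c k t x) (hy : Far Θ oid N c k t y)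
    (hb : Btw (π x) (π y) (π e)) : N c e x ∨ N c e y := by
  have h1 := h.out hs hn hx hy
  have h2 := h.ne hs hx.mem (h.nf hn hx)
  have h3 := h.ne hs hy.mem (h.nf hn hy)
  rcases h.ni s hs e he x hx.mem y hy.mem ho.symm (hx.obj.trans hy.obj.symm)
    (by rwa [h.fp ht hx]) (by unfold Sep Btw Out at *; omega) with e | e | e | e
  exacts [absurd e (h.nf hn hx), absurd e (h.nf hn hy), Or.inl e, Or.inr e]

/-- A token between two near far tokens is near both. -/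
theorem sq {n : ℕ} {t a b x : ι} (hn : n ≤ 4 * c) (ha : Far Θ oid N c k t a) (hb : b ∈ Θ)
    (hx : x ∈ Θ) (hab : N n a b) (h1 : π a < π x) (h2 : π x < π b) : N n a x ∧ N n b x := by
  have h3 := h.ne h.kmem ha.mem ha.far
  have h4 := h.kmin a ha.mem
  rcases h.fs n a ha.mem b hb x hx k h.kmem hab (by unfold Sep Btw Out; omega) with e | e
  · exact e
  · exact absurd (h.mono _ _ _ _ (h.sy e.1) hn) ha.far

/-- An object with a near token and two different far tokens has a token away from all. -/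
theorem away {t a a' : ι} (ht : t ∈ Θ) (hn : N (2 * c) k t) (ha : Far Θ oid N c k t a)
    (ha' : Far Θ oid N c k t a') (hne : a ≠ a') :
    ∃ g, Far Θ oid N c k t g ∧ ¬ N (6 * c) a g ∧ ¬ N (6 * c) a' g := by
  rcases h.ref t ht with ⟨t', -, -, -, e⟩ | ⟨r, r1, r2⟩
  · have k1 : ∀ {x}, Far Θ oid N c k t x → x = t' := fun {x} hx =>
      (e x hx.mem hx.obj).resolve_left fun e => hx.far (h.mono _ _ _ _ (e ▸ hn) (by omega))
    exact absurd ((k1 ha).trans (k1 ha').symm) hne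
  · obtain ⟨i, i1, i2, i3⟩ := bef_pick h.symm h.trans r2 k a a'
    exact ⟨r i, ⟨(r1 i).1, (r1 i).2, fun e => i1 (h.mono _ _ _ _ e (by omega))⟩, i2, i3⟩

theorem two {t u a b a' b' : ι} (ht : t ∈ Θ) (hu : u ∈ Θ) (htu : pid t ≠ pid u)
    (nt : N (2 * c) k t) (nu : N (2 * c) k u) (ha : Far Θ oid N c k t a)
    (hb : Far Θ oid N c k u b) (ha' : Far Θ oid N c k t a') (hb' : Far Θ oid N c k u b')
    (l1 : π a < π b) (g1 : ¬ N c a b) (l2 : π b' < π a') (g2 : ¬ N c b' a') : False := by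
  have c1 : N c a' b := by
    rcases lt_or_gt_of_ne (h.fne ht hu htu ha' hb) with e | e
    · exact (h.btw ht hu htu nt ha'.mem ha'.obj hb' hb (Or.inl ⟨l2, e⟩)).resolve_left
        fun e => g2 (h.sy e)
    · exact h.sy ((h.btw hu ht htu.symm nu hb.mem hb.obj ha ha' (Or.inl ⟨l1, e⟩)).resolve_left
        fun e => g1 (h.sy e))
  have c2 : N c a b' := by
    rcases lt_or_gt_of_ne (h.fne ht hu htu ha hb') with e | e
    · exact h.sy ((h.btw hu ht htu.symm nu hb'.mem hb'.obj ha ha' (Or.inl ⟨e, l2⟩)).resolve_right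
        g2)
    · exact (h.btw ht hu htu nt ha.mem ha.obj hb' hb (Or.inl ⟨e, l1⟩)).resolve_right g1
  obtain ⟨g, hg, a1, a2⟩ := h.away ht nt ha ha' fun e => g1 (e ▸ c1)
  have b1 : ¬ N c g b := fun e => a2 (h.tr c1 (h.sy e) (by omega))
  have b2 : ¬ N c g b' := fun e => a1 (h.tr c2 (h.sy e) (by omega))
  have b3 : ¬ N c g u := fun e => h.nf nu hg (h.sy e)
  have key : ∀ {x y z : ι}, Far Θ oid N c k t y → x ∈ Θ → Far Θ oid N c k u z → N c y x →
      ¬ N c y z → ¬ N c g z → Sep (π g) (π x) (π u) (π z) → False := by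
    intro x y z hy hx hz n1 n2 n3 e
    have n4 : ¬ N c y u := fun e => h.nf nu hy (h.sy e)
    rcases bef_move e (h.ne hy.mem hu n4) (h.ne hy.mem hz.mem n2) with e | e
    · rcases h.ni g hg.mem y hy.mem u hu z hz.mem (hg.obj.trans hy.obj.symm) hz.obj.symm
        (by rwa [h.fp ht hg]) e with e | e | e | e
      exacts [b3 e, n3 e, n4 e, n2 e]
    · rcases h.fs c y hy.mem x hx u hu z hz.mem n1 e with e | e
      exacts [n4 e.1, n2 e.1]
  rcases bef_quad (h.ne hg.mem hu b3) (h.ne hg.mem hb.mem b1) (h.ne hg.mem hb'.mem b2)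
    (h.ne hu hb.mem (h.nf nu hb)) (h.ne hu hb'.mem (h.nf nu hb'))
    (fun e => g1 (h.inj hb.mem hb'.mem e ▸ c2)) with e | e | e | e
  · exact (h.btw ht hu htu nt hg.mem hg.obj hb' hb e).elim b2 b1
  · exact h.out hu nu hb' hb e
  · exact key ha hb'.mem hb c2 g1 b1 e
  · exact key ha' hb.mem hb' c1 (fun e => g2 (h.sy e)) b2 e

omit h in
/-- A witness of the local order. -/
structure Wit (Θ : Finset ι) (oid π : ι → ℕ) (N : ℕ → ι → ι → Prop) (c : ℕ) (k t u a b : ι) :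
    Prop where
  l : Far Θ oid N c k t a
  r : Far Θ oid N c k u b
  gap : ¬ N (3 * c) a b
  lt : π a < π b

theorem gap {t u a b : ι} (w : Wit Θ oid π N c k t u a b) : ¬ N c a b := fun e =>
  w.gap (h.mono _ _ _ _ e (by omega))

theorem back {t u v a b b' e : ι} (hu : u ∈ Θ) (hv : v ∈ Θ) (huv : pid u ≠ pid v)
    (nv : N (2 * c) k v) (w1 : Wit Θ oid π N c k t u a b) (w2 : Wit Θ oid π N c k u v b' e)
    (l : π e ≤ π b) : N c e b :=
  (h.btw hv hu huv.symm nv w2.r.mem w2.r.obj w2.l w1.r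
    (Or.inl ⟨w2.lt, lt_of_le_of_ne l (h.fne hv hu huv.symm w2.r w1.r)⟩)).resolve_left
    fun e => h.gap w2 (h.sy e)

theorem close {t u w a b f f' a' : ι} (ht : t ∈ Θ) (hw : w ∈ Θ) (hwt : pid w ≠ pid t)
    (nt : N (2 * c) k t) (nw : N (2 * c) k w) (w1 : Wit Θ oid π N c k t u a b)
    (w4 : Wit Θ oid π N c k w t f' a') (hf : Far Θ oid N c k w f) (n : N (2 * c) f b) : False := by
  refine h.two ht hw hwt.symm nt nw w1.l hf w4.r w4.l ?_
    (fun e => w1.gap (h.tr e n (by omega))) w4.lt (h.gap w4)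
  rcases lt_or_gt_of_ne (h.fne ht hw hwt.symm w1.l hf) with e | e
  · exact e
  · exact absurd (h.mono _ _ _ _ (h.sy (h.sq (by omega) hf w1.r.mem w1.l.mem n e w1.lt).2)
      (by omega)) w1.gap

theorem three {t u v a b b' e e' a' : ι} (ht : t ∈ Θ) (hu : u ∈ Θ) (hv : v ∈ Θ)
    (huv : pid u ≠ pid v) (hvt : pid v ≠ pid t) (nt : N (2 * c) k t) (nv : N (2 * c) k v)
    (w1 : Wit Θ oid π N c k t u a b) (w2 : Wit Θ oid π N c k u v b' e)
    (w3 : Wit Θ oid π N c k v t e' a') (l : π e ≤ π b) : False :=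
  h.close ht hv hvt nt nv w1 w3 w2.r (h.mono _ _ _ _ (h.back hu hv huv nv w1 w2 l) (by omega))

theorem four {t u v w a b b' e e' f f' a' : ι} (ht : t ∈ Θ) (hu : u ∈ Θ) (hv : v ∈ Θ) (hw : w ∈ Θ)
    (huv : pid u ≠ pid v) (hvw : pid v ≠ pid w) (hwt : pid w ≠ pid t) (nt : N (2 * c) k t)
    (nv : N (2 * c) k v) (nw : N (2 * c) k w) (w1 : Wit Θ oid π N c k t u a b)
    (w2 : Wit Θ oid π N c k u v b' e) (w3 : Wit Θ oid π N c k v w e' f)
    (w4 : Wit Θ oid π N c k w t f' a') (l : π e ≤ π b) (l' : π f ≤ π b) : False := by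
  have n1 := h.back hu hv huv nv w1 w2 l
  refine h.close ht hw hwt nt nw w1 w4 w3.r ?_
  rcases le_or_gt (π f) (π e) with l1 | l1
  · exact h.tr (h.back hv hw hvw nw w2 w3 l1) n1 (by omega)
  · rcases l'.eq_or_lt with l2 | l2
    · rw [h.inj w3.r.mem w1.r.mem l2]
      exact h.mono _ _ _ _ (h.refl b) (by omega)
    · exact h.mono _ _ _ _ (h.sy (h.sq (by omega) w2.r w1.r.mem w3.r.mem n1 l1 l2).2) (by omega)

theorem mid {t u v e b b' a : ι} (ht : t ∈ Θ) (hu : u ∈ Θ) (hv : v ∈ Θ) (htu : pid t ≠ pid u)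
    (huv : pid u ≠ pid v) (nt : N (2 * c) k t) (nu : N (2 * c) k u) (nv : N (2 * c) k v)
    (w1 : Wit Θ oid π N c k v u e b) (w2 : Wit Θ oid π N c k u t b' a) :
    ∃ g, Far Θ oid N c k u g ∧ ¬ N c e g ∧ ¬ N c g a ∧ π e < π g ∧ π g < π a := by
  have g1 := h.gap w1
  have g2 := h.gap w2
  have l1 := w1.lt
  have l2 := w2.lt
  rcases lt_trichotomy (π b) (π b') with l | l | l
  · exact ⟨b', w2.l, fun n => g1 (h.sq (by omega) w1.l w2.l.mem w1.r.mem n l1 l).1, g2,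
      by omega, l2⟩
  · obtain rfl := h.inj w1.r.mem w2.l.mem l
    exact ⟨b, w1.r, g1, g2, l1, l2⟩
  by_cases n1 : N c e b'
  swap
  · refine ⟨b', w2.l, n1, g2, ?_, l2⟩
    rcases lt_or_gt_of_ne (h.fne hv hu huv.symm w1.l w2.l) with e | e
    · exact e
    · exact ((h.btw hv hu huv.symm nv w1.l.mem w1.l.obj w2.l w1.r (Or.inl ⟨e, l1⟩)).elim n1 g1).elim
  by_cases n2 : N c b a
  swap
  · refine ⟨b, w1.r, g1, n2, l1, ?_⟩
    rcases lt_or_gt_of_ne (h.fne hu ht htu.symm w1.r w2.r) with e | e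
    · exact e
    · exact ((h.btw ht hu htu nt w2.r.mem w2.r.obj w2.l w1.r (Or.inl ⟨l2, e⟩)).elim
        (fun e => g2 (h.sy e)) fun e => n2 (h.sy e)).elim
  obtain ⟨g, hg, a1, a2⟩ := h.away hu nu w2.l w1.r fun e => by rw [e] at l; omega
  have b1 : ¬ N c b' g := fun e => a1 (h.mono _ _ _ _ e (by omega))
  have b2 : ¬ N c b g := fun e => a2 (h.mono _ _ _ _ e (by omega))
  have b3 : ¬ N c e g := fun e => a1 (h.tr (h.sy n1) e (by omega))
  have b4 : ¬ N c g a := fun e => a2 (h.tr n2 (h.sy e) (by omega))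
  have d1 := h.ne w2.l.mem hg.mem b1
  have d2 := h.ne w1.r.mem hg.mem b2
  have d3 := h.ne w1.l.mem hg.mem b3
  have d4 := h.ne hg.mem w2.r.mem b4
  refine ⟨g, hg, b3, b4, ?_, ?_⟩
  · by_contra e1
    rcases lt_or_gt_of_ne d1 with e2 | e2
    · exact b1 (h.sq (by omega) w2.l w1.l.mem hg.mem (h.sy n1) e2 (by omega)).1
    · exact (h.btw hv hu huv.symm nv w1.l.mem w1.l.obj hg w1.r (Or.inl ⟨by omega, l1⟩)).elim b3 g1
  · by_contra e1
    rcases lt_or_gt_of_ne d2 with e2 | e2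
    · exact (h.btw ht hu htu nt w2.r.mem w2.r.obj w2.l hg (Or.inl ⟨l2, by omega⟩)).elim
        (fun e => g2 (h.sy e)) fun e => b4 (h.sy e)
    · exact b2 (h.sq (by omega) w2.r w1.r.mem hg.mem (h.sy n2) (by omega) e2).2

end BefLoc

theorem bef_loc {ι : Type u} {Θ : Finset ι} {oid pid val rp : ι → ℕ} {N : ℕ → ι → ι → Prop}
    {U : ι → ι → Prop} {c : ℕ} (h : FaceIn Θ oid pid val rp N U c) {k : ι} (hk : k ∈ Θ) :
    ∃ π, BefLoc Θ oid pid π N c k ∧
      (∀ a ∈ Θ, ∀ b ∈ Θ, ¬ N (4 * c) k a → ¬ N (4 * c) k b → ¬ N c a b → π a < π b →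
        ori rp k a b = 1) ∧
      ∀ t u, Bef Θ oid rp N c k t u → ∃ a b, BefLoc.Wit Θ oid π N c k t u a b := by
  have hM : ∀ x ∈ Θ, rp x < Θ.sup rp + 1 := fun x hx => Nat.lt_succ_of_le (Finset.le_sup hx)
  have ne : ∀ {n x y}, x ∈ Θ → y ∈ Θ → ¬ N n x y → rp x ≠ rp y := fun {n x y} hx hy h1 e => by
    obtain rfl := h.inj hx hy e
    exact h1 (h.mono _ _ _ _ (h.refl x x rfl) (Nat.zero_le _))
  refine ⟨fun x => befRot (rp k) (Θ.sup rp + 1) (rp x), ⟨fun t => h.refl t t rfl, h.symm, h.trans,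
    h.mono, fun x hx y hy e => h.inj hx hy ?_, h.op, fun n a ha b hb x hx y hy h1 h2 => ?_,
    fun a ha b hb x hx y hy h1 h2 h3 h4 => ?_, h.ref, hk, fun x hx => ?_⟩,
    fun a ha b hb h1 h2 h3 h4 => ?_, ?_⟩
  · have h1 := hM x hx
    have h2 := hM y hy
    simp only [befRot] at e
    split_ifs at e <;> omega
  · exact h.fs n a ha b hb x hx y hy h1
      ((bef_rot_sep (hM a ha) (hM b hb) (hM x hx) (hM y hy)).1 h2)
  · exact h.ni a ha b hb x hx y hy h1 h2 h3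
      ((bef_rot_sep (hM a ha) (hM b hb) (hM x hx) (hM y hy)).1 h4)
  · have h1 := hM k hk
    simp only [befRot, le_refl, if_true]
    split_ifs <;> omega
  · exact (bef_rot_ori (hM a ha) (hM b hb) (ne hk ha h1).symm (ne hk hb h2).symm
      (ne ha hb h3)).2 h4
  · rintro t u ⟨a, ha, b, hb, h1, h2, h3, h4, h5, h6⟩
    exact ⟨a, b, ⟨ha, h1, h3⟩, ⟨hb, h2, h4⟩, h5, (bef_rot_ori (hM a ha) (hM b hb)
      (ne hk ha h3).symm (ne hk hb h4).symm (ne ha hb h5)).1 h6⟩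

theorem befStmt : BefStmt.{u} := by
  intro ι Θ oid pid val rp N U c h
  refine ⟨fun k hk t ht u hu htu nt nu b1 b2 => ?_,
    fun k hk t ht u hu v hv htu huv hvt nt nu nv b1 b2 b3 => ?_,
    fun k hk t ht u hu v hv w hw htu huv hvw hwt nt nu nv nw b1 b2 b3 b4 => ?_,
    fun k hk t ht u hu v hv htu huv nt nu nv b1 b2 => ?_, fun t ht u hu htu n => ?_⟩
  · obtain ⟨π, H, -, hw⟩ := bef_loc h hk
    obtain ⟨a, b, w1⟩ := hw _ _ b1
    obtain ⟨b', a', w2⟩ := hw _ _ b2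
    exact H.two ht hu htu nt nu w1.l w1.r w2.r w2.l w1.lt (H.gap w1) w2.lt (H.gap w2)
  · obtain ⟨π, H, -, hw⟩ := bef_loc h hk
    obtain ⟨a, b, w1⟩ := hw _ _ b1
    obtain ⟨b', e, w2⟩ := hw _ _ b2
    obtain ⟨e', a', w3⟩ := hw _ _ b3
    rcases (by omega : π e ≤ π b ∨ π a' ≤ π e ∨ π b ≤ π a') with l | l | l
    · exact H.three ht hu hv huv hvt nt nv w1 w2 w3 l
    · exact H.three hu hv ht hvt htu nu nt w2 w3 w1 l
    · exact H.three hv ht hu htu huv nv nu w3 w1 w2 l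
  · obtain ⟨π, H, -, hq⟩ := bef_loc h hk
    obtain ⟨a, b, w1⟩ := hq _ _ b1
    obtain ⟨b', e, w2⟩ := hq _ _ b2
    obtain ⟨e', f, w3⟩ := hq _ _ b3
    obtain ⟨f', a', w4⟩ := hq _ _ b4
    rcases (by omega : (π e ≤ π b ∧ π f ≤ π b) ∨ (π f ≤ π e ∧ π a' ≤ π e) ∨
      (π a' ≤ π f ∧ π b ≤ π f) ∨ (π b ≤ π a' ∧ π e ≤ π a')) with l | l | l | l
    · exact H.four ht hu hv hw huv hvw hwt nt nv nw w1 w2 w3 w4 l.1 l.2
    · exact H.four hu hv hw ht hvw hwt htu nu nw nt w2 w3 w4 w1 l.1 l.2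
    · exact H.four hv hw ht hu hwt htu huv nv nt nu w3 w4 w1 w2 l.1 l.2
    · exact H.four hw ht hu hv htu huv hvw nw nu nv w4 w1 w2 w3 l.1 l.2
  · obtain ⟨π, H, ho, hw⟩ := bef_loc h hk
    obtain ⟨e, b, w1⟩ := hw _ _ b1
    obtain ⟨b', a, w2⟩ := hw _ _ b2
    obtain ⟨g, hg, g1, g2, l1, l2⟩ := H.mid ht hu hv htu huv nt nu nv w1 w2
    exact ⟨e, w1.l.mem, g, hg.mem, a, w2.r.mem, w1.l.obj, hg.obj, w2.r.obj, w1.l.far, hg.far,
      w2.r.far, g1, g2, ho e w1.l.mem g hg.mem w1.l.far hg.far g1 l1,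
      ho g hg.mem a w2.r.mem hg.far w2.r.far g2 l2⟩
  · have k1 : ∀ {x y : ι}, ¬ N (12 * c) x y → ¬ N (6 * c) x y := fun h1 e =>
      h1 (h.mono _ _ _ _ e (by omega))
    have k2 : ∀ {x y z : ι}, N (3 * c) x y → ¬ N (12 * c) x z → ¬ N (6 * c) y z :=
      fun h1 h2 e => h2 (h.mono _ _ _ _ (h.trans _ _ _ _ _ h1 e) (by omega))
    have k3 : ∀ {x y : ι}, ¬ N (6 * c) x y → ¬ N (3 * c) x y := fun h1 e =>
      h1 (h.mono _ _ _ _ e (by omega))
    have k4 : ∀ {x y : ι}, ¬ N (12 * c) x y → x ≠ y := fun {x y} h1 e =>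
      h1 (h.mono _ _ _ _ (h.refl x y (by rw [e])) (Nat.zero_le _))
    have n' := h.symm _ _ _ n
    rcases h.ref t ht with ⟨t', t1, t2, t3, t4⟩ | ⟨r, r1, r2⟩ <;>
      rcases h.ref u hu with ⟨u', u1, u2, u3, u4⟩ | ⟨s, s1, s2⟩
    · exact ⟨t', t1, u', u1, t2, u2, k1 t3, k1 u3, k2 n' u3, k2 n t3,
        h.np t ht t' t1 u hu u' u1 t2.symm u2.symm htu t4 u4 (k4 t3) (k4 u3) n⟩
    · obtain ⟨i, i1, i2, i3⟩ := bef_pick h.symm h.trans s2 t u t'
      exact ⟨t', t1, s i, (s1 i).1, t2, (s1 i).2, k1 t3, i2, i1, k2 n t3, k3 i3⟩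
    · obtain ⟨i, i1, i2, i3⟩ := bef_pick h.symm h.trans r2 t u u'
      exact ⟨r i, (r1 i).1, u', u1, (r1 i).2, u2, i1, k1 u3, k2 n' u3, i2,
        fun e => k3 i3 (h.symm _ _ _ e)⟩
    · obtain ⟨i, i1, i2, -⟩ := bef_pick h.symm h.trans r2 t u u
      obtain ⟨j, j1, j2, j3⟩ := bef_pick h.symm h.trans s2 t u (r i)
      exact ⟨r i, (r1 i).1, s j, (s1 j).1, (r1 i).2, (s1 j).2, i1, j2, j1, i2, k3 j3⟩

end Pool.Agent.Lib.MP_f9389f_co.SC
end

-- part Pool.Agent.Lib.MP_f9389f_co.SC.Del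
section

/-! The corrected wrap count. -/

namespace Pool.Agent.Lib.MP_f9389f_co.SC

universe u

open SimpleGraph

section

variable {ι : Type u} {Θ : Finset ι} {oid pid val rp : ι → ℕ} {N : ℕ → ι → ι → Prop}
  {U : ι → ι → Prop} {c : ℕ}

theorem del_ne (h : FaceIn Θ oid pid val rp N U c) {n : ℕ} {t u : ι} (ht : t ∈ Θ) (hu : u ∈ Θ)
    (k : ¬ N n t u) : rp t ≠ rp u := fun e => by
  obtain rfl := h.inj ht hu e
  exact k (h.mono _ _ _ _ (h.refl _ _ rfl) (Nat.zero_le _))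

theorem del_num (r : ι → ℕ) {t u a b a' b' : ι} (h1 : r t ≠ r a) (h2 : r t ≠ r b)
    (h3 : r u ≠ r a) (h4 : r a ≠ r b) (h1' : r t ≠ r a') (h2' : r t ≠ r b')
    (h3' : r u ≠ r a') (h4' : r a' ≠ r b') (s : ¬ Sep (r t) (r u) (r a) (r a'))
    (o : ori r t a b = ori r t a' b') :
    df r t b + df r a u - df r a b = df r t b' + df r a' u - df r a' b' := by
  have e : ∀ x y : ι, r x ≠ r y → df r x y + df r y x = 1 := fun x y k => by
    unfold df; split_ifs <;> omega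
  have e1 : df r t a - df r u a = df r t a' - df r u a' := by
    unfold Sep Btw Out at s
    unfold df; split_ifs <;> omega
  have := e _ _ h2
  have := e _ _ h2'
  have := e _ _ h3
  have := e _ _ h3'
  unfold ori at o
  omega

theorem del_ori (r : ι → ℕ) {t a b : ι} (h1 : r t ≠ r a) (h2 : r t ≠ r b) (h4 : r a ≠ r b) :
    (ori r t a b = 1 ∧ ori r t b a = 2) ∨ (ori r t a b = 2 ∧ ori r t b a = 1) := by
  unfold ori df; split_ifs <;> omega

theorem del_uniq (h : FaceIn Θ oid pid val rp N U c) (hB : BefOut Θ oid pid rp N c) {t u : ι}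
    (ht : t ∈ Θ) (hu : u ∈ Θ) (hp : pid t ≠ pid u) (hn : N c t u) {a b a' b' : ι}
    (ha : a ∈ Θ) (hb : b ∈ Θ) (oa : oid a = oid t) (ob : oid b = oid u) (k1 : ¬ N (4 * c) t a)
    (k2 : ¬ N (4 * c) t b) (k3 : ¬ N (3 * c) a b)
    (ha' : a' ∈ Θ) (hb' : b' ∈ Θ) (oa' : oid a' = oid t) (ob' : oid b' = oid u)
    (k1' : ¬ N (4 * c) t a') (k2' : ¬ N (4 * c) t b') (k3' : ¬ N (3 * c) a' b') :
    df rp t b + df rp a u - df rp a b = df rp t b' + df rp a' u - df rp a' b' := by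
  have far : ∀ x, ¬ N (4 * c) t x → ¬ N (3 * c) u x := fun x k j =>
    k (h.mono _ _ _ _ (h.trans _ _ _ _ _ hn j) (by omega))
  have far' : ∀ x, ¬ N (4 * c) t x → ¬ N c t x := fun x k j => k (h.mono _ _ _ _ j (by omega))
  have tt : N (2 * c) t t := h.mono _ _ _ _ (h.refl _ _ rfl) (Nat.zero_le _)
  have two := hB.two t ht t ht u hu hp tt (h.mono _ _ _ _ hn (by omega))
  refine del_num rp (del_ne h ht ha k1) (del_ne h ht hb k2) (del_ne h hu ha (far a k1))
    (del_ne h ha hb k3) (del_ne h ht ha' k1') (del_ne h ht hb' k2') (del_ne h hu ha' (far a' k1'))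
    (del_ne h ha' hb' k3') (fun s => ?_) ?_
  · rcases h.fs c t ht u hu a ha a' ha' hn s with j | j
    · exact far' a k1 j.1
    · exact far' a' k1' j.1
  rcases del_ori rp (del_ne h ht ha k1) (del_ne h ht hb k2) (del_ne h ha hb k3) with j | j <;>
    rcases del_ori rp (del_ne h ht ha' k1') (del_ne h ht hb' k2') (del_ne h ha' hb' k3') with i | i
  · rw [j.1, i.1]
  · exact (two ⟨a, ha, b, hb, oa, ob, k1, k2, k3, j.1⟩
      ⟨b', hb', a', ha', ob', oa', k2', k1', fun e => k3' (h.symm _ _ _ e), i.2⟩).elim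
  · exact (two ⟨a', ha', b', hb', oa', ob', k1', k2', k3', i.1⟩
      ⟨b, hb, a, ha, ob, oa, k2, k1, fun e => k3 (h.symm _ _ _ e), j.2⟩).elim
  · rw [j.1, i.1]

end

theorem delStmt : DelStmt.{u} := by
  intro ι Θ oid pid val rp N U c h hB
  have e : ∀ x y : ι, rp x ≠ rp y → df rp x y + df rp y x = 1 := fun x y k => by
    unfold df; split_ifs <;> omega
  have m4 : ∀ x y, ¬ N (6 * c) x y → ¬ N (4 * c) x y := fun x y k j =>
    k (h.mono _ _ _ _ j (by omega))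
  have key : ∀ t u : ι, ∃ z : ℤ, ((pid t = pid u ∨ ¬ N c t u) → z = df rp t u) ∧
      (t ∈ Θ → u ∈ Θ → pid t ≠ pid u → N c t u → ∀ a ∈ Θ, ∀ b ∈ Θ, oid a = oid t →
        oid b = oid u → ¬ N (4 * c) t a → ¬ N (4 * c) t b → ¬ N (3 * c) a b →
        z = df rp t b + df rp a u - df rp a b) := by
    intro t u
    by_cases k : t ∈ Θ ∧ u ∈ Θ ∧ pid t ≠ pid u ∧ N c t u
    · obtain ⟨ht, hu, hp, hn⟩ := k
      obtain ⟨a, ha, b, hb, oa, ob, k1, -, k2, -, k3⟩ :=
        hB.ex t ht u hu hp (h.mono _ _ _ _ hn (by omega))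
      exact ⟨_, fun j => (j.elim hp fun j => j hn).elim,
        fun _ _ _ _ a' ha' b' hb' oa' ob' k1' k2' k3' => del_uniq h hB ht hu hp hn ha hb oa ob
          (m4 _ _ k1) (m4 _ _ k2) k3 ha' hb' oa' ob' k1' k2' k3'⟩
    · exact ⟨_, fun _ => rfl, fun a b d f => (k ⟨a, b, d, f⟩).elim⟩
  choose δ h1 h2 using key
  refine ⟨δ, fun t ht u hu htu => ?_, fun t _ u _ => h1 t u, fun t ht u hu => h2 t u ht hu⟩
  by_cases k : pid t = pid u ∨ ¬ N c t u
  · rw [h1 t u k, h1 u t (k.imp Eq.symm fun j i => j (h.symm _ _ _ i))]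
    exact e _ _ fun j => htu (h.inj ht hu j)
  · rw [not_or, not_not] at k
    obtain ⟨a, ha, b, hb, oa, ob, k1, k2, k3, k4, k5⟩ :=
      hB.ex t ht u hu k.1 (h.mono _ _ _ _ k.2 (by omega))
    rw [h2 t u ht hu k.1 k.2 a ha b hb oa ob (m4 _ _ k1) (m4 _ _ k3) k5,
      h2 u t hu ht (Ne.symm k.1) (h.symm _ _ _ k.2) b hb a ha ob oa (m4 _ _ k2) (m4 _ _ k4)
        fun j => k5 (h.symm _ _ _ j)]
    have := e _ _ (del_ne h ht hb k3)
    have := e _ _ (del_ne h hu ha k4)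
    have := e _ _ (del_ne h ha hb k5)
    omega

end Pool.Agent.Lib.MP_f9389f_co.SC
end

-- part Pool.Agent.Lib.MP_f9389f_co.SC.Tri
section

/-! Short cycles of the corrected wrap count. -/

namespace Pool.Agent.Lib.MP_f9389f_co.SC

universe u

open SimpleGraph

section

variable {ι : Type u} {r : ι → ℕ} {x y z w : ι}

theorem tri_anti (h : r x ≠ r y) : df r x y + df r y x = 1 := by
  unfold df; split_ifs <;> omega

theorem tri_ge (z : ι) (h : r x ≠ r y) : 1 ≤ df r x y + df r y z + df r z x := by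
  unfold df; split_ifs <;> omega

theorem tri_le (r : ι → ℕ) (x y z : ι) : df r x y + df r y z + df r z x ≤ 2 := by
  unfold df; split_ifs <;> omega

theorem tri_ge4 (z w : ι) (h : r x ≠ r y) : 1 ≤ df r x y + df r y z + df r z w + df r w x := by
  unfold df; split_ifs <;> omega

theorem tri_const (h : ¬ Sep (r x) (r y) (r z) (r w)) (h1 : r z ≠ r x) (h2 : r z ≠ r y)
    (h3 : r w ≠ r x) (h4 : r w ≠ r y) : df r x z - df r y z = df r x w - df r y w := by
  unfold df; unfold Sep Btw Out at h; split_ifs <;> omega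

theorem tri_sep (h : df r x y + df r y z + df r z x = 1) (h' : df r x z + df r z w + df r w x = 1)
    (h1 : r x ≠ r y) (h2 : r y ≠ r z) (h3 : r z ≠ r w) (h4 : r w ≠ r x) (h5 : r x ≠ r z) :
    Sep (r x) (r z) (r y) (r w) := by
  unfold df at h h'; unfold Sep Btw Out; split_ifs at h h' <;> omega

end

variable {ι : Type u} {Θ : Finset ι} {oid pid val rp : ι → ℕ} {N : ℕ → ι → ι → Prop}
  {U : ι → ι → Prop} {c : ℕ} {δ : ι → ι → ℤ}

theorem tri_refl (F : FaceIn Θ oid pid val rp N U c) (n : ℕ) (x : ι) : N n x x :=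
  F.mono 0 n x x (F.refl x x rfl) n.zero_le

theorem tri_ne (F : FaceIn Θ oid pid val rp N U c) {n : ℕ} {x y : ι} (hx : x ∈ Θ) (hy : y ∈ Θ)
    (h : ¬ N n x y) : rp x ≠ rp y := fun e => h (F.inj hx hy e ▸ tri_refl F n x)

theorem tri_far (F : FaceIn Θ oid pid val rp N U c) {n m l : ℕ} {k s g : ι} (h : N n k s)
    (hg : ¬ N l k g) (e : n + m ≤ l) : ¬ N m s g :=
  fun h' => hg (F.mono _ _ _ _ (F.trans _ _ _ _ _ h h') e)

/-- Points far from a near pair lie on one side of it. -/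
theorem tri_mv (F : FaceIn Θ oid pid val rp N U c) {n : ℕ} {s s' x y : ι} (hs : s ∈ Θ)
    (hs' : s' ∈ Θ) (hx : x ∈ Θ) (hy : y ∈ Θ) (h : N n s s') (h1 : ¬ (N n s x ∧ N n s' x))
    (h2 : ¬ (N n s y ∧ N n s' y)) : df rp s x - df rp s' x = df rp s y - df rp s' y := by
  have k : ∀ z ∈ Θ, ¬ (N n s z ∧ N n s' z) → rp z ≠ rp s ∧ rp z ≠ rp s' := fun z hz h3 =>
    ⟨fun e => h3 (by rw [F.inj hz hs e]; exact ⟨tri_refl F n _, F.symm _ _ _ h⟩),
      fun e => h3 (by rw [F.inj hz hs' e]; exact ⟨h, tri_refl F n _⟩)⟩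
  exact tri_const (fun e => (F.fs n s hs s' hs' x hx y hy h e).elim h1 h2) (k x hx h1).1
    (k x hx h1).2 (k y hy h2).1 (k y hy h2).2

theorem tri_lem (F : FaceIn Θ oid pid val rp N U c) (B : BefOut Θ oid pid rp N c)
    (D : DelOut Θ oid pid rp N c δ) {k s s' g : ι} (hk : k ∈ Θ) (hs : s ∈ Θ) (hs' : s' ∈ Θ)
    (hg : g ∈ Θ) (hp : pid s ≠ pid s') (h1 : N (2 * c) k s) (h3 : N (3 * c) s s')
    (h4 : ¬ N (6 * c) k g) : δ s s' = df rp s g - df rp s' g + 1 ∨
      (δ s s' = df rp s g - df rp s' g ∧ Bef Θ oid rp N c k s' s) := by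
  obtain ⟨a, ha, b, hb, oa, ob, sa, s'b, sb, s'a, ab⟩ := B.ex s hs s' hs' hp h3
  have dn : ∀ {n m : ℕ} {x y : ι}, ¬ N m x y → n ≤ m → ¬ N n x y :=
    fun h e h' => h (F.mono _ _ _ _ h' e)
  have ka : ¬ N (4 * c) k a := tri_far F (F.symm _ _ _ h1) sa (by omega)
  have kb : ¬ N (4 * c) k b := tri_far F (F.symm _ _ _ h1) sb (by omega)
  have sg : ¬ N (3 * c) s g := tri_far F h1 h4 (by omega)
  have e1 := tri_mv F hs hs' ha hg h3 (fun h => dn sa (by omega) h.1) fun h => sg h.1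
  have e2 := tri_mv F hs hs' hb hg h3 (fun h => dn sb (by omega) h.1) fun h => sg h.1
  have e3 := tri_mv F hk hs ha hb h1 (fun h => dn sa (by omega) h.2) fun h => dn sb (by omega) h.2
  have n1 := tri_ne F hs ha sa
  have n2 := tri_ne F hs hb sb
  have n3 := tri_ne F ha hb ab
  have a1 := tri_anti n1
  have a2 := tri_anti n2
  have a3 := tri_anti n3
  have a4 := tri_anti (tri_ne F hk ha ka)
  have a5 := tri_anti (tri_ne F hs' ha s'a)
  have o1 := tri_ge b n1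
  have o2 := tri_le rp s a b
  have bef : df rp s b + df rp b a + df rp a s = 1 → Bef Θ oid rp N c k s' s := fun h =>
    ⟨b, hb, a, ha, ob, oa, kb, ka, fun h' => ab (F.symm _ _ _ h'), by unfold ori; omega⟩
  by_cases hN : N c s s'
  · have e := D.rule s hs s' hs' hp hN a ha b hb oa ob (dn sa (by omega)) (dn sb (by omega)) ab
    by_cases h : df rp s b + df rp b a + df rp a s = 1
    · exact .inr ⟨by omega, bef h⟩
    · exact .inl (by omega)
  · have e := D.plain s hs s' hs' (.inr hN)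
    have n4 := tri_ne F hs hs' hN
    have o3 := tri_ge a n4
    have o4 := tri_le rp s s' a
    by_cases h : df rp s s' + df rp s' a + df rp a s = 1
    · refine .inr ⟨by omega, bef ?_⟩
      by_contra h'
      rcases F.ni s hs a ha s' hs' b hb oa.symm ob.symm hp
        (tri_sep h (by omega) n4 (tri_ne F hs' ha s'a) n3 n2.symm n1) with k | k | k | k
      · exact hN k
      · exact dn sb (by omega) k
      · exact dn s'a (by omega) (F.symm _ _ _ k)
      · exact dn ab (by omega) k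
    · exact .inl (by omega)

/-- Exactly one side of the triangle is modified. -/
theorem tri_one (F : FaceIn Θ oid pid val rp N U c) (B : BefOut Θ oid pid rp N c)
    (D : DelOut Θ oid pid rp N c δ) {t u v : ι} (ht : t ∈ Θ) (hu : u ∈ Θ) (hv : v ∈ Θ)
    (hp : pid t ≠ pid u) (hN : N c t u) (h1 : pid u = pid v ∨ ¬ N c u v)
    (h2 : pid v = pid t ∨ ¬ N c v t) (vt : v ≠ t) : 1 ≤ δ t u + δ u v + δ v t := by
  obtain ⟨a, ha, -, -, -, -, ta, -⟩ := B.ex t ht u hu hp (F.mono _ _ _ _ hN (by omega))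
  have e := tri_lem F B D ht ht hu ha hp (tri_refl F _ t) (F.mono _ _ _ _ hN (by omega)) ta
  have e1 := tri_mv F ht hu ha hv hN (fun h => ta (F.mono _ _ _ _ h.1 (by omega))) fun h =>
    hp ((h2.resolve_right fun k => k (F.symm _ _ _ h.1)).symm.trans
      (h1.resolve_right fun k => k h.2).symm)
  have e2 := D.plain u hu v hv h1
  have e3 := D.plain v hv t ht h2
  have a1 := tri_anti (r := rp) fun k => vt (F.inj hv ht k)
  rcases e with e | ⟨e, -⟩ <;> omega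

/-- Two sides of the triangle are modified. -/
theorem tri_two (F : FaceIn Θ oid pid val rp N U c) (B : BefOut Θ oid pid rp N c)
    (D : DelOut Θ oid pid rp N c δ) {t u v : ι} (ht : t ∈ Θ) (hu : u ∈ Θ) (hv : v ∈ Θ)
    (p1 : pid t ≠ pid u) (tu : N c t u) (p2 : pid u ≠ pid v) (uv : N c u v) (vt : v ≠ t)
    (hU : ¬ U v t) : 1 ≤ δ t u + δ u v + δ v t := by
  have up : ∀ {n m : ℕ} {x y : ι}, N n x y → n ≤ m → N m x y := fun h e => F.mono _ _ _ _ h e
  have ut := F.symm _ _ _ tu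
  have nvt : N (2 * c) v t := up (F.trans _ _ _ _ _ (F.symm _ _ _ uv) ut) (by omega)
  have kt : N (2 * c) u t := up ut (by omega)
  have kv : N (2 * c) u v := up uv (by omega)
  have ku := tri_refl F (2 * c) u
  obtain ⟨-, -, g, hg, -, -, -, ug, -⟩ := B.ex t ht u hu p1 (up tu (by omega))
  have l1 := tri_lem F B D hu ht hu hg p1 kt (up tu (by omega)) ug
  have l2 := tri_lem F B D hu hu hv hg p2 ku (up uv (by omega)) ug
  by_contra hc
  by_cases p3 : pid v = pid t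
  swap
  · have l3 := tri_lem F B D hu hv ht hg p3 kv (up nvt (by omega)) ug
    rcases l1 with l1 | ⟨l1, b1⟩ <;> rcases l2 with l2 | ⟨l2, b2⟩ <;>
      rcases l3 with l3 | ⟨l3, b3⟩ <;> try omega
    exact B.three u hu v hv u hu t ht p2.symm p1.symm (Ne.symm p3) kv ku kt b2 b1 b3
  have e3 := D.plain v hv t ht (.inl p3)
  have nv : rp v ≠ rp t := fun k => vt (F.inj hv ht k)
  have vg : ¬ N (2 * c) v g := tri_far F uv ug (by omega)
  have o1 := tri_ge g nv
  have a1 := tri_anti (tri_ne F hv hg vg)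
  rcases l1 with l1 | ⟨l1, b1⟩ <;> rcases l2 with l2 | ⟨l2, b2⟩ <;> try omega
  obtain ⟨e, he, b, hb, a, ha, oe, ob, oa, ue, ub, ua, eb, ba, o2, o3⟩ :=
    B.mid u hu t ht u hu v hv p1 p2 kt ku kv b2 b1
  unfold ori at o2 o3
  have sp : Sep (rp a) (rp e) (rp u) (rp b) := (tri_sep o2 o3 (tri_ne F hu he ue)
    (tri_ne F he hb eb) (tri_ne F hb ha ba) (tri_ne F hu ha ua).symm (tri_ne F hu hb ub)).symm.swap
  have c1 : ¬ N c a u := fun k => ua (up (F.symm _ _ _ k) (by omega))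
  have c2 : ¬ N c e u := fun k => ue (up (F.symm _ _ _ k) (by omega))
  have cr : ¬ Cr (N c) a e u b := by
    rintro (k | k | k | k)
    exacts [c1 k, ba (F.symm _ _ _ k), c2 k, eb k]
  have pa : pid a = pid t := F.op a ha t ht oa
  by_cases ho : oid t = oid v
  · exact cr (F.ni a ha e he u hu b hb (oa.trans (ho.trans oe.symm)) ob.symm (pa ▸ p1) sp)
  have ae : ¬ N c a e := fun k =>
    (F.fs c a ha e he u hu b hb k sp).elim (fun k' => c1 k'.1) fun k' => eb k'.2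
  have te : ¬ N c t e := tri_far F ut ue (by omega)
  have ve : ¬ N (2 * c) v e := tri_far F uv ue (by omega)
  have va : ¬ N (2 * c) v a := tri_far F uv ua (by omega)
  have ta : ¬ N c t a := tri_far F ut ua (by omega)
  refine cr (F.tl t ht a ha v hv e he u hu b hb oa.symm oe.symm ho p3.symm ob.symm p1.symm ?_
    (fun k => hU (F.usymm _ _ k)) te (fun k => va (up (F.symm _ _ _ k) (by omega))) ae sp)
  have m1 := tri_mv F hv ht he hg nvt (fun k => ve k.1) fun k => vg k.1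
  have m2 := tri_mv F hu hv he ha uv (fun k => c2 (F.symm _ _ _ k.1)) fun k => c1 (F.symm _ _ _ k.1)
  have a2 := tri_anti (tri_ne F hv he ve)
  have a3 := tri_anti (tri_ne F hv ha va)
  have a4 := tri_anti (tri_ne F hu ha ua)
  have o4 : df rp u e + df rp e a + df rp a u = 1 := by
    have n1 := tri_ne F hu he ue
    have n2 := tri_ne F he hb eb
    have n3 := tri_ne F hb ha ba
    have n4 := tri_ne F hu hb ub
    have n5 := tri_ne F hu ha ua
    clear * - o2 o3 n1 n2 n3 n4 n5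
    unfold df at *
    split_ifs at * <;> omega
  exact (tri_sep (x := v) (y := t) (z := e) (w := a) (by omega) (by omega) nv (tri_ne F ht he te)
    (tri_ne F ha he ae).symm (tri_ne F hv ha va).symm (tri_ne F hv he ve)).symm

theorem tri_four (F : FaceIn Θ oid pid val rp N U c) (B : BefOut Θ oid pid rp N c)
    (D : DelOut Θ oid pid rp N c δ) {t u v w : ι} (ht : t ∈ Θ) (hu : u ∈ Θ) (hv : v ∈ Θ)
    (hw : w ∈ Θ) (h1 : U t v) (h2 : U u w) (hp : pid t ≠ pid u) (tu : N c t u) :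
    1 ≤ δ t u + δ u v + δ v w + δ w t := by
  have up : ∀ {n m : ℕ} {x y : ι}, N n x y → n ≤ m → N m x y := fun h e => F.mono _ _ _ _ h e
  obtain ⟨q1, -, tv⟩ := F.usub _ _ h1
  obtain ⟨q2, -, uw⟩ := F.usub _ _ h2
  have tw := F.trans _ _ _ _ _ tu uw
  have kt := tri_refl F (2 * c) t
  have ku : N (2 * c) t u := up tu (by omega)
  have kv : N (2 * c) t v := up tv (by omega)
  have kw : N (2 * c) t w := up tw (by omega)
  have p2 : pid u ≠ pid v := by omega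
  have p3 : pid v ≠ pid w := by omega
  have p4 : pid w ≠ pid t := by omega
  obtain ⟨g, hg, -, -, -, -, tg, -⟩ := B.ex t ht u hu hp (up tu (by omega))
  have l1 := tri_lem F B D ht ht hu hg hp kt (up tu (by omega)) tg
  have l2 := tri_lem F B D ht hu hv hg p2 ku
    (up (F.trans _ _ _ _ _ (F.symm _ _ _ tu) tv) (by omega)) tg
  have l3 := tri_lem F B D ht hv hw hg p3 kv
    (up (F.trans _ _ _ _ _ (F.symm _ _ _ tv) tw) (by omega)) tg
  have l4 := tri_lem F B D ht hw ht hg p4 kw (up (F.symm _ _ _ tw) (by omega)) tg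
  by_contra hc
  rcases l1 with l1 | ⟨l1, b1⟩ <;> rcases l2 with l2 | ⟨l2, b2⟩ <;>
    rcases l3 with l3 | ⟨l3, b3⟩ <;> rcases l4 with l4 | ⟨l4, b4⟩ <;> try omega
  exact B.four t ht w hw v hv u hu t ht p3.symm p2.symm hp.symm p4.symm kw kv ku kt b3 b2 b1 b4

theorem triStmt : TriStmt.{u} := by
  intro ι Θ oid pid val rp N U c δ F B D
  have sp : ∀ x y, (pid x ≠ pid y ∧ N c x y) ∨ (pid x = pid y ∨ ¬ N c x y) := fun x y => by tauto
  refine ⟨fun t ht u hu v hv tu uv vt u1 u2 u3 => ?_, fun t ht u hu v hv w hw h1 h2 hp => ?_⟩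
  · rcases sp t u with m1 | m1 <;> rcases sp u v with m2 | m2 <;> rcases sp v t with m3 | m3
    · exact tri_two F B D ht hu hv m1.1 m1.2 m2.1 m2.2 vt u3
    · exact tri_two F B D ht hu hv m1.1 m1.2 m2.1 m2.2 vt u3
    · have := tri_two F B D hv ht hu m3.1 m3.2 m1.1 m1.2 uv u2
      omega
    · exact tri_one F B D ht hu hv m1.1 m1.2 m2 m3 vt
    · have := tri_two F B D hu hv ht m2.1 m2.2 m3.1 m3.2 tu u1
      omega
    · have := tri_one F B D hu hv ht m2.1 m2.2 m3 m1 tu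
      omega
    · have := tri_one F B D hv ht hu m3.1 m3.2 m1 m2 uv
      omega
    · rw [D.plain t ht u hu m1, D.plain u hu v hv m2, D.plain v hv t ht m3]
      exact tri_ge v fun k => tu (F.inj ht hu k)
  · have q1 := (F.usub _ _ h1).1
    have q2 := (F.usub _ _ h2).1
    by_cases n1 : N c t u
    · exact tri_four F B D ht hu hv hw h1 h2 hp n1
    by_cases n2 : N c u v
    · have := tri_four F B D hu hv hw ht h2 (F.usymm _ _ h1) (by omega) n2
      omega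
    by_cases n3 : N c v w
    · have := tri_four F B D hv hw ht hu (F.usymm _ _ h1) (F.usymm _ _ h2) (by omega) n3
      omega
    by_cases n4 : N c w t
    · have := tri_four F B D hw ht hu hv (F.usymm _ _ h2) h1 (by omega) n4
      omega
    rw [D.plain t ht u hu (.inr n1), D.plain u hu v hv (.inr n2), D.plain v hv w hw (.inr n3),
      D.plain w hw t ht (.inr n4)]
    exact tri_ge4 v w (tri_ne F ht hu n1)

end Pool.Agent.Lib.MP_f9389f_co.SC
end

-- part Pool.Agent.Lib.MP_f9389f_co.SC.Even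
section

/-! Objects with different parents do not cross. -/

namespace Pool.Agent.Lib.MP_f9389f_co.SC

universe u

open SimpleGraph

section

variable {ι : Type u} {Θ : Finset ι} {oid pid val rp : ι → ℕ} {N : ℕ → ι → ι → Prop}
  {U : ι → ι → Prop} {c : ℕ} {δ : ι → ι → ℤ}

/-- The parity of the four cross values. -/
def EvenQ (δ : ι → ι → ℤ) (t t' u u' : ι) : Prop := Even (δ t u + δ t u' + δ t' u + δ t' u')

theorem EvenQ.swap {t t' u u' : ι} (h : EvenQ δ t t' u u') : EvenQ δ t' t u u' := by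
  unfold EvenQ at *
  rw [Int.even_iff] at *
  omega

theorem EvenQ.swap' {t t' u u' : ι} (h : EvenQ δ t t' u u') : EvenQ δ t t' u' u := by
  unfold EvenQ at *
  rw [Int.even_iff] at *
  omega

theorem EvenQ.add {t t' a u u' : ι} (h : EvenQ δ t a u u') (h' : EvenQ δ t' a u u') :
    EvenQ δ t t' u u' := by
  unfold EvenQ at *
  rw [Int.even_iff] at *
  omega

theorem EvenQ.add' {t t' b u u' : ι} (h : EvenQ δ t t' u b) (h' : EvenQ δ t t' u' b) :
    EvenQ δ t t' u u' := by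
  unfold EvenQ at *
  rw [Int.even_iff] at *
  omega

theorem even_left (t u u' : ι) : EvenQ δ t t u u' := by
  unfold EvenQ
  rw [Int.even_iff]
  omega

theorem even_right (t t' u : ι) : EvenQ δ t t' u u := by
  unfold EvenQ
  rw [Int.even_iff]
  omega

theorem even_plain (hPar : ParStmt.{u}) (h : FaceIn Θ oid pid val rp N U c)
    (hD : DelOut Θ oid pid rp N c δ) {t t' u u' : ι} (ht : t ∈ Θ) (ht' : t' ∈ Θ) (hu : u ∈ Θ)
    (hu' : u' ∈ Θ) (ot : oid t = oid t') (ou : oid u = oid u') (hp : pid t ≠ pid u)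
    (k : ¬ Cr (N c) t t' u u') : EvenQ δ t t' u u' := by
  have ne : ∀ x ∈ Θ, ∀ y ∈ Θ, ¬ N c x y → rp x ≠ rp y := fun x hx y hy j e => by
    obtain rfl := h.inj hx hy e
    exact j (h.mono _ _ _ _ (h.refl _ _ rfl) (Nat.zero_le _))
  have s := mt (h.ni t ht t' ht' u hu u' hu' ot ou hp) k
  simp only [Cr, not_or] at k
  obtain ⟨k1, k2, k3, k4⟩ := k
  rw [hPar ι rp t t' u u' (ne t ht u hu k1) (ne t ht u' hu' k2) (ne t' ht' u hu k3)
    (ne t' ht' u' hu' k4), Int.not_odd_iff_even] at s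
  rwa [EvenQ, hD.plain t ht u hu (.inr k1), hD.plain t ht u' hu' (.inr k2),
    hD.plain t' ht' u hu (.inr k3), hD.plain t' ht' u' hu' (.inr k4)]

theorem even_z (hPar : ParStmt.{u}) (h : FaceIn Θ oid pid val rp N U c)
    (hD : DelOut Θ oid pid rp N c δ) {t a u b : ι} (ht : t ∈ Θ) (ha : a ∈ Θ) (hu : u ∈ Θ)
    (hb : b ∈ Θ) (ot : oid t = oid a) (ou : oid u = oid b) (hp : pid t ≠ pid u)
    (k1 : ¬ N (5 * c) a u) (k2 : ¬ N (5 * c) t b) (k3 : ¬ N (3 * c) a b) : EvenQ δ t a u b := by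
  have j1 : ¬ N c a u := fun j => k1 (h.mono _ _ _ _ j (by omega))
  have j2 : ¬ N c t b := fun j => k2 (h.mono _ _ _ _ j (by omega))
  have j3 : ¬ N c a b := fun j => k3 (h.mono _ _ _ _ j (by omega))
  by_cases hn : N c t u
  · rw [EvenQ, hD.rule t ht u hu hp hn a ha b hb ot.symm ou.symm
      (fun j => k1 (h.mono _ _ _ _ (h.trans _ _ _ _ _ (h.symm _ _ _ j) hn) (by omega)))
      (fun j => k2 (h.mono _ _ _ _ j (by omega))) k3, hD.plain t ht b hb (.inr j2),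
      hD.plain a ha u hu (.inr j1), hD.plain a ha b hb (.inr j3), Int.even_iff]
    omega
  · exact even_plain hPar h hD ht ha hu hb ot ou hp fun j => j.elim hn fun j => j.elim j2
      fun j => j.elim j1 j3

theorem even_ref (h : FaceIn Θ oid pid val rp N U c) {a : Fin 4 → ι}
    (ha : ∀ i k, i ≠ k → ¬ N (12 * c) (a i) (a k)) (x y : ι) :
    ∃ i, ¬ N (6 * c) (a i) x ∧ ¬ N (6 * c) (a i) y := by
  have one : ∀ z i k, i ≠ k → N (6 * c) (a i) z → ¬ N (6 * c) (a k) z := fun z i k e j j' =>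
    ha i k e (h.mono _ _ _ _ (h.trans _ _ _ _ _ j (h.symm _ _ _ j')) (by omega))
  by_contra k
  have k' : ∀ i, N (6 * c) (a i) x ∨ N (6 * c) (a i) y := fun i => by
    by_contra j
    exact k ⟨i, not_or.1 j⟩
  rcases k' 0 with j0 | j0 <;> rcases k' 1 with j1 | j1 <;> rcases k' 2 with j2 | j2
  all_goals first
    | exact one _ 0 1 (by decide) j0 j1
    | exact one _ 0 2 (by decide) j0 j2
    | exact one _ 1 2 (by decide) j1 j2

theorem even_big (hPar : ParStmt.{u}) (h : FaceIn Θ oid pid val rp N U c)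
    (hD : DelOut Θ oid pid rp N c δ) {t t' u u' : ι} (ht : t ∈ Θ) (ht' : t' ∈ Θ) (hu : u ∈ Θ)
    (hu' : u' ∈ Θ) (ot : oid t = oid t') (ou : oid u = oid u') (hp : pid t ≠ pid u)
    {a : Fin 4 → ι} (h1 : ∀ i, a i ∈ Θ ∧ oid (a i) = oid t)
    (h2 : ∀ i k, i ≠ k → ¬ N (12 * c) (a i) (a k)) : EvenQ δ t t' u u' := by
  obtain ⟨i, k1, k2⟩ := even_ref h h2 u u'
  obtain ⟨hx, ox⟩ := h1 i
  generalize a i = x at *
  have m5 : ∀ y z, ¬ N (6 * c) y z → ¬ N (5 * c) y z := fun y z k j =>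
    k (h.mono _ _ _ _ j (by omega))
  have m3 : ∀ y z, ¬ N (6 * c) y z → ¬ N (3 * c) y z := fun y z k j =>
    k (h.mono _ _ _ _ j (by omega))
  have pu := h.op u hu u' hu' ou
  have key : ∀ s ∈ Θ, oid s = oid x → EvenQ δ s x u u' := fun s hs os => by
    have ps : pid s ≠ pid u := h.op s hs t ht (os.trans ox) ▸ hp
    by_cases j1 : N (5 * c) s u'
    swap
    · exact even_z hPar h hD hs hx hu hu' os ou ps (m5 _ _ k1) j1 (m3 _ _ k2)
    by_cases j2 : N (5 * c) s u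
    swap
    · exact (even_z hPar h hD hs hx hu' hu os ou.symm (pu ▸ ps) (m5 _ _ k2) j2 (m3 _ _ k1)).swap'
    rcases h.ref u hu with ⟨v, -, -, j3, j4⟩ | ⟨b, b1, b2⟩
    · rcases j4 u' hu' ou.symm with rfl | rfl
      · exact even_right _ _ _
      · exact (j3 (h.mono _ _ _ _ (h.trans _ _ _ _ _ (h.symm _ _ _ j2) j1) (by omega))).elim
    · obtain ⟨k, e1, e2⟩ := even_ref h b2 s x
      have e1' : ¬ N (5 * c) s (b k) := fun j => m5 _ _ e1 (h.symm _ _ _ j)
      have e2' : ¬ N (3 * c) x (b k) := fun j => m3 _ _ e2 (h.symm _ _ _ j)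
      exact (even_z hPar h hD hs hx hu (b1 k).1 os (b1 k).2.symm ps (m5 _ _ k1) e1' e2').add'
        (even_z hPar h hD hs hx hu' (b1 k).1 os ((b1 k).2.trans ou).symm (pu ▸ ps) (m5 _ _ k2)
          e1' e2')
  exact (key t ht ox.symm).add (key t' ht' (ox.trans ot).symm)

theorem even_pair (hPar : ParStmt.{u}) (h : FaceIn Θ oid pid val rp N U c)
    (hD : DelOut Θ oid pid rp N c δ) {t t' u u' : ι} (ht : t ∈ Θ) (ht' : t' ∈ Θ) (hu : u ∈ Θ)
    (hu' : u' ∈ Θ) (ot : oid t = oid t') (ou : oid u = oid u') (hp : pid t ≠ pid u)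
    (k1 : ¬ N (12 * c) t t') (k2 : ¬ N (12 * c) u u')
    (a1 : ∀ s ∈ Θ, oid s = oid t → s = t ∨ s = t') (a2 : ∀ s ∈ Θ, oid s = oid u → s = u ∨ s = u')
    (hn : N c t u) : EvenQ δ t t' u u' := by
  have ne : ∀ x y, ¬ N (12 * c) x y → x ≠ y := fun x y j e => by
    subst e
    exact j (h.mono _ _ _ _ (h.refl _ _ rfl) (Nat.zero_le _))
  exact even_z hPar h hD ht ht' hu hu' ot ou hp
    (fun j => k1 (h.mono _ _ _ _ (h.trans _ _ _ _ _ hn (h.symm _ _ _ j)) (by omega)))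
    (fun j => k2 (h.mono _ _ _ _ (h.trans _ _ _ _ _ (h.symm _ _ _ hn) j) (by omega)))
    (h.np t ht t' ht' u hu u' hu' ot ou hp a1 a2 (ne _ _ k1) (ne _ _ k2)
      (h.mono _ _ _ _ hn (by omega)))

end

theorem evenStmt (hPar : ParStmt.{u}) : EvenStmt.{u} := by
  intro ι Θ oid pid val rp N U c δ h _ hD t ht t' ht' u hu u' hu' ot ou hp
  change EvenQ δ t t' u u'
  have pt := h.op t ht t' ht' ot
  have pu := h.op u hu u' hu' ou
  rcases h.ref t ht with ⟨v, -, -, k1, a1⟩ | ⟨a, h1, h2⟩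
  swap
  · exact even_big hPar h hD ht ht' hu hu' ot ou hp h1 h2
  rcases h.ref u hu with ⟨w, -, -, k2, a2⟩ | ⟨a, h1, h2⟩
  swap
  · have e := even_big hPar h hD hu hu' ht ht' ou ot hp.symm h1 h2
    have an : ∀ x ∈ Θ, ∀ y ∈ Θ, pid x = pid t → pid y = pid u → δ x y + δ y x = 1 :=
      fun x hx y hy i j => hD.anti x hx y hy fun f => hp (by rw [← i, ← j, f])
    have := an t ht u hu rfl rfl
    have := an t ht u' hu' rfl pu.symm
    have := an t' ht' u hu pt.symm rfl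
    have := an t' ht' u' hu' pt.symm pu.symm
    unfold EvenQ at *
    rw [Int.even_iff] at *
    omega
  rcases a1 t' ht' ot.symm with rfl | rfl
  · exact even_left _ _ _
  rcases a2 u' hu' ou.symm with rfl | rfl
  · exact even_right _ _ _
  have k1' : ¬ N (12 * c) t' t := fun j => k1 (h.symm _ _ _ j)
  have k2' : ¬ N (12 * c) u' u := fun j => k2 (h.symm _ _ _ j)
  have a1' : ∀ s ∈ Θ, oid s = oid t' → s = t' ∨ s = t := fun s hs j => (a1 s hs (j.trans ot.symm)).symm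
  have a2' : ∀ s ∈ Θ, oid s = oid u' → s = u' ∨ s = u := fun s hs j => (a2 s hs (j.trans ou.symm)).symm
  by_cases k : Cr (N c) t t' u u'
  swap
  · exact even_plain hPar h hD ht ht' hu hu' ot ou hp k
  rcases k with k | k | k | k
  · exact even_pair hPar h hD ht ht' hu hu' ot ou hp k1 k2 a1 a2 k
  · exact (even_pair hPar h hD ht ht' hu' hu ot ou.symm (pu ▸ hp) k1 k2' a1 a2' k).swap'
  · exact (even_pair hPar h hD ht' ht hu hu' ot.symm ou (pt ▸ hp) k1' k2 a1' a2 k).swap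
  · exact (even_pair hPar h hD ht' ht hu' hu ot.symm ou.symm (pt ▸ pu ▸ hp) k1' k2' a1' a2'
      k).swap.swap'

end Pool.Agent.Lib.MP_f9389f_co.SC
end
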