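import Mathlib
import Pool.Agent.Lib.MP_f9389f_co.SC.Basic

-- part Pool.Agent.Lib.MP_f9389f_co.SC.Ord2
section

/-! The order of the next level. -/

namespace Pool.Agent.Lib.MP_f9389f_co.SC

universe u

open SimpleGraph

theorem ord2_num {a b x y a' b' x' y' : ℕ} (h1 : a ≤ x → a' ≤ x') (h2 : x ≤ a → x' ≤ a')
    (h3 : a ≤ y → a' ≤ y') (h4 : y ≤ a → y' ≤ a') (h5 : b ≤ x → b' ≤ x') (h6 : x ≤ b → x' ≤ b')
    (h7 : b ≤ y → b' ≤ y') (h8 : y ≤ b → y' ≤ b') (h : Sep a b x y) :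
    Sep a' b' x' y' ∨ Cr Eq a' b' x' y' := by
  unfold Cr Sep Btw Out at *
  rcases h with ⟨h | h, k | k⟩ | ⟨h | h, k | k⟩ <;> omega

theorem ord2_back {a b x y a' b' x' y' : ℕ} (h1 : a' < x' → a < x) (h2 : x' < a' → x < a)
    (h3 : a' < y' → a < y) (h4 : y' < a' → y < a) (h5 : b' < x' → b < x) (h6 : x' < b' → x < b)
    (h7 : b' < y' → b < y) (h8 : y' < b' → y < b) (h : Sep a' b' x' y') : Sep a b x y := by
  unfold Sep Btw Out at *
  rcases h with ⟨h | h, k | k⟩ | ⟨h | h, k | k⟩ <;> omega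

theorem ord2_mono {ι : Type*} {A : Finset ι} {r g : ι → ℕ}
    (hm : ∀ t ∈ A, ∀ u ∈ A, r t ≤ r u → g t ≤ g u) {a b x y : ι} (ha : a ∈ A) (hb : b ∈ A)
    (hx : x ∈ A) (hy : y ∈ A) (h : Sep (r a) (r b) (r x) (r y)) :
    Sep (g a) (g b) (g x) (g y) ∨ Cr Eq (g a) (g b) (g x) (g y) :=
  ord2_num (hm _ ha _ hx) (hm _ hx _ ha) (hm _ ha _ hy) (hm _ hy _ ha) (hm _ hb _ hx)
    (hm _ hx _ hb) (hm _ hb _ hy) (hm _ hy _ hb) h

theorem ord2_iff {ι : Type*} {A : ι → Prop} {r g : ι → ℕ}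
    (hm : ∀ t, A t → ∀ u, A u → (r t < r u ↔ g t < g u)) {a b x y : ι} (ha : A a) (hb : A b)
    (hx : A x) (hy : A y) : Sep (r a) (r b) (r x) (r y) ↔ Sep (g a) (g b) (g x) (g y) :=
  ⟨ord2_back (hm _ ha _ hx).1 (hm _ hx _ ha).1 (hm _ ha _ hy).1 (hm _ hy _ ha).1 (hm _ hb _ hx).1
    (hm _ hx _ hb).1 (hm _ hb _ hy).1 (hm _ hy _ hb).1,
   ord2_back (hm _ ha _ hx).2 (hm _ hx _ ha).2 (hm _ ha _ hy).2 (hm _ hy _ ha).2 (hm _ hb _ hx).2
    (hm _ hx _ hb).2 (hm _ hb _ hy).2 (hm _ hy _ hb).2⟩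

theorem ord2_move (hPath : PathStmt) {E : SimpleGraph ℕ} {n a a' b x y : ℕ} (hw : Wall E x y)
    (h : Near E n a a') (hs : Sep a b x y) (hx : ¬ Near E n a x) (hy : ¬ Near E n a y) :
    Sep a' b x y := by
  have k : a' = x ∨ a' = y ∨ Sep a a' x y ∨ Sep a' b x y := by
    unfold Sep Btw Out at *
    omega
  rcases k with rfl | rfl | k | k
  · exact absurd h hx
  · exact absurd h hy
  · obtain ⟨i, j, e, k | k⟩ := hPath.thru E n a a' x y h k hw
    · exact absurd (k.1.mono (by omega)) hx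
    · exact absurd (k.1.mono (by omega)) hy
  · exact k

variable {V ι : Type u} {c : Cx V} {lam : ℕ} {ρ ρ' : V → ℕ} {F F' : V → V → Prop} {D : LD V}
  {H E : SimpleGraph ℕ} {S : TD V ι}

open Classical in
/-- The large tokens with a given top. -/
noncomputable def ord2Th (S : TD V ι) (T : ℕ × ℕ) : Finset ι :=
  S.Θ.filter fun t => ¬ S.sm t ∧ S.T t = T

theorem ord2_mem {T : ℕ × ℕ} {t : ι} : t ∈ ord2Th S T ↔ t ∈ S.Θ ∧ ¬ S.sm t ∧ S.T t = T := by
  simp [ord2Th]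

/-- The standing hypotheses. -/
structure Ord2H (c : Cx V) (lam : ℕ) (ρ : V → ℕ) (F : V → V → Prop) (ρ' : V → ℕ)
    (F' : V → V → Prop) (D : LD V) (H E : SimpleGraph ℕ) (S : TD V ι) : Prop where
  st : c.St lam ρ F ρ' F' D
  ho : (c.band (lam + 4000 * c.K) D).HOut H E
  td : c.TDok lam F ρ' D H E S
  tg : c.TokG lam ρ F D
  fc : FaceStmt
  pa : PathStmt

namespace Ord2H

variable (h : Ord2H c lam ρ F ρ' F' D H E S) {T : ℕ × ℕ} {t u : ι}
include h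

theorem nc : NCOn E D.X := h.ho.nc

theorem bc (ht : t ∈ S.Θ) (hs : ¬ S.sm t) : c.Bc (lam + 4000 * c.K) (S.q t) (S.pp t) :=
  h.st.pv.sub _ _ (h.td.tok t ht hs).1.fq

theorem ppX (ht : t ∈ S.Θ) (hs : ¬ S.sm t) : D.rt (S.pp t) ∈ D.X :=
  (h.st.lev.rtX _ (h.bc ht hs).2.1).1

theorem qX (ht : t ∈ S.Θ) (hs : ¬ S.sm t) : D.rt (S.q t) ∈ D.X :=
  (h.st.lev.rtX _ (h.bc ht hs).1).1

theorem nF {v w : V} (e : F v w) : Near E 30 (D.rt v) (D.rt w) :=
  h.ho.v0 _ _ (h.st.lev.v0_of_F h.st.pv h.st.env.one e)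

theorem nV {a b : ℕ} (e : Near (fromRel (c.V0 (lam + 4000 * c.K) D)) 3 a b) : Near E 90 a b :=
  h.pa.lip ℕ ℕ (fromRel (c.V0 (lam + 4000 * c.K) D)) E id 30 3 a b
    (fun x y k => ((fromRel_adj _ x y).1 k).2.elim (h.ho.v0 x y) fun k => (h.ho.v0 y x k).symm) e

theorem top (ht : t ∈ ord2Th S T) : IsTop E D.X T :=
  (ord2_mem.1 ht).2.2 ▸ (h.td.tok t (ord2_mem.1 ht).1 (ord2_mem.1 ht).2.1).2.1

theorem val_eq (ht : t ∈ ord2Th S T) : S.val t = proj E D.X T (D.rt (S.pp t)) :=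
  (ord2_mem.1 ht).2.2 ▸ (h.td.tok t (ord2_mem.1 ht).1 (ord2_mem.1 ht).2.1).2.2.1

theorem face (ht : t ∈ ord2Th S T) : S.val t ∈ Face E D.X T :=
  h.val_eq ht ▸ h.fc.mem E D.X T _ h.nc (h.top ht) (h.ppX (ord2_mem.1 ht).1 (ord2_mem.1 ht).2.1)

theorem of_oid (ht : t ∈ ord2Th S T) (hu : u ∈ S.Θ) (e : S.oid u = S.oid t) : u ∈ ord2Th S T := by
  obtain ⟨t1, t2, t3⟩ := ord2_mem.1 ht
  exact ord2_mem.2 ⟨hu, fun k => t2 (h.td.smE u hu t t1 k e).1,
    (h.td.obj t t1 u hu t2 e.symm).1.symm.trans t3⟩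

theorem ch (ht : t ∈ ord2Th S T) (hu : u ∈ ord2Th S T) (e : S.oid t = S.oid u) :
    Ch c.G 1 (c.Up (lam + 4180 * c.K)) (S.x t) (S.x u) :=
  (h.td.obj t (ord2_mem.1 ht).1 u (ord2_mem.1 hu).1 (ord2_mem.1 ht).2.1 e).2.1

theorem ch' (ht : t ∈ ord2Th S T) (hu : u ∈ ord2Th S T) (e : S.oid t = S.oid u) :
    Ch c.G 1 (c.Up (lam + 4088 * c.K)) (S.x t) (S.x u) :=
  (h.ch ht hu e).mono le_rfl (Cx.up_mono (by omega))

theorem par (ht : t ∈ ord2Th S T) (hu : u ∈ ord2Th S T) :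
    S.pid t = S.pid u ↔ c.Bc (lam + 4000 * c.K) (S.pp t) (S.pp u) :=
  h.td.par t (ord2_mem.1 ht).1 u (ord2_mem.1 hu).1 (ord2_mem.1 ht).2.1 (ord2_mem.1 hu).2.1

theorem op (ht : t ∈ ord2Th S T) (hu : u ∈ ord2Th S T) (e : S.oid t = S.oid u) :
    S.pid t = S.pid u := by
  obtain ⟨t1, t2, -⟩ := ord2_mem.1 ht
  obtain ⟨u1, u2, -⟩ := ord2_mem.1 hu
  have b1 := h.bc t1 t2
  have b2 := h.bc u1 u2
  exact (h.par ht hu).2 ⟨b1.2.1, b2.2.1, (((b1.2.2.symm.trans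
    (h.td.tok t t1 t2).1.xq.2.symm).trans ((h.ch ht hu e).mono le_rfl
      (Cx.up_mono (by omega)))).trans (h.td.tok u u1 u2).1.xq.2).trans b2.2.2⟩

theorem usub (e : c.U lam F S t u) : Near E 160 (S.val t) (S.val u) := by
  obtain ⟨e1, -, t1, u1, t2, u2, e2, e3⟩ := e
  have ht : t ∈ ord2Th S (S.T u) := ord2_mem.2 ⟨t1, t2, e2⟩
  have hu : u ∈ ord2Th S (S.T u) := ord2_mem.2 ⟨u1, u2, rfl⟩
  have k : Near E 150 (D.rt (S.pp t)) (D.rt (S.pp u)) := by
    rcases e3 with ⟨x, y, a1, a2, a3⟩ | e3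
    · exact (((h.nF a1).trans (h.nF a2)).trans (h.nF a3)).mono (by omega)
    · have k := h.nV (h.tg.low _ _ _ _ _ _ _ _ (h.td.tok t t1 t2).1 (h.td.tok u u1 u2).1
        (h.st.lev.sgC _ _ (((h.bc t1 t2).trans ((h.par ht hu).1 e1)).trans (h.bc u1 u2).symm)) e3)
      exact ((h.nF (h.td.tok t t1 t2).1.fq).symm.trans k).trans (h.nF (h.td.tok u u1 u2).1.fq)
  rw [h.val_eq ht, h.val_eq hu]
  exact (h.fc.near E D.X _ _ _ _ h.nc (h.top ht) (h.ppX t1 t2) (h.ppX u1 u2) k).mono (by omega)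

theorem nq (ht : t ∈ ord2Th S T) : Near E 32 (S.val t) (proj E D.X T (D.rt (S.q t))) := by
  obtain ⟨t1, t2, -⟩ := ord2_mem.1 ht
  rw [h.val_eq ht]
  exact h.fc.near E D.X _ _ _ _ h.nc (h.top ht) (h.ppX t1 t2) (h.qX t1 t2)
    (h.nF (h.td.tok t t1 t2).1.fq).symm

/-- Objects with different parents that are joined at a high level. -/
theorem nil {t' u' : ι} (ht : t ∈ ord2Th S T) (ht' : t' ∈ ord2Th S T) (hu : u ∈ ord2Th S T)
    (hu' : u' ∈ ord2Th S T) (c1 : Ch c.G 1 (c.Up (lam + 4088 * c.K)) (S.x t) (S.x t'))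
    (c2 : Ch c.G 1 (c.Up (lam + 4088 * c.K)) (S.x u) (S.x u')) (hp : S.pid t ≠ S.pid u)
    (hs : Sep (S.val t) (S.val t') (S.val u) (S.val u') ∨
      Cr Eq (S.val t) (S.val t') (S.val u) (S.val u')) :
    Cr (fun a b => Near E 160 (S.val a) (S.val b)) t t' u u' := by
  by_contra k
  simp only [Cr, not_or] at k
  obtain ⟨k1, k2, k3, k4⟩ := k
  have r0 : ∀ {a b : ι}, S.val a = S.val b → Near E 160 (S.val a) (S.val b) :=
    fun e => e ▸ Near.refl _ _ _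
  replace hs := hs.resolve_right fun e =>
    e.elim (k1 ∘ r0) fun e => e.elim (k2 ∘ r0) fun e => e.elim (k3 ∘ r0) (k4 ∘ r0)
  have fq : ∀ {a : ι}, a ∈ ord2Th S T → proj E D.X T (D.rt (S.q a)) ∈ Face E D.X T := fun ha =>
    h.fc.mem E D.X T _ h.nc (h.top ha) (h.qX (ord2_mem.1 ha).1 (ord2_mem.1 ha).2.1)
  have w1 := h.fc.wall E D.X T _ _ h.nc (h.top ht) (h.face hu) (h.face hu')
  have w2 := h.fc.wall E D.X T _ _ h.nc (h.top ht) (fq ht) (fq ht')
  have m : ∀ {a b : ι}, ¬ Near E 160 (S.val a) (S.val b) → ¬ Near E 32 (S.val a) (S.val b) :=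
    fun k e => k (e.mono (by omega))
  have m' : ∀ {a b : ι}, a ∈ ord2Th S T → ¬ Near E 160 (S.val a) (S.val b) →
      ¬ Near E 32 (S.val b) (proj E D.X T (D.rt (S.q a))) :=
    fun ha k e => k (((h.nq ha).trans e.symm).mono (by omega))
  have s1 := ord2_move h.pa w1 (h.nq ht) hs (m k1) (m k2)
  have s2 := ord2_move h.pa w1 (h.nq ht') s1.swap (m k3) (m k4)
  have s3 := ord2_move h.pa w2 (h.nq hu) s2.swap.symm (m' ht k1) (m' ht' k3)
  have s4 := (ord2_move h.pa w2 (h.nq hu') s3.swap (m' ht k2) (m' ht' k4)).swap.symm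
  have pm : ∀ {a b : ι}, a ∈ ord2Th S T → b ∈ ord2Th S T →
      proj E D.X T (D.rt (S.q a)) < proj E D.X T (D.rt (S.q b)) → D.rt (S.q a) < D.rt (S.q b) :=
    fun ha hb e => lt_of_not_ge fun k => e.not_ge (h.fc.mono E D.X T _ _ h.nc (h.top ha)
      (h.qX (ord2_mem.1 hb).1 (ord2_mem.1 hb).2.1) (h.qX (ord2_mem.1 ha).1 (ord2_mem.1 ha).2.1) k)
  have s5 := ord2_back (pm ht hu) (pm hu ht) (pm ht hu') (pm hu' ht) (pm ht' hu) (pm hu ht')
    (pm ht' hu') (pm hu' ht') s4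
  have mm : ∀ i : Fin 4, ![t, t', u, u'] i ∈ ord2Th S T := fun i => by
    fin_cases i <;> assumption
  have k5 := h.tg.ni (fun i => S.x (![t, t', u, u'] i)) (fun i => S.pp (![t, t', u, u'] i))
    (fun i => S.q (![t, t', u, u'] i)) (fun i => S.W (![t, t', u, u'] i))
    (fun i => (h.td.tok _ (ord2_mem.1 (mm i)).1 (ord2_mem.1 (mm i)).2.1).1) c1 c2
    (fun e => hp ((h.par ht hu).2 (((h.bc (ord2_mem.1 ht).1 (ord2_mem.1 ht).2.1).symm.trans
      e).trans (h.bc (ord2_mem.1 hu).1 (ord2_mem.1 hu).2.1)))) s5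
  have fin : ∀ {a b : ι}, a ∈ ord2Th S T → b ∈ ord2Th S T →
      Near (fromRel (c.V0 (lam + 4000 * c.K) D)) 3 (D.rt (S.q a)) (D.rt (S.q b)) →
      Near E 160 (S.val a) (S.val b) := fun ha hb e =>
    (((h.nq ha).trans (h.fc.near E D.X _ _ _ _ h.nc (h.top ha)
      (h.qX (ord2_mem.1 ha).1 (ord2_mem.1 ha).2.1) (h.qX (ord2_mem.1 hb).1 (ord2_mem.1 hb).2.1)
      (h.nV e))).trans (h.nq hb).symm).mono (by omega)
  rcases k5 with e | e | e | e
  exacts [k1 (fin ht hu e), k2 (fin ht hu' e), k3 (fin ht' hu e), k4 (fin ht' hu' e)]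

theorem mkU (ht : t ∈ ord2Th S T) (hu : u ∈ ord2Th S T) (e1 : S.pid t = S.pid u)
    (e2 : S.oid t ≠ S.oid u) (e3 : Cx.F3 F (S.pp t) (S.pp u) ∨
      c.LowCl lam (c.An' lam (S.q t) (S.W t)) (c.An' lam (S.q u) (S.W u))) : c.U lam F S t u :=
  ⟨e1, e2, (ord2_mem.1 ht).1, (ord2_mem.1 hu).1, (ord2_mem.1 ht).2.1, (ord2_mem.1 hu).2.1,
    (ord2_mem.1 ht).2.2.trans (ord2_mem.1 hu).2.2.symm, e3⟩

theorem f3_of_eq (ht : t ∈ ord2Th S T) (hu : u ∈ ord2Th S T)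
    (e : D.rt (S.pp t) = D.rt (S.pp u)) : Cx.F3 F (S.pp t) (S.pp u) := by
  have b1 := (h.bc (ord2_mem.1 ht).1 (ord2_mem.1 ht).2.1).2.1
  have b2 := (h.bc (ord2_mem.1 hu).1 (ord2_mem.1 hu).2.1).2.1
  rw [h.st.lev.rt_inj b1 b2 e]
  exact ⟨_, _, h.st.pv.refl b2, h.st.pv.refl b2, h.st.pv.refl b2⟩

/-- Crossing objects with the same parent are joined at a high level. -/
theorem join {a v e : ι} (ht : t ∈ ord2Th S T) (ha : a ∈ ord2Th S T) (hv : v ∈ ord2Th S T)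
    (he : e ∈ ord2Th S T) (e1 : S.oid t = S.oid a) (e2 : S.oid v = S.oid e)
    (e3 : S.oid t ≠ S.oid v) (e4 : S.pid t = S.pid v)
    (hs : Sep (D.rt (S.pp t)) (D.rt (S.pp a)) (D.rt (S.pp v)) (D.rt (S.pp e)) ∨
      Cr Eq (D.rt (S.pp t)) (D.rt (S.pp a)) (D.rt (S.pp v)) (D.rt (S.pp e)))
    (hU : ¬ Cr (c.U lam F S) t a v e) : Ch c.G 1 (c.Up (lam + 4088 * c.K)) (S.x t) (S.x v) := by
  have p1 := h.op ht ha e1
  have p2 := h.op hv he e2
  have key : ∀ R : ι → ι → Prop, (∀ x y, x ∈ ord2Th S T → y ∈ ord2Th S T → R x y →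
      Cx.F3 F (S.pp x) (S.pp y) ∨
        c.LowCl lam (c.An' lam (S.q x) (S.W x)) (c.An' lam (S.q y) (S.W y))) → ¬ Cr R t a v e :=
    fun R hR k => hU (k.imp (fun k => h.mkU ht hv e4 e3 (hR _ _ ht hv k)) (Or.imp
      (fun k => h.mkU ht he (e4.trans p2) (e2 ▸ e3) (hR _ _ ht he k)) (Or.imp
        (fun k => h.mkU ha hv (p1.symm.trans e4) (e1 ▸ e3) (hR _ _ ha hv k))
        fun k => h.mkU ha he (p1.symm.trans (e4.trans p2)) (e1 ▸ e2 ▸ e3) (hR _ _ ha he k))))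
  have b1 := (h.par ht ha).1 p1
  have b2 := (h.par ht hv).1 e4
  have b3 := (h.par ht he).1 (e4.trans p2)
  have s1 := (h.st.lev.ord _ _ _ _ b1 b2 b3).1 (hs.resolve_right
    (key (fun x y => D.rt (S.pp x) = D.rt (S.pp y)) fun x y hx hy k => .inl (h.f3_of_eq hx hy k)))
  have mm : ∀ i : Fin 4, ![t, a, v, e] i ∈ ord2Th S T := fun i => by
    fin_cases i <;> assumption
  exact (h.tg.join (fun i => S.x (![t, a, v, e] i)) (fun i => S.pp (![t, a, v, e] i))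
    (fun i => S.q (![t, a, v, e] i)) (fun i => S.W (![t, a, v, e] i))
    (fun i => (h.td.tok _ (ord2_mem.1 (mm i)).1 (ord2_mem.1 (mm i)).2.1).1)
    (fun i => by
      fin_cases i
      exacts [(h.par ht ht).1 rfl, b1, b2, b3]) s1
    (key (fun x y => Cx.F3 F (S.pp x) (S.pp y)) fun x y _ _ k => .inl k) (h.ch ht ha e1)
    (h.ch hv he e2)).resolve_left (key (fun x y =>
      c.LowCl lam (c.An' lam (S.q x) (S.W x)) (c.An' lam (S.q y) (S.W y))) fun x y _ _ k => .inr k)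

theorem faceIn {rp : ι → ℕ} (hi : Set.InjOn rp S.Θ)
    (hm : ∀ t ∈ S.Θ, ∀ u ∈ S.Θ, rp t ≤ rp u → D.rt (S.pp t) ≤ D.rt (S.pp u)) (T : ℕ × ℕ) :
    FaceIn (ord2Th S T) S.oid S.pid S.val rp (fun n t u => Near E n (S.val t) (S.val u))
      (c.U lam F S) 160 := by
  have fm : ∀ t ∈ ord2Th S T, ∀ u ∈ ord2Th S T, rp t ≤ rp u → D.rt (S.pp t) ≤ D.rt (S.pp u) :=
    fun t ht u hu => hm t (ord2_mem.1 ht).1 u (ord2_mem.1 hu).1
  have vm : ∀ t ∈ ord2Th S T, ∀ u ∈ ord2Th S T, rp t ≤ rp u → S.val t ≤ S.val u :=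
    fun t ht u hu e => by
      rw [h.val_eq ht, h.val_eq hu]
      exact h.fc.mono E D.X T _ _ h.nc (h.top ht) (h.ppX (ord2_mem.1 ht).1 (ord2_mem.1 ht).2.1)
        (h.ppX (ord2_mem.1 hu).1 (ord2_mem.1 hu).2.1) (fm t ht u hu e)
  refine ⟨fun t u e => e ▸ Near.refl _ _ _, fun n t u e => e.symm,
    fun n m t u v e e' => e.trans e', fun n m t u e k => e.mono k,
    hi.mono fun t ht => (ord2_mem.1 ht).1, vm, fun t ht u hu => h.op ht hu,
    fun n a ha b hb x hx y hy e k => ?_, fun t u e => ?_, fun t u e => ⟨e.1, e.2.1, h.usub e⟩,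
    fun t ht t' ht' u hu u' hu' e1 e2 e3 k => h.nil ht ht' hu hu' (h.ch' ht ht' e1)
      (h.ch' hu hu' e2) e3 (ord2_mono vm ht ht' hu hu' k),
    fun t ht a ha v hv e he u hu b hb e1 e2 e3 e4 e5 e6 k n1 n2 n3 n4 k' => ?_, fun t ht => ?_,
    fun t ht t' ht' u hu u' hu' e1 e2 e3 k1 k2 => ?_⟩
  · rcases ord2_mono vm ha hb hx hy k with k | k | k | k | k
    · obtain ⟨i, j, e', k | k⟩ := h.pa.thru E n _ _ _ _ e k
        (h.fc.wall E D.X T _ _ h.nc (h.top ha) (h.face hx) (h.face hy))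
      · exact .inl ⟨k.1.mono (by omega), k.2.symm.mono (by omega)⟩
      · exact .inr ⟨k.1.mono (by omega), k.2.symm.mono (by omega)⟩
    · exact .inl (k ▸ ⟨Near.refl _ _ _, e.symm⟩)
    · exact .inr (k ▸ ⟨Near.refl _ _ _, e.symm⟩)
    · exact .inl (k ▸ ⟨e, Near.refl _ _ _⟩)
    · exact .inr (k ▸ ⟨e, Near.refl _ _ _⟩)
  · obtain ⟨e1, e2, e3, e4, e5, e6, e7, e8⟩ := e
    refine ⟨e1.symm, e2.symm, e4, e3, e6, e5, e7.symm, e8.imp ?_ ?_⟩
    · rintro ⟨x, y, a1, a2, a3⟩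
      exact ⟨y, x, h.st.pv.symm _ _ a3, h.st.pv.symm _ _ a2, h.st.pv.symm _ _ a1⟩
    · rintro ⟨z, a1, z', a2, a3, a4⟩
      exact ⟨z', a2, z, a1, Cx.d_comm z z' ▸ a3, a4.symm⟩
  · have j := h.join ht ha hv he e1 e2 e3 e4 (ord2_mono fm ht ha hv he k) fun k =>
      k.elim n1 fun k => k.elim (n2 ∘ h.usub) fun k => k.elim (n3 ∘ h.usub) (n4 ∘ h.usub)
    exact h.nil ha he hu hb (((h.ch' ht ha e1).symm.trans j).trans (h.ch' hv he e2))
      (h.ch' hu hb e5) (fun k => e6 (k.symm.trans (h.op ht ha e1).symm))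
      (ord2_mono vm ha he hu hb k')
  · rcases h.td.ref t (ord2_mem.1 ht).1 (ord2_mem.1 ht).2.1 with ⟨s, s1, s2, s3, s4⟩ | ⟨a, a1, a2⟩
    · exact .inl ⟨s, h.of_oid ht s1 s2, s2, s3, fun w hw => s4 w (ord2_mem.1 hw).1⟩
    · exact .inr ⟨a, fun i => ⟨h.of_oid ht (a1 i).1 (a1 i).2, (a1 i).2⟩, a2⟩
  · exact h.td.np t (ord2_mem.1 ht).1 t' (ord2_mem.1 ht').1 u (ord2_mem.1 hu).1 u'
      (ord2_mem.1 hu').1 (ord2_mem.1 ht).2.1 (ord2_mem.1 hu).2.1
      ((ord2_mem.1 ht).2.2.trans (ord2_mem.1 hu).2.2.symm) e1 e2 e3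
      (fun s hs e => k1 s (h.of_oid ht hs e) e) fun s hs e => k2 s (h.of_oid hu hs e) e

end Ord2H

theorem ord2Stmt (hOrd : OrdStmt.{u}) (hGlob : GlobStmt.{u}) (hRank : RankStmt.{u})
    (hTokG : TokGStmt.{u}) (hFace : FaceStmt) (hPath : PathStmt) : Ord2Stmt.{u} := by
  classical
  intro V ι c lam ρ F ρ' F' D H E S st ho td
  have h : Ord2H c lam ρ F ρ' F' D H E S := ⟨st, ho, td, hTokG V c lam ρ F ρ' F' D st, hFace, hPath⟩
  have ki : Set.InjOn (fun t => toLex (D.rt (S.pp t), toLex (S.oid t, S.lr t))) S.Θ :=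
    fun t ht u hu e => by
      simp only [EmbeddingLike.apply_eq_iff_eq, Prod.mk.injEq] at e
      exact td.lrI t ht u hu e.2.1 e.2.2
  obtain ⟨rp, -, hr⟩ := hRank ι (ℕ ×ₗ ℕ ×ₗ ℕ) S.Θ _ ki
  simp only [Prod.Lex.toLex_lt_toLex] at hr
  have hi : Set.InjOn rp S.Θ := fun t ht u hu e => by
    have h1 := hr t ht u hu
    have h2 := hr u hu t ht
    exact td.lrI t ht u hu (by omega) (by omega)
  have hm : ∀ t ∈ S.Θ, ∀ u ∈ S.Θ, rp t ≤ rp u → D.rt (S.pp t) ≤ D.rt (S.pp u) :=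
    fun t ht u hu e => by
      have := hr u hu t ht
      omega
  choose θ φ fo using fun T => hOrd ι _ _ _ _ _ _ _ _ (h.faceIn hi hm T)
  have mt : ∀ t ∈ S.Θ, ¬ S.sm t → t ∈ ord2Th S (S.T t) := fun t ht hs => ord2_mem.2 ⟨ht, hs, rfl⟩
  have lg : ∀ t ∈ S.Θ, ¬ S.sm t → φ (S.T t) t ∈ Face E D.X (S.T t) ∧
      Near E 160 (φ (S.T t) t) (S.val t) := fun t ht hs => by
    obtain ⟨u, hu, e, k⟩ := (fo (S.T t)).near t (mt t ht hs)
    rw [e]
    exact ⟨h.face hu, k⟩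
  obtain ⟨r, r1, r2, r3, r4, r5, r6⟩ := hGlob ι E D.X S.Θ S.sm S.T
    (fun t => if S.sm t then S.val t else φ (S.T t) t) S.oid
    (fun t => if S.sm t then S.lr t else θ (S.T t) t) h.nc
    (fun t ht => by
      split_ifs with hs
      exacts [td.valX t ht, (lg t ht hs).1.1])
    (fun t ht hs => ⟨h.top (mt t ht hs), by rw [if_neg hs]; exact (lg t ht hs).1⟩)
    (fun t ht u hu e hs => by
      obtain ⟨k1, k2, -⟩ := td.smE t ht u hu hs e
      simp only [if_pos hs, if_pos k1]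
      exact ⟨k1, k2, td.lrI t ht u hu e⟩)
    (fun t ht u hu hs hs' e => by
      simp only [if_neg hs, if_neg hs', ← e]
      exact ⟨fun k => (fo (S.T t)).inj (mt t ht hs) (e ▸ mt u hu hs') k,
        (fo (S.T t)).mono t (mt t ht hs) u (e ▸ mt u hu hs')⟩)
  have sp : ∀ {T : ℕ × ℕ} {a b x y : ι}, a ∈ ord2Th S T → b ∈ ord2Th S T → x ∈ ord2Th S T →
      y ∈ ord2Th S T → (Sep (r a) (r b) (r x) (r y) ↔ Sep (θ T a) (θ T b) (θ T x) (θ T y)) :=
    fun {T a b x y} => ord2_iff (A := (· ∈ ord2Th S T)) fun t ht u hu => by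
      obtain ⟨t1, t2, t3⟩ := ord2_mem.1 ht
      obtain ⟨u1, u2, u3⟩ := ord2_mem.1 hu
      simpa only [if_neg t2, if_neg u2, t3, u3] using
        r4 t t1 u u1 (.inr ⟨t2, u2, t3.trans u3.symm⟩)
  refine ⟨r, _, r1, r2, r3, fun t _ hs => if_pos hs, fun t ht hs => by
      rw [if_neg hs]; exact lg t ht hs, fun t ht t' ht' u hu u' hu' e1 e2 k => ?_,
    fun t ht t' ht' u hu u' hu' s1 s2 s3 s4 e1 e2 e3 p1 p2 p3 k => ?_,
    fun t ht t' ht' u hu u' hu' e1 e2 e3 => ?_⟩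
  · refine or_iff_not_imp_left.2 fun e3 => ?_
    have s1 : ¬ S.sm t := fun hs => k.elim (fun k => r5 t ht t' ht' u hu hs e1 (Ne.symm e3) k.1)
      fun k => r5 t ht t' ht' u' hu' hs e1 (e2 ▸ Ne.symm e3) k.2
    have s2 : ¬ S.sm u := fun hs => k.symm.elim (fun k => r5 u hu u' hu' t ht hs e2 e3 k.1)
      fun k => r5 u hu u' hu' t' ht' hs e2 (e1 ▸ e3) k.2
    have m1 := h.of_oid (mt t ht s1) ht' e1.symm
    have m2 := h.of_oid (mt u hu s2) hu' e2.symm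
    have e4 : S.T t = S.T u := by_contra fun e => r6 t ht t' ht' u hu u' hu' s1
      (ord2_mem.1 m1).2.1 s2 (ord2_mem.1 m2).2.1 (ord2_mem.1 m1).2.2.symm
      (ord2_mem.1 m2).2.2.symm e k
    exact ⟨s1, s2, e4, by_contra fun e => (fo (S.T t)).diff t (mt t ht s1) t' m1 u
      (e4 ▸ mt u hu s2) u' (e4 ▸ m2) e1 e2 e
      ((sp (mt t ht s1) m1 (e4 ▸ mt u hu s2) (e4 ▸ m2)).1 k)⟩
  · refine or_iff_not_imp_left.2 fun hU => ?_
    have m0 := mt t ht s1
    have m1 : t' ∈ ord2Th S (S.T t) := e1 ▸ mt t' ht' s2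
    have m2 : u ∈ ord2Th S (S.T t) := e2 ▸ mt u hu s3
    have m3 : u' ∈ ord2Th S (S.T t) := e3 ▸ mt u' hu' s4
    exact (ord2_mono hm ht ht' hu hu' (((fo (S.T t)).same t m0 t' m1 u m2 u' m3 p1 p2 p3 hU).1
      ((sp m0 m1 m2 m3).1 k))).symm
  · by_cases hs : S.sm t
    · refine ord2_iff (A := fun s => s ∈ S.Θ ∧ S.oid t = S.oid s) (fun a ha b hb => ?_) ⟨ht, rfl⟩
        ⟨ht', e1⟩ ⟨hu, e2⟩ ⟨hu', e3⟩
      have s1 := (td.smE t ht a ha.1 hs ha.2).1
      have s2 := (td.smE t ht b hb.1 hs hb.2).1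
      simpa only [if_pos s1, if_pos s2] using
        r4 a ha.1 b hb.1 (.inl ⟨s1, ha.2.symm.trans hb.2⟩)
    · have m0 := mt t ht hs
      have m1 := h.of_oid m0 ht' e1.symm
      have m2 := h.of_oid m0 hu e2.symm
      have m3 := h.of_oid m0 hu' e3.symm
      rw [sp m0 m1 m2 m3, (fo (S.T t)).same t m0 t' m1 u m2 u' m3 (h.op m0 m1 e1) (h.op m0 m2 e2)
        (h.op m0 m3 e3) fun k => k.elim (fun k => k.2.1 e2) fun k => k.elim (fun k => k.2.1 e3)
          fun k => k.elim (fun k => k.2.1 (e1.symm.trans e2)) fun k => k.2.1 (e1.symm.trans e3)]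
      refine ord2_iff (A := fun s => s ∈ S.Θ ∧ S.oid t = S.oid s) (fun a ha b hb => ?_) ⟨ht, rfl⟩
        ⟨ht', e1⟩ ⟨hu, e2⟩ ⟨hu', e3⟩
      have e := ha.2.symm.trans hb.2
      have h1 := hr a ha.1 b hb.1
      have h2 := (td.obj a ha.1 b hb.1 (ord2_mem.1 (h.of_oid m0 ha.1 ha.2.symm)).2.1 e).2.2
      have h3 := (td.obj b hb.1 a ha.1 (ord2_mem.1 (h.of_oid m0 hb.1 hb.2.symm)).2.1 e.symm).2.2
      omega

end Pool.Agent.Lib.MP_f9389f_co.SC
end

-- part Pool.Agent.Lib.MP_f9389f_co.SC.Child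
section

/-! The next level. -/

namespace Pool.Agent.Lib.MP_f9389f_co.SC

universe u

open SimpleGraph Cx

variable {V ι : Type u} {c : Cx V} {lam : ℕ} {ρ ρ' : V → ℕ} {F F' : V → V → Prop} {D : LD V}
  {H E : SimpleGraph ℕ} {S : TD V ι} {r φ : ι → ℕ} {t u : ι}

theorem child_mem {Θ : Finset ι} {oid : ι → ℕ} (h : Grp Θ r oid t u) : t ∈ Θ ∧ u ∈ Θ := by
  induction h with
  | single h => exact ⟨h.1, h.2.1⟩
  | tail _ h ih => exact ⟨ih.1, h.2.1⟩

theorem child_symm {Θ : Finset ι} {oid : ι → ℕ} (h : Grp Θ r oid t u) : Grp Θ r oid u t := by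
  have k {a b : ι} (h : Xing Θ r oid a b) : Xing Θ r oid b a :=
    ⟨h.2.1, h.1, h.2.2.imp Eq.symm fun ⟨a', h1, b', h2, h3, h4, h5⟩ =>
      ⟨b', h2, a', h1, h4, h3, h5.symm⟩⟩
  induction h with
  | single h => exact .single (k h)
  | tail _ h ih => exact .head (k h) ih

theorem child_oid {Θ : Finset ι} {oid : ι → ℕ} (ht : t ∈ Θ) (hu : u ∈ Θ) (h : oid t = oid u) :
    Grp Θ r oid t u := .single ⟨ht, hu, .inl h⟩

theorem child_cr {α β : Type*} {R : α → α → Prop} {R' : β → β → Prop} {a e b f : α}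
    {a' e' b' f' : β} (h : Cr R a e b f) (h1 : R a b → R' a' b') (h2 : R a f → R' a' f')
    (h3 : R e b → R' e' b') (h4 : R e f → R' e' f') : Cr R' a' e' b' f' :=
  h.imp h1 (Or.imp h2 (Or.imp h3 h4))

theorem child_len (he : c.Env) (hp : c.Prov lam ρ F) {a b : V} (h : F a b) :
    c.d a b ≤ 11042 * c.K := by
  have h0 := hp.sub a b h
  have h1 : c.d (c.σ a lam) (c.σ b lam) ≤ 3042 * c.K := hp.bound a b h
  have h2 := he.dσ' a (s := c.lv a) (t := lam) (n := 4000 * c.K) h0.1.le (by have := h0.1; omega)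
  have h3 := he.dσ' b (s := lam) (t := c.lv b) (n := 4000 * c.K) (by have := h0.2.1; omega)
    h0.2.1.le
  rw [he.top] at h2 h3
  have := he.tri a (c.σ a lam) b
  have := he.tri (c.σ a lam) (c.σ b lam) b
  omega

theorem child_dip (he : c.Env) (hp : c.Prov lam ρ F) {a b v w : V}
    (h : c.Bc (lam + 4000 * c.K) a b) (hv : v ∈ Seg c.σ a (lam + 25 * c.K) (lam + 4000 * c.K))
    (hw : w ∈ Seg c.σ b (lam + 25 * c.K) (lam + 4000 * c.K)) (hd : c.d v w < 40 * c.K)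
    (hl : c.lv v < lam + 25 * c.K + 40 * c.K) : F a b := by
  refine hp.close a b h ?_
  obtain ⟨h1, -, e1⟩ := he.seg_lv h.1.ge hv
  obtain ⟨h2, -, e2⟩ := he.seg_lv h.2.1.ge hw
  have h3 := he.lip v w
  have h4 := he.dσ a (show lam ≤ c.lv v by omega)
  have h5 := he.dσ b (show lam ≤ c.lv w by omega)
  rw [e1] at h4
  rw [e2, d_comm] at h5
  have := he.tri (c.σ a lam) v (c.σ b lam)
  have := he.tri v w (c.σ b lam)
  show c.d (c.σ a lam) (c.σ b lam) ≤ _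
  omega

theorem child_kind (hS : c.St lam ρ F ρ' F' D) (hT : c.TDok lam F ρ' D H E S)
    (hO : c.Ord lam F D E S r φ) (h : Grp S.Θ r S.oid t u) : (S.sm t ∧ S.oid t = S.oid u) ∨
      (¬ S.sm t ∧ ¬ S.sm u ∧ S.T t = S.T u ∧ S.pid t = S.pid u) := by
  have k0 {a b : ι} (ha : a ∈ S.Θ) (hb : b ∈ S.Θ) (e : S.oid a = S.oid b) :
      (S.sm a ∧ S.oid a = S.oid b) ∨
        (¬ S.sm a ∧ ¬ S.sm b ∧ S.T a = S.T b ∧ S.pid a = S.pid b) := by
    by_cases h : S.sm a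
    · exact .inl ⟨h, e⟩
    have h' : ¬ S.sm b := fun k => h (hT.smE b hb a ha k e.symm).1
    obtain ⟨h1, h2, -⟩ := hT.obj a ha b hb h e
    have ta := (hT.tok a ha h).1
    have tb := (hT.tok b hb h').1
    have fa := hS.pv.sub _ _ ta.fq
    have fb := hS.pv.sub _ _ tb.fq
    exact .inr ⟨h, h', h1, (hT.par a ha b hb h h').2 ⟨fa.2.1, fb.2.1,
      (((fa.2.2.symm.trans ta.xq.2.symm).trans (h2.mono le_rfl (up_mono (by omega)))).trans
        tb.xq.2).trans fb.2.2⟩⟩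
  have k {a b : ι} (h : Xing S.Θ r S.oid a b) : (S.sm a ∧ S.oid a = S.oid b) ∨
      (¬ S.sm a ∧ ¬ S.sm b ∧ S.T a = S.T b ∧ S.pid a = S.pid b) := by
    obtain ⟨ha, hb, e | ⟨a', h1, b', h2, h3, h4, h5⟩⟩ := h
    · exact k0 ha hb e
    · exact (hO.xing a ha a' h1 b hb b' h2 h3 h4 h5).elim (k0 ha hb) .inr
  induction h with
  | single h => exact k h
  | tail h0 h ih =>
    rcases ih with ⟨h1, h2⟩ | ⟨h1, h2, h3, h4⟩ <;> rcases k h with ⟨h5, h6⟩ | ⟨h5, h6, h7, h8⟩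
    · exact .inl ⟨h1, h2.trans h6⟩
    · exact (h5 (hT.smE _ (child_mem h0).1 _ h.1 h1 h2).1).elim
    · exact (h2 h5).elim
    · exact .inr ⟨h1, h6, h3.trans h7, h4.trans h8⟩

open Classical in
/-- The anchor of a token. -/
def childAn (c : Cx V) (lam : ℕ) (S : TD V ι) (t : ι) : Set V :=
  if S.sm t then Seg c.σ (S.x t) (lam + 10000 * c.K + 25 * c.K) (lam + 10000 * c.K + 4000 * c.K)
  else c.An' lam (S.q t) (S.W t)

open Classical in
/-- The floor of a token. -/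
noncomputable def childFl (c : Cx V) (lam : ℕ) (S : TD V ι) (t : ι) : ℕ :=
  if S.sm t then lam + 10000 * c.K + 25 * c.K else lam + 25 * c.K

/-- The fuzz of tokens. -/
def ChildFz (F F' : V → V → Prop) (S : TD V ι) (t u : ι) : Prop :=
  (S.sm t → F' (S.x t) (S.x u)) ∧ (¬ S.sm t → F3 F (S.pp t) (S.pp u))

theorem child_fz0 (h : S.sm t) (k : F' (S.x t) (S.x u)) : ChildFz F F' S t u :=
  ⟨fun _ => k, fun h' => (h' h).elim⟩

theorem child_fz1 (h : ¬ S.sm t) (k : F3 F (S.pp t) (S.pp u)) : ChildFz F F' S t u :=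
  ⟨fun h' => (h h').elim, fun _ => k⟩

theorem child_lv (c : Cx V) (lam : ℕ) :
    lam + 14000 * c.K = lam + 10000 * c.K + 4000 * c.K := by omega

section
variable (hS : c.St lam ρ F ρ' F' D) (hT : c.TDok lam F ρ' D H E S) (hO : c.Ord lam F D E S r φ)
include hS hT hO

theorem child_sm (h : Grp S.Θ r S.oid t u) (ht : S.sm t) : S.sm u ∧ S.oid t = S.oid u ∧
    c.Bc (lam + 10000 * c.K + 4000 * c.K) (S.x t) (S.x u) := by
  obtain ⟨-, e⟩ | ⟨k, -⟩ := child_kind hS hT hO h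
  · have := hT.smE t (child_mem h).1 u (child_mem h).2 ht e
    exact ⟨this.1, e, child_lv c lam ▸ this.2.2.2⟩
  · exact (k ht).elim

theorem child_lg (h : Grp S.Θ r S.oid t u) (ht : ¬ S.sm t) : ¬ S.sm u ∧ S.T t = S.T u ∧
    S.pid t = S.pid u ∧ c.Bc (lam + 4000 * c.K) (S.pp t) (S.pp u) := by
  obtain ⟨k, -⟩ | ⟨-, h1, h2, h3⟩ := child_kind hS hT hO h
  · exact (ht k).elim
  · exact ⟨h1, h2, h3, (hT.par t (child_mem h).1 u (child_mem h).2 ht h1).1 h3⟩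

omit hS in
theorem child_ord {v w x y : V} (h1 : c.Bc (lam + 10000 * c.K + 4000 * c.K) v w)
    (h2 : c.Bc (lam + 10000 * c.K + 4000 * c.K) v x)
    (h3 : c.Bc (lam + 10000 * c.K + 4000 * c.K) v y) :
    Sep (r (S.em v)) (r (S.em w)) (r (S.em x)) (r (S.em y)) ↔ Sep (ρ' v) (ρ' w) (ρ' x) (ρ' y) := by
  rw [← child_lv] at h1 h2 h3
  exact (hO.own _ (hT.emΘ v h1.1).1 _ (hT.emΘ w h1.2.1).1 _ (hT.emΘ x h2.2.1).1 _
    (hT.emΘ y h3.2.1).1 (hT.emO _ _ h1) (hT.emO _ _ h2) (hT.emO _ _ h3)).trans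
    (hT.emR _ _ _ _ h1 h2 h3)

variable {a e b f : ι} (h1 : Grp S.Θ r S.oid a e) (h2 : Grp S.Θ r S.oid a b)
  (h3 : Grp S.Θ r S.oid a f) (h : Sep (r a) (r e) (r b) (r f))
include h1 h2 h3 h

theorem child_small (ha : S.sm a) : Sep (ρ' (S.x a)) (ρ' (S.x e)) (ρ' (S.x b)) (ρ' (S.x f)) := by
  have k {t : ι} (h : Grp S.Θ r S.oid a t) : S.em (S.x t) = t :=
    (hT.smE t (child_mem h).2 t (child_mem h).2 (child_sm hS hT hO h ha).1 rfl).2.2.1.symm
  rw [← child_ord hT hO (child_sm hS hT hO h1 ha).2.2 (child_sm hS hT hO h2 ha).2.2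
    (child_sm hS hT hO h3 ha).2.2, k h1, k h2, k h3, k (h1.trans (child_symm h1))]
  exact h

theorem child_feet (ha : ¬ S.sm a) :
    Cr (fun t u => F3 F (S.pp t) (S.pp u) ∨ c.Cl (childAn c lam S t) (childAn c lam S u)) a e b f ∨
      Sep (ρ (S.pp a)) (ρ (S.pp e)) (ρ (S.pp b)) (ρ (S.pp f)) := by
  obtain ⟨e1, e2, e3, e4⟩ := child_lg hS hT hO h1 ha
  obtain ⟨b1, b2, b3, b4⟩ := child_lg hS hT hO h2 ha
  obtain ⟨f1, f2, f3, f4⟩ := child_lg hS hT hO h3 ha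
  have k1 {t u : ι} (k : c.U lam F S t u) :
      F3 F (S.pp t) (S.pp u) ∨ c.Cl (childAn c lam S t) (childAn c lam S u) := by
    obtain ⟨-, -, -, -, k1, k2, -, k⟩ := k
    refine k.imp_right fun ⟨z, hz, z', hz', k, _⟩ => cl_iff.2 ⟨z, ?_, z', ?_, k⟩
    · rwa [childAn, if_neg k1]
    · rwa [childAn, if_neg k2]
  have k2 {t u : ι} (ht : c.lv (S.pp t) = lam + 4000 * c.K) (hu : c.lv (S.pp u) = lam + 4000 * c.K)
      (k : D.rt (S.pp t) = D.rt (S.pp u)) :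
      F3 F (S.pp t) (S.pp u) ∨ c.Cl (childAn c lam S t) (childAn c lam S u) :=
    .inl ⟨_, _, hS.pv.refl ht, hS.pv.refl ht, hS.lev.rt_inj ht hu k ▸ hS.pv.refl ht⟩
  rcases hO.feet a (child_mem h1).1 e (child_mem h1).2 b (child_mem h2).2 f (child_mem h3).2 ha e1
    b1 f1 e2 b2 f2 e3 b3 f3 h with k | k | k
  · exact .inl (child_cr k k1 k1 k1 k1)
  · exact .inl (child_cr k (k2 e4.1 b4.2.1) (k2 e4.1 f4.2.1) (k2 e4.2.1 b4.2.1) (k2 e4.2.1 f4.2.1))
  · exact .inr ((hS.lev.ord _ _ _ _ e4 b4 f4).1 k)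

theorem child_fzc (hG : c.TokG lam ρ F D) (hF : ChildFz F F' S a e) :
    Cr (fun t u => ChildFz F F' S t u ∨ c.Cl (childAn c lam S t) (childAn c lam S u)) a e b f := by
  by_cases ha : S.sm a
  · have he := (child_sm hS hT hO h1 ha).1
    exact child_cr (hS.pv'.clo _ _ _ _ (hF.1 ha) (child_sm hS hT hO h2 ha).2.2
      (child_sm hS hT hO h3 ha).2.2 (child_small hS hT hO h1 h2 h3 h ha))
      (.inl <| child_fz0 ha ·) (.inl <| child_fz0 ha ·) (.inl <| child_fz0 he ·)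
      (.inl <| child_fz0 he ·)
  · have he := (child_lg hS hT hO h1 ha).1
    rcases child_feet hS hT hO h1 h2 h3 h ha with k | k
    · exact child_cr k (.imp_left (child_fz1 ha)) (.imp_left (child_fz1 ha))
        (.imp_left (child_fz1 he)) (.imp_left (child_fz1 he))
    · exact child_cr (hG.f3 _ _ _ _ (hF.2 ha) (child_lg hS hT hO h2 ha).2.2.2
        (child_lg hS hT hO h3 ha).2.2.2 k) (.inl <| child_fz1 ha ·) (.inl <| child_fz1 ha ·)
        (.inl <| child_fz1 he ·) (.inl <| child_fz1 he ·)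

theorem child_cl (hG : c.TokG lam ρ F D) {P Q : Set V} (hP : Conn c.G 1 P) (hQ : Conn c.G 1 Q)
    (uP : P ⊆ c.Up (childFl c lam S a)) (uQ : Q ⊆ c.Up (childFl c lam S a))
    (pa : childAn c lam S a ⊆ P) (pe : childAn c lam S e ⊆ P) (qb : childAn c lam S b ⊆ Q)
    (qf : childAn c lam S f ⊆ Q) : Cr (ChildFz F F' S) a e b f ∨ c.Cl P Q := by
  by_cases ha : S.sm a
  · obtain ⟨e1, -, e2⟩ := child_sm hS hT hO h1 ha
    obtain ⟨b1, -, b2⟩ := child_sm hS hT hO h2 ha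
    obtain ⟨f1, -, f2⟩ := child_sm hS hT hO h3 ha
    have k {t : ι} (ht : S.sm t) :
        c.σ (S.x t) (lam + 10000 * c.K + 25 * c.K) ∈ childAn c lam S t := by
      rw [childAn, if_pos ht]
      exact mem_seg _ le_rfl (by omega)
    rw [childFl, if_pos ha] at uP uQ
    by_cases k' : Cr F' (S.x a) (S.x e) (S.x b) (S.x f)
    · exact .inl (child_cr k' (child_fz0 ha) (child_fz0 ha) (child_fz0 e1) (child_fz0 e1))
    · exact .inr (hS.pv'.xl _ _ _ _ e2 b2 f2 (child_small hS hT hO h1 h2 h3 h ha) k' P Q hP hQ uP uQ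
        (pa (k ha)) (pe (k e1)) (qb (k b1)) (qf (k f1)))
  · obtain ⟨e1, -, -, e2⟩ := child_lg hS hT hO h1 ha
    obtain ⟨b1, -, -, b2⟩ := child_lg hS hT hO h2 ha
    obtain ⟨f1, -, -, f2⟩ := child_lg hS hT hO h3 ha
    by_cases k' : Cr (F3 F) (S.pp a) (S.pp e) (S.pp b) (S.pp f)
    · exact .inl (child_cr k' (child_fz1 ha) (child_fz1 ha) (child_fz1 e1) (child_fz1 e1))
    have k {A B : Set V} (hA : A ⊆ P) (hB : B ⊆ Q) (k : c.Cl A B) : c.Cl P Q :=
      fun k0 => k (k0.mono le_rfl hA hB)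
    refine .inr ((child_feet hS hT hO h1 h2 h3 h ha).elim (fun k0 => ?_) fun k0 => ?_)
    · rcases k0 with (k0 | k0) | (k0 | k0) | (k0 | k0) | k0 | k0
      exacts [(k' (.inl k0)).elim, k pa qb k0, (k' (.inr (.inl k0))).elim, k pa qf k0,
        (k' (.inr (.inr (.inl k0)))).elim, k pe qb k0, (k' (.inr (.inr (.inr k0)))).elim, k pe qf k0]
    · rw [childFl, if_neg ha] at uP uQ
      rw [childAn, if_neg (by assumption)] at pa pe qb qf
      have m (i : Fin 4) : Grp S.Θ r S.oid a (![a, e, b, f] i) := by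
        fin_cases i
        exacts [h1.trans (child_symm h1), h1, h2, h3]
      exact hG.xl (fun i => S.x (![a, e, b, f] i)) (fun i => S.pp (![a, e, b, f] i))
        (fun i => S.q (![a, e, b, f] i)) (fun i => S.W (![a, e, b, f] i))
        (fun i => (hT.tok _ (child_mem (m i)).2 (child_lg hS hT hO (m i) ha).1).1)
        (fun i => (child_lg hS hT hO (m i) ha).2.2.2) k0 k' P Q hP hQ uP uQ pa pe qb qf

end

theorem child_an (hS : c.St lam ρ F ρ' F' D) (hT : c.TDok lam F ρ' D H E S) (ht : t ∈ S.Θ) :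
    Conn c.G 1 (childAn c lam S t) ∧ S.x t ∈ childAn c lam S t ∧ ∀ z ∈ childAn c lam S t,
      c.d (S.x t) z ≤ 40000 * c.K ∧ c.lv z ≤ lam + 10000 * c.K + 4040 * c.K ∧
        childFl c lam S t ≤ c.lv z := by
  have he := hS.env
  by_cases h : S.sm t
  · have h1 := (hT.smE t ht t ht h rfl).2.2.2.1
    rw [childAn, childFl, if_pos h, if_pos h]
    refine ⟨he.conn_seg _ _ _, ⟨c.lv (S.x t), by omega, by omega, he.top _⟩, fun z hz => ?_⟩
    obtain ⟨h2, h3, h4⟩ := he.seg_lv (by omega) hz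
    have := he.dσ' (S.x t) (s := c.lv (S.x t)) (t := c.lv z) (n := 4000 * c.K) (by omega) (by omega)
    rw [he.top, h4] at this
    omega
  · have k := (hT.tok t ht h).1
    have h1 := (hS.pv.sub _ _ k.fq).1
    rw [childAn, childFl, if_neg h, if_neg h]
    refine ⟨k.conn.union' (he.conn_seg _ _ _) k.qW ⟨c.lv (S.q t), by omega, by omega, he.top _⟩,
      .inl k.xW, ?_⟩
    rintro z (hz | hz)
    · have := k.rad z hz
      have := k.hi z hz
      have : lam + 105 * c.K ≤ c.lv z := k.lo hz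
      omega
    · obtain ⟨h2, h3, h4⟩ := he.seg_lv h1.ge hz
      have := he.dσ' (S.q t) (s := c.lv (S.q t)) (t := c.lv z) (n := 4000 * c.K) (by omega)
        (by omega)
      rw [he.top, h4] at this
      have := k.rad _ k.qW
      have := he.tri (S.x t) (S.q t) z
      omega

theorem childStmt (hTokG : TokGStmt.{u}) (hNcg : NcgStmt.{u}) : ChildStmt.{u} := by
  intro V ι c lam ρ F ρ' F' D H E S r φ hS hT hO
  have hG := hTokG V c lam ρ F ρ' F' D hS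
  have he := hS.env
  have : Nonempty ι := ⟨S.em c.o⟩
  obtain ⟨tk, htk⟩ : ∃ tk : ℕ → ι, ∀ t ∈ S.Θ, tk (r t) = t := ⟨_, hO.inj.leftInvOn_invFunOn⟩
  have hX {a : ℕ} (ha : a ∈ S.Θ.image r) : tk a ∈ S.Θ ∧ r (tk a) = a := by
    obtain ⟨t, ht, rfl⟩ := Finset.mem_image.1 ha
    rw [htk t ht]
    exact ⟨ht, rfl⟩
  have em {v : V} (hv : c.lv v = lam + 10000 * c.K + 4000 * c.K) :
      S.em v ∈ S.Θ ∧ S.x (S.em v) = v := hT.emΘ v (by omega)
  let Sg (a e : ℕ) : Prop := Grp S.Θ r S.oid (tk a) (tk e) ∧ r (tk a) = a ∧ r (tk e) = e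
  have sg {t u : ι} (h : Grp S.Θ r S.oid t u) : Sg (r t) (r u) := by
    simp only [Sg, htk t (child_mem h).1, htk u (child_mem h).2, h, and_self]
  have sgS {a e : ℕ} (h : Sg a e) : Sg e a := ⟨child_symm h.1, h.2.2, h.2.1⟩
  have sgT {a e f : ℕ} (h : Sg a e) (h' : Sg e f) : Sg a f := ⟨h.1.trans h'.1, h.2.1, h'.2.2⟩
  have sep {a e b f : ℕ} (h1 : Sg a e) (h2 : Sg b f) (h : Sep a e b f) :
      Sep (r (tk a)) (r (tk e)) (r (tk b)) (r (tk f)) := by rwa [h1.2.1, h1.2.2, h2.2.1, h2.2.2]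
  have emG {v w : V} (h : c.Bc (lam + 10000 * c.K + 4000 * c.K) v w) :
      Grp S.Θ r S.oid (S.em v) (S.em w) :=
    child_oid (em h.1).1 (em h.2.1).1 (hT.emO v w (child_lv c lam ▸ h))
  refine ⟨⟨S.Θ.image r, fun v => r (S.em v), fun a => S.x (tk a), fun a => childAn c lam S (tk a),
    fun a e => Sg a e ∧ ChildFz F F' S (tk a) (tk e), Sg, fun a => childFl c lam S (tk a)⟩,
    { pos := fun h => (hO.pos _).ne' (hX h).2
      rtX := fun v hv => ⟨Finset.mem_image_of_mem r (em hv).1, by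
        simp only [htk _ (em hv).1, (em hv).2]⟩
      conn := fun a ha => (child_an hS hT (hX ha).1).1
      locA := fun a ha => (child_an hS hT (hX ha).1).2.1
      rad := fun a ha z hz => ((child_an hS hT (hX ha).1).2.2 z hz).1
      hi := fun a ha z hz => ((child_an hS hT (hX ha).1).2.2 z hz).2.1
      lo := fun a ha z hz => ((child_an hS hT (hX ha).1).2.2 z hz).2.2
      seg := fun v hv => ?_
      flo := fun a _ => by
        simp only [childFl]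
        split_ifs <;> omega
      sgR := fun a ha => ⟨child_oid (hX ha).1 (hX ha).1 rfl, (hX ha).2, (hX ha).2⟩
      sgS := fun _ _ => sgS
      sgT := fun _ _ _ => sgT
      sgX := fun a e h => h.2.1 ▸ Finset.mem_image_of_mem r (child_mem h.1).1
      sgF := fun a e h => ?_
      sgC := fun v w h => sg (emG h)
      sgN := fun a e b f h1 h2 h =>
        ⟨hNcg ι _ r _ hO.inj _ _ _ _ h1.1 h2.1 (sep h1 h2 h), h1.2.1, h2.2.1⟩
      fzS := fun a e h => ⟨sgS h.1, fun k => ?_, fun k => ?_⟩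
      fzG := fun a e h => ⟨h.1, ?_⟩
      cl := fun a e b f h1 h2 h3 h P Q hP hQ uP uQ pa pe qb qf =>
        (child_cl hS hT hO h1.1 h2.1 h3.1 (sep h1 (sgT (sgS h2) h3) h) hG hP hQ uP uQ pa pe qb
          qf).imp_left fun k => child_cr k (⟨h2, ·⟩) (⟨h3, ·⟩) (⟨sgT (sgS h1) h2, ·⟩)
            (⟨sgT (sgS h1) h3, ·⟩)
      fzc := fun a e b f h1 h2 h3 h =>
        child_cr (child_fzc hS hT hO h1.1.1 h2.1 h3.1 (sep h1.1 (sgT (sgS h2) h3) h) hG h1.2)
          (.imp_left (⟨h2, ·⟩)) (.imp_left (⟨h3, ·⟩)) (.imp_left (⟨sgT (sgS h1.1) h2, ·⟩))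
          (.imp_left (⟨sgT (sgS h1.1) h3, ·⟩))
      dip := fun a e h v hv w hw hd hl => ⟨h, fun k => ?_, fun k => ?_⟩
      ord := fun v w x y => child_ord hT hO
      fF := fun v w h => ?_ },
    { X := rfl
      rt := fun _ => rfl
      loc := fun t ht => by simp only [htk t ht]
      An := fun t ht h => by
        simp only [htk t ht]
        rw [childAn, if_neg h]
        exact Set.subset_union_left
      sg := fun t ht u hu h => sg (child_oid ht hu h)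
      sg' := fun t ht u hu h => child_kind hS hT hO (htk t ht ▸ htk u hu ▸ h.1) }⟩
  · simp only [htk _ (em hv).1]
    rw [childAn, (em hv).2]
    split_ifs with k
    · exact subset_rfl
    · rintro _ ⟨i, h1, h2, rfl⟩
      exact .inl (hT.emC v (by omega) k (.inl (mem_seg v (by omega) (by omega))))
  · simp only [childFl]
    by_cases k : S.sm (tk a)
    · rw [if_pos k, if_pos (child_sm hS hT hO h.1 k).1]
    · rw [if_neg k, if_neg (child_lg hS hT hO h.1 k).1]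
  · exact hS.pv'.symm _ _ (h.2.1 (child_sm hS hT hO (sgS h.1).1 k).1)
  · obtain ⟨x, y, h1, h2, h3⟩ := h.2.2 (child_lg hS hT hO (sgS h.1).1 k).1
    exact ⟨y, x, hS.pv.symm _ _ h3, hS.pv.symm _ _ h2, hS.pv.symm _ _ h1⟩
  · show c.d (S.x (tk a)) (S.x (tk e)) ≤ _
    by_cases k : S.sm (tk a)
    · have := child_len he hS.pv' (h.2.1 k)
      omega
    · obtain ⟨x, y, h1, h2, h3⟩ := h.2.2 k
      have ta := (hT.tok _ (child_mem h.1.1).1 k).1
      have te := (hT.tok _ (child_mem h.1.1).2 (child_lg hS hT hO h.1.1 k).1).1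
      have := child_len he hS.pv h1
      have := child_len he hS.pv h2
      have := child_len he hS.pv h3
      have := child_len he hS.pv ta.fq
      have := child_len he hS.pv (hS.pv.symm _ _ te.fq)
      have := ta.rad _ ta.qW
      have := (d_comm _ _).trans_le (te.rad _ te.qW)
      have := he.tri (S.x (tk a)) (S.q (tk a)) (S.x (tk e))
      have := he.tri (S.q (tk a)) (S.pp (tk a)) (S.x (tk e))
      have := he.tri (S.pp (tk a)) x (S.x (tk e))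
      have := he.tri x y (S.x (tk e))
      have := he.tri y (S.pp (tk e)) (S.x (tk e))
      have := he.tri (S.pp (tk e)) (S.q (tk e)) (S.x (tk e))
      omega
  · obtain ⟨h1, -, h2⟩ := child_sm hS hT hO h.1 k
    simp only [childAn, childFl, if_pos k, if_pos h1] at hv hw hl
    exact child_dip he hS.pv' h2 hv hw hd hl
  · obtain ⟨h1, -, -, h2⟩ := child_lg hS hT hO h.1 k
    simp only [childAn, childFl, if_neg k, if_neg h1] at hv hw hl
    have ta := (hT.tok _ (child_mem h.1).1 k).1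
    have te := (hT.tok _ (child_mem h.1).2 h1).1
    have := he.lip v w
    refine ⟨_, _, hS.pv.symm _ _ ta.fq, child_dip he hS.pv
      (((hS.pv.sub _ _ ta.fq).trans h2).trans (hS.pv.sub _ _ te.fq).symm)
      (hv.resolve_left fun k => ?_) (hw.resolve_left fun k => ?_) hd hl, te.fq⟩
    · have : lam + 105 * c.K ≤ c.lv v := ta.lo k
      omega
    · have : lam + 105 * c.K ≤ c.lv w := te.lo k
      omega
  · have hb := hS.pv'.sub v w h
    simp only [htk _ (em hb.1).1, htk _ (em hb.2.1).1]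
    by_cases k : S.sm (S.em v)
    · exact .inl ⟨sg (emG hb), child_fz0 k (by rwa [(em hb.1).2, (em hb.2.1).2])⟩
    · have k' := (child_lg hS hT hO (emG hb) k).1
      simp only [childAn, if_neg k, if_neg k']
      exact .inr ⟨c.σ w (lam + 10000 * c.K),
        .inl (hT.emC v (by have := hb.1; omega) k (.inr (mem_ball.2 (hS.pv'.bound v w h)))),
        .inl (hT.emC w (by have := hb.2.1; omega) k' (.inl (mem_seg w le_rfl (by omega))))⟩

end Pool.Agent.Lib.MP_f9389f_co.SC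
end

-- part Pool.Agent.Lib.MP_f9389f_co.SC.Link
section

/-! The link between two levels. -/

namespace Pool.Agent.Lib.MP_f9389f_co.SC

universe u

open SimpleGraph

section Aux

variable {V ι : Type u} {c : Cx V} {lam : ℕ} {ρ ρ' : V → ℕ} {F F' : V → V → Prop} {D D' : LD V}
  {H E : SimpleGraph ℕ} {S : TD V ι} {r φ : ι → ℕ}

/-- A short walk of a graph whose edges keep the group keeps the group. -/
theorem link_sg (hL : c.Lev lam ρ F D) {Γ : SimpleGraph ℕ} (hΓ : ∀ a e, Γ.Adj a e → D.Sg a e)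
    {n a e : ℕ} (ha : a ∈ D.X) (h : Near Γ n a e) : D.Sg a e :=
  Near.induct h (fun y => D.Sg a y) (hL.sgR a ha) fun x y h1 h2 => hL.sgT a x y h1 (hΓ x y h2)

/-- A short walk of a graph with short edges has near ends. -/
theorem link_len (he : c.Env) (loc : ℕ → V) {Γ : SimpleGraph ℕ} {k : ℕ}
    (hΓ : ∀ a e, Γ.Adj a e → c.d (loc a) (loc e) ≤ k) (n : ℕ) :
    ∀ a e, Near Γ n a e → c.d (loc a) (loc e) ≤ n * k := by
  induction n with
  | zero =>
    intro a e h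
    rw [Near.zero h, Cx.d_self]
    exact Nat.zero_le _
  | succ n ih =>
    intro a e h
    obtain ⟨x, hx, h2⟩ := Near.succ h
    have h3 := ih x e h2
    have h4 := he.tri (loc a) (loc x) (loc e)
    have h5 : c.d (loc a) (loc x) ≤ k := by
      rcases hx with rfl | hx
      · rw [Cx.d_self]; exact Nat.zero_le _
      · exact hΓ a x hx
    rw [Nat.succ_mul]
    omega

theorem link_adjE (L : ℕ) (ψ : ℕ → ℕ) {a e : ℕ} (h : E.Adj a e) :
    Near (c.LG L D' E ψ) 1 (Sum.inl a) (Sum.inl e) := by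
  unfold Cx.LG
  exact near_rel h

theorem link_adjT (L : ℕ) (ψ : ℕ → ℕ) {w : ℕ} (h : w ∈ D'.X) :
    Near (c.LG L D' E ψ) 1 (Sum.inr w) (Sum.inl (ψ w)) := by
  unfold Cx.LG
  exact near_rel ⟨h, rfl⟩

theorem link_adjV (L : ℕ) (ψ : ℕ → ℕ) {w w' : ℕ} (h : c.V0 (L + 10000 * c.K) D' w w') :
    Near (c.LG L D' E ψ) 1 (Sum.inr w) (Sum.inr w') := by
  unfold Cx.LG
  exact near_rel h

theorem link_nearE (hPath : PathStmt) (L : ℕ) (ψ : ℕ → ℕ) {n a e : ℕ} (h : Near E n a e) :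
    Near (c.LG L D' E ψ) n (Sum.inl a) (Sum.inl e) := by
  have := hPath.lip ℕ (ℕ ⊕ ℕ) E (c.LG L D' E ψ) Sum.inl 1 n a e
    (fun x y hxy => link_adjE L ψ hxy) h
  rwa [Nat.mul_one] at this

/-- The image of a token is near its value. -/
theorem link_val (hO : c.Ord lam F D E S r φ) {τ : ι} (hτ : τ ∈ S.Θ) :
    Near E 160 (φ τ) (S.val τ) := by
  by_cases hs : S.sm τ
  · rw [hO.small τ hτ hs]; exact Near.refl _ _ _
  · exact (hO.large τ hτ hs).2

theorem link_X (hT : c.TDok lam F ρ' D H E S) (hO : c.Ord lam F D E S r φ) {τ : ι}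
    (hτ : τ ∈ S.Θ) : φ τ ∈ D.X := by
  by_cases hs : S.sm τ
  · rw [hO.small τ hτ hs]; exact hT.valX τ hτ
  · exact (hO.large τ hτ hs).1.1

theorem link_mem (hN : Cx.Next S r D') {τ : ι} (hτ : τ ∈ S.Θ) : r τ ∈ D'.X := by
  rw [hN.X]; exact Finset.mem_image_of_mem r hτ

theorem link_ex (hN : Cx.Next S r D') {w : ℕ} (hw : w ∈ D'.X) : ∃ τ ∈ S.Θ, r τ = w := by
  rw [hN.X] at hw; exact Finset.mem_image.1 hw

/-- An edge of the first emulator is short in the local graph. -/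
theorem link_H (hPath : PathStmt) (he : c.Env) (hH : (c.band (lam + 4000 * c.K) D).HOut H E)
    (hT : c.TDok lam F ρ' D H E S) (hO : c.Ord lam F D E S r φ) (hN : Cx.Next S r D')
    (ψ : ℕ → ℕ) (hψ : ∀ τ ∈ S.Θ, ψ (r τ) = φ τ) {n a e : ℕ} (h : Near H n a e) :
    Near (c.LG (lam + 4000 * c.K) D' E ψ) (n * (61000 * 2000)) (Sum.inl a) (Sum.inl e) := by
  refine hPath.lip ℕ (ℕ ⊕ ℕ) H _ Sum.inl _ n a e (fun x z hxz => ?_) h
  refine hPath.lip ℕ (ℕ ⊕ ℕ) (fromRel fun a e =>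
    Near (c.LG (lam + 4000 * c.K) D' E ψ) 2000 (Sum.inl a) (Sum.inl e)) _ Sum.inl 2000 61000 x z
    (fun y y' hy => ?_) (hH.route _ (fun y y' hy => ?_) ?_ x z hxz)
  · rcases hy.2 with h1 | h1
    · exact h1
    · exact Near.symm h1
  · exact ⟨hy.ne, Or.inl (Near.mono (link_adjE _ ψ hy) (by norm_num))⟩
  · intro T a e hTop _ _ hAr hae
    refine near_rel ?_
    rcases hT.cov T a e hTop hAr hae with h1 | ⟨τ, hτ, τ', hτ', hs, ho, h1, h2, z, hz, hz'⟩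
    · exact Near.mono (link_nearE hPath _ ψ h1) (by norm_num)
    · have hs' : ¬ S.sm τ' := fun h3 => hs (hT.smE τ' hτ' τ hτ h3 ho.symm).1
      have hK := he.one
      have hhi := (hT.tok τ hτ hs).1.hi z hz
      have hv : c.V0 (lam + 4000 * c.K + 10000 * c.K) D' (r τ) (r τ') :=
        Or.inr ⟨link_mem hN hτ, link_mem hN hτ', hN.sg τ hτ τ' hτ' ho, z,
          Or.inl (hN.An τ hτ hs hz), z, Or.inl (hN.An τ' hτ' hs' hz'),
          by rw [Cx.d_self]; omega, by omega, by omega⟩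
      have t1 := link_adjT (c := c) (E := E) (lam + 4000 * c.K) ψ (link_mem hN hτ)
      have t2 := link_adjT (c := c) (E := E) (lam + 4000 * c.K) ψ (link_mem hN hτ')
      rw [hψ τ hτ] at t1
      rw [hψ τ' hτ'] at t2
      have t3 := link_adjV (E := E) (lam + 4000 * c.K) ψ hv
      have t4 := link_nearE (c := c) (D' := D') hPath (lam + 4000 * c.K) ψ
        (Near.trans h1 (Near.symm (link_val hO hτ)))
      have t5 := link_nearE (c := c) (D' := D') hPath (lam + 4000 * c.K) ψ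
        (Near.trans (link_val hO hτ') (Near.symm h2))
      exact Near.mono (Near.trans t4 (Near.trans (Near.symm t1) (Near.trans t3
        (Near.trans t2 t5)))) (by norm_num)

/-- A token is near the root of its foot in the local graph. -/
theorem link_foot (hPath : PathStmt) (he : c.Env) (hH : (c.band (lam + 4000 * c.K) D).HOut H E)
    (hT : c.TDok lam F ρ' D H E S) (hO : c.Ord lam F D E S r φ) (hN : Cx.Next S r D')
    (ψ : ℕ → ℕ) (hψ : ∀ τ ∈ S.Θ, ψ (r τ) = φ τ) {τ : ι} (hτ : τ ∈ S.Θ) :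
    Near (c.LG (lam + 4000 * c.K) D' E ψ) (10 ^ 15) (Sum.inr (r τ))
      (Sum.inl (D.rt (c.σ (S.x τ) (lam + 4000 * c.K)))) := by
  have t1 := link_adjT (c := c) (E := E) (lam + 4000 * c.K) ψ (link_mem hN hτ)
  rw [hψ τ hτ] at t1
  have t2 := link_nearE (c := c) (D' := D') hPath (lam + 4000 * c.K) ψ (link_val hO hτ)
  have t3 := link_H hPath he hH hT hO hN ψ hψ (Near.symm (hT.foot τ hτ).2.2)
  exact Near.mono (Near.trans t1 (Near.trans t2 t3)) (by norm_num)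

/-- The image of a large token lies in the group of its order foot. -/
theorem link_pp (hS : c.St lam ρ F ρ' F' D) (hT : c.TDok lam F ρ' D H E S)
    (hO : c.Ord lam F D E S r φ) (hH : ∀ a e, H.Adj a e → D.Sg a e)
    (hE : ∀ a e, E.Adj a e → D.Sg a e) {τ : ι} (hτ : τ ∈ S.Θ) (hs : ¬ S.sm τ) :
    D.Sg (φ τ) (D.rt (S.pp τ)) := by
  have hL := hS.lev
  obtain ⟨hk, -, -, h1⟩ := hT.tok τ hτ hs
  have h2 := link_sg hL hE (link_X hT hO hτ) (link_val hO hτ)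
  have h3 := link_sg hL hH (hT.valX τ hτ) (Near.symm h1)
  have h4 := hS.pv.sub _ _ hk.fq
  have h5 := hS.env.bc_feet hk.xq.1 hk.xq.2
  rw [hS.env.stop (S.q τ) _ h4.1.le] at h5
  exact hL.sgT _ _ _ h2 (hL.sgT _ _ _ h3 (hL.sgC _ _ (h5.trans h4)))

end Aux

theorem linkStmt (hBandG : BandGStmt.{u}) (hFace : FaceStmt) (hPath : PathStmt)
    : LinkStmt.{u} := by
  intro V ι c lam ρ F ρ' F' D H E S r φ D' hS hH hT hO hL' hN
  have he := hS.env
  have hL := hS.lev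
  have hK := he.one
  have hG : c.BandG (lam + 4000 * c.K) D H := hBandG V c lam ρ F D H he hL hH.e1
  have hnc : NCOn E D.X := hH.nc
  have : Nonempty ι := ⟨S.em c.o⟩
  obtain ⟨tk, htk⟩ : ∃ tk : ℕ → ι, ∀ τ ∈ S.Θ, tk (r τ) = τ :=
    ⟨Function.invFunOn r S.Θ, fun τ hτ => hO.inj.leftInvOn_invFunOn hτ⟩
  have hψ : ∀ τ ∈ S.Θ, (fun w => φ (tk w)) (r τ) = φ τ := fun τ hτ => by
    show φ (tk (r τ)) = φ τ
    rw [htk τ hτ]
  have hE : ∀ a e, E.Adj a e → D.Sg a e := fun a e h =>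
    link_sg hL hG.sg (hnc.mem a e h) (hH.cv a e h)
  have hlen : ∀ a e, E.Adj a e → c.d (D.loc a) (D.loc e) ≤ 624 * (3640000 * c.K) := fun a e h =>
    link_len he D.loc hG.len 624 a e (hH.cv a e h)
  refine ⟨fun w => φ (tk w), fun a e w => (S.sm (tk w) ∧ a < φ (tk w) ∧ φ (tk w) < e) ∨
    (¬ S.sm (tk w) ∧ a ≤ (S.T (tk w)).1 ∧ (S.T (tk w)).2 ≤ e), hnc, hL.rtX, hE, ?_, ?_, ?_, ?_,
    hL'.sgS, ?_, ?_, ?_, hH.v0, ?_, ?_, ?_⟩
  · intro w hw
    obtain ⟨τ, hτ, rfl⟩ := link_ex hN hw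
    simp only [htk τ hτ]
    exact link_X hT hO hτ
  · intro w hw w' hw' h
    obtain ⟨τ, hτ, rfl⟩ := link_ex hN hw
    obtain ⟨τ', hτ', rfl⟩ := link_ex hN hw'
    simp only [htk τ hτ, htk τ' hτ']
    exact hO.mono τ hτ τ' hτ' h
  · intro a e hae hlt w hw
    obtain ⟨τ, hτ, rfl⟩ := link_ex hN hw
    simp only [htk τ hτ]
    intro h1 h2
    by_cases hs : S.sm τ
    · constructor
      · rintro (h3 | h3)
        · exact h3.2
        · exact absurd hs h3.1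
      · exact fun h3 => Or.inl ⟨hs, h3⟩
    · obtain ⟨h3, h4⟩ := hFace.side E D.X (S.T τ) (φ τ) a e hnc (hT.tok τ hτ hs).2.1
        (hO.large τ hτ hs).1 hae hlt
      constructor
      · rintro (h5 | h5)
        · exact h5.2
        · have := h3 h5.2
          omega
      · intro h5
        exact Or.inr ⟨hs, by_contra fun h6 => h4 h6 h5⟩
  · intro a e _ _ w hw w' hw'
    obtain ⟨τ, hτ, rfl⟩ := link_ex hN hw
    obtain ⟨τ', hτ', rfl⟩ := link_ex hN hw'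
    simp only [htk τ hτ, htk τ' hτ']
    intro h h1
    rcases hN.sg' τ hτ τ' hτ' h with ⟨hs, ho⟩ | ⟨hs, hs', hTT, -⟩
    · obtain ⟨hs', hv, -⟩ := hT.smE τ hτ τ' hτ' hs ho
      rcases h1 with h1 | h1
      · refine Or.inl ⟨hs', ?_⟩
        rw [hO.small τ' hτ' hs', ← hv, ← hO.small τ hτ hs]
        exact h1.2
      · exact absurd hs h1.1
    · rcases h1 with h1 | h1
      · exact absurd h1.1 hs
      · exact Or.inr ⟨hs', hTT ▸ h1.2⟩
  · intro w hw w' hw'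
    obtain ⟨τ, hτ, rfl⟩ := link_ex hN hw
    obtain ⟨τ', hτ', rfl⟩ := link_ex hN hw'
    simp only [htk τ hτ, htk τ' hτ']
    intro h
    rcases hN.sg' τ hτ τ' hτ' h with ⟨hs, ho⟩ | ⟨hs, hs', -, hp⟩
    · obtain ⟨hs', hv, -⟩ := hT.smE τ hτ τ' hτ' hs ho
      rw [hO.small τ' hτ' hs', ← hv, ← hO.small τ hτ hs]
      exact hL.sgR _ (link_X hT hO hτ)
    · exact hL.sgT _ _ _ (link_pp hS hT hO hG.sg hE hτ hs) (hL.sgT _ _ _
        (hL.sgC _ _ ((hT.par τ hτ τ' hτ' hs hs').1 hp))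
        (hL.sgS _ _ (link_pp hS hT hO hG.sg hE hτ' hs')))
  · intro a e h
    have := hlen a e h
    omega
  · intro w hw
    obtain ⟨τ, hτ, rfl⟩ := link_ex hN hw
    simp only [htk τ hτ]
    rw [hN.loc τ hτ]
    obtain ⟨h1, h2, h3⟩ := hT.foot τ hτ
    have h4 := link_len he D.loc hG.len _ _ _ h3
    rw [(hL.rtX _ (he.lev _ _ h1)).2] at h4
    have h5 := link_len he D.loc hlen _ _ _ (Near.symm (link_val hO hτ))
    have h6 := he.dσ (S.x τ) h1
    rw [he.top, Cx.d_comm] at h6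
    have h7 := he.tri (S.x τ) (c.σ (S.x τ) (lam + 4000 * c.K)) (D.loc (S.val τ))
    have h8 := he.tri (S.x τ) (D.loc (S.val τ)) (D.loc (φ τ))
    omega
  · intro u v huv h1 h2 h3 h4
    have h5 : c.d u v ≤ 1 := dist_le_one_of_adj huv
    have h6 := hG.jump 1 u v (by omega) fun z hz => by
      have h7 := Cx.mem_I hz
      rcases Nat.eq_zero_or_pos (c.d u z) with h8 | h8
      · rw [← (he.conn.dist_eq_zero_iff).1 h8]
        exact ⟨h1, h2⟩
      · have h9 : c.d z v = 0 := by omega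
        rw [(he.conn.dist_eq_zero_iff).1 h9]
        exact ⟨h3, h4⟩
    exact Near.mono (link_H hPath he hH hT hO hN _ hψ h6) (by norm_num)
  · intro t ht
    obtain ⟨h1, h2⟩ := hT.emΘ t (by omega)
    have := link_foot hPath he hH hT hO hN (fun w => φ (tk w)) hψ h1
    rwa [h2, ← hN.rt t] at this
  · intro w hw
    obtain ⟨τ, hτ, rfl⟩ := link_ex hN hw
    exact ⟨_, he.lev _ _ (hT.foot τ hτ).1, link_foot hPath he hH hT hO hN _ hψ hτ⟩

end Pool.Agent.Lib.MP_f9389f_co.SC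
end
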