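import Mathlib
import Pool.Agent.Lib.MP_f9389f_co.SC.Basic

-- part Pool.Agent.Lib.MP_f9389f_co.SC.Step
section

/-! The step and the assembly. -/

namespace Pool.Agent.Lib.MP_f9389f_co.SC

universe u

open SimpleGraph

theorem stepStmt (hBand : BandStmt.{u}) (hH : HStmt.{u}) (hTD : TDStmt.{u}) (hOrd2 : Ord2Stmt.{u})
    (hChild : ChildStmt.{u}) (hLink : LinkStmt.{u}) : StepStmt.{u} := by
  intro V c lam ρ F ρ' F' D h
  obtain ⟨H, E, h1⟩ := hH _ _ (hBand V c lam ρ F D h.env h.lev)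
  obtain ⟨S, h2⟩ := hTD V c lam ρ F ρ' F' D H E h h1
  obtain ⟨r, φ, h3⟩ := hOrd2 V _ c lam ρ F ρ' F' D H E S h h1 h2
  obtain ⟨D', h4, h5⟩ := hChild V _ c lam ρ F ρ' F' D H E S r φ h h2 h3
  obtain ⟨ψ, In, h6⟩ := hLink V _ c lam ρ F ρ' F' D H E S r φ D' h h1 h2 h3 h4 h5
  exact ⟨D', E, ψ, In, h4, h6⟩

theorem step_seq {α : Type*} {P : ℕ → α → Prop} {R : ℕ → α → α → Prop} {a : α} (h0 : P 0 a)
    (h : ∀ m x, P m x → ∃ y, P (m + 1) y ∧ R m x y) :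
    ∃ f : ℕ → α, f 0 = a ∧ ∀ m, R m (f m) (f (m + 1)) := by
  choose g g1 g2 using h
  let f : ∀ m, {x // P m x} := fun m => Nat.rec ⟨a, h0⟩ (fun m x => ⟨g m x.1 x.2, g1 m x.1 x.2⟩) m
  exact ⟨fun m => (f m).1, rfl, fun m => g2 m _ (f m).2⟩

theorem coreStmt (hProv : ProvStmt.{u}) (hBase : BaseStmt.{u}) (hStep : StepStmt.{u})
    (hPlanar : PlanarStmt) (hQI : QIStmt.{u}) : CoreStmt.{u} := by
  intro K
  obtain ⟨M, A, hM, h⟩ := hQI K
  refine ⟨M, A, hM, fun V c hK e => ?_⟩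
  choose ρ F pv using fun m : ℕ =>
    hProv V c e (6000 * c.K + m * (10000 * c.K)) (Nat.le_add_right _ _)
  have e1 : ∀ m : ℕ, 6000 * c.K + m * (10000 * c.K) + 10000 * c.K =
      6000 * c.K + (m + 1) * (10000 * c.K) := fun m => by ring
  have e2 : ∀ m : ℕ, 6000 * c.K + m * (10000 * c.K) + 4000 * c.K = (m + 1) * (10000 * c.K) :=
    fun m => by ring
  obtain ⟨D₀, D₁, E₀, ψ₀, In₀, b1, b2, b3⟩ := hBase V c (ρ 0) (F 0) e (by simpa using pv 0)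
  obtain ⟨f, f0, hf⟩ := step_seq (a := D₁)
    (P := fun m D => c.Lev (6000 * c.K + m * (10000 * c.K)) (ρ m) (F m) D)
    (R := fun m D D' => ∃ E ψ In, c.Lnk ((m + 1) * (10000 * c.K)) D D' E ψ In)
    (by simpa using b2) fun m D k => by
      obtain ⟨D', E, ψ, In, k1, k2⟩ := hStep V c _ _ _ (ρ (m + 1)) (F (m + 1)) D
        ⟨e, Nat.le_add_right _ _, pv m, e1 m ▸ pv (m + 1), k⟩
      exact ⟨D', e1 m ▸ k1, E, ψ, In, e2 m ▸ k2⟩
  obtain ⟨D, d0, hD⟩ : ∃ D : ℕ → LD V, (D 0).X = {1} ∧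
      ∀ m, ∃ E ψ In, c.Lnk (m * (10000 * c.K)) (D m) (D (m + 1)) E ψ In := by
    refine ⟨fun m => Nat.casesOn m D₀ f, b1, fun m => ?_⟩
    cases m with
    | zero => exact ⟨E₀, ψ₀, In₀, by simpa [f0] using b3⟩
    | succ m => exact hf m
  choose E ψ In k using hD
  obtain ⟨k1, g, k2⟩ := h V c D E ψ In hK e d0 k
  exact ⟨_, _, g, inferInstance, k1, k2, hPlanar _ E ψ (fun m => (D m).Sg) In (fun m => (k m).nc)
    (fun m => (k m).eS) (fun m => (k m).φX) (fun m => (k m).mono) (fun m => (k m).inφ)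
    (fun m a b h1 h2 w h3 w' h4 h5 => ⟨(k m).inS a b h1 h2 w h3 w' h4 h5,
      (k m).inS a b h1 h2 w' h4 w h3 ((k m).sgS _ _ h5)⟩) fun m => (k m).φS⟩

end Pool.Agent.Lib.MP_f9389f_co.SC
end

-- part Pool.Agent.Lib.MP_f9389f_co.SC.Base
section

/-! The first level. -/

namespace Pool.Agent.Lib.MP_f9389f_co.SC

universe u

open SimpleGraph

theorem base_sep {a c b d a' c' b' d' : ℕ} (h1 : a < b ↔ a' < b') (h2 : b < a ↔ b' < a')
    (h3 : c < b ↔ c' < b') (h4 : b < c ↔ b' < c') (h5 : a < d ↔ a' < d') (h6 : d < a ↔ d' < a')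
    (h7 : c < d ↔ c' < d') (h8 : d < c ↔ d' < c') : Sep a c b d ↔ Sep a' c' b' d' := by
  simp only [Sep, Btw, Out, h1, h2, h3, h4, h5, h6, h7, h8]

theorem base_blk {a c b d : ℕ} (h1 : a < b) (h2 : c < b) (h3 : a < d) (h4 : c < d) :
    ¬ Sep a c b d := by
  unfold Sep Btw Out; omega

variable {V : Type u} {c : Cx V} {lam : ℕ} {ρ : V → ℕ} {F : V → V → Prop}

/-- An order on a level in which the cores are blocks. -/
theorem base_rank (hRank : RankStmt.{u}) (he : c.Env) (hp : c.Prov lam ρ F) :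
    ∃ r : V → ℕ, (∀ t, 0 < r t) ∧ Set.InjOn r {v | c.lv v = lam + 4000 * c.K} ∧
      (∀ v w, c.Bc (lam + 4000 * c.K) v w → (r v < r w ↔ ρ v < ρ w)) ∧
      ∀ v w x y, c.Bc (lam + 4000 * c.K) v w → c.Bc (lam + 4000 * c.K) x y →
        Sep (r v) (r w) (r x) (r y) → c.Bc (lam + 4000 * c.K) v x := by
  have : Nonempty V := ⟨c.o⟩
  obtain ⟨rep, r1, r2⟩ : ∃ rep : V → V,
      (∀ t, c.lv t = lam + 4000 * c.K → c.Bc (lam + 4000 * c.K) (rep t) t) ∧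
      ∀ t r, c.Bc (lam + 4000 * c.K) t r → rep r = rep t :=
    ⟨fun t => Classical.epsilon (c.Bc (lam + 4000 * c.K) t),
      fun t ht => (Classical.epsilon_spec ⟨t, Cx.Bc.refl ht⟩).symm,
      fun t r k => congrArg _ (funext fun _ => propext ⟨k.trans, k.symm.trans⟩)⟩
  have fin : {v | c.lv v = lam + 4000 * c.K}.Finite :=
    (he.fin (lam + 4000 * c.K)).subset fun t ht => le_of_eq ht
  obtain ⟨enc, henc⟩ := Set.countable_iff_exists_injOn.1 fin.countable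
  have bc : ∀ v w, c.lv v = lam + 4000 * c.K → c.lv w = lam + 4000 * c.K →
      enc (rep v) = enc (rep w) → c.Bc (lam + 4000 * c.K) v w := fun v w hv hw e =>
    (r1 v hv).symm.trans (henc (r1 v hv).1 (r1 w hw).1 e ▸ r1 w hw)
  have ki : Set.InjOn (fun v => toLex (enc (rep v), ρ v)) fin.toFinset := fun v hv w hw e => by
    rw [fin.coe_toFinset] at hv hw
    have e' := Prod.ext_iff.1 (toLex.injective e)
    exact hp.inj v w (bc v w hv hw e'.1) e'.2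
  obtain ⟨r, h0, h1⟩ := hRank V (ℕ ×ₗ ℕ) fin.toFinset _ ki
  simp only [fin.mem_toFinset, Set.mem_ofPred_eq] at h1
  refine ⟨r, h0, fun v hv w hw e => ki (by simpa using hv) (by simpa using hw) (le_antisymm
    (not_lt.1 fun k => ((h1 w hw v hv).2 k).ne' e) (not_lt.1 fun k => ((h1 v hv w hw).2 k).ne e)),
    fun v w k => ?_, fun v w x y k1 k2 k3 => ?_⟩
  · rw [h1 v k.1 w k.2.1, r2 v w k, Prod.Lex.toLex_lt_toLex]
    simp
  · have lt : ∀ v w, c.lv v = lam + 4000 * c.K → c.lv w = lam + 4000 * c.K →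
        enc (rep v) < enc (rep w) → r v < r w := fun v w hv hw e =>
      (h1 v hv w hw).2 (Prod.Lex.toLex_lt_toLex.2 (Or.inl e))
    have e1 := r2 v w k1
    have e2 := r2 x y k2
    rcases lt_trichotomy (enc (rep v)) (enc (rep x)) with e | e | e
    · exact absurd k3 (base_blk (lt v x k1.1 k2.1 e) (lt w x k1.2.1 k2.1 (e1 ▸ e))
        (lt v y k1.1 k2.2.1 (e2 ▸ e)) (lt w y k1.2.1 k2.2.1 (e1 ▸ e2 ▸ e)))
    · exact bc v x k1.1 k2.1 e
    · exact absurd k3.symm (base_blk (lt x v k2.1 k1.1 e) (lt y v k2.2.1 k1.1 (e2 ▸ e))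
        (lt x w k2.1 k1.2.1 (e1 ▸ e)) (lt y w k2.2.1 k1.2.1 (e1 ▸ e2 ▸ e)))

/-- A level whose anchors are verticals. -/
theorem base_lev (hRank : RankStmt.{u}) (he : c.Env) (hp : c.Prov lam ρ F) :
    ∃ D : LD V, c.Lev lam ρ F D ∧ ∀ w ∈ D.X, c.lv (D.loc w) = lam + 4000 * c.K := by
  have : Nonempty V := ⟨c.o⟩
  obtain ⟨r, h0, h1, h2, h3⟩ := base_rank hRank he hp
  have fin : {v | c.lv v = lam + 4000 * c.K}.Finite :=
    (he.fin (lam + 4000 * c.K)).subset fun t ht => le_of_eq ht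
  obtain ⟨loc, hl⟩ : ∃ loc : ℕ → V, ∀ v, c.lv v = lam + 4000 * c.K → loc (r v) = v :=
    ⟨_, fun v hv => h1.leftInvOn_invFunOn hv⟩
  obtain ⟨X, hX⟩ : ∃ X : Finset ℕ, ∀ a, a ∈ X ↔ ∃ v, c.lv v = lam + 4000 * c.K ∧ r v = a :=
    ⟨fin.toFinset.image r, fun a => by simp⟩
  have ord : ∀ v w x y, c.Bc (lam + 4000 * c.K) v w → c.Bc (lam + 4000 * c.K) v x →
      c.Bc (lam + 4000 * c.K) v y →
      (Sep (r v) (r w) (r x) (r y) ↔ Sep (ρ v) (ρ w) (ρ x) (ρ y)) := fun v w x y k1 k2 k3 =>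
    base_sep (h2 _ _ k2) (h2 _ _ k2.symm) (h2 _ _ (k1.symm.trans k2)) (h2 _ _ (k2.symm.trans k1))
      (h2 _ _ k3) (h2 _ _ k3.symm) (h2 _ _ (k1.symm.trans k3)) (h2 _ _ (k3.symm.trans k1))
  have cr : ∀ {v w x y} {R : ℕ → ℕ → Prop}, (∀ v w, F v w → R (r v) (r w)) → Cr F v w x y →
      Cr R (r v) (r w) (r x) (r y) := fun k j =>
    j.imp (k _ _) (Or.imp (k _ _) (Or.imp (k _ _) (k _ _)))
  refine ⟨⟨X, r, loc, fun a => Seg c.σ (loc a) (lam + 25 * c.K) (lam + 4000 * c.K),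
    fun a e => ∃ v w, F v w ∧ r v = a ∧ r w = e,
    fun a e => ∃ v w, c.Bc (lam + 4000 * c.K) v w ∧ r v = a ∧ r w = e, fun _ => lam + 25 * c.K⟩,
    ⟨fun k => ?_, fun v hv => ⟨(hX _).2 ⟨v, hv, rfl⟩, hl v hv⟩, fun a _ => he.conn_seg _ _ _,
      fun a ha => ?_, fun a ha z hz => ?_, fun a _ z hz => ?_, fun a ha z hz => ?_,
      fun v hv => ?_, fun _ _ => le_rfl, fun a ha => ?_, ?_, ?_, ?_, fun _ _ _ => rfl,
      fun v w k => ⟨v, w, k, rfl, rfl⟩, ?_, ?_, ?_, ?_, ?_, ?_, ord,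
      fun v w k => Or.inl ⟨v, w, k, rfl, rfl⟩⟩, fun a ha => ?_⟩
  · obtain ⟨v, -, e⟩ := (hX 0).1 k
    exact (h0 v).ne' e
  · obtain ⟨v, hv, rfl⟩ := (hX a).1 ha
    dsimp only
    rw [hl v hv]
    exact ⟨_, by omega, le_rfl, he.stop v _ hv.le⟩
  · obtain ⟨v, hv, rfl⟩ := (hX a).1 ha
    dsimp only at hz ⊢
    rw [hl v hv] at hz ⊢
    obtain ⟨i, k1, k2, rfl⟩ := hz
    have := he.dσ' v (s := lam + 4000 * c.K) (t := i) (n := 40000 * c.K) (by omega) (by omega)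
    rwa [he.stop v _ hv.le] at this
  · obtain ⟨i, -, k2, rfl⟩ := hz
    exact (he.lev_le _ i).trans (by omega)
  · obtain ⟨v, hv, rfl⟩ := (hX a).1 ha
    dsimp only at hz
    rw [hl v hv] at hz
    exact (he.seg_lv hv.ge hz).1
  · dsimp only
    rw [hl v hv]
  · obtain ⟨v, hv, rfl⟩ := (hX a).1 ha
    exact ⟨v, v, Cx.Bc.refl hv, rfl, rfl⟩
  · rintro _ _ ⟨v, w, k, rfl, rfl⟩
    exact ⟨w, v, k.symm, rfl, rfl⟩
  · rintro _ _ _ ⟨v, w, k, rfl, rfl⟩ ⟨x, y, k', e, rfl⟩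
    obtain rfl := h1 k'.1 k.2.1 e
    exact ⟨v, y, k.trans k', rfl, rfl⟩
  · rintro _ _ ⟨v, w, k, rfl, rfl⟩
    exact (hX _).2 ⟨v, k.1, rfl⟩
  · rintro _ _ _ _ ⟨v, w, k, rfl, rfl⟩ ⟨x, y, k', rfl, rfl⟩ j
    exact ⟨v, x, h3 v w x y k k' j, rfl, rfl⟩
  · rintro _ _ ⟨v, w, k, rfl, rfl⟩
    exact ⟨w, v, hp.symm _ _ k, rfl, rfl⟩
  · rintro _ _ ⟨v, w, k, rfl, rfl⟩
    have hb := hp.sub v w k
    refine ⟨⟨v, w, hb, rfl, rfl⟩, ?_⟩
    dsimp only
    rw [hl v hb.1, hl w hb.2.1]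
    have k1 := he.dσ' v (s := lam + 4000 * c.K) (t := lam) (n := 4000 * c.K) le_rfl (by omega)
    have k2 := he.dσ' w (s := lam) (t := lam + 4000 * c.K) (n := 4000 * c.K) (by omega) le_rfl
    rw [he.stop v _ hb.1.le] at k1
    rw [he.stop w _ hb.2.1.le] at k2
    have k3 : c.d (c.σ v lam) (c.σ w lam) ≤ 3042 * c.K := hp.bound v w k
    have k4 := he.tri v (c.σ v lam) w
    have k5 := he.tri (c.σ v lam) (c.σ w lam) w
    omega
  · rintro _ _ _ _ ⟨v, w, k1, rfl, rfl⟩ ⟨x', x, k2, e2, rfl⟩ ⟨y', y, k3, e3, rfl⟩ j P Q hP hQ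
      p1 q1 p2 p3 q2 q3
    obtain rfl := h1 k2.1 k1.1 e2
    obtain rfl := h1 k3.1 k1.1 e3
    dsimp only at p2 p3 q2 q3
    rw [hl _ k1.1] at p2
    rw [hl _ k1.2.1] at p3
    rw [hl _ k2.2.1] at q2
    rw [hl _ k3.2.1] at q3
    by_cases k : Cr F y' w x y
    · exact Or.inl (cr (fun v w k => ⟨v, w, k, rfl, rfl⟩) k)
    · exact Or.inr (hp.xl _ _ _ _ k1 k2 k3 ((ord _ _ _ _ k1 k2 k3).1 j) k P Q hP hQ p1 q1
        (p2 (Cx.mem_seg _ le_rfl (by omega))) (p3 (Cx.mem_seg _ le_rfl (by omega)))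
        (q2 (Cx.mem_seg _ le_rfl (by omega))) (q3 (Cx.mem_seg _ le_rfl (by omega))))
  · rintro _ _ _ _ ⟨v, w, k, rfl, rfl⟩ ⟨x', x, k2, e2, rfl⟩ ⟨y', y, k3, e3, rfl⟩ j
    have k1 := hp.sub v w k
    obtain rfl := h1 k2.1 k1.1 e2
    obtain rfl := h1 k3.1 k1.1 e3
    exact cr (fun v w k => Or.inl ⟨v, w, k, rfl, rfl⟩)
      (hp.clo _ _ _ _ k k2 k3 ((ord _ _ _ _ k1 k2 k3).1 j))
  · rintro _ _ ⟨v, w, k, rfl, rfl⟩ x hx y hy k1 k2
    dsimp only at hx hy k2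
    rw [hl _ k.1] at hx
    rw [hl _ k.2.1] at hy
    obtain ⟨k3, -, -⟩ := he.seg_lv k.1.ge hx
    obtain ⟨k4, -, -⟩ := he.seg_lv k.2.1.ge hy
    have k5 := he.lip x y
    have k6 := he.vt_near (n := lam) (k := 65 * c.K) (he.seg_vt hx) (by omega) (by omega)
    have k7 := he.vt_near (n := lam) (k := 105 * c.K) (he.seg_vt hy) (by omega) (by omega)
    have k8 := he.tri (c.σ v lam) x (c.σ w lam)
    have k9 := he.tri x y (c.σ w lam)
    rw [Cx.d_comm] at k7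
    exact ⟨v, w, hp.close v w k (show c.d _ _ ≤ _ by omega), rfl, rfl⟩
  · obtain ⟨v, hv, rfl⟩ := (hX a).1 ha
    dsimp only
    rwa [hl v hv]

theorem baseStmt (hRank : RankStmt.{u}) : BaseStmt.{u} := by
  intro V c ρ F he hp
  obtain ⟨D', h1, h2⟩ := base_lev hRank he hp
  have nr : ∀ w ∈ D'.X, Near (c.LG 0 D' ⊥ fun _ => 1) (10 ^ 15) (Sum.inr w) (Sum.inl 1) :=
    fun w hw => (near_rel (a := Sum.inr w) (b := Sum.inl 1) (show _ ∧ _ from ⟨hw, rfl⟩)).mono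
      (by norm_num)
  refine ⟨⟨{1}, fun _ => 1, fun _ => c.o, fun _ => {c.o}, fun _ _ => False, fun _ _ => True,
    fun _ => 0⟩, D', ⊥, fun _ => 1, fun _ _ _ => False, rfl, h1,
    ⟨fun _ _ _ _ k => k.elim, fun _ _ k => k.elim, by simp⟩,
    fun v hv => ⟨by simp, he.conn.dist_eq_zero_iff.1 hv⟩, fun _ _ _ => trivial,
    fun _ _ => by simp, fun _ _ _ _ _ => le_rfl, fun _ _ k => k.elim, fun _ _ k => k.elim, h1.sgS,
    fun _ _ _ _ _ => trivial, fun _ _ k => k.elim, fun w hw => ?_, ?_,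
    fun _ _ _ _ _ _ _ => Near.refl _ _ _, fun t ht => nr _ (h1.rtX t (by omega)).1,
    fun w hw => ⟨c.o, dist_self, nr w hw⟩⟩
  · have k : c.d c.o (D'.loc w) = 6000 * c.K + 4000 * c.K := h2 w hw
    rw [Cx.d_comm]
    dsimp only
    omega
  · rintro a e (k | ⟨k1, k2, -⟩)
    · exact k.elim
    · rw [Finset.mem_singleton.1 k1, Finset.mem_singleton.1 k2]
      exact Near.refl _ _ _

end Pool.Agent.Lib.MP_f9389f_co.SC
end

-- part Pool.Agent.Lib.MP_f9389f_co.SC.QI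
section

/-! The quasi-isometry. -/

namespace Pool.Agent.Lib.MP_f9389f_co.SC

universe u

open SimpleGraph

theorem qi_lip {α β : Type*} {Γ : SimpleGraph α} {Δ : SimpleGraph β} (f : α → β) {k : ℕ}
    (h : ∀ x y, Γ.Adj x y → Near Δ k (f x) (f y)) {a b : α} (p : Γ.Walk a b) :
    Near Δ (p.length * k) (f a) (f b) := by
  induction p with
  | nil => exact Near.refl _ _ _
  | cons hadj q ih =>
    refine ((h _ _ hadj).trans ih).mono ?_
    rw [Walk.length_cons]; nlinarith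

theorem qi_lipN {α β : Type*} {Γ : SimpleGraph α} {Δ : SimpleGraph β} (f : α → β) {k n : ℕ}
    (h : ∀ x y, Γ.Adj x y → Near Δ k (f x) (f y)) {a b : α} (hn : Near Γ n a b) :
    Near Δ (n * k) (f a) (f b) := by
  obtain ⟨p, hp⟩ := hn
  exact (qi_lip f h p).mono (Nat.mul_le_mul_right k hp)

theorem qi_dist {β : Type*} {Δ : SimpleGraph β} {n : ℕ} {a b : β} (h : Near Δ n a b) :
    Δ.dist a b ≤ n := by
  obtain ⟨p, hp⟩ := h
  exact (dist_le p).trans hp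

theorem qi_reach {β : Type*} {Δ : SimpleGraph β} {n : ℕ} {a b : β} (h : Near Δ n a b) :
    Δ.Reachable a b := by
  obtain ⟨p, -⟩ := h
  exact ⟨p⟩

theorem qi_back {V : Type u} {β : Type*} {c : Cx V} (he : c.Env) {Δ : SimpleGraph β} (l : β → V)
    {k : ℕ} (h : ∀ x y, Δ.Adj x y → c.d (l x) (l y) ≤ k) {a b : β} (p : Δ.Walk a b) :
    c.d (l a) (l b) ≤ p.length * k := by
  induction p with
  | nil => simp [Cx.d_self]
  | @cons x y z hadj q ih =>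
    have h1 := h _ _ hadj
    have h2 := he.tri (l x) (l y) (l z)
    rw [Walk.length_cons]; nlinarith

/-- The vertex of the final graph at level `m` and position `a`. -/
def qiPt (X : ℕ → Finset ℕ) (z : {p : ℕ × ℕ // p.2 ∈ X p.1}) (m a : ℕ) :
    {p : ℕ × ℕ // p.2 ∈ X p.1} :=
  if h : a ∈ X m then ⟨(m, a), h⟩ else z

theorem qi_pt {X : ℕ → Finset ℕ} (z : {p : ℕ × ℕ // p.2 ∈ X p.1}) {m a : ℕ} (h : a ∈ X m) :
    qiPt X z m a = ⟨(m, a), h⟩ := dif_pos h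

theorem qi_E {X : ℕ → Finset ℕ} {E : ℕ → SimpleGraph ℕ} {φ : ℕ → ℕ → ℕ}
    (z : {p : ℕ × ℕ // p.2 ∈ X p.1}) {m : ℕ} (hnc : NCOn (E m) (X m)) {a e : ℕ}
    (h : (E m).Adj a e) : Near (Fin2 X E φ) 1 (qiPt X z m a) (qiPt X z m e) := by
  rw [qi_pt z (hnc.mem a e h), qi_pt z (hnc.mem e a h.symm)]
  exact near_rel (Or.inl ⟨rfl, h⟩)

theorem qi_T {X : ℕ → Finset ℕ} {E : ℕ → SimpleGraph ℕ} {φ : ℕ → ℕ → ℕ}
    (z : {p : ℕ × ℕ // p.2 ∈ X p.1}) {m w : ℕ} (hw : w ∈ X (m + 1)) (hφ : φ m w ∈ X m) :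
    Near (Fin2 X E φ) 1 (qiPt X z (m + 1) w) (qiPt X z m (φ m w)) := by
  rw [qi_pt z hw, qi_pt z hφ]
  exact near_rel (Or.inr ⟨rfl, rfl⟩)

section

variable {V : Type u} {c : Cx V} {D : ℕ → LD V} {E : ℕ → SimpleGraph ℕ} {φ : ℕ → ℕ → ℕ}
  {In : ℕ → ℕ → ℕ → ℕ → Prop}

theorem qi_LG (z : {p : ℕ × ℕ // p.2 ∈ (fun m => (D m).X) p.1})
    (hL : ∀ m, c.Lnk (m * (10000 * c.K)) (D m) (D (m + 1)) (E m) (φ m) (In m)) (m : ℕ)
    (s t : ℕ ⊕ ℕ) (h : (c.LG (m * (10000 * c.K)) (D (m + 1)) (E m) (φ m)).Adj s t) :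
    Near (Fin2 (fun m => (D m).X) E φ) 30
      (Sum.elim (qiPt (fun m => (D m).X) z m) (qiPt (fun m => (D m).X) z (m + 1)) s)
      (Sum.elim (qiPt (fun m => (D m).X) z m) (qiPt (fun m => (D m).X) z (m + 1)) t) := by
  have hv : ∀ w w', c.V0 (m * (10000 * c.K) + 10000 * c.K) (D (m + 1)) w w' →
      Near (Fin2 (fun m => (D m).X) E φ) 30 (qiPt (fun m => (D m).X) z (m + 1) w)
        (qiPt (fun m => (D m).X) z (m + 1) w') := by
    intro w w' hw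
    have e : m * (10000 * c.K) + 10000 * c.K = (m + 1) * (10000 * c.K) := by ring
    rw [e] at hw
    have := qi_lipN (Δ := Fin2 (fun m => (D m).X) E φ) (qiPt (fun m => (D m).X) z (m + 1))
      (fun x y hxy => qi_E (X := fun m => (D m).X) z (hL (m + 1)).nc hxy) ((hL (m + 1)).v0 w w' hw)
    simpa using this
  have hT : ∀ w a, w ∈ (D (m + 1)).X → φ m w = a →
      Near (Fin2 (fun m => (D m).X) E φ) 30 (qiPt (fun m => (D m).X) z (m + 1) w)
        (qiPt (fun m => (D m).X) z m a) := by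
    rintro w _ hw rfl
    exact (qi_T (X := fun m => (D m).X) z hw ((hL m).φX w hw)).mono (by norm_num)
  have hE : ∀ a e, (E m).Adj a e →
      Near (Fin2 (fun m => (D m).X) E φ) 30 (qiPt (fun m => (D m).X) z m a)
        (qiPt (fun m => (D m).X) z m e) := fun a e hae =>
    (qi_E (X := fun m => (D m).X) z (hL m).nc hae).mono (by norm_num)
  rw [Cx.LG, fromRel_adj] at h
  obtain ⟨-, h⟩ := h
  rcases s with a | w <;> rcases t with e | w'
  · rcases h with h | h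
    · exact hE _ _ h
    · exact (hE _ _ h).symm
  · rcases h with h | h
    · exact h.elim
    · exact (hT _ _ h.1 h.2).symm
  · rcases h with h | h
    · exact hT _ _ h.1 h.2
    · exact h.elim
  · rcases h with h | h
    · exact hv _ _ h
    · exact (hv _ _ h).symm

/-- The map to the final graph. -/
noncomputable def qiF (c : Cx V) (D : ℕ → LD V)
    (z : {p : ℕ × ℕ // p.2 ∈ (fun m => (D m).X) p.1}) (v : V) :
    {p : ℕ × ℕ // p.2 ∈ (fun m => (D m).X) p.1} :=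
  qiPt (fun m => (D m).X) z (c.lv v / (10000 * c.K))
    ((D (c.lv v / (10000 * c.K))).rt (c.σ v (c.lv v / (10000 * c.K) * (10000 * c.K))))

theorem qi_F_eq (z : {p : ℕ × ℕ // p.2 ∈ (fun m => (D m).X) p.1}) {v : V} {m : ℕ}
    (h1 : m * (10000 * c.K) ≤ c.lv v) (h2 : c.lv v < m * (10000 * c.K) + 10000 * c.K) :
    qiF c D z v = qiPt (fun m => (D m).X) z m ((D m).rt (c.σ v (m * (10000 * c.K)))) := by
  have e : c.lv v / (10000 * c.K) = m := Nat.div_eq_of_lt_le h1 (by rw [add_mul, one_mul]; exact h2)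
  rw [qiF, e]

theorem qi_F_base (he : c.Env) (z : {p : ℕ × ℕ // p.2 ∈ (fun m => (D m).X) p.1}) {v : V} {m : ℕ}
    (h : c.lv v = m * (10000 * c.K)) :
    qiF c D z v = qiPt (fun m => (D m).X) z m ((D m).rt v) := by
  have := he.one
  rw [qi_F_eq z h.ge (by omega), he.stop v _ h.le]

theorem qi_band (he : c.Env) (z : {p : ℕ × ℕ // p.2 ∈ (fun m => (D m).X) p.1})
    (hL : ∀ m, c.Lnk (m * (10000 * c.K)) (D m) (D (m + 1)) (E m) (φ m) (In m)) {v : V} {m : ℕ}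
    (h1 : m * (10000 * c.K) ≤ c.lv v) (h2 : c.lv v ≤ m * (10000 * c.K) + 10000 * c.K) :
    Near (Fin2 (fun m => (D m).X) E φ) (10 ^ 15 * 30) (qiF c D z v)
      (qiPt (fun m => (D m).X) z m ((D m).rt (c.σ v (m * (10000 * c.K))))) := by
  rcases h2.lt_or_eq with h2 | h2
  · rw [qi_F_eq z h1 h2]; exact Near.refl _ _ _
  · rw [qi_F_base (m := m + 1) he z (by rw [h2]; ring)]
    exact qi_lipN _ (qi_LG z hL m) ((hL m).base v h2)

theorem qi_adj (he : c.Env) (z : {p : ℕ × ℕ // p.2 ∈ (fun m => (D m).X) p.1})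
    (hL : ∀ m, c.Lnk (m * (10000 * c.K)) (D m) (D (m + 1)) (E m) (φ m) (In m)) (u v : V)
    (h : c.G.Adj u v) :
    Near (Fin2 (fun m => (D m).X) E φ) (10 ^ 15 * 30 + 10 ^ 15 * 30 + 10 ^ 15 * 30)
      (qiF c D z u) (qiF c D z v) := by
  have hK := he.one
  have hd : c.d u v ≤ 1 := dist_le_one_of_adj h
  have h1 := he.lip u v
  have h2 := he.lip' u v
  obtain ⟨m, hm1, hm2⟩ : ∃ m, m * (10000 * c.K) ≤ min (c.lv u) (c.lv v) ∧
      min (c.lv u) (c.lv v) < m * (10000 * c.K) + 10000 * c.K :=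
    ⟨min (c.lv u) (c.lv v) / (10000 * c.K), Nat.div_mul_le_self _ _,
      Nat.lt_div_mul_add (by omega)⟩
  have a1 : m * (10000 * c.K) ≤ c.lv u := by omega
  have a2 : c.lv u ≤ m * (10000 * c.K) + 10000 * c.K := by omega
  have b1 : m * (10000 * c.K) ≤ c.lv v := by omega
  have b2 : c.lv v ≤ m * (10000 * c.K) + 10000 * c.K := by omega
  exact ((qi_band he z hL a1 a2).trans
    (qi_lipN _ (qi_LG z hL m) ((hL m).edge u v h a1 a2 b1 b2))).trans (qi_band he z hL b1 b2).symm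

theorem qi_dense (he : c.Env) (z : {p : ℕ × ℕ // p.2 ∈ (fun m => (D m).X) p.1})
    (h0 : (D 0).X = {1})
    (hL : ∀ m, c.Lnk (m * (10000 * c.K)) (D m) (D (m + 1)) (E m) (φ m) (In m))
    (w : {p : ℕ × ℕ // p.2 ∈ (fun m => (D m).X) p.1}) :
    ∃ x, Near (Fin2 (fun m => (D m).X) E φ) (10 ^ 15 * 30) w (qiF c D z x) := by
  obtain ⟨⟨m, a⟩, ha⟩ := w
  rw [← qi_pt (X := fun m => (D m).X) z ha]
  rcases m with _ | m
  · have ho : c.lv c.o = 0 * (10000 * c.K) := by simp [Cx.lv]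
    refine ⟨c.o, ?_⟩
    rw [qi_F_base he z ho]
    have h1 := ((hL 0).rtX c.o ho).1
    have h2 : a ∈ (D 0).X := ha
    rw [h0, Finset.mem_singleton] at h1 h2
    rw [h1, h2]
    exact Near.refl _ _ _
  · obtain ⟨t, ht, hn⟩ := (hL m).dense a ha
    refine ⟨t, ?_⟩
    rw [qi_F_base he z ht]
    exact qi_lipN _ (qi_LG z hL m) hn

theorem qi_loc (hL : ∀ m, c.Lnk (m * (10000 * c.K)) (D m) (D (m + 1)) (E m) (φ m) (In m))
    (p q : {p : ℕ × ℕ // p.2 ∈ (fun m => (D m).X) p.1})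
    (h : (Fin2 (fun m => (D m).X) E φ).Adj p q) :
    c.d ((D p.1.1).loc p.1.2) ((D q.1.1).loc q.1.2) ≤ 10 ^ 14 * c.K := by
  have key : ∀ p q : {p : ℕ × ℕ // p.2 ∈ (fun m => (D m).X) p.1},
      ((p.1.1 = q.1.1 ∧ (E p.1.1).Adj p.1.2 q.1.2) ∨ (p.1.1 = q.1.1 + 1 ∧ φ q.1.1 p.1.2 = q.1.2)) →
      c.d ((D p.1.1).loc p.1.2) ((D q.1.1).loc q.1.2) ≤ 10 ^ 14 * c.K := by
    rintro ⟨⟨m, a⟩, ha⟩ ⟨⟨m', e⟩, he⟩ (⟨h1, h2⟩ | ⟨h1, h2⟩)
    · dsimp only at h1 h2 ⊢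
      subst h1
      exact (hL m).lenE a e h2
    · dsimp only at h1 h2 ⊢
      subst h1
      subst h2
      exact (hL m').lenT a ha
  rw [Fin2, fromRel_adj] at h
  rcases h.2 with h | h
  · exact key p q h
  · rw [Cx.d_comm]; exact key q p h

theorem qi_near (he : c.Env) (z : {p : ℕ × ℕ // p.2 ∈ (fun m => (D m).X) p.1})
    (hL : ∀ m, c.Lnk (m * (10000 * c.K)) (D m) (D (m + 1)) (E m) (φ m) (In m)) (v : V) :
    c.d ((D (qiF c D z v).1.1).loc (qiF c D z v).1.2) v ≤ 10000 * c.K := by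
  have hK := he.one
  obtain ⟨m, hm1, hm2⟩ : ∃ m, m * (10000 * c.K) ≤ c.lv v ∧
      c.lv v < m * (10000 * c.K) + 10000 * c.K :=
    ⟨c.lv v / (10000 * c.K), Nat.div_mul_le_self _ _, Nat.lt_div_mul_add (by omega)⟩
  have h1 := (hL m).rtX _ (he.lev v _ hm1)
  rw [qi_F_eq z hm1 hm2, qi_pt (X := fun m => (D m).X) z h1.1]
  dsimp only
  rw [h1.2]
  have := he.dσ v hm1
  rw [he.top] at this
  omega

end

theorem qIStmt (hPath : PathStmt) : QIStmt.{u} := by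
  intro K
  refine ⟨10 ^ 14 * K + (10 ^ 15 * 30 + 10 ^ 15 * 30 + 10 ^ 15 * 30) + 1,
    2 * (10000 * K) + 10 ^ 15 * 30, Nat.le_add_left _ _, ?_⟩
  rintro V c D E φ In rfl he h0 hL
  let z : {p : ℕ × ℕ // p.2 ∈ (fun m => (D m).X) p.1} := ⟨(0, 1), by simp [h0]⟩
  have hadj := qi_adj he z hL
  have hden := qi_dense he z h0 hL
  have hloc := qi_loc hL
  have hnear := qi_near he z hL
  generalize 10 ^ 15 * 30 = N at hadj hden ⊢
  generalize 10 ^ 14 * c.K = C at hloc ⊢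
  generalize 10000 * c.K = R at hnear ⊢
  have up : ∀ x y, Near (Fin2 (fun m => (D m).X) E φ) (c.G.dist x y * (N + N + N))
      (qiF c D z x) (qiF c D z y) := by
    intro x y
    obtain ⟨p, hp⟩ := (he.conn x y).exists_walk_length_eq_dist
    rw [← hp]
    exact qi_lip _ hadj p
  have hconn : (Fin2 (fun m => (D m).X) E φ).Connected := by
    have : Nonempty {p : ℕ × ℕ // p.2 ∈ (fun m => (D m).X) p.1} := ⟨z⟩
    refine ⟨fun w w' => ?_⟩
    obtain ⟨x, hx⟩ := hden w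
    obtain ⟨y, hy⟩ := hden w'
    exact ((qi_reach hx).trans (qi_reach (up x y))).trans (qi_reach hy).symm
  refine ⟨hconn, qiF c D z, fun x y => ⟨?_, ?_⟩, fun w => ?_⟩
  · obtain ⟨p, hp⟩ := (hconn (qiF c D z x) (qiF c D z y)).exists_walk_length_eq_dist
    have h1 := qi_back he (fun p => (D p.1.1).loc p.1.2) hloc p
    rw [hp] at h1
    have h2 := hnear x
    have h3 := hnear y
    rw [Cx.d_comm] at h2
    have h4 := he.tri x ((D (qiF c D z x).1.1).loc (qiF c D z x).1.2) y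
    have h5 := he.tri ((D (qiF c D z x).1.1).loc (qiF c D z x).1.2)
      ((D (qiF c D z y).1.1).loc (qiF c D z y).1.2) y
    generalize (Fin2 (fun m => (D m).X) E φ).dist (qiF c D z x) (qiF c D z y) = n at h1 ⊢
    have h6 : c.G.dist x y ≤ (C + (N + N + N) + 1) * (n + (2 * R + N)) := by
      have : c.d x y ≤ 2 * R + n * C := by omega
      have e : c.d x y = c.G.dist x y := rfl
      nlinarith [Nat.zero_le (C * R), Nat.zero_le (C * N), Nat.zero_le (N * n),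
        Nat.zero_le (N * R), Nat.zero_le (N * N)]
    have h7 : (c.G.dist x y : ℝ) ≤
        ((C + (N + N + N) + 1 : ℕ) : ℝ) * ((n : ℝ) + ((2 * R + N : ℕ) : ℝ)) := by
      exact_mod_cast h6
    have h8 : (0 : ℝ) < ((C + (N + N + N) + 1 : ℕ) : ℝ) := by positivity
    rw [sub_le_iff_le_add, inv_mul_le_iff₀ h8]
    exact h7
  · have h1 := qi_dist (up x y)
    have h2 : (Fin2 (fun m => (D m).X) E φ).dist (qiF c D z x) (qiF c D z y) ≤
        (C + (N + N + N) + 1) * c.G.dist x y + (2 * R + N) := by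
      nlinarith [Nat.zero_le (C * c.G.dist x y)]
    exact_mod_cast h2
  · obtain ⟨x, hx⟩ := hden w
    exact ⟨x, (qi_dist hx).trans (Nat.le_add_left _ _)⟩

end Pool.Agent.Lib.MP_f9389f_co.SC
end
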