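import Mathlib
import Pool.Agent.Lib.MP_f9389f_co.SC.Basic
import Pool.Agent.Shared.Planar.Cocycle

-- part Pool.Agent.Lib.MP_f9389f_co.SC.Planar
section

/-! The final graph has no Kuratowski minor. -/

namespace Pool.Agent.Lib.MP_f9389f_co.SC

universe u

open SimpleGraph

open Classical in
/-- The indicator of a proposition mod 2. -/
noncomputable def planar_I (p : Prop) : ZMod 2 := if p then 1 else 0

theorem planar_add (p q : Prop) : planar_I p + planar_I q = planar_I (¬ (p ↔ q)) := by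
  unfold planar_I
  by_cases hp : p <;> by_cases hq : q <;> simp only [hp, hq, if_true, if_false, iff_self,
    not_true, iff_false, not_false_iff, false_iff, add_zero, zero_add]
  rfl

theorem planar_I8 {A B C D E F G H : Prop}
    (h : ((A ↔ B) ↔ (C ↔ D)) ↔ ((E ↔ F) ↔ (G ↔ H))) :
    planar_I A + planar_I B + planar_I C + planar_I D =
      planar_I E + planar_I F + planar_I G + planar_I H := by
  rw [add_assoc (planar_I A + planar_I B), add_assoc (planar_I E + planar_I F)]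
  simp only [planar_add]
  congr 1
  exact propext (by rw [not_iff_not, not_iff_not, not_iff_not]; exact h)

/-- The ancestor at level `n` of a position of level `n + k`. -/
def planar_anc (φ : ℕ → ℕ → ℕ) (n : ℕ) : ℕ → ℕ → ℕ
  | 0, w => w
  | k + 1, w => planar_anc φ n k (φ (n + k) w)

theorem planar_anc_sg {X : ℕ → Finset ℕ} {φ : ℕ → ℕ → ℕ} {Sg : ℕ → ℕ → ℕ → Prop}
    (h1 : ∀ m, ∀ w ∈ X (m + 1), φ m w ∈ X m)
    (h2 : ∀ m, ∀ w ∈ X (m + 1), ∀ w' ∈ X (m + 1), Sg (m + 1) w w' → Sg m (φ m w) (φ m w'))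
    (n k : ℕ) : ∀ w ∈ X (n + k), ∀ w' ∈ X (n + k), Sg (n + k) w w' →
      planar_anc φ n k w ∈ X n ∧ planar_anc φ n k w' ∈ X n ∧
        Sg n (planar_anc φ n k w) (planar_anc φ n k w') := by
  induction k with
  | zero => exact fun w hw w' hw' h => ⟨hw, hw', h⟩
  | succ k ih => exact fun w hw w' hw' h => ih _ (h1 _ w hw) _ (h1 _ w' hw') (h2 _ w hw w' hw' h)

/-- The lexicographic order. -/
def planar_T (s t : ℕ × ℕ) : Prop := s.1 < t.1 ∨ (s.1 = t.1 ∧ s.2 < t.2)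

/-- The oriented crossing predicate. -/
def planar_Y (φ : ℕ → ℕ → ℕ) (In : ℕ → ℕ → ℕ → ℕ → Prop) (s t v : ℕ × ℕ) : Prop :=
  (s.1 = t.1 + 1 ∧ v.1 = s.1 ∧ v.2 < s.2) ∨ (s.1 = t.1 ∧ s.2 < t.2 ∧ s.1 < v.1 ∧
    In s.1 s.2 t.2 (planar_anc φ (s.1 + 1) (v.1 - (s.1 + 1)) v.2))

/-- The crossing predicate. -/
def planar_X (φ : ℕ → ℕ → ℕ) (In : ℕ → ℕ → ℕ → ℕ → Prop) (s t v : ℕ × ℕ) : Prop :=
  planar_Y φ In s t v ∨ planar_Y φ In t s v

section

variable {φ : ℕ → ℕ → ℕ} {In : ℕ → ℕ → ℕ → ℕ → Prop}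

theorem planar_X_comm (s t v : ℕ × ℕ) : planar_X φ In s t v ↔ planar_X φ In t s v := or_comm

theorem planar_XH {m a e : ℕ} (h : a < e) (l w : ℕ) : planar_X φ In (m, a) (m, e) (l, w) ↔
    m < l ∧ In m a e (planar_anc φ (m + 1) (l - (m + 1)) w) := by
  unfold planar_X planar_Y
  constructor
  · rintro ((⟨h1, -⟩ | ⟨-, -, h1⟩) | (⟨h1, -⟩ | ⟨-, h1, -⟩))
    · exact absurd h1 (by simp)
    · exact h1
    · exact absurd h1 (by simp)
    · exact absurd h1 (by simp; omega)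
  · exact fun h1 => Or.inl (Or.inr ⟨rfl, h, h1⟩)

theorem planar_XT (n a e l w : ℕ) :
    planar_X φ In (n + 1, a) (n, e) (l, w) ↔ l = n + 1 ∧ w < a := by
  unfold planar_X planar_Y
  constructor
  · rintro ((⟨-, h1⟩ | ⟨h1, -⟩) | (⟨h1, -⟩ | ⟨h1, -⟩))
    · exact h1
    · exact absurd h1 (by simp)
    · exact absurd h1 (by simp; omega)
    · exact absurd h1 (by simp)
  · exact fun h1 => Or.inl (Or.inl ⟨rfl, h1⟩)

/-- The cocycle equation. -/
def planar_G (φ : ℕ → ℕ → ℕ) (In : ℕ → ℕ → ℕ → ℕ → Prop) (a b c d : ℕ × ℕ) : Prop :=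
  ((planar_X φ In a b c ↔ planar_X φ In a b d) ↔ (planar_X φ In c d a ↔ planar_X φ In c d b)) ↔
    ((planar_T a c ↔ planar_T a d) ↔ (planar_T b c ↔ planar_T b d))

theorem planar_G_left {a b c d : ℕ × ℕ} (h : planar_G φ In a b c d) : planar_G φ In b a c d := by
  unfold planar_G at *
  rw [planar_X_comm b a c, planar_X_comm b a d, iff_comm (a := planar_X φ In c d b),
    iff_comm (a := planar_T b c ↔ planar_T b d)]
  exact h

theorem planar_T_anti {a b : ℕ × ℕ} (h : a ≠ b) : planar_T b a ↔ ¬ planar_T a b := by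
  obtain ⟨a1, a2⟩ := a
  obtain ⟨b1, b2⟩ := b
  have : ¬ (a1 = b1 ∧ a2 = b2) := fun e => h (by rw [e.1, e.2])
  simp only [planar_T]
  omega

theorem planar_G_swap {a b c d : ℕ × ℕ} (h : planar_G φ In a b c d) (e1 : a ≠ c) (e2 : a ≠ d)
    (e3 : b ≠ c) (e4 : b ≠ d) : planar_G φ In c d a b := by
  unfold planar_G at *
  rw [planar_T_anti e1, planar_T_anti e2, planar_T_anti e3, planar_T_anti e4,
    iff_comm (a := planar_X φ In c d a ↔ planar_X φ In c d b), h]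
  generalize planar_T a c = p
  generalize planar_T a d = q
  generalize planar_T b c = r
  generalize planar_T b d = s
  by_cases hp : p <;> by_cases hq : q <;> by_cases hr : r <;> by_cases hs : s <;>
    simp [hp, hq, hr, hs]

theorem planar_HH {m a e n c d : ℕ} (h1 : a < e) (h2 : c < d) (hmn : m ≤ n)
    (e1 : (m, a) ≠ (n, c)) (e2 : (m, a) ≠ (n, d)) (e3 : (m, e) ≠ (n, c)) (e4 : (m, e) ≠ (n, d))
    (hs : m = n → ¬ Sep a e c d)
    (hi : m < n → (In m a e (planar_anc φ (m + 1) (n - (m + 1)) c) ↔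
      In m a e (planar_anc φ (m + 1) (n - (m + 1)) d))) :
    planar_G φ In (m, a) (m, e) (n, c) (n, d) := by
  unfold planar_G
  rw [planar_XH h1, planar_XH h1, planar_XH h2, planar_XH h2]
  rcases hmn.eq_or_lt with h | h
  · subst h
    have hs := hs rfl
    simp only [ne_eq, Prod.mk.injEq, true_and] at e1 e2 e3 e4
    simp only [planar_T, lt_irrefl, false_and, false_or, true_and, iff_self, true_iff]
    unfold Sep Btw Out at hs
    omega
  · have h' : ¬ n < m := by omega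
    simp only [planar_T, h, h', true_and, false_and, true_or, iff_self, hi h]

theorem planar_HT {m a e n w u : ℕ} (h1 : a < e) (hu : φ n w = u)
    (e1 : (m, a) ≠ (n + 1, w)) (e3 : (m, e) ≠ (n + 1, w))
    (e2 : (m, a) ≠ (n, u)) (e4 : (m, e) ≠ (n, u))
    (hi : m = n → u ≠ a → u ≠ e → (In m a e w ↔ a < u ∧ u < e)) :
    planar_G φ In (m, a) (m, e) (n + 1, w) (n, u) := by
  unfold planar_G
  rw [planar_XH h1, planar_XH h1, planar_XT, planar_XT]
  simp only [ne_eq, Prod.mk.injEq] at e1 e2 e3 e4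
  rcases lt_trichotomy m n with h | h | h
  · obtain ⟨k, rfl⟩ : ∃ k, n = m + 1 + k := ⟨n - (m + 1), by omega⟩
    rw [show m + 1 + k + 1 - (m + 1) = k + 1 by omega, show m + 1 + k - (m + 1) = k by omega,
      planar_anc, hu]
    have h2 : m < m + 1 + k + 1 := by omega
    have h3 : m ≠ m + 1 + k + 1 := by omega
    simp only [planar_T, h, h2, h3, true_and, false_and, true_or, iff_self]
  · subst h
    rw [Nat.sub_self, planar_anc, hi rfl (by omega) (by omega)]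
    have h3 : m ≠ m + 1 := by omega
    simp only [planar_T, lt_irrefl, Nat.lt_succ_self, h3, true_and, false_and, true_or, false_or,
      iff_self, iff_false, iff_true, true_iff]
    omega
  · have h2 : ¬ m < n + 1 := by omega
    have h3 : ¬ m < n := by omega
    have h4 : m ≠ n := by omega
    simp only [planar_T, h2, h3, h4, false_and, false_or, iff_self, iff_false, true_iff]
    omega

theorem planar_TT {n w u k w' u' : ℕ} (e1 : (n + 1, w) ≠ (k + 1, w'))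
    (e2 : (n + 1, w) ≠ (k, u')) (e3 : (n, u) ≠ (k + 1, w')) (e4 : (n, u) ≠ (k, u'))
    (h1 : n = k → w ≤ w' → u ≤ u') (h2 : n = k → w' ≤ w → u' ≤ u) :
    planar_G φ In (n + 1, w) (n, u) (k + 1, w') (k, u') := by
  unfold planar_G
  rw [planar_XT, planar_XT, planar_XT, planar_XT]
  simp only [ne_eq, Prod.mk.injEq] at e1 e2 e3 e4
  simp only [planar_T]
  omega

end

theorem planar_cn {V : Type*} {G : SimpleGraph V} {S : Set V} (h : (G.induce S).Connected) :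
    Shared.Planar.Cn G S := by
  intro a ha b hb
  obtain ⟨p⟩ := h.preconnected ⟨a, ha⟩ ⟨b, hb⟩
  have key : ∀ x y : S, (G.induce S).Walk x y → Shared.Planar.R G S x.1 y.1 := by
    intro x y q
    induction q with
    | nil => exact Shared.Planar.R.refl
    | cons e _ ih => exact (Shared.Planar.R.single (Subtype.prop _) (Subtype.prop _) e).trans ih
  exact key _ _ p

theorem planar_minor {V : Type*} {G : SimpleGraph V} (h : Shared.Planar.HT G) :
    ¬ HasMinor G (⊤ : SimpleGraph (Fin 5)) ∧ ¬ HasMinor G K33 := by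
  constructor
  · rintro ⟨B, h1, h2, h3⟩
    exact h.no_K5 B (fun i => planar_cn (h1 i))
      (fun i j e v hv hv' => Set.disjoint_left.1 (h2 i j e) hv hv') fun i j e => h3 i j e.ne
  · rintro ⟨B, h1, h2, h3⟩
    exact h.no_K33 (fun i => B (Sum.inl i)) (fun i => B (Sum.inr i))
      (fun i => planar_cn (h1 _)) (fun i => planar_cn (h1 _))
      (fun i j e v hv hv' => Set.disjoint_left.1 (h2 _ _ (Sum.inl_injective.ne e)) hv hv')
      (fun i j e v hv hv' => Set.disjoint_left.1 (h2 _ _ (Sum.inr_injective.ne e)) hv hv')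
      (fun i j v hv hv' => Set.disjoint_left.1 (h2 _ _ Sum.inl_ne_inr) hv hv')
      fun i j => h3 _ _ (by simp)

theorem planarStmt : PlanarStmt := by
  intro X E φ Sg In hnc hsg hX hmono hin hconst hdown
  refine planar_minor ⟨⟨fun s t => planar_I (planar_T s.1 t.1),
    fun s t v => planar_I (planar_X φ In s.1 t.1 v.1), fun a b h => ?_,
    fun a b v => by rw [propext (planar_X_comm a.1 b.1 v.1)], fun a b c d h1 h2 e1 e2 e3 e4 => ?_⟩⟩
  · rw [planar_add, planar_T_anti (Subtype.val_injective.ne h)]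
    exact if_pos iff_not_self
  refine planar_I8 (show planar_G φ In a.1 b.1 c.1 d.1 from ?_)
  let O : {p : ℕ × ℕ // p.2 ∈ X p.1} → {p : ℕ × ℕ // p.2 ∈ X p.1} → Prop := fun s t =>
    (s.1.1 = t.1.1 ∧ s.1.2 < t.1.2 ∧ (E s.1.1).Adj s.1.2 t.1.2) ∨
      (s.1.1 = t.1.1 + 1 ∧ φ t.1.1 s.1.2 = t.1.2)
  have hO : ∀ s t, (Fin2 X E φ).Adj s t → O s t ∨ O t s := by
    have k : ∀ s t : {p : ℕ × ℕ // p.2 ∈ X p.1}, s.1.1 = t.1.1 → (E s.1.1).Adj s.1.2 t.1.2 →
        O s t ∨ O t s := fun s t h1 h2 => (lt_or_gt_of_ne h2.ne).imp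
      (fun h => Or.inl ⟨h1, h, h2⟩) fun h => Or.inl ⟨h1.symm, h, h1 ▸ h2.symm⟩
    rintro s t ⟨-, (h | h) | (h | h)⟩
    · exact k s t h.1 h.2
    · exact Or.inl (Or.inr h)
    · exact (k t s h.1 h.2).symm
    · exact Or.inr (Or.inr h)
  have HH : ∀ m a e n c d, m ≤ n → a < e → (E m).Adj a e → c < d → (E n).Adj c d →
      (m, a) ≠ (n, c) → (m, a) ≠ (n, d) → (m, e) ≠ (n, c) → (m, e) ≠ (n, d) →
      planar_G φ In (m, a) (m, e) (n, c) (n, d) := by
    intro m a e n c d hmn h1 h2 h3 h4 e1 e2 e3 e4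
    refine planar_HH h1 h3 hmn e1 e2 e3 e4 (fun h => (hnc m).nc _ _ _ _ h2 (h ▸ h4)) fun h => ?_
    obtain ⟨k, rfl⟩ : ∃ k, n = m + 1 + k := ⟨n - (m + 1), by omega⟩
    rw [Nat.add_sub_cancel_left]
    obtain ⟨k1, k2, k3⟩ := planar_anc_sg hX hdown (m + 1) k c ((hnc _).mem _ _ h4) d
      ((hnc _).mem _ _ h4.symm) (hsg _ _ _ h4)
    exact hconst m a e h2 h1 _ k1 _ k2 k3
  have main : ∀ a b c d, O a b → O c d → a ≠ c → a ≠ d → b ≠ c → b ≠ d →
      planar_G φ In a.1 b.1 c.1 d.1 := by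
    intro a b c d h1 h2 e1 e2 e3 e4
    have e1 := Subtype.val_injective.ne e1
    have e2 := Subtype.val_injective.ne e2
    have e3 := Subtype.val_injective.ne e3
    have e4 := Subtype.val_injective.ne e4
    obtain ⟨⟨a1, a2⟩, ha⟩ := a
    obtain ⟨⟨b1, b2⟩, hb⟩ := b
    obtain ⟨⟨c1, c2⟩, hc⟩ := c
    obtain ⟨⟨d1, d2⟩, hd⟩ := d
    dsimp only [O] at *
    rcases h1 with ⟨rfl, h1, h1'⟩ | ⟨rfl, h1⟩ <;> rcases h2 with ⟨rfl, h2, h2'⟩ | ⟨rfl, h2⟩
    · rcases le_total a1 c1 with h | h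
      · exact HH _ _ _ _ _ _ h h1 h1' h2 h2' e1 e2 e3 e4
      · exact planar_G_swap (HH _ _ _ _ _ _ h h2 h2' h1 h1' e1.symm e3.symm e2.symm e4.symm)
          e1.symm e3.symm e2.symm e4.symm
    · refine planar_HT h1 h2 e1 e3 e2 e4 ?_
      rintro rfl
      rw [← h2]
      exact hin _ _ _ h1' h1 _ hc
    · refine planar_G_swap (planar_HT h2 h1 e1.symm e2.symm e3.symm e4.symm ?_)
        e1.symm e3.symm e2.symm e4.symm
      rintro rfl
      rw [← h1]
      exact hin _ _ _ h2' h2 _ ha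
    · refine planar_TT e1 e2 e3 e4 ?_ ?_
      · rintro rfl
        rw [← h1, ← h2]
        exact hmono _ _ ha _ hc
      · rintro rfl
        rw [← h1, ← h2]
        exact hmono _ _ hc _ ha
  have right : ∀ a b c d : {p : ℕ × ℕ // p.2 ∈ X p.1}, a ≠ c → a ≠ d → b ≠ c → b ≠ d →
      planar_G φ In a.1 b.1 c.1 d.1 → planar_G φ In a.1 b.1 d.1 c.1 := by
    intro a b c d e1 e2 e3 e4 h
    have e1 := Subtype.val_injective.ne e1
    have e2 := Subtype.val_injective.ne e2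
    have e3 := Subtype.val_injective.ne e3
    have e4 := Subtype.val_injective.ne e4
    exact planar_G_swap (planar_G_left (planar_G_swap h e1 e2 e3 e4)) e2.symm e4.symm e1.symm
      e3.symm
  rcases hO a b h1 with k1 | k1 <;> rcases hO c d h2 with k2 | k2
  · exact main a b c d k1 k2 e1 e2 e3 e4
  · exact right a b d c e2 e1 e4 e3 (main a b d c k1 k2 e2 e1 e4 e3)
  · exact planar_G_left (main b a c d k1 k2 e3 e4 e1 e2)
  · exact planar_G_left (right b a d c e4 e3 e2 e1 (main b a d c k1 k2 e4 e3 e2 e1))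

end Pool.Agent.Lib.MP_f9389f_co.SC
end

-- part Pool.Agent.Lib.MP_f9389f_co.SC.Ham
section

/-! Hamiltonian paths in graphs of maximum degree two. -/

namespace Pool.Agent.Lib.MP_f9389f_co.SC

universe u

open SimpleGraph

/-- `f` is an injective path with `n` steps inside `Θ`. -/
def ham_P {ι : Type u} (Θ : Finset ι) (R : ι → ι → Prop) (n : ℕ) (f : ℕ → ι) : Prop :=
  (∀ i ≤ n, ∀ j ≤ n, f i = f j → i = j) ∧ (∀ i ≤ n, f i ∈ Θ) ∧ ∀ i < n, R (f i) (f (i + 1))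

theorem ham_card {ι : Type u} {Θ : Finset ι} {R : ι → ι → Prop} {n : ℕ} {f : ℕ → ι}
    (h : ham_P Θ R n f) : n < Θ.card := by
  have := Finset.card_le_card_of_injOn (s := Finset.range (n + 1)) (t := Θ) f
    (fun i hi => h.2.1 i (by simpa [Nat.lt_succ_iff] using hi))
    (fun i hi j hj e => h.1 i (by simpa [Nat.lt_succ_iff] using hi) j
      (by simpa [Nat.lt_succ_iff] using hj) e)
  simpa using this

theorem ham_rev {ι : Type u} {Θ : Finset ι} {R : ι → ι → Prop} {n : ℕ} {f : ℕ → ι}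
    (hs : ∀ a b, R a b → R b a) (h : ham_P Θ R n f) : ham_P Θ R n fun i => f (n - i) := by
  refine ⟨fun i hi j hj e => ?_, fun i _ => h.2.1 _ (by omega), fun i hi => ?_⟩
  · have := h.1 _ (by omega) _ (by omega) e
    omega
  · have := h.2.2 (n - (i + 1)) (by omega)
    rw [show n - (i + 1) + 1 = n - i by omega] at this
    exact hs _ _ this

theorem ham_ext {ι : Type u} {Θ : Finset ι} {R : ι → ι → Prop} {n : ℕ} {f : ℕ → ι} {b : ι}
    (h : ham_P Θ R n f) (hb : b ∈ Θ) (hn : ∀ i ≤ n, f i ≠ b) (hR : R (f n) b) :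
    ham_P Θ R (n + 1) fun i => if i ≤ n then f i else b := by
  refine ⟨fun i hi j hj e => ?_, fun i _ => ?_, fun i hi => ?_⟩
  · by_cases h1 : i ≤ n <;> by_cases h2 : j ≤ n <;> simp only [h1, h2, if_true, if_false] at e
    · exact h.1 i h1 j h2 e
    · exact absurd e (hn i h1)
    · exact absurd e.symm (hn j h2)
    · omega
  · by_cases h1 : i ≤ n <;> simp only [h1, if_true, if_false]
    exacts [h.2.1 i h1, hb]
  · have h1 : i ≤ n := by omega
    by_cases h2 : i + 1 ≤ n <;> simp only [h1, h2, if_true, if_false]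
    · exact h.2.2 i h2
    · rw [show i = n by omega]; exact hR

theorem hamStmt : HamStmt.{u} := by
  classical
  intro ι Θ R hs hm hc hd
  rcases Θ.eq_empty_or_nonempty with rfl | ⟨a₀, ha₀⟩
  · exact ⟨fun _ => 0, by simp, by simp, by simp⟩
  obtain ⟨n, f, hf, hmax⟩ : ∃ n f, ham_P Θ R n f ∧ ∀ g, ¬ ham_P Θ R (n + 1) g := by
    by_contra hno
    push Not at hno
    have : ∀ n, ∃ f, ham_P Θ R n f := by
      intro n
      induction n with
      | zero => exact ⟨fun _ => a₀, fun i hi j hj _ => by omega, fun _ _ => ha₀, fun i hi => by omega⟩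
      | succ n ih => obtain ⟨f, hf⟩ := ih; exact hno n f hf
    obtain ⟨f, hf⟩ := this Θ.card
    exact lt_irrefl _ (ham_card hf)
  have hcl : ∀ i ≤ n, ∀ b, R (f i) b → ∃ j ≤ n, f j = b := by
    intro i hi b hb
    by_contra hno
    push Not at hno
    have hbΘ : b ∈ Θ := (hm _ _ (hs _ _ hb)).1
    by_cases h1 : i = n
    · exact hmax _ (ham_ext hf hbΘ hno (h1 ▸ hb))
    by_cases h2 : i = 0
    · refine hmax _ (ham_ext (ham_rev hs hf) hbΘ (fun j _ => hno _ (by omega)) ?_)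
      simpa [h2] using hb
    obtain ⟨k, rfl⟩ : ∃ k, i = k + 1 := ⟨i - 1, by omega⟩
    rcases hd _ _ _ _ (hs _ _ (hf.2.2 k (by omega))) (hf.2.2 (k + 1) (by omega)) hb with e | e | e
    · have := hf.1 _ (by omega) _ (by omega) e
      omega
    · exact hno _ (by omega) e
    · exact hno _ (by omega) e
  have hall : ∀ a, ∃ i, a ∈ Θ → i ≤ n ∧ f i = a := by
    intro a
    by_cases ha : a ∈ Θ
    · have h := hc (f 0) (hf.2.1 0 (Nat.zero_le _)) a ha
      have : ∃ j ≤ n, f j = a := by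
        clear ha
        induction h with
        | refl => exact ⟨0, Nat.zero_le _, rfl⟩
        | tail _ h2 ih =>
          obtain ⟨j, hj, e⟩ := ih
          exact hcl j hj _ (e ▸ h2)
      obtain ⟨j, hj, e⟩ := this
      exact ⟨j, fun _ => ⟨hj, e⟩⟩
    · exact ⟨0, fun h => absurd h ha⟩
  choose ρ hρ using hall
  refine ⟨ρ, fun a ha b hb e => ?_, fun a ha => lt_of_le_of_lt (hρ a ha).1 (ham_card hf),
    fun a ha b hb e => ?_⟩
  · rw [← (hρ a ha).2, e, (hρ b hb).2]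
  · have := hf.2.2 (ρ a) (by have := (hρ b hb).1; omega)
    rwa [← e, (hρ a ha).2, (hρ b hb).2] at this

end Pool.Agent.Lib.MP_f9389f_co.SC
end

-- part Pool.Agent.Lib.MP_f9389f_co.SC.Rim
section

/-! Tokens and rims. -/

namespace Pool.Agent.Lib.MP_f9389f_co.SC

universe u

open SimpleGraph

namespace Cx

variable {V : Type u} {c : Cx V}

/-- The points near the vertical of `A`. -/
def rim_cell (c : Cx V) (A : V) : Set V := {v | ∃ w ∈ c.Vt A, c.d v w < c.K}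

/-- The base of the core at level `lam` together with the balls around the tokens. -/
def rim_T (c : Cx V) (lam : ℕ) (x₀ : V) (Tk : Finset V) : Set V :=
  {v | (c.lv v = lam ∧ Ch c.G 1 (c.Up lam) x₀ v) ∨ ∃ A ∈ Tk, c.d (c.σ A lam) v ≤ 2 * c.K}

/-- The thick base without the cells of the tokens with property `P`. -/
def rim_W (c : Cx V) (lam : ℕ) (x₀ : V) (Tk : Finset V) (P : V → Prop) : Set V :=
  {v | v ∈ c.rim_T lam x₀ Tk ∧ ∀ E ∈ Tk, P E → v ∉ c.rim_cell E}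

theorem rim_W_mono {lam : ℕ} {x₀ : V} {Tk : Finset V} {P Q : V → Prop}
    (h : ∀ E ∈ Tk, Q E → P E) : c.rim_W lam x₀ Tk P ⊆ c.rim_W lam x₀ Tk Q :=
  fun _ hv => ⟨hv.1, fun E hE hQ => hv.2 E hE (h E hE hQ)⟩

theorem rim_apart {A : V} {M : Set V} (h : ∀ v ∈ M, v ∉ c.rim_cell A) :
    Apart c.G c.K M (c.Vt A) := fun v hv w hw => by
  by_contra hlt
  exact h v hv ⟨w, hw, not_le.1 hlt⟩

theorem Env.rim_near (h : c.Env) {lam m : ℕ} {A v : V} (hv : v ∈ c.rim_cell A)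
    (h1 : lam ≤ c.lv v + m) (h2 : c.lv v ≤ lam + m) : c.d (c.σ A lam) v + 2 ≤ m + 2 * c.K := by
  obtain ⟨w, hw, hd⟩ := hv
  have l1 := h.lip v w
  have l2 := h.lip' v w
  have l3 := h.vt_near (n := lam) (k := m + c.d v w) hw (by omega) (by omega)
  have l4 := h.tri (c.σ A lam) w v
  rw [d_comm w v] at l4
  omega

theorem Env.rim_self (h : c.Env) (lam : ℕ) (A : V) : c.σ A lam ∈ c.rim_cell A :=
  ⟨c.σ A lam, h.seg_vt (mem_seg A le_rfl le_rfl), by rw [d_self]; exact h.one⟩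

/-- A largest separated subset of the base. -/
theorem Env.rim_tokens (h : c.Env) (lam L : ℕ) (x₀ : V) : ∃ Tk : Finset V,
    (∀ A ∈ Tk, c.Bc L x₀ A) ∧ (∀ A ∈ Tk, ∀ B ∈ Tk, A ≠ B → 15 * c.K ≤ c.D lam A B) ∧
    ∀ x, c.Bc L x₀ x → ∃ A ∈ Tk, c.D lam x A < 15 * c.K := by
  classical
  have hf : {x | c.Bc L x₀ x}.Finite := (h.fin L).subset fun x hx => hx.2.1.le
  obtain ⟨Tk, hT, hm⟩ := (hf.toFinset.powerset.filter
    fun S => ∀ A ∈ S, ∀ B ∈ S, A ≠ B → 15 * c.K ≤ c.D lam A B).exists_max_image Finset.card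
    ⟨∅, by simp⟩
  simp only [Finset.mem_filter, Finset.mem_powerset] at hT
  refine ⟨Tk, fun A hA => by simpa using hT.1 hA, hT.2, fun x hx => ?_⟩
  by_contra hn
  push Not at hn
  have hx' : x ∉ Tk := fun e => by
    have h1 := hn x e
    have h2 := h.one
    rw [D, d_self] at h1
    omega
  have := hm (insert x Tk) (by
    simp only [Finset.mem_filter, Finset.mem_powerset]
    refine ⟨Finset.insert_subset (by simpa using hx) hT.1, fun A hA B hB hne => ?_⟩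
    rw [Finset.mem_insert] at hA hB
    rcases hA with rfl | hA <;> rcases hB with rfl | hB
    · exact absurd rfl hne
    · exact hn B hB
    · rw [D, d_comm]; exact hn A hA
    · exact hT.2 A hA B hB hne)
  rw [Finset.card_insert_of_notMem hx'] at this
  omega

section

variable {lam : ℕ} {x₀ : V} {Tk : Finset V}

theorem Env.rim_lv (h : c.Env) (hb : ∀ A ∈ Tk, lam ≤ c.lv A) {v : V}
    (hv : v ∈ c.rim_T lam x₀ Tk) : lam ≤ c.lv v + 2 * c.K ∧ c.lv v ≤ lam + 2 * c.K := by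
  rcases hv with ⟨h1, -⟩ | ⟨A, hA, h1⟩
  · omega
  · have l1 := h.lip (c.σ A lam) v
    have l2 := h.lip' (c.σ A lam) v
    rw [h.lev A lam (hb A hA)] at l1 l2
    omega

/-- A point near the foot of a token is outside the cells of the other tokens. -/
theorem Env.rim_miss (h : c.Env) (hb : ∀ A ∈ Tk, lam ≤ c.lv A)
    (hs : ∀ A ∈ Tk, ∀ B ∈ Tk, A ≠ B → 15 * c.K ≤ c.D lam A B) {A E v : V} (hA : A ∈ Tk)
    (hE : E ∈ Tk) (hne : E ≠ A) (hv : v ∈ c.rim_T lam x₀ Tk)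
    (hd : c.d (c.σ A lam) v ≤ 3 * c.K) : v ∉ c.rim_cell E := fun e => by
  obtain ⟨l1, l2⟩ := h.rim_lv hb hv
  have l3 := h.rim_near e l1 l2
  have l4 := hs E hE A hA hne
  have l5 := h.tri (c.σ E lam) v (c.σ A lam)
  rw [d_comm v] at l5
  have := h.one
  unfold D at l4
  omega

theorem Env.rim_ball (h : c.Env) (hb : ∀ A ∈ Tk, lam ≤ c.lv A)
    (hs : ∀ A ∈ Tk, ∀ B ∈ Tk, A ≠ B → 15 * c.K ≤ c.D lam A B) {A v : V} (hA : A ∈ Tk)
    (hd : c.d (c.σ A lam) v ≤ 2 * c.K) : v ∈ c.rim_W lam x₀ Tk (· ≠ A) :=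
  ⟨Or.inr ⟨A, hA, hd⟩, fun _ hE hne =>
    h.rim_miss (x₀ := x₀) hb hs hA hE hne (Or.inr ⟨A, hA, hd⟩) (by omega)⟩

theorem Env.rim_in (h : c.Env) (hb : ∀ A ∈ Tk, lam ≤ c.lv A)
    (hs : ∀ A ∈ Tk, ∀ B ∈ Tk, A ≠ B → 15 * c.K ≤ c.D lam A B) {A v : V} (hA : A ∈ Tk)
    (hv : v ∈ c.rim_T lam x₀ Tk) (e : v ∈ c.rim_cell A) : c.d (c.σ A lam) v ≤ 2 * c.K := by
  rcases id hv with ⟨h1, -⟩ | ⟨E, hE, h1⟩
  · have := h.rim_near (lam := lam) (m := 0) e (by omega) (by omega)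
    omega
  · by_cases hne : A = E
    · rw [hne]; exact h1
    · exact absurd e (h.rim_miss hb hs hE hA hne hv (by omega))

theorem Env.rim_ch (h : c.Env) (hb : ∀ A ∈ Tk, lam ≤ c.lv A)
    (hs : ∀ A ∈ Tk, ∀ B ∈ Tk, A ≠ B → 15 * c.K ≤ c.D lam A B) {A v : V} (hA : A ∈ Tk)
    (hd : c.d (c.σ A lam) v ≤ 2 * c.K) :
    Ch c.G 1 (c.rim_W lam x₀ Tk (· ≠ A)) (c.σ A lam) v :=
  h.ch_I fun w hw => h.rim_ball hb hs hA (by have := mem_I hw; omega)

/-- Neighbouring tokens. -/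
def rim_R (c : Cx V) (lam : ℕ) (x₀ : V) (Tk : Finset V) (A B : V) : Prop :=
  A ∈ Tk ∧ B ∈ Tk ∧ A ≠ B ∧
    Ch c.G 1 (c.rim_W lam x₀ Tk fun E => E ≠ A ∧ E ≠ B) (c.σ A lam) (c.σ B lam)

theorem Env.rim_conn (h : c.Env) (hb : ∀ A ∈ Tk, lam ≤ c.lv A)
    (hs : ∀ A ∈ Tk, ∀ B ∈ Tk, A ≠ B → 15 * c.K ≤ c.D lam A B) {A B : V} (hA : A ∈ Tk)
    (hB : B ∈ Tk) (e : Ch c.G 1 (c.rim_T lam x₀ Tk) (c.σ A lam) (c.σ B lam)) :
    Relation.ReflTransGen (c.rim_R lam x₀ Tk) A B := by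
  have key : ∀ v, Ch c.G 1 (c.rim_T lam x₀ Tk) (c.σ A lam) v → ∃ E ∈ Tk,
      Relation.ReflTransGen (c.rim_R lam x₀ Tk) A E ∧ v ∈ c.rim_W lam x₀ Tk (· ≠ E) ∧
      Ch c.G 1 (c.rim_W lam x₀ Tk (· ≠ E)) (c.σ E lam) v := by
    intro v hv
    induction hv with
    | refl => exact ⟨A, hA, .refl, h.rim_ball hb hs hA (by rw [d_self]; omega), Ch.refl _⟩
    | @tail v w _ h2 ih =>
      obtain ⟨E, hE, h3, h4, h5⟩ := ih
      by_cases hw : w ∈ c.rim_W lam x₀ Tk (· ≠ E)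
      · exact ⟨E, hE, h3, hw, h5.tail h4 hw h2.2.2⟩
      · obtain ⟨F, hF, hne, h6⟩ : ∃ F ∈ Tk, F ≠ E ∧ w ∈ c.rim_cell F := by
          by_contra hn
          exact hw ⟨h2.2.1, fun F hF hne e => hn ⟨F, hF, hne, e⟩⟩
        have h7 := h.rim_in hb hs hF h2.2.1 h6
        have h8 := h.rim_ball (x₀ := x₀) hb hs hF h7
        have h9 := h.rim_ch (x₀ := x₀) hb hs hF h7
        have m1 : c.rim_W lam x₀ Tk (· ≠ E) ⊆ c.rim_W lam x₀ Tk fun X => X ≠ E ∧ X ≠ F :=
          rim_W_mono fun _ _ e => e.1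
        have m2 : c.rim_W lam x₀ Tk (· ≠ F) ⊆ c.rim_W lam x₀ Tk fun X => X ≠ E ∧ X ≠ F :=
          rim_W_mono fun _ _ e => e.2
        exact ⟨F, hF, h3.tail ⟨hE, hF, hne.symm, ((h5.mono le_rfl m1).tail (m1 h4) (m2 h8)
          h2.2.2).trans (h9.mono le_rfl m2).symm⟩, h8, h9⟩
  obtain ⟨E, hE, h1, h2, -⟩ := key _ e
  by_cases hne : B = E
  · rw [hne]; exact h1
  · exact absurd (h.rim_self lam B) (h2.2 B hB hne)

theorem Env.rim_deg (h : c.Env) (hc : c.Claw) (hl : 6000 * c.K ≤ lam)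
    (hb : ∀ A ∈ Tk, c.Bc (lam + 4000 * c.K) x₀ A)
    (hs : ∀ A ∈ Tk, ∀ B ∈ Tk, A ≠ B → 15 * c.K ≤ c.D lam A B) {v : V} (x : Fin 3 → V)
    (hx : ∀ i, c.rim_R lam x₀ Tk v (x i)) (hi : Function.Injective x) : False := by
  have hb' : ∀ A ∈ Tk, lam ≤ c.lv A := fun A hA => by have := (hb A hA).2.1; omega
  have hD : ∀ i k, i ≠ k → 15 * c.K ≤ c.D lam (x i) (x k) := fun i k e =>
    hs _ (hx i).2.1 _ (hx k).2.1 fun e' => e (hi e')
  have hW : ∀ i u, Ch c.G 1 (c.rim_W lam x₀ Tk fun E => E ≠ v ∧ E ≠ x i) (c.σ v lam) u →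
      u ∈ c.rim_W lam x₀ Tk fun E => E ≠ v ∧ E ≠ x i := fun i u e =>
    e.mem (rim_W_mono (fun _ _ e => e.1)
      (h.rim_ball hb' hs (hx i).1 (by rw [d_self]; omega)))
  have d1 := hD 1 2 (by decide)
  have d2 := hD 0 1 (by decide)
  have d3 := hD 0 2 (by decide)
  refine hc lam (lam + 4000 * c.K) (2 * c.K) (3 * c.K) x
    (fun i => {u | Ch c.G 1 (c.rim_W lam x₀ Tk fun E => E ≠ v ∧ E ≠ x i) (c.σ v lam) u})
    (c.σ v lam) (by omega) (by omega) (by omega)
    (fun i k => (hb _ (hx i).2.1).symm.trans (hb _ (hx k).2.1)) (by omega) (by omega) (by omega)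
    (fun i => conn_comp _ _ _ _) (fun i => Ch.refl _) (fun i => (hx i).2.2.2)
    (fun i k e => rim_apart fun u hu => (hW i u hu).2 _ (hx k).2.1
      ⟨(hx k).2.2.1.symm, fun e' => e (hi e').symm⟩)
    (fun i u hu => Or.inl (h.rim_lv hb' (hW i u hu).1))

/-- Trimming a chain between two feet. -/
theorem Env.rim_trim (h : c.Env) (hb : ∀ A ∈ Tk, lam ≤ c.lv A)
    (hs : ∀ A ∈ Tk, ∀ B ∈ Tk, A ≠ B → 15 * c.K ≤ c.D lam A B) {A B : V} (hA : A ∈ Tk)
    (hB : B ∈ Tk) (hne : A ≠ B) {S : Set V} (hS : S ⊆ c.rim_T lam x₀ Tk)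
    (e : Ch c.G 1 S (c.σ A lam) (c.σ B lam)) : ∃ M : Set V, Conn c.G 1 M ∧
      (∀ v ∈ M, v ∈ S ∧ v ∉ c.rim_cell A ∧ v ∉ c.rim_cell B) ∧
      (∃ m ∈ M, c.d (c.σ A lam) m ≤ 4 * c.K) ∧ ∃ m ∈ M, c.d (c.σ B lam) m ≤ 4 * c.K := by
  have hK := h.one
  obtain ⟨z, y, h1, h2, h3, h4, h5, h6, -⟩ := e.symm.entry (· ∈ c.rim_cell A)
    ((h.rim_ball (x₀ := x₀) hb hs hB (by rw [d_self]; omega)).2 A hA hne) (h.rim_self lam A)
  have h7 := h.rim_in hb hs hA (hS h4) h5
  have h8 := h.tri (c.σ A lam) y z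
  have h9 : c.d y z ≤ 1 := by rw [d_comm]; exact h6
  have hz : z ∉ c.rim_cell B := h.rim_miss hb hs hA hB hne.symm (hS h2) (by omega)
  obtain ⟨z', y', k1, k2, k3, k4, k5, k6, -⟩ := h1.symm.entry (· ∈ c.rim_cell B) hz
    (h.rim_self lam B)
  have k7 := h.rim_in hb hs hB (hS k4.1) k5
  have k8 := h.tri (c.σ B lam) y' z'
  have k9 : c.d y' z' ≤ 1 := by rw [d_comm]; exact k6
  refine ⟨_, conn_comp c.G 1 ((S ∩ {x | x ∉ c.rim_cell A}) ∩ {x | x ∉ c.rim_cell B}) z,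
    fun v hv => ?_, ⟨z, Ch.refl _, by omega⟩, z', k1, by omega⟩
  have := Ch.mem hv ⟨⟨h2, h3⟩, hz⟩
  exact ⟨this.1.1, this.1.2, this.2⟩

end

end Cx

theorem rimStmt (hHam : HamStmt.{u}) : RimStmt.{u} := by
  intro V c h hc lam x₀ hl hx
  obtain ⟨Tk, hb, hs, hn⟩ := h.rim_tokens lam (lam + 4000 * c.K) x₀
  have hK := h.one
  have hb' : ∀ A ∈ Tk, lam ≤ c.lv A := fun A hA => by have := (hb A hA).2.1; omega
  have hT : ∀ A ∈ Tk, c.σ A lam ∈ {v | c.lv v = lam ∧ Ch c.G 1 (c.Up lam) x₀ v} := fun A hA =>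
    ⟨h.lev A lam (hb' A hA), ((hb A hA).2.2.mono le_rfl (Cx.up_mono (by omega))).trans
      (h.ch_σ A le_rfl (hb' A hA))⟩
  obtain ⟨τ, h1, h2, h3⟩ := hHam V Tk (c.rim_R lam x₀ Tk)
    (fun a b e => ⟨e.2.1, e.1, e.2.2.1.symm,
      e.2.2.2.symm.mono le_rfl (Cx.rim_W_mono fun _ _ e => e.symm)⟩)
    (fun a b e => ⟨e.1, e.2.2.1⟩)
    (fun a ha b hb => h.rim_conn hb' hs ha hb
      ((h.conn_base (n := lam) (by omega) (x := x₀) (by omega) _ (hT a ha) _ (hT b hb)).mono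
        le_rfl fun _ e => Or.inl e))
    (fun v a b d e1 e2 e3 => by
      by_contra hne
      push Not at hne
      refine h.rim_deg hc hl hb hs (v := v) ![a, b, d] (fun i => ?_) ?_
      · fin_cases i
        exacts [e1, e2, e3]
      · intro i k e
        fin_cases i <;> fin_cases k <;> simp at e ⊢
        exacts [hne.1 e, hne.2.1 e, hne.1 e.symm, hne.2.2 e, hne.2.1 e.symm, hne.2.2 e.symm])
  have hsurj : ∀ n < Tk.card, ∃ C ∈ Tk, τ C = n := by
    intro n hn'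
    have := Finset.surj_on_of_inj_on_of_card_le (s := Tk) (t := Finset.range Tk.card)
      (fun a _ => τ a) (fun a ha => Finset.mem_range.2 (h2 a ha))
      (fun a b ha hb e => h1 ha hb e) (by simp) n (Finset.mem_range.2 hn')
    obtain ⟨a, ha, e⟩ := this
    exact ⟨a, ha, e.symm⟩
  refine ⟨Tk, τ, hb, hs, hn, h1, fun A hA B hB hlt => ?_⟩
  have key : ∀ n, τ A ≤ n → n ≤ τ B → ∀ C ∈ Tk, τ C = n →
      Ch c.G 1 (c.rim_W lam x₀ Tk fun E => τ E < τ A ∨ τ B < τ E) (c.σ A lam) (c.σ C lam) := by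
    intro n hn'
    induction n, hn' using Nat.le_induction with
    | base => intro _ C hC e; rw [h1 hC hA e]; exact Ch.refl _
    | succ n hn' ih =>
      intro k1 C hC e
      obtain ⟨C', hC', e'⟩ := hsurj n (by have := h2 C hC; omega)
      refine (ih (by omega) C' hC' e').trans ((h3 C' hC' C hC (by omega)).2.2.2.mono le_rfl
        (Cx.rim_W_mono fun E _ k2 => ⟨?_, ?_⟩))
      · rintro rfl; omega
      · rintro rfl; omega
  obtain ⟨M, m1, m2, m3, m4⟩ := h.rim_trim (x₀ := x₀) hb' hs hA hB (by rintro rfl; omega)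
    (fun _ e => e.1) (key _ hlt.le le_rfl B hB rfl)
  refine ⟨M, m1, fun v hv => h.rim_lv hb' (m2 v hv).1.1, fun E hE k => Cx.rim_apart fun v hv => ?_,
    m3, m4⟩
  by_cases e1 : τ E = τ A
  · rw [h1 hE hA e1]; exact (m2 v hv).2.1
  by_cases e2 : τ E = τ B
  · rw [h1 hE hB e2]; exact (m2 v hv).2.2
  exact (m2 v hv).1.2 E hE (by omega)

end Pool.Agent.Lib.MP_f9389f_co.SC
end

-- part Pool.Agent.Lib.MP_f9389f_co.SC.Side
section

/-! Consequences of the claw lemma. -/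

namespace Pool.Agent.Lib.MP_f9389f_co.SC

universe u

open SimpleGraph

section

variable {V : Type u} {c : Cx V}

theorem side_claw (h : c.Claw) {lam L n₀ n : ℕ} {x₀ x₁ x₂ z : V} {A₀ A₁ A₂ : Set V}
    (h1 : n₀ + c.K ≤ n) (h2 : n + 3 * c.K ≤ lam) (h3 : lam + n + 3 * c.K ≤ L)
    (b1 : c.Bc L x₀ x₁) (b2 : c.Bc L x₀ x₂) (d12 : 2 * n₀ + 7 * c.K ≤ c.D lam x₁ x₂)
    (d01 : 2 * n + 6 * c.K ≤ c.D lam x₀ x₁) (d02 : 2 * n + 6 * c.K ≤ c.D lam x₀ x₂)
    (c0 : Conn c.G 1 A₀) (c1 : Conn c.G 1 A₁) (c2 : Conn c.G 1 A₂) (z0 : z ∈ A₀) (z1 : z ∈ A₁)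
    (z2 : z ∈ A₂) (y0 : c.σ x₀ lam ∈ A₀) (y1 : c.σ x₁ lam ∈ A₁) (y2 : c.σ x₂ lam ∈ A₂)
    (a01 : Apart c.G c.K A₀ (c.Vt x₁)) (a02 : Apart c.G c.K A₀ (c.Vt x₂))
    (a10 : Apart c.G c.K A₁ (c.Vt x₀)) (a12 : Apart c.G c.K A₁ (c.Vt x₂))
    (a20 : Apart c.G c.K A₂ (c.Vt x₀)) (a21 : Apart c.G c.K A₂ (c.Vt x₁))
    (l0 : ∀ v ∈ A₀, (lam ≤ c.lv v + n₀ ∧ c.lv v ≤ lam + n₀) ∨ c.d (c.σ x₀ lam) v ≤ n)
    (l1 : ∀ v ∈ A₁, lam ≤ c.lv v + n₀ ∧ c.lv v ≤ lam + n₀)
    (l2 : ∀ v ∈ A₂, lam ≤ c.lv v + n₀ ∧ c.lv v ≤ lam + n₀) : False := by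
  refine h lam L n₀ n ![x₀, x₁, x₂] ![A₀, A₁, A₂] z h1 h2 h3 ?_ d12 d01 d02 ?_ ?_ ?_ ?_ ?_
  · have b : ∀ i, c.Bc L x₀ (![x₀, x₁, x₂] i) := fun i => by
      fin_cases i
      exacts [Cx.Bc.refl b1.1, b1, b2]
    exact fun i k => (b i).symm.trans (b k)
  · intro i; fin_cases i
    exacts [c0, c1, c2]
  · intro i; fin_cases i
    exacts [z0, z1, z2]
  · intro i; fin_cases i
    exacts [y0, y1, y2]
  · intro i k hik
    fin_cases i <;> fin_cases k
    exacts [absurd rfl hik, a01, a02, a10, absurd rfl hik, a12, a20, a21, absurd rfl hik]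
  · intro i; fin_cases i
    exacts [l0, fun v hv => Or.inl (l1 v hv), fun v hv => Or.inl (l2 v hv)]

theorem side_dsym (lam : ℕ) (a b : V) : c.D lam a b = c.D lam b a := Cx.d_comm _ _

theorem side_lev (h : c.Env) {lam t : ℕ} {X v : V} (hX : lam ≤ c.lv X)
    (hv : c.d (c.σ X lam) v ≤ t) : lam ≤ c.lv v + t ∧ c.lv v ≤ lam + t := by
  have e := h.lev X lam hX
  have := h.lip (c.σ X lam) v
  have := h.lip' (c.σ X lam) v
  omega

/-- A set near the point of `X` is apart from the vertical of a far token `Y`. -/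
theorem side_apart (h : c.Env) {lam t : ℕ} {X Y : V} {S : Set V} (hX : lam ≤ c.lv X)
    (hS : ∀ v ∈ S, c.d (c.σ X lam) v ≤ t) (hD : 2 * t + 2 * c.K ≤ c.D lam X Y) :
    Apart c.G c.K S (c.Vt Y) := by
  intro v hv w hw
  show c.K ≤ c.d v w
  by_contra g
  have e1 := hS v hv
  have e2 := side_lev h hX e1
  have l1 := h.lip v w
  have l2 := h.lip' v w
  have e3 := h.vt_near (n := lam) (k := t + c.K) hw (by omega) (by omega)
  rw [Cx.d_comm] at e3
  have e4 := h.tri (c.σ X lam) v (c.σ Y lam)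
  have e5 := h.tri v w (c.σ Y lam)
  unfold Cx.D at hD
  omega

theorem side_I {a b : V} {t : ℕ} (hab : c.d a b ≤ t) : ∀ v ∈ c.I a b, c.d a v ≤ t :=
  fun v hv => by have := Cx.mem_I hv; omega

theorem side_union {G : SimpleGraph V} {K : ℕ} {S T Y : Set V} (h1 : Apart G K S Y)
    (h2 : Apart G K T Y) : Apart G K (S ∪ T) Y := by
  rintro v (hv | hv)
  exacts [h1 v hv, h2 v hv]

/-- The arm made of a rim and the interval to the point of a token. -/
theorem side_arm (h : c.Env) {lam : ℕ} {X : V} {M : Set V} (hX : lam ≤ c.lv X)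
    (hM : Conn c.G 1 M) (hm : ∃ m ∈ M, c.d (c.σ X lam) m ≤ 4 * c.K) :
    ∃ J : Set V, Conn c.G 1 (M ∪ J) ∧ c.σ X lam ∈ J ∧
      (∀ v ∈ J, lam ≤ c.lv v + 4 * c.K ∧ c.lv v ≤ lam + 4 * c.K) ∧
      ∀ Y, 10 * c.K ≤ c.D lam X Y → Apart c.G c.K J (c.Vt Y) := by
  obtain ⟨m, m1, m2⟩ := hm
  exact ⟨c.I (c.σ X lam) m, hM.union' (h.conn_I _ _) m1 (Cx.right_I _ _), Cx.left_I _ _,
    fun v hv => side_lev h hX (side_I m2 v hv),
    fun Y hY => side_apart h hX (side_I m2) (by omega)⟩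

end

theorem sideStmt : SideStmt.{u} := by
  intro V c h hc lam hl
  have hK := h.one
  refine ⟨?_, ?_, ?_⟩
  · rintro n A B C E M M' n1 n2 bB bC bE ⟨c1, l1, -, -, aE, mC, mB⟩ ⟨c2, l2, -, -, aB, mC', mE⟩
      aA aA' dBC dCE dBE dAC dn dAB dAE
    have lA : lam ≤ c.lv A := by rw [bB.1]; omega
    have lB : lam ≤ c.lv B := by rw [bB.2.1]; omega
    have lC : lam ≤ c.lv C := by rw [bC.2.1]; omega
    have lE : lam ≤ c.lv E := by rw [bE.2.1]; omega
    obtain ⟨J, j1, j2, j3, j4⟩ := side_arm h lC c1 mC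
    obtain ⟨J', j1', j2', j3', j4'⟩ := side_arm h lB j1 (mB.imp fun m hm => ⟨Or.inl hm.1, hm.2⟩)
    obtain ⟨P, p1, p2, p3, p4⟩ := side_arm h lC c2 mC'
    obtain ⟨P', p1', p2', p3', p4'⟩ := side_arm h lE p1 (mE.imp fun m hm => ⟨Or.inl hm.1, hm.2⟩)
    have s1 := side_dsym (c := c) lam A C
    have s2 := side_dsym (c := c) lam A B
    have s3 := side_dsym (c := c) lam A E
    have s4 := side_dsym (c := c) lam B C
    have s5 := side_dsym (c := c) lam B E
    have hI := side_I (c := c) (a := c.σ A lam) (b := c.σ C lam) dn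
    refine side_claw hc (lam := lam) (n₀ := 4 * c.K) (n := n) (z := c.σ C lam) (by omega)
      (by omega) (by omega) bB bE (by omega) dAB dAE (h.conn_I (c.σ A lam) (c.σ C lam)) j1' p1'
      (Cx.right_I _ _) (Or.inl (Or.inr j2)) (Or.inl (Or.inr p2)) (Cx.left_I _ _) (Or.inr j2')
      (Or.inr p2') (side_apart h lA hI (by omega)) (side_apart h lA hI (by omega))
      (side_union (side_union aA (j4 A (by omega))) (j4' A (by omega)))
      (side_union (side_union aE (j4 E (by omega))) (j4' E (by omega)))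
      (side_union (side_union aA' (p4 A (by omega))) (p4' A (by omega)))
      (side_union (side_union aB (p4 B (by omega))) (p4' B (by omega)))
      (fun v hv => Or.inr (hI v hv)) ?_ ?_
    · rintro v ((hv | hv) | hv)
      exacts [by have := l1 v hv; omega, j3 v hv, j3' v hv]
    · rintro v ((hv | hv) | hv)
      exacts [by have := l2 v hv; omega, p3 v hv, p3' v hv]
  · rintro n A B E M n1 n2 bB bE ⟨c1, l1, aA, aB, aE, mA, mB⟩ dAB dAE dBE p hp
    by_contra g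
    have lA : lam ≤ c.lv A := by rw [bB.1]; omega
    have lB : lam ≤ c.lv B := by rw [bB.2.1]; omega
    have lE : lam ≤ c.lv E := by rw [bE.2.1]; omega
    obtain ⟨J, j1, j2, j3, j4⟩ := side_arm h lA c1 mA
    obtain ⟨P, p1, p2, p3, p4⟩ := side_arm h lB c1 mB
    have s2 := side_dsym (c := c) lam A B
    have s3 := side_dsym (c := c) lam A E
    have s5 := side_dsym (c := c) lam B E
    have hI := side_I (c := c) (a := c.σ E lam) (b := p) (not_lt.1 g)
    refine side_claw hc (lam := lam) (n₀ := 4 * c.K) (n := n) (z := p) (by omega)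
      (by omega) (by omega) bE.symm (bE.symm.trans bB) (by omega) (by omega) (by omega)
      (h.conn_I (c.σ E lam) p) j1 p1 (Cx.right_I _ _) (Or.inl hp) (Or.inl hp) (Cx.left_I _ _)
      (Or.inr j2) (Or.inr p2) (side_apart h lE hI (by omega)) (side_apart h lE hI (by omega))
      (side_union aE (j4 E (by omega))) (side_union aB (j4 B (by omega)))
      (side_union aE (p4 E (by omega))) (side_union aA (p4 A (by omega)))
      (fun v hv => Or.inr (hI v hv)) ?_ ?_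
    · rintro v (hv | hv)
      exacts [by have := l1 v hv; omega, j3 v hv]
    · rintro v (hv | hv)
      exacts [by have := l1 v hv; omega, p3 v hv]
  · rintro A B E M M' bB bE ⟨c1, l1, aA, aB, aE, mA, mB⟩ c2 l2 aA' aB' mE dAB dAE dBE p hp p' hp'
      fA fB
    by_contra g
    have lA : lam ≤ c.lv A := by rw [bB.1]; omega
    have lB : lam ≤ c.lv B := by rw [bB.2.1]; omega
    have lE : lam ≤ c.lv E := by rw [bE.2.1]; omega
    obtain ⟨J, j1, j2, j3, j4⟩ := side_arm h lA c1 mA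
    obtain ⟨P, p1, p2, p3, p4⟩ := side_arm h lB c1 mB
    obtain ⟨Q, q1, q2, q3, q4⟩ := side_arm h lE c2 mE
    have s2 := side_dsym (c := c) lam A B
    have s3 := side_dsym (c := c) lam A E
    have s5 := side_dsym (c := c) lam B E
    have l3 := l2 p' hp'
    have hI : ∀ X, 24 * c.K ≤ c.d (c.σ X lam) p' → Apart c.G c.K (c.I p p') (c.Vt X) := by
      intro X hX v hv w hw
      show c.K ≤ c.d v w
      by_contra g'
      have e1 := Cx.mem_I hv
      have e2 := h.lip v p'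
      have e3 := h.lip' v p'
      have e4 := h.lip v w
      have e5 := h.lip' v w
      have e6 := h.vt_near (n := lam) (k := 3 * c.K + c.d v p') hw (by omega) (by omega)
      have e7 := h.tri (c.σ X lam) w p'
      have e8 := h.tri w v p'
      rw [Cx.d_comm w v] at e8
      omega
    refine side_claw hc (lam := lam) (n₀ := 12 * c.K) (n := 13 * c.K) (z := p) (by omega)
      (by omega) (by omega) bE.symm (bE.symm.trans bB) (by omega) (by omega) (by omega)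
      (q1.union' (h.conn_I p p') (Or.inl hp') (Cx.right_I _ _)) j1 p1 (Or.inr (Cx.left_I _ _))
      (Or.inl hp) (Or.inl hp) (Or.inl (Or.inr q2)) (Or.inr j2) (Or.inr p2)
      (side_union (side_union aA' (q4 A (by omega))) (hI A fA))
      (side_union (side_union aB' (q4 B (by omega))) (hI B fB))
      (side_union aE (j4 E (by omega))) (side_union aB (j4 B (by omega)))
      (side_union aE (p4 E (by omega))) (side_union aA (p4 A (by omega))) ?_ ?_ ?_
    · rintro v ((hv | hv) | hv)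
      · have := l2 v hv
        exact Or.inl (by omega)
      · have := q3 v hv
        exact Or.inl (by omega)
      · have e1 := Cx.mem_I hv
        have e2 := h.lip v p'
        have e3 := h.lip' v p'
        exact Or.inl (by omega)
    · rintro v (hv | hv)
      exacts [by have := l1 v hv; omega, by have := j3 v hv; omega]
    · rintro v (hv | hv)
      exacts [by have := l1 v hv; omega, by have := p3 v hv; omega]

end Pool.Agent.Lib.MP_f9389f_co.SC
end
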