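import Mathlib
import Pool.Agent.Lib.MP_f9389f_co.SC.Basic

-- part Pool.Agent.Lib.MP_f9389f_co.SC.Face
section

/-! Faces of noncrossing graphs. -/

namespace Pool.Agent.Lib.MP_f9389f_co.SC

universe u

open SimpleGraph

section

variable {E : SimpleGraph ℕ} {X : Finset ℕ} {T : ℕ × ℕ}

theorem face_rng (h : NCOn E X) {x : ℕ} (hx : x ∈ X) : 0 < x ∧ x < X.sup id + 1 := by
  refine ⟨Nat.pos_of_ne_zero fun e => h.pos (e ▸ hx), Nat.lt_succ_of_le ?_⟩
  exact Finset.le_sup (f := id) hx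

theorem face_left (h : NCOn E X) (e : E.Adj T.1 T.2) (lt : T.1 < T.2) : T.1 ∈ Face E X T :=
  ⟨h.mem _ _ e, le_rfl, lt.le, fun c d _ h1 _ _ h2 => by omega⟩

theorem face_right (h : NCOn E X) (e : E.Adj T.1 T.2) (lt : T.1 < T.2) : T.2 ∈ Face E X T :=
  ⟨h.mem _ _ e.symm, lt.le, le_rfl, fun c d _ _ h1 _ h2 => by omega⟩

theorem face_ne (h : NCOn E X) (hT : IsTop E X T) {a : ℕ} (ha : a ∈ X) :
    (Face E X T).Nonempty := by
  rcases hT with ⟨e, lt⟩ | rfl
  · exact ⟨_, face_left h e lt⟩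
  · have hm := X.min'_mem ⟨a, ha⟩
    refine ⟨X.min' ⟨a, ha⟩, hm, Nat.zero_le _, (face_rng h hm).2.le, fun c d e _ _ _ h2 => ?_⟩
    have := X.min'_le c (h.mem _ _ e)
    omega

theorem face_proj (hne : (Face E X T).Nonempty) (a : ℕ) : proj E X T a ∈ Face E X T ∧
    ((a ≤ proj E X T a ∧ ∀ w ∈ Face E X T, a ≤ w → proj E X T a ≤ w) ∨
      ∀ w ∈ Face E X T, w < a ∧ w ≤ proj E X T a) := by
  unfold proj
  split_ifs with hc
  · have hm : sInf {w | w ∈ Face E X T ∧ a ≤ w} ∈ {w | w ∈ Face E X T ∧ a ≤ w} := Nat.sInf_mem hc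
    exact ⟨hm.1, Or.inl ⟨hm.2, fun w hw h1 => Nat.sInf_le ⟨hw, h1⟩⟩⟩
  · have hb : BddAbove (Face E X T) := ⟨T.2, fun w hw => hw.2.2.1⟩
    refine ⟨Nat.sSup_mem hne hb, Or.inr fun w hw => ⟨?_, le_csSup hb hw⟩⟩
    by_contra h1
    exact hc ⟨w, hw, by omega⟩

theorem face_fix {a : ℕ} (ha : a ∈ Face E X T) : proj E X T a = a := by
  obtain ⟨-, h | h⟩ := face_proj ⟨a, ha⟩ a
  · exact le_antisymm (h.2 a ha le_rfl) h.1
  · exact absurd (h a ha).1 (lt_irrefl _)

theorem face_side (h : NCOn E X) (hT : IsTop E X T) {w c d : ℕ} (hw : w ∈ Face E X T)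
    (e : E.Adj c d) (lt : c < d) :
    ((c ≤ T.1 ∧ T.2 ≤ d) → c ≤ w ∧ w ≤ d) ∧ (¬ (c ≤ T.1 ∧ T.2 ≤ d) → ¬ (c < w ∧ w < d)) := by
  obtain ⟨-, h1, h2, h3⟩ := hw
  refine ⟨fun h4 => by omega, fun h4 h5 => ?_⟩
  by_cases h6 : T.1 ≤ c ∧ d ≤ T.2
  · refine h3 c d e h6.1 h6.2 (fun h7 => h4 ?_) h5
    rw [← h7]; exact ⟨le_rfl, le_rfl⟩
  · rcases hT with ⟨e', lt'⟩ | rfl
    · have := h.nc c d _ _ e e'
      unfold Sep Btw Out at this; omega
    · have := face_rng h (h.mem _ _ e.symm)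
      simp only at h6; omega

theorem face_wall (h : NCOn E X) (hT : IsTop E X T) {w w' : ℕ} (hw : w ∈ Face E X T)
    (hw' : w' ∈ Face E X T) : Wall E w w' := by
  have key : ∀ c d, E.Adj c d → c < d → ¬ Sep c d w w' := by
    intro c d e lt
    have h1 := face_side h hT hw e lt
    have h2 := face_side h hT hw' e lt
    unfold Sep Btw Out
    by_cases h3 : c ≤ T.1 ∧ T.2 ≤ d
    · have := h1.1 h3
      have := h2.1 h3
      omega
    · have := h1.2 h3
      have := h2.2 h3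
      omega
  intro c d e hs
  rcases lt_or_gt_of_ne e.ne with lt | lt
  · exact key c d e lt hs
  · exact key d c e.symm lt hs.swap

theorem face_bey (h : NCOn E X) (hT : IsTop E X T) {a : ℕ} (ha : a ∈ X) (hn : a ∉ Face E X T) :
    ∃ c d, E.Adj c d ∧ c ∈ Face E X T ∧ d ∈ Face E X T ∧ Bey (Face E X T) c d a ∧ c < d ∧
      (Btw c d a → ¬ (c ≤ T.1 ∧ T.2 ≤ d)) ∧ (Out c d a → (c, d) = T) ∧
      ∀ a' ∈ X, (a' = c ∨ a' = d ∨ (a' ≠ c ∧ a' ≠ d ∧ ¬ Sep c d a a')) →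
        proj E X T a' = c ∨ proj E X T a' = d := by
  have hne := face_ne h hT ha
  by_cases hr : T.1 ≤ a ∧ a ≤ T.2
  · have hex : ∃ k, ∃ c d, E.Adj c d ∧ T.1 ≤ c ∧ d ≤ T.2 ∧ (c, d) ≠ T ∧ c < a ∧ a < d ∧
        k + d = T.2 + c := by
      by_contra h1
      refine hn ⟨ha, hr.1, hr.2, fun c d e h2 h3 h4 h5 => h1 ⟨T.2 + c - d, c, d, e, h2, h3, h4,
        h5.1, h5.2, by omega⟩⟩
    classical
    obtain ⟨c, d, e, h2, h3, h4, h5, h6, h7⟩ := Nat.find_spec hex
    have hmin : ∀ c' d', E.Adj c' d' → T.1 ≤ c' → d' ≤ T.2 → (c', d') ≠ T → c' < a → a < d' →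
        d' + c ≤ d + c' := by
      intro c' d' e' g2 g3 g4 g5 g6
      have := Nat.find_min' hex (m := T.2 + c' - d') ⟨c', d', e', g2, g3, g4, g5, g6, by omega⟩
      omega
    have hc : c ∈ Face E X T := by
      refine ⟨h.mem _ _ e, h2, by omega, fun c' d' e' g2 g3 g4 g5 => ?_⟩
      have g6 := h.nc c' d' c d e' e
      have g7 := hmin c' d' e' g2 g3 g4
      unfold Sep Btw Out at g6; omega
    have hd : d ∈ Face E X T := by
      refine ⟨h.mem _ _ e.symm, by omega, h3, fun c' d' e' g2 g3 g4 g5 => ?_⟩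
      have g6 := h.nc c' d' c d e' e
      have g7 := hmin c' d' e' g2 g3 g4
      unfold Sep Btw Out at g6; omega
    refine ⟨c, d, e, hc, hd, Or.inl ⟨Or.inl ⟨h5, h6⟩, fun w hw g => ?_⟩, by omega,
      fun _ g => h4 (Prod.ext (by simp only; omega) (by simp only; omega)),
      fun g => by unfold Out at g; omega, fun a' _ g => ?_⟩
    · have := hw.2.2.2 c d e h2 h3 h4
      unfold Btw at g; omega
    · have g1 : c ≤ a' ∧ a' ≤ d := by unfold Sep Btw Out at g; omega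
      obtain ⟨g2, g3 | g3⟩ := face_proj hne a'
      · have := g2.2.2.2 c d e h2 h3 h4
        have := g3.2 d hd g1.2
        omega
      · have := (g3 d hd).1
        omega
  · rcases hT with ⟨e, lt⟩ | rfl
    · have hc := face_left h e lt
      have hd := face_right h e lt
      refine ⟨T.1, T.2, e, hc, hd, Or.inr ⟨by unfold Out; omega, fun w hw g => ?_⟩, lt,
        fun g => by unfold Btw at g; omega, fun _ => rfl, fun a' _ g => ?_⟩
      · have := hw.2.1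
        have := hw.2.2.1
        unfold Out at g; omega
      · have g1 : a' ≤ T.1 ∨ T.2 ≤ a' := by unfold Sep Btw Out at g; omega
        obtain ⟨g2, g3 | g3⟩ := face_proj hne a'
        · have := g2.2.1
          have := g2.2.2.1
          have := g3.2 _ hc
          omega
        · have := g2.2.2.1
          have := g3 _ hc
          have := g3 _ hd
          omega
    · have := face_rng h ha
      simp only at hr; omega

theorem face_one {c d x y : ℕ} (e : E.Adj c d) (hx : x = c ∨ x = d) (hy : y = c ∨ y = d) :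
    Near E 1 x y := by
  rcases hx with rfl | rfl <;> rcases hy with rfl | rfl
  exacts [Near.refl _ _ _, Near.of_adj e, Near.of_adj e.symm, Near.refl _ _ _]

theorem face_step (hPath : PathStmt) (h : NCOn E X) (hT : IsTop E X T) {n a b : ℕ} (ha : a ∈ X)
    (hb : b ∈ X) (hn : Near E n a b) : Near E 1 (proj E X T a) (proj E X T b) ∨
      ∃ a' ∈ Face E X T, Near E 1 (proj E X T a) a' ∧ Near E n a' b := by
  by_cases hf : a ∈ Face E X T
  · exact Or.inr ⟨a, hf, by rw [face_fix hf]; exact Near.refl _ _ _, hn⟩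
  obtain ⟨c, d, e, hc, hd, -, -, -, -, hp⟩ := face_bey h hT ha hf
  have h1 := hp a ha (Or.inr (Or.inr ⟨fun g => hf (g ▸ hc), fun g => hf (g ▸ hd), by
    unfold Sep Btw Out; omega⟩))
  by_cases hs : Sep c d a b
  · obtain ⟨i, j, hij, g | g⟩ := hPath.thru E n a b c d hn hs.symm
      fun c' d' e' => h.nc c' d' c d e' e
    · exact Or.inr ⟨c, hc, face_one e h1 (Or.inl rfl), g.2.mono (by omega)⟩
    · exact Or.inr ⟨d, hd, face_one e h1 (Or.inr rfl), g.2.mono (by omega)⟩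
  · exact Or.inl (face_one e h1 (hp b hb (by tauto)))

theorem face_near (hPath : PathStmt) (h : NCOn E X) (hT : IsTop E X T) {n a b : ℕ} (ha : a ∈ X)
    (hb : b ∈ X) (hn : Near E n a b) : Near E (n + 2) (proj E X T a) (proj E X T b) := by
  rcases face_step hPath h hT ha hb hn with g | ⟨a', ha', g1, g2⟩
  · exact g.mono (by omega)
  rcases face_step hPath h hT hb ha'.1 g2.symm with g | ⟨b', -, g3, g4⟩
  · rw [face_fix ha'] at g
    exact (g1.trans g.symm).mono (by omega)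
  · exact ((g1.trans g4.symm).trans g3.symm).mono (by omega)

/-- A shortest edge with a property. -/
theorem face_short (P : ℕ → ℕ → Prop) (hex : ∃ c d, c < d ∧ P c d) :
    ∃ c d, c < d ∧ P c d ∧ ∀ c' d', c' < d' → P c' d' → d + c' ≤ d' + c := by
  classical
  have h1 : ∃ k, ∃ c d, c < d ∧ P c d ∧ k + c = d := by
    obtain ⟨c, d, lt, hp⟩ := hex
    exact ⟨d - c, c, d, lt, hp, by omega⟩
  obtain ⟨c, d, lt, hp, e⟩ := Nat.find_spec h1
  refine ⟨c, d, lt, hp, fun c' d' lt' hp' => ?_⟩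
  have := Nat.find_min' h1 (m := d' - c') ⟨c', d', lt', hp', by omega⟩
  omega

theorem face_ex (h : NCOn E X) {a b : ℕ} (ha : a ∈ X) (hb : b ∈ X) (hw : Wall E a b) :
    ∃ T, IsTop E X T ∧ a ∈ Face E X T ∧ b ∈ Face E X T := by
  by_cases hex : ∃ c d, c < d ∧ E.Adj c d ∧ c ≤ a ∧ a ≤ d ∧ c ≤ b ∧ b ≤ d
  · obtain ⟨c, d, lt, ⟨e, h1, h2, h3, h4⟩, hm⟩ := face_short _ hex
    have key : ∀ c' d', E.Adj c' d' → c ≤ c' → d' ≤ d → (c', d') ≠ (c, d) →
        ¬ (c' < a ∧ a < d') ∧ ¬ (c' < b ∧ b < d') := by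
      intro c' d' e' g1 g2 g3
      have g4 := hw c' d' e'
      have g5 : ¬ (c' = c ∧ d' = d) := fun g => g3 (Prod.ext g.1 g.2)
      have g6 : c' < d' → c' ≤ a → a ≤ d' → c' ≤ b → b ≤ d' → d + c' ≤ d' + c :=
        fun u0 u1 u2 u3 u4 => hm c' d' u0 ⟨e', u1, u2, u3, u4⟩
      unfold Sep Btw Out at g4
      omega
    exact ⟨(c, d), Or.inl ⟨e, lt⟩,
      ⟨ha, h1, h2, fun c' d' e' g1 g2 g3 => (key c' d' e' g1 g2 g3).1⟩,
      ⟨hb, h3, h4, fun c' d' e' g1 g2 g3 => (key c' d' e' g1 g2 g3).2⟩⟩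
  · have key : ∀ c' d', E.Adj c' d' → ¬ (c' < a ∧ a < d') ∧ ¬ (c' < b ∧ b < d') := by
      intro c' d' e'
      have g4 := hw c' d' e'
      have g6 : ¬ (c' < d' ∧ c' ≤ a ∧ a ≤ d' ∧ c' ≤ b ∧ b ≤ d') :=
        fun g => hex ⟨c', d', g.1, e', g.2⟩
      unfold Sep Btw Out at g4
      omega
    exact ⟨_, Or.inr rfl,
      ⟨ha, Nat.zero_le _, (face_rng h ha).2.le, fun c' d' e' _ _ _ => (key c' d' e').1⟩,
      ⟨hb, Nat.zero_le _, (face_rng h hb).2.le, fun c' d' e' _ _ _ => (key c' d' e').2⟩⟩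

theorem face_ofIn (P : ℕ → ℕ → Prop) (h : NCOn E X)
    (h1 : ∀ c d c' d', E.Adj c d → E.Adj c' d' → c < d → c' < d' → P c d → P c' d' →
      (c ≤ c' ∧ d' ≤ d) ∨ (c' ≤ c ∧ d ≤ d'))
    (h2 : ∀ c d c' d', E.Adj c d → E.Adj c' d' → c < d → c' ≤ c → d ≤ d' → P c d → P c' d') :
    ∃ T, IsTop E X T ∧ ∀ c d, E.Adj c d → c < d → (P c d ↔ c ≤ T.1 ∧ T.2 ≤ d) := by
  by_cases hex : ∃ c d, c < d ∧ E.Adj c d ∧ P c d
  · obtain ⟨c, d, lt, ⟨e, hp⟩, hm⟩ := face_short _ hex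
    refine ⟨(c, d), Or.inl ⟨e, lt⟩, fun c' d' e' lt' => ⟨fun hp' => ?_, fun g => ?_⟩⟩
    · have := h1 c d c' d' e e' lt lt' hp hp'
      have := hm c' d' lt' ⟨e', hp'⟩
      simp only; omega
    · exact h2 c d c' d' e e' lt g.1 g.2 hp
  · refine ⟨_, Or.inr rfl, fun c d e lt => ⟨fun hp => absurd ⟨c, d, lt, e, hp⟩ hex, fun g => ?_⟩⟩
    have := face_rng h (h.mem _ _ e)
    simp only at g; omega

theorem face_fin (h : NCOn E X) : {T | IsTop E X T}.Finite := by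
  refine ((X ×ˢ X).finite_toSet.insert (0, X.sup id + 1)).subset ?_
  rintro T (⟨e, -⟩ | rfl)
  · exact Or.inr (by simpa using ⟨h.mem _ _ e, h.mem _ _ e.symm⟩)
  · exact Or.inl rfl

theorem face_two (h : NCOn E X) {T' : ℕ × ℕ} (hT : IsTop E X T) (hT' : IsTop E X T')
    (hne : T ≠ T') :
    ∃ c d, E.Adj c d ∧ ∀ w, w ∈ Face E X T → w ∈ Face E X T' → w = c ∨ w = d := by
  have key : ∀ S S' : ℕ × ℕ, E.Adj S.1 S.2 → S.1 < S.2 → IsTop E X S' →
      ¬ (S.1 ≤ S'.1 ∧ S'.2 ≤ S.2) → ∀ w, w ∈ Face E X S → w ∈ Face E X S' →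
      w = S.1 ∨ w = S.2 := by
    intro S S' e lt hS' hn w hw hw'
    have := (face_side h hS' hw' e lt).2 hn
    have := hw.2.1
    have := hw.2.2.1
    omega
  rcases hT with ⟨e, lt⟩ | rfl
  · by_cases hc : T.1 ≤ T'.1 ∧ T'.2 ≤ T.2
    · rcases hT' with ⟨e', lt'⟩ | rfl
      · exact ⟨_, _, e', fun w hw hw' => key T' T e' lt' (Or.inl ⟨e, lt⟩)
          (fun g => hne (Prod.ext (by omega) (by omega))) w hw' hw⟩
      · have := face_rng h (h.mem _ _ e)
        simp only at hc; omega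
    · exact ⟨_, _, e, key T T' e lt hT' hc⟩
  · rcases hT' with ⟨e', lt'⟩ | rfl
    · refine ⟨_, _, e', fun w hw hw' => key T' _ e' lt' (Or.inr rfl) (fun g => ?_) w hw' hw⟩
      have := face_rng h (h.mem _ _ e')
      simp only at g; omega
    · exact absurd rfl hne

end

theorem faceStmt (hPath : PathStmt) : FaceStmt where
  mem _ _ _ a h hT ha := (face_proj (face_ne h hT ha) a).1
  fix _ _ _ _ ha := face_fix ha
  mono E X T a b h hT ha _ hab := by
    obtain ⟨h1, h2⟩ := face_proj (face_ne h hT ha) a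
    obtain ⟨h3, h4⟩ := face_proj (face_ne h hT ha) b
    rcases h4 with h4 | h4
    · rcases h2 with h2 | h2
      · exact h2.2 _ h3 (hab.trans h4.1)
      · have := (h2 _ h3).1
        omega
    · exact (h4 _ h1).2
  bey _ _ _ _ h hT ha hn := face_bey h hT ha hn
  wall _ _ _ _ _ h hT hw hw' := face_wall h hT hw hw'
  near _ _ _ _ _ _ h hT ha hb hn := face_near hPath h hT ha hb hn
  ex _ _ _ _ h ha hb hw := face_ex h ha hb hw
  side _ _ _ _ _ _ h hT hw e lt := face_side h hT hw e lt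
  ofIn _ _ P h h1 h2 := face_ofIn P h h1 h2
  fin _ _ h := face_fin h
  two _ _ _ _ h hT hT' hne := face_two h hT hT' hne

end Pool.Agent.Lib.MP_f9389f_co.SC
end

-- part Pool.Agent.Lib.MP_f9389f_co.SC.Pot
section

/-! Potentials. -/

namespace Pool.Agent.Lib.MP_f9389f_co.SC

universe u

open SimpleGraph

section aux

open Finset

variable {ι : Type u} {Θ : Finset ι} {w : ι → ι → ℤ}

/-- The weight of `d` steps of the walk `F` from time `i` on. -/
def potP (w : ι → ι → ℤ) (F : ℕ → ι) (i d : ℕ) : ℤ := ∑ k ∈ range d, w (F (i + k)) (F (i + k + 1))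

theorem pot_add (F : ℕ → ι) (i d e : ℕ) :
    potP w F i (d + e) = potP w F i d + potP w F (i + d) e := by
  simp only [potP, sum_range_add, add_assoc]

theorem pot_succ (F : ℕ → ι) (i d : ℕ) :
    potP w F i (d + 1) = potP w F i d + w (F (i + d)) (F (i + d + 1)) := sum_range_succ _ _

theorem pot_per {F : ℕ → ι} {N : ℕ} (h : ∀ i, F (i + N) = F i) (i : ℕ) :
    potP w F i N = potP w F 0 N := by
  induction i with
  | zero => rfl
  | succ i ih =>
    have h1 := pot_add (w := w) F i 1 N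
    have h2 : potP w F i 1 = w (F i) (F (i + 1)) := by simp [potP]
    rw [add_comm 1 N, pot_succ, h, add_right_comm i N 1, h] at h1
    omega

/-- Every closed walk has positive weight. -/
theorem pot_cyc {pid rp : ι → ℕ} {U : ι → ι → Prop} (hr : Set.InjOn rp Θ)
    (hU : ∀ t u, U t u → pid t = pid u) (h0 : ∀ t, w t t = 1)
    (h1 : ∀ t ∈ Θ, ∀ u ∈ Θ, t ≠ u → ¬ U t u → w t u + w u t = 1)
    (h2 : ∀ t ∈ Θ, ∀ u ∈ Θ, pid t = pid u → df rp t u ≤ w t u)
    (h3 : ∀ t ∈ Θ, ∀ u ∈ Θ, ∀ v ∈ Θ, t ≠ u → u ≠ v → v ≠ t → 1 ≤ w t u + w u v + w v t)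
    (h4 : ∀ t ∈ Θ, ∀ u ∈ Θ, ∀ v ∈ Θ, ∀ x ∈ Θ, U t v → U u x → pid t ≠ pid u →
      1 ≤ w t u + w u v + w v x + w x t) (n : ℕ) :
    ∀ f : ℕ → ι, (∀ k, f k ∈ Θ) → 1 ≤ potP w f 0 n + w (f n) (f 0) := by
  induction n using Nat.strong_induction_on with
  | _ n ih =>
  intro f hf
  obtain ⟨F, hF⟩ : ∃ F : ℕ → ι, ∀ k, F k = f (k % (n + 1)) := ⟨_, fun _ => rfl⟩
  have hm : ∀ k, F k ∈ Θ := fun k => hF k ▸ hf _
  have hp : ∀ i, F (i + (n + 1)) = F i := fun i => by rw [hF, hF, Nat.add_mod_right]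
  have e0 : potP w f 0 n + w (f n) (f 0) = potP w F 0 (n + 1) := by
    rw [pot_succ, zero_add, hF, hF, Nat.mod_self, Nat.mod_eq_of_lt n.lt_succ_self]
    refine congrArg (· + _) (sum_congr rfl fun k hk => ?_)
    have := mem_range.1 hk
    rw [hF, hF, Nat.mod_eq_of_lt (by omega), Nat.mod_eq_of_lt (by omega)]
  have ih' : ∀ i d, d < n → 1 ≤ potP w F i d + w (F (i + d)) (F i) := fun i d hd => by
    simpa only [potP, zero_add, add_zero, add_assoc] using ih d hd (fun k => F (i + k)) fun _ => hm _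
  rw [e0]
  by_contra hT
  have hs : ∀ i d e, d + e = n + 1 → potP w F i d + potP w F (i + d) e < 1 := fun i d e h => by
    rw [← pot_add, h, pot_per hp]
    omega
  have hq : ∀ i d e, d + e = n + 1 → F (i + d + e) = F i := fun i d e h => by
    rw [add_assoc, h, hp]
  have c1 : ∀ i d, d < n → F i ≠ F (i + (d + 1)) := fun i d hd e => by
    obtain ⟨c, rfl⟩ := Nat.exists_eq_add_of_lt hd
    have k1 := hs i (d + 1) (c + 1) (by omega)
    have k2 := ih' i d hd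
    have k3 := ih' (i + (d + 1)) c (by omega)
    rw [pot_succ, pot_succ, add_assoc i d 1, add_assoc _ c 1, hq i (d + 1) (c + 1) (by omega),
      ← e] at k1
    rw [← e] at k3
    omega
  have c2 : ∀ i d, d + 2 < n → U (F i) (F (i + (d + 2))) := fun i d hd => by_contra fun e => by
    obtain ⟨c, rfl⟩ := Nat.exists_eq_add_of_lt hd
    have k1 := hs i (d + 2) (c + 2) (by omega)
    have k2 := ih' i (d + 2) hd
    have k3 := ih' (i + (d + 2)) (c + 2) (by omega)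
    have k4 := h1 _ (hm _) _ (hm _) (c1 i (d + 1) (by omega)) e
    rw [hq i (d + 2) (c + 2) (by omega)] at k3
    simp only [add_assoc d 1 1, one_add_one_eq_two] at k4
    omega
  rcases Nat.eq_zero_or_pos n with rfl | hn
  · exact hT (by rw [pot_succ, hq 0 0 1 rfl, h0]; simp [potP])
  by_cases hpid : ∀ i, pid (F i) = pid (F (i + 1))
  · obtain ⟨i, hi⟩ : ∃ i, rp (F (i + 1)) < rp (F i) := by
      by_contra! h
      have := strictMono_nat_of_lt_succ (f := fun i => rp (F i))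
        (fun i => (h i).lt_of_ne fun e => c1 i 0 hn (hr (hm _) (hm _) e)) n.succ_pos
      simp only [← zero_add n.succ ▸ hp 0, lt_self_iff_false] at this
    have k1 := hs i 1 n (by omega)
    have k2 : 0 ≤ potP w F (i + 1) n := sum_nonneg fun k _ =>
      le_trans (by unfold df; split_ifs <;> omega) (h2 _ (hm _) _ (hm _) (hpid _))
    have k3 := h2 _ (hm _) _ (hm _) (hpid i)
    rw [df, if_pos hi] at k3
    have k4 : potP w F i 1 = w (F i) (F (i + 1)) := by simp [potP]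
    omega
  obtain ⟨i, hi⟩ := not_forall.1 hpid
  have k0 := hs i (n + 1) 0 rfl
  have k1 := hp i
  rcases (by omega : n = 1 ∨ n = 2 ∨ n = 3 ∨ 3 < n) with rfl | rfl | rfl | h
  · have := h1 _ (hm _) _ (hm _) (c1 i 0 hn) fun e => hi (hU _ _ e)
    simp only [potP, sum_range_succ, range_zero, sum_empty, add_zero, zero_add, add_assoc,
      Nat.reduceAdd] at k0 k1 this
    rw [k1] at k0
    omega
  · have := h3 _ (hm _) _ (hm _) _ (hm _) (c1 i 0 hn) (c1 (i + 1) 0 hn) (c1 i 1 (by omega)).symm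
    simp only [potP, sum_range_succ, range_zero, sum_empty, add_zero, zero_add, add_assoc,
      Nat.reduceAdd] at k0 k1 this
    rw [k1] at k0
    omega
  · have := h4 _ (hm _) _ (hm _) _ (hm _) _ (hm _) (c2 i 0 (by omega)) (c2 (i + 1) 0 (by omega)) hi
    simp only [potP, sum_range_succ, range_zero, sum_empty, add_zero, zero_add, add_assoc,
      Nat.reduceAdd] at k0 k1 this
    rw [k1] at k0
    omega
  · exact hi ((hU _ _ (c2 i 1 h)).trans (hU _ _ (c2 (i + 1) 0 (by omega))).symm)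

/-- There is a walk from `t` to `u` of weight at most `W`. -/
def PotW (Θ : Finset ι) (w : ι → ι → ℤ) (t u : ι) (W : ℤ) : Prop :=
  ∃ n, ∃ f : ℕ → ι, (∀ k, f k ∈ Θ) ∧ f 0 = t ∧ f n = u ∧ potP w f 0 n ≤ W

theorem PotW.refl {t : ι} (h : t ∈ Θ) : PotW Θ w t t 0 :=
  ⟨0, fun _ => t, fun _ => h, rfl, rfl, le_rfl⟩

theorem PotW.tail {t u v : ι} {W W' : ℤ} (h : PotW Θ w t u W) (hv : v ∈ Θ) (e : W + w u v ≤ W') :
    PotW Θ w t v W' := by
  obtain ⟨n, f, f1, rfl, rfl, f2⟩ := h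
  refine ⟨n + 1, fun k => if k ≤ n then f k else v, fun k => ?_, if_pos n.zero_le,
    if_neg n.not_succ_le_self, ?_⟩
  · dsimp only
    split_ifs
    exacts [f1 k, hv]
  · rw [pot_succ, zero_add, if_pos le_rfl, if_neg n.not_succ_le_self]
    refine le_trans (add_le_add (le_trans (sum_congr rfl fun k hk => ?_).le f2) le_rfl) e
    have := mem_range.1 hk
    dsimp only
    rw [if_pos (by omega), if_pos (by omega)]

/-- Potentials from positive cycles. -/
theorem pot_ex {rp : ι → ℕ} (hr : Set.InjOn rp Θ)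
    (hc : ∀ n, ∀ f : ℕ → ι, (∀ k, f k ∈ Θ) → 1 ≤ potP w f 0 n + w (f n) (f 0)) :
    ∃ (ρ : ι → ℕ) (j : ι → ℤ), Set.InjOn ρ Θ ∧ ∀ t ∈ Θ, ∀ u ∈ Θ, j u - j t ≤ w t u ∧
      (w t u ≤ j u - j t → ρ t < ρ u) := by
  classical
  rcases Θ.eq_empty_or_nonempty with rfl | ⟨o, ho⟩
  · exact ⟨rp, fun _ => 0, hr, by simp⟩
  have hW : ∀ {t u W}, PotW Θ w t u W → 1 ≤ W + w u t := by
    rintro _ _ W ⟨n, f, f1, rfl, rfl, f2⟩
    have := hc n f f1
    omega
  have : ∀ u, ∃ β, u ∈ Θ → PotW Θ w o u β ∧ ∀ β', PotW Θ w o u β' → β ≤ β' := fun u => by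
    by_cases hu : u ∈ Θ
    · exact (Int.exists_least_of_bdd ⟨1 - w u o, fun z hz => by have := hW hz; omega⟩
        ⟨_, (PotW.refl ho).tail hu le_rfl⟩).imp fun β h _ => h
    · exact ⟨0, fun h => absurd h hu⟩
  choose j hj using this
  let r : ι → ι → Prop := fun t u => u ∈ Θ ∧ w t u ≤ j u - j t
  have h1 : ∀ t ∈ Θ, ∀ u, Relation.ReflTransGen r t u → PotW Θ w t u (j u - j t) := by
    intro t ht u h
    induction h with
    | refl => exact sub_self (j t) ▸ PotW.refl ht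
    | tail _ e ih => exact ih.tail e.1 (by have := e.2; omega)
  let c : ι → ℕ := fun t => (Θ.filter fun u => Relation.ReflTransGen r u t).card
  have hB : ∀ t ∈ Θ, rp t < Θ.sup rp + 1 := fun t ht => Nat.lt_succ_of_le (le_sup ht)
  refine ⟨fun t => c t * (Θ.sup rp + 1) + rp t, j, fun t ht u hu e => hr ht hu ?_,
    fun t ht u hu => ⟨?_, fun e => ?_⟩⟩
  · have := congrArg (· % (Θ.sup rp + 1)) e
    simpa only [Nat.mul_add_mod_of_lt (hB t ht), Nat.mul_add_mod_of_lt (hB u hu)] using this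
  · have := (hj u hu).2 _ ((hj t ht).1.tail hu le_rfl)
    omega
  · have h2 : c t < c u := card_lt_card ⟨fun v hv => mem_filter.2
      ⟨(mem_filter.1 hv).1, (mem_filter.1 hv).2.tail ⟨hu, e⟩⟩, fun h => by
        have := hW (h1 u hu t (mem_filter.1 (h (mem_filter.2 ⟨hu, .refl⟩))).2)
        omega⟩
    have h3 := Nat.mul_le_mul_right (Θ.sup rp + 1) (Nat.succ_le_of_lt h2)
    have h4 := hB t ht
    rw [Nat.succ_mul] at h3
    dsimp only
    omega

end aux

theorem potStmt : PotStmt.{u} := by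
  intro ι Θ pid rp U δ hr hs hU h1 h2 h3 h4 h5
  classical
  obtain ⟨w, w1, w2, w3⟩ : ∃ w : ι → ι → ℤ, (∀ t, w t t = 1) ∧
      (∀ t u, t ≠ u → U t u → w t u = 3) ∧ ∀ t u, t ≠ u → ¬ U t u → w t u = δ t u :=
    ⟨fun t u => if t = u then 1 else if U t u then 3 else δ t u, fun t => if_pos rfl,
      fun t u a b => by simp only [if_neg a, if_pos b], fun t u a b => by
        simp only [if_neg a, if_neg b]⟩
  have w4 : ∀ t ∈ Θ, ∀ u ∈ Θ, t ≠ u → ¬ U t u → w t u + w u t = 1 := fun t ht u hu a b => by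
    rw [w3 t u a b, w3 u t a.symm fun e => b (hs _ _ e), h1 t ht u hu a]
  have w5 : ∀ t ∈ Θ, ∀ u ∈ Θ, t ≠ u → -1 ≤ w t u := fun t ht u hu a => by
    by_cases b : U t u
    · rw [w2 t u a b]
      omega
    · exact w3 t u a b ▸ h3 t ht u hu
  have w6 : ∀ t u, pid t ≠ pid u → w t u = δ t u := fun t u a =>
    w3 t u (fun e => a (e ▸ rfl)) fun e => a (hU _ _ e)
  obtain ⟨ρ, j, k1, k2⟩ := pot_ex hr (pot_cyc hr hU w1 w4 (fun t ht u hu e => by
      by_cases a : t = u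
      · rw [a, w1, df, if_neg (lt_irrefl _)]
        omega
      by_cases b : U t u
      · rw [w2 t u a b, df]
        split_ifs <;> omega
      · rw [w3 t u a b, h2 t ht u hu e])
    (fun t ht u hu v hv a b c => by
      have := w5 t ht u hu a
      have := w5 u hu v hv b
      have := w5 v hv t ht c
      by_cases x : U t u
      · have := w2 t u a x
        omega
      by_cases y : U u v
      · have := w2 u v b y
        omega
      by_cases z : U v t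
      · have := w2 v t c z
        omega
      rw [w3 t u a x, w3 u v b y, w3 v t c z]
      exact h4 t ht u hu v hv a b c x y z)
    fun t ht u hu v hv x hx a b c => by
      have := hU _ _ a
      have := hU _ _ b
      rw [w6 t u c, w6 u v (by omega), w6 v x (by omega), w6 x t (by omega)]
      exact h5 t ht u hu v hv x hx a b c)
  refine ⟨ρ, j, k1, fun t ht u hu a b => ?_⟩
  have := k2 t ht u hu
  have := k2 u hu t ht
  have := w4 t ht u hu a b
  rw [Pot, ← w3 t u a b, df]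
  split_ifs <;> omega

end Pool.Agent.Lib.MP_f9389f_co.SC
end

-- part Pool.Agent.Lib.MP_f9389f_co.SC.StepA
section

/-! Monotone feet. -/

namespace Pool.Agent.Lib.MP_f9389f_co.SC

universe u

open SimpleGraph

/-- The orientation of three numbers. -/
def stepA_o (x y z : ℕ) : ℤ :=
  (if y < x then 1 else 0) + (if z < y then 1 else 0) + (if x < z then 1 else 0)

theorem stepA_ori {ι : Type u} (r : ι → ℕ) (t u v : ι) :
    ori r t u v = stepA_o (r t) (r u) (r v) := rfl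

theorem stepA_o_cyc (x y z : ℕ) : stepA_o x y z = stepA_o y z x := by
  unfold stepA_o; ring

theorem stepA_o_le (x y z : ℕ) : stepA_o x y z ≤ 2 := by
  unfold stepA_o; split_ifs <;> omega

theorem stepA_o_ge {x y z : ℕ} (h : x ≠ y) : 1 ≤ stepA_o x y z := by
  unfold stepA_o; split_ifs <;> omega

theorem stepA_o_sep {x y z w : ℕ} (h2 : x ≠ z) (h3 : x ≠ w) (h4 : y ≠ z)
    (h5 : y ≠ w) : stepA_o x y z = stepA_o x y w ↔ ¬ Sep x y z w := by
  unfold stepA_o Sep Btw Out; split_ifs <;> omega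

theorem stepA_one {x y z w : ℕ} (h1 : x ≠ y) (h2 : x ≠ z) (h3 : x ≠ w) (h4 : y ≠ z)
    (h5 : y ≠ w) (h6 : z ≠ w) : Sep x y z w ∨ Sep x z y w ∨ Sep x w y z := by
  rcases lt_or_gt_of_ne h1 with h1 | h1 <;> rcases lt_or_gt_of_ne h2 with h2 | h2 <;>
    rcases lt_or_gt_of_ne h3 with h3 | h3 <;> rcases lt_or_gt_of_ne h4 with h4 | h4 <;>
    rcases lt_or_gt_of_ne h5 with h5 | h5 <;> rcases lt_or_gt_of_ne h6 with h6 | h6 <;>
    first
      | omega
      | (left; unfold Sep Btw Out; omega)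
      | (right; left; unfold Sep Btw Out; omega)
      | (right; right; unfold Sep Btw Out; omega)

theorem stepA_not {x y z w : ℕ} (h : Sep x y z w) : ¬ Sep x z y w ∧ ¬ Sep x w y z := by
  unfold Sep Btw Out at *; omega

theorem stepA_refl {N x y z w : ℕ} (h1 : x ≤ N) (h2 : y ≤ N) (h3 : z ≤ N) (h4 : w ≤ N) :
    Sep (N - x) (N - y) (N - z) (N - w) ↔ Sep x y z w := by
  unfold Sep Btw Out; omega

theorem stepA_o_refl {N x y z : ℕ} (h1 : x ≤ N) (h2 : y ≤ N) (h3 : z ≤ N) (h4 : x ≠ y)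
    (h5 : y ≠ z) (h6 : z ≠ x) : stepA_o (N - x) (N - y) (N - z) = 3 - stepA_o x y z := by
  unfold stepA_o; split_ifs <;> omega

theorem stepA_side {t u x y : ℕ} (h1 : stepA_o u t x = 2) (h2 : stepA_o u t y = 2) (h3 : x ≠ y)
    (h4 : t ≠ x) (h5 : t ≠ y) (h6 : u ≠ x) (h7 : u ≠ y) :
    (stepA_o t x y = 1 ∧ Sep t x u y) ∨ (stepA_o t y x = 1 ∧ Sep t y u x) := by
  revert h1 h2
  unfold stepA_o Sep Btw Out; split_ifs <;> omega

theorem stepA_nsep {t u x y : ℕ} (h1 : stepA_o u t x = 1) (h2 : stepA_o t x y = 1)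
    (h3 : stepA_o u t y = 1) : ¬ Sep t x u y := by
  revert h1 h2 h3
  unfold stepA_o Sep Btw Out; split_ifs <;> omega

theorem stepA_cross {x x' y y' : ℕ} (h : Sep x x' y y') : x ≠ y ∧ x ≠ y' ∧ x' ≠ y ∧ x' ≠ y' := by
  unfold Sep Btw Out at h; omega

theorem stepA_df_add {ι : Type u} (r : ι → ℕ) {t u : ι} (h : r t ≠ r u) :
    df r t u + df r u t = 1 := by
  unfold df; split_ifs <;> omega

theorem stepA_df_self {ι : Type u} (r : ι → ℕ) (t : ι) : df r t t = 0 := by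
  unfold df; simp

theorem stepA_fin (e : Fin 4 → Fin 4 → Fin 4 → Prop)
    (h3 : ∀ i j k l, i ≠ j → i ≠ k → i ≠ l → j ≠ k → j ≠ l → k ≠ l → (e i j k ↔ e i j l))
    (hc : ∀ i j k, e i j k ↔ e j k i) :
    ∀ i j k, i ≠ j → j ≠ k → k ≠ i → (e i j k ↔ e 0 1 2) := by
  have e012 : e 0 1 2 ↔ e 0 1 2 :=
    Iff.rfl
  have e013 : e 0 1 3 ↔ e 0 1 2 :=
    (h3 0 1 3 2 (by decide) (by decide) (by decide) (by decide) (by decide) (by decide)).trans e012
  have e201 : e 2 0 1 ↔ e 0 1 2 :=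
    (hc 2 0 1).trans e012
  have e301 : e 3 0 1 ↔ e 0 1 2 :=
    (hc 3 0 1).trans e013
  have e203 : e 2 0 3 ↔ e 0 1 2 :=
    (h3 2 0 3 1 (by decide) (by decide) (by decide) (by decide) (by decide) (by decide)).trans e201
  have e120 : e 1 2 0 ↔ e 0 1 2 :=
    (hc 1 2 0).trans e201
  have e302 : e 3 0 2 ↔ e 0 1 2 :=
    (h3 3 0 2 1 (by decide) (by decide) (by decide) (by decide) (by decide) (by decide)).trans e301
  have e130 : e 1 3 0 ↔ e 0 1 2 :=
    (hc 1 3 0).trans e301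
  have e320 : e 3 2 0 ↔ e 0 1 2 :=
    (hc 3 2 0).trans e203
  have e123 : e 1 2 3 ↔ e 0 1 2 :=
    (h3 1 2 3 0 (by decide) (by decide) (by decide) (by decide) (by decide) (by decide)).trans e120
  have e230 : e 2 3 0 ↔ e 0 1 2 :=
    (hc 2 3 0).trans e302
  have e132 : e 1 3 2 ↔ e 0 1 2 :=
    (h3 1 3 2 0 (by decide) (by decide) (by decide) (by decide) (by decide) (by decide)).trans e130
  have e321 : e 3 2 1 ↔ e 0 1 2 :=
    (h3 3 2 1 0 (by decide) (by decide) (by decide) (by decide) (by decide) (by decide)).trans e320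
  have e032 : e 0 3 2 ↔ e 0 1 2 :=
    (hc 0 3 2).trans e320
  have e312 : e 3 1 2 ↔ e 0 1 2 :=
    (hc 3 1 2).trans e123
  have e231 : e 2 3 1 ↔ e 0 1 2 :=
    (h3 2 3 1 0 (by decide) (by decide) (by decide) (by decide) (by decide) (by decide)).trans e230
  have e023 : e 0 2 3 ↔ e 0 1 2 :=
    (hc 0 2 3).trans e230
  have e213 : e 2 1 3 ↔ e 0 1 2 :=
    (hc 2 1 3).trans e132
  have e031 : e 0 3 1 ↔ e 0 1 2 :=
    (h3 0 3 1 2 (by decide) (by decide) (by decide) (by decide) (by decide) (by decide)).trans e032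
  have e310 : e 3 1 0 ↔ e 0 1 2 :=
    (h3 3 1 0 2 (by decide) (by decide) (by decide) (by decide) (by decide) (by decide)).trans e312
  have e021 : e 0 2 1 ↔ e 0 1 2 :=
    (h3 0 2 1 3 (by decide) (by decide) (by decide) (by decide) (by decide) (by decide)).trans e023
  have e210 : e 2 1 0 ↔ e 0 1 2 :=
    (h3 2 1 0 3 (by decide) (by decide) (by decide) (by decide) (by decide) (by decide)).trans e213
  have e103 : e 1 0 3 ↔ e 0 1 2 :=
    (hc 1 0 3).trans e031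
  have e102 : e 1 0 2 ↔ e 0 1 2 :=
    (hc 1 0 2).trans e021
  intro i j k h1 h2 h4
  fin_cases i <;> fin_cases j <;> fin_cases k <;>
    first | exact absurd rfl h1 | exact absurd rfl h2 | exact absurd rfl h4 | assumption

/-- Three points leave a far reference. -/
theorem stepA_ref (nr : ℕ → ℕ → Prop) (q : Fin 4 → ℕ)
    (hA : ∀ x i k, nr x (q i) → nr x (q k) → i = k) (x y z : ℕ) :
    ∃ i, ¬ nr x (q i) ∧ ¬ nr y (q i) ∧ ¬ nr z (q i) := by
  by_contra h
  have h' : ∀ i, nr x (q i) ∨ nr y (q i) ∨ nr z (q i) := by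
    intro i
    by_contra h2
    exact h ⟨i, fun a => h2 (Or.inl a), fun a => h2 (Or.inr (Or.inl a)),
      fun a => h2 (Or.inr (Or.inr a))⟩
  have key : ∀ i, ∃ c : Fin 3, nr (![x, y, z] c) (q i) := by
    intro i
    rcases h' i with a | a | a
    exacts [⟨0, a⟩, ⟨1, a⟩, ⟨2, a⟩]
  choose f hf using key
  have hinj : Function.Injective f := fun i k e => hA _ i k (hf i) (e ▸ hf k)
  have := Fintype.card_le_of_injective f hinj
  simp at this

/-- After a reflection the orientations of far triples agree. -/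
theorem stepA_agree {ι : Type u} (B : Finset ι) (ρ p : ι → ℕ) (nr : ℕ → ℕ → Prop)
    (a : Fin 4 → ι) (hρ : Set.InjOn ρ B) (hr : ∀ x, nr x x) (hs : ∀ x y, nr x y → nr y x)
    (ha : ∀ i, a i ∈ B) (hA : ∀ x i k, nr x (p (a i)) → nr x (p (a k)) → i = k)
    (hS : ∀ t ∈ B, ∀ t' ∈ B, ∀ u ∈ B, ∀ u' ∈ B, ¬ nr (p t) (p t') → ¬ nr (p u) (p u') →
      ¬ Cr nr (p t) (p t') (p u) (p u') → Sep (p t) (p t') (p u) (p u') →
      Sep (ρ t) (ρ t') (ρ u) (ρ u')) :
    ∃ r : ι → ℕ, Set.InjOn r B ∧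
      (∀ t ∈ B, ∀ t' ∈ B, ∀ u ∈ B, ∀ u' ∈ B,
        (Sep (r t) (r t') (r u) (r u') ↔ Sep (ρ t) (ρ t') (ρ u) (ρ u'))) ∧
      ∀ t ∈ B, ∀ u ∈ B, ∀ v ∈ B, ¬ nr (p t) (p u) → ¬ nr (p u) (p v) → ¬ nr (p v) (p t) →
        ori p t u v = ori r t u v := by
  have sy : ∀ {x y}, ¬ nr x y → ¬ nr y x := fun h h' => h (hs _ _ h')
  have np : ∀ {t u : ι}, ¬ nr (p t) (p u) → p t ≠ p u := fun h e => h (e ▸ hr _)
  have nρ : ∀ {t u : ι}, t ∈ B → u ∈ B → ¬ nr (p t) (p u) → ρ t ≠ ρ u :=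
    fun ht hu h e => np h (by rw [hρ ht hu e])
  let E : ι → ι → ι → Prop := fun t u v => stepA_o (p t) (p u) (p v) = stepA_o (ρ t) (ρ u) (ρ v)
  have hc : ∀ t u v, E t u v ↔ E u v t := fun t u v => by
    simp only [E]; rw [stepA_o_cyc (p t), stepA_o_cyc (ρ t)]
  have mv : ∀ t ∈ B, ∀ u ∈ B, ∀ v ∈ B, ∀ w ∈ B, ¬ nr (p t) (p u) → ¬ nr (p t) (p v) →
      ¬ nr (p t) (p w) → ¬ nr (p u) (p v) → ¬ nr (p u) (p w) → ¬ nr (p v) (p w) →
      (E t u v ↔ E t u w) := by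
    intro t ht u hu v hv w hw h1 h2 h3 h4 h5 h6
    have s1 := hS t ht u hu v hv w hw h1 h6 (by unfold Cr; tauto)
    have s2 := hS t ht v hv u hu w hw h2 h5 (by have := sy h4; unfold Cr; tauto)
    have s3 := hS t ht w hw u hu v hv h3 h4 (by have := sy h5; have := sy h6; unfold Cr; tauto)
    have o := stepA_one (np h1) (np h2) (np h3) (np h4) (np h5) (np h6)
    have s : Sep (p t) (p u) (p v) (p w) ↔ Sep (ρ t) (ρ u) (ρ v) (ρ w) := by
      refine ⟨s1, fun h => ?_⟩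
      rcases o with o | o | o
      exacts [o, absurd (s2 o) (stepA_not h).1, absurd (s3 o) (stepA_not h).2]
    have q1 := stepA_o_sep (np h2) (np h3) (np h4) (np h5)
    have q2 := stepA_o_sep (nρ ht hv h2) (nρ ht hw h3) (nρ hu hv h4) (nρ hu hw h5)
    have q : stepA_o (p t) (p u) (p v) = stepA_o (p t) (p u) (p w) ↔
        stepA_o (ρ t) (ρ u) (ρ v) = stepA_o (ρ t) (ρ u) (ρ w) := by rw [q1, q2, s]
    have b1 := stepA_o_le (p t) (p u) (p v)
    have b2 := stepA_o_le (p t) (p u) (p w)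
    have b3 := stepA_o_le (ρ t) (ρ u) (ρ v)
    have b4 := stepA_o_le (ρ t) (ρ u) (ρ w)
    have c1 := stepA_o_ge (z := p v) (np h1)
    have c2 := stepA_o_ge (z := p w) (np h1)
    have c3 := stepA_o_ge (z := ρ v) (nρ ht hu h1)
    have c4 := stepA_o_ge (z := ρ w) (nρ ht hu h1)
    simp only [E]
    omega
  have fa : ∀ {i k : Fin 4}, i ≠ k → ¬ nr (p (a i)) (p (a k)) := fun h h' => h (hA _ _ _ (hr _) h')
  have af : ∀ {i k : Fin 4}, ¬ nr (p (a i)) (p (a k)) → i ≠ k := fun h e => h (e ▸ hr _)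
  have fin := stepA_fin (fun i j k => E (a i) (a j) (a k))
    (fun i j k l h1 h2 h3 h4 h5 h6 => mv _ (ha i) _ (ha j) _ (ha k) _ (ha l) (fa h1) (fa h2) (fa h3)
      (fa h4) (fa h5) (fa h6)) (fun i j k => hc _ _ _)
  have all : ∀ t ∈ B, ∀ u ∈ B, ∀ v ∈ B, ¬ nr (p t) (p u) → ¬ nr (p u) (p v) → ¬ nr (p v) (p t) →
      (E t u v ↔ E (a 0) (a 1) (a 2)) := by
    intro t ht u hu v hv h1 h2 h3
    obtain ⟨i, i1, i2, i3⟩ := stepA_ref nr (fun i => p (a i)) hA (p t) (p u) (p v)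
    obtain ⟨j, j1, j2, j3⟩ := stepA_ref nr (fun i => p (a i)) hA (p t) (p u) (p (a i))
    obtain ⟨k, k1, k2, k3⟩ := stepA_ref nr (fun i => p (a i)) hA (p t) (p (a j)) (p (a i))
    refine (mv t ht u hu v hv _ (ha i) h1 (sy h3) i1 h2 i2 i3).trans ?_
    refine (hc (a i) t u).symm.trans ?_
    refine (mv _ (ha i) t ht u hu _ (ha j) (sy i1) (sy i2) j3 h1 j1 j2).trans ?_
    refine (hc (a j) (a i) t).symm.trans ?_
    refine (mv _ (ha j) _ (ha i) t ht _ (ha k) (sy j3) (sy j1) k2 (sy i1) k3 k1).trans ?_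
    exact fin j i k (af (sy j3)) (af k3) (af (sy k2))
  by_cases h0 : E (a 0) (a 1) (a 2)
  · exact ⟨ρ, hρ, fun _ _ _ _ _ _ _ _ => Iff.rfl,
      fun t ht u hu v hv h1 h2 h3 => (all t ht u hu v hv h1 h2 h3).2 h0⟩
  · have le : ∀ t ∈ B, ρ t ≤ B.sup ρ := fun t ht => Finset.le_sup ht
    refine ⟨fun t => B.sup ρ - ρ t, fun t ht u hu e => hρ ht hu ?_,
      fun t ht t' ht' u hu u' hu' => stepA_refl (le t ht) (le t' ht') (le u hu) (le u' hu'),
      fun t ht u hu v hv h1 h2 h3 => ?_⟩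
    · have := le t ht
      have := le u hu
      simp only at e
      omega
    · have n : ¬ E t u v := fun h => h0 ((all t ht u hu v hv h1 h2 h3).1 h)
      rw [stepA_ori, stepA_ori, stepA_o_refl (le t ht) (le u hu) (le v hv) (nρ ht hu h1)
        (nρ hu hv h2) (nρ hv ht h3)]
      have b1 := stepA_o_le (p t) (p u) (p v)
      have b3 := stepA_o_le (ρ t) (ρ u) (ρ v)
      have c1 := stepA_o_ge (z := p v) (np h1)
      have c3 := stepA_o_ge (z := ρ v) (nρ ht hu h1)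
      simp only [E] at n
      omega

/-- The two wrap counts differ by a potential on far pairs. -/
theorem stepA_pot {ι : Type u} (B : Finset ι) (r p : ι → ℕ) (nr : ℕ → ℕ → Prop)
    (a : Fin 4 → ι) (hρ : Set.InjOn r B) (hr : ∀ x, nr x x) (hs : ∀ x y, nr x y → nr y x)
    (ha : ∀ i, a i ∈ B) (hA : ∀ x i k, nr x (p (a i)) → nr x (p (a k)) → i = k)
    (ho : ∀ t ∈ B, ∀ u ∈ B, ∀ v ∈ B, ¬ nr (p t) (p u) → ¬ nr (p u) (p v) → ¬ nr (p v) (p t) →
      ori p t u v = ori r t u v) :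
    ∃ k : ι → ℤ, ∀ t ∈ B, ∀ u ∈ B, ¬ nr (p t) (p u) → df p t u - df r t u = k t - k u := by
  have sy : ∀ {x y}, ¬ nr x y → ¬ nr y x := fun h h' => h (hs _ _ h')
  have np : ∀ {t u : ι}, ¬ nr (p t) (p u) → p t ≠ p u := fun h e => h (e ▸ hr _)
  have nρ : ∀ {t u : ι}, t ∈ B → u ∈ B → ¬ nr (p t) (p u) → r t ≠ r u :=
    fun ht hu h e => np h (by rw [hρ ht hu e])
  have fa : ∀ {i k : Fin 4}, i ≠ k → ¬ nr (p (a i)) (p (a k)) := fun h h' => h (hA _ _ _ (hr _) h')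
  let Δ : ι → ι → ℤ := fun t u => df p t u - df r t u
  have self : ∀ t, Δ t t = 0 := fun t => by simp only [Δ, stepA_df_self]; rfl
  have anti : ∀ t ∈ B, ∀ u ∈ B, ¬ nr (p t) (p u) → Δ t u + Δ u t = 0 := by
    intro t ht u hu h
    have := stepA_df_add p (np h)
    have := stepA_df_add r (nρ ht hu h)
    simp only [Δ]; omega
  have tri : ∀ t ∈ B, ∀ u ∈ B, ∀ v ∈ B, ¬ nr (p t) (p u) → ¬ nr (p u) (p v) → ¬ nr (p t) (p v) →
      Δ t u + Δ u v = Δ t v := by
    intro t ht u hu v hv h1 h2 h3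
    have := ho t ht u hu v hv h1 h2 (sy h3)
    have := anti t ht v hv h3
    unfold ori at *
    simp only [Δ] at *; omega
  have c1 : ∀ i j, Δ (a i) (a j) = Δ (a i) (a 0) - Δ (a j) (a 0) := by
    intro i j
    by_cases e : i = j
    · subst e; rw [self]; ring
    by_cases e1 : j = 0
    · subst e1; rw [self]; ring
    by_cases e2 : i = 0
    · subst e2
      have := anti _ (ha 0) _ (ha j) (fa e)
      rw [self]; omega
    · have := tri _ (ha i) _ (ha j) _ (ha 0) (fa e) (fa e1) (fa e2)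
      omega
  have ex : ∀ t, ∃ i, ¬ nr (p t) (p (a i)) := fun t => by
    obtain ⟨i, h, -, -⟩ := stepA_ref nr (fun i => p (a i)) hA (p t) (p t) (p t)
    exact ⟨i, h⟩
  choose f hf using ex
  have c2 : ∀ t ∈ B, ∀ i, ¬ nr (p t) (p (a i)) →
      Δ t (a (f t)) + Δ (a (f t)) (a 0) = Δ t (a i) + Δ (a i) (a 0) := by
    intro t ht i h
    by_cases e : i = f t
    · rw [e]
    · have := tri t ht _ (ha i) _ (ha (f t)) h (fa e) (hf t)
      have := c1 i (f t)
      omega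
  refine ⟨fun t => Δ t (a (f t)) + Δ (a (f t)) (a 0), fun t ht u hu h => ?_⟩
  obtain ⟨i, i1, i2, -⟩ := stepA_ref nr (fun i => p (a i)) hA (p t) (p u) (p u)
  have := tri t ht u hu _ (ha i) h i2 i1
  have := c2 t ht i i1
  have := c2 u hu i i2
  show Δ t u = _
  simp only
  omega

theorem stepAStmt (hMax : MaxStmt.{u}) (hPar : ParStmt.{u}) : StepAStmt.{u} := by
  intro ι B ρ p nr a hρ hr hs ha hA hS
  obtain ⟨r, hri, hrs, ho⟩ := stepA_agree B ρ p nr a hρ hr hs ha hA hS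
  obtain ⟨k, hk⟩ := stepA_pot B r p nr a hri hr hs ha hA ho
  obtain ⟨ρ', φ, i', h0, h1, h2, h3⟩ := hMax ι B r p (fun t => - k t) hri
  have sy : ∀ {x y}, ¬ nr x y → ¬ nr y x := fun h h' => h (hs _ _ h')
  have np : ∀ {t u : ι}, ¬ nr (p t) (p u) → p t ≠ p u := fun h e => h (e ▸ hr _)
  have nρ : ∀ {t u : ι}, t ∈ B → u ∈ B → ¬ nr (p t) (p u) → r t ≠ r u :=
    fun ht hu h e => np h (by rw [hri ht hu e])
  have ex : ∀ t, ∃ u, t ∈ B → u ∈ B ∧ φ t = p u ∧
      (u = t ∨ (u ≠ t ∧ df r u t + - k t - - k u < df p u t)) := by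
    intro t
    by_cases ht : t ∈ B
    · rcases h3 t ht with e | ⟨u, hu, e1, e2, e3⟩
      exacts [⟨t, fun _ => ⟨ht, e, Or.inl rfl⟩⟩, ⟨u, fun _ => ⟨hu, e3, Or.inr ⟨e1, e2⟩⟩⟩]
    · exact ⟨t, fun h => absurd h ht⟩
  choose s hsp using ex
  refine ⟨ρ', s, h0, fun t ht t' ht' u hu u' hu' => ?_, fun t ht u hu h => ?_, fun t ht => ?_⟩
  · rw [← hrs t ht t' ht' u hu u' hu']
    by_cases hd : t ≠ u ∧ t ≠ u' ∧ t' ≠ u ∧ t' ≠ u'
    · obtain ⟨d1, d2, d3, d4⟩ := hd
      rw [hPar ι ρ' t t' u u' (fun e => d1 (h0 ht hu e)) (fun e => d2 (h0 ht hu' e))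
        (fun e => d3 (h0 ht' hu e)) (fun e => d4 (h0 ht' hu' e)),
        hPar ι r t t' u u' (fun e => d1 (hri ht hu e)) (fun e => d2 (hri ht hu' e))
        (fun e => d3 (hri ht' hu e)) (fun e => d4 (hri ht' hu' e)), Int.odd_iff, Int.odd_iff]
      have := h1 t ht u hu d1
      have := h1 t ht u' hu' d2
      have := h1 t' ht' u hu d3
      have := h1 t' ht' u' hu' d4
      omega
    · have n : ∀ q : ι → ℕ, ¬ Sep (q t) (q t') (q u) (q u') := fun q h => by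
        obtain ⟨d1, d2, d3, d4⟩ := stepA_cross h
        exact hd ⟨fun e => d1 (by rw [e]), fun e => d2 (by rw [e]), fun e => d3 (by rw [e]),
          fun e => d4 (by rw [e])⟩
      exact iff_of_false (n ρ') (n r)
  · rw [← (hsp t ht).2.1, ← (hsp u hu).2.1]
    exact h2 t ht u hu h
  · obtain ⟨hu, -, e | ⟨e1, e2⟩⟩ := hsp t ht
    · exact ⟨hu, Or.inl e⟩
    refine ⟨hu, Or.inr ⟨e1, ?_⟩⟩
    generalize s t = u at *
    have hut : r u ≠ r t := fun e => e1 (hri hu ht e)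
    have one : ∀ x ∈ B, ¬ nr (p t) (p x) → ¬ nr (p u) (p x) →
        stepA_o (p u) (p t) (p x) = 2 ∧ stepA_o (r u) (r t) (r x) = 1 := by
      intro x hx f1 f2
      have := hk t ht x hx f1
      have := hk x hx u hu (sy f2)
      have b1 := stepA_o_le (p u) (p t) (p x)
      have b2 := stepA_o_ge (z := r x) hut
      rw [← stepA_ori] at b1 b2 ⊢
      rw [← stepA_ori]
      unfold ori at *
      omega
    obtain ⟨i, i1, i2, -⟩ := stepA_ref nr (fun i => p (a i)) hA (p t) (p u) (p u)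
    obtain ⟨j, j1, j2, j3⟩ := stepA_ref nr (fun i => p (a i)) hA (p t) (p u) (p (a i))
    have fin : ∀ x ∈ B, ∀ y ∈ B, ¬ nr (p t) (p x) → ¬ nr (p t) (p y) → ¬ nr (p u) (p x) →
        ¬ nr (p u) (p y) → ¬ nr (p x) (p y) → stepA_o (p t) (p x) (p y) = 1 →
        ¬ Sep (ρ t) (ρ x) (ρ u) (ρ y) := by
      intro x hx y hy f1 f2 f3 f4 f5 o
      rw [← hrs t ht x hx u hu y hy]
      have o2 := ho t ht x hx y hy f1 f5 (sy f2)
      rw [stepA_ori, stepA_ori, o] at o2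
      exact stepA_nsep (one x hx f1 f3).2 o2.symm (one y hy f2 f4).2
    rcases stepA_side (one _ (ha i) i1 i2).1 (one _ (ha j) j1 j2).1 (np j3) (np i1) (np j1) (np i2)
      (np j2) with ⟨o, h⟩ | ⟨o, h⟩
    · exact ⟨_, ha i, _, ha j, i1, j1, i2, j2, j3, fin _ (ha i) _ (ha j) i1 j1 i2 j2 j3 o, h⟩
    · exact ⟨_, ha j, _, ha i, j1, i1, j2, i2, sy j3,
        fin _ (ha j) _ (ha i) j1 i1 j2 i2 (sy j3) o, h⟩

end Pool.Agent.Lib.MP_f9389f_co.SC
end
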