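import Mathlib
import Pool.Agent.Lib.MP_f9389f_co.SC.Basic

-- part Pool.Agent.Lib.MP_f9389f_co.SC.Quad
section

/-! Quadruples whose feet cross. -/

namespace Pool.Agent.Lib.MP_f9389f_co.SC

universe u

open SimpleGraph

theorem quad_ord {t a u b : ℕ} (h : ¬ Sep t a u b) (h1 : t ≠ u) (h2 : t ≠ b) (h3 : a ≠ u)
    (h4 : a ≠ b) (h5 : t ≠ a) (h6 : u ≠ b) :
    (Out t a u ∧ Out t a b) ∨ (Out u b t ∧ Out u b a) := by
  unfold Sep Btw Out at *; omega

namespace Cx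

variable {V : Type u} {c : Cx V} {lam : ℕ} {ρ ρ' : V → ℕ} {F F' : V → V → Prop} {D : LD V}

theorem quad_D (n : ℕ) (x y : V) : c.D n x y = c.D n y x := d_comm _ _

theorem quad_cl {P Q : Set V} (h : c.Cl P Q) : c.Cl Q P := fun e => h e.symm

theorem quad_feet (he : c.Env) {x y : V} (h : c.Bc (lam + 14000 * c.K) x y) :
    c.Bc (lam + 4000 * c.K) (c.σ x (lam + 4000 * c.K)) (c.σ y (lam + 4000 * c.K)) :=
  he.bc_feet (by rw [h.1]; omega) (h.2.2.mono le_rfl (up_mono (by omega)))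

theorem quad_key (s : c.St lam ρ F ρ' F' D) {t a u b : V} (h1 : c.Bc (lam + 14000 * c.K) t a)
    (h2 : c.Bc (lam + 14000 * c.K) t u) (h3 : c.Bc (lam + 14000 * c.K) t b)
    (d1 : 200 * c.K ≤ c.D (lam + 10000 * c.K) t a) (d2 : 200 * c.K ≤ c.D (lam + 10000 * c.K) t u)
    (d3 : 200 * c.K ≤ c.D (lam + 10000 * c.K) t b) (d4 : 200 * c.K ≤ c.D (lam + 10000 * c.K) a u)
    (d5 : 200 * c.K ≤ c.D (lam + 10000 * c.K) a b) (o1 : Out (ρ' t) (ρ' a) (ρ' u))
    (o2 : Out (ρ' t) (ρ' a) (ρ' b))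
    (hs : Sep (D.rt (c.σ t (lam + 4000 * c.K))) (D.rt (c.σ a (lam + 4000 * c.K)))
      (D.rt (c.σ u (lam + 4000 * c.K))) (D.rt (c.σ b (lam + 4000 * c.K)))) :
    Cr (fun x y => F (c.σ x (lam + 4000 * c.K)) (c.σ y (lam + 4000 * c.K)) ∨
      c.Cl (Seg c.σ x (lam + 25 * c.K) (lam + 14000 * c.K))
        (Seg c.σ y (lam + 25 * c.K) (lam + 14000 * c.K))) t a u b := by
  have he := s.env
  have hK := he.one
  have e : lam + 10000 * c.K + 4000 * c.K = lam + 14000 * c.K := by omega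
  have f1 := quad_feet he h1
  have f2 := quad_feet he h2
  have f3 := quad_feet he h3
  by_cases hF : Cr F (c.σ t (lam + 4000 * c.K)) (c.σ a (lam + 4000 * c.K))
      (c.σ u (lam + 4000 * c.K)) (c.σ b (lam + 4000 * c.K))
  · rcases hF with h | h | h | h
    exacts [Or.inl (Or.inl h), Or.inr (Or.inl (Or.inl h)), Or.inr (Or.inr (Or.inl (Or.inl h))),
      Or.inr (Or.inr (Or.inr (Or.inl h)))]
  obtain ⟨R, r1, r2, r3, r4, r5⟩ := s.pv'.rim t a (e ▸ h1) d1
  have a1 := r5 u (e ▸ h2) o1 d2 d4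
  have a2 := r5 b (e ▸ h3) o2 d3 d5
  have hub : Ch c.G 1 (c.Up (lam + 14000 * c.K)) u b := h2.2.2.symm.trans h3.2.2
  have lt := h1.1
  have la := h1.2.1
  have lu := h2.2.1
  have lb := h3.2.1
  have top : ∀ x, c.lv x = lam + 14000 * c.K →
      x ∈ Seg c.σ x (lam + 25 * c.K) (lam + 14000 * c.K) := fun x hx =>
    ⟨lam + 14000 * c.K, by omega, le_rfl, he.stop x _ hx.le⟩
  have bot : ∀ x n, lam + 25 * c.K ≤ n →
      c.σ (c.σ x (lam + 4000 * c.K)) (lam + 25 * c.K) ∈ Seg c.σ x (lam + 25 * c.K) n :=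
    fun x n hn => by
      rw [he.coh x _ _ (by omega)]; exact mem_seg x le_rfl hn
  have hx := s.pv.xl _ _ _ _ f1 f2 f3 ((s.lev.ord _ _ _ _ f1 f2 f3).1 hs) hF
    ((Seg c.σ t (lam + 25 * c.K) (lam + 10000 * c.K) ∪ R) ∪
      Seg c.σ a (lam + 25 * c.K) (lam + 10000 * c.K))
    ((Seg c.σ u (lam + 25 * c.K) (lam + 14000 * c.K) ∪
      {v | Ch c.G 1 (c.Up (lam + 14000 * c.K)) u v}) ∪
      Seg c.σ b (lam + 25 * c.K) (lam + 14000 * c.K))
    (((he.conn_seg _ _ _).union' r1 (mem_seg t (by omega) le_rfl) r2).union' (he.conn_seg _ _ _)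
      (Or.inr r3) (mem_seg a (by omega) le_rfl))
    (((he.conn_seg _ _ _).union' (conn_comp _ _ _ _) (top u lu) (Ch.refl u)).union'
      (he.conn_seg _ _ _) (Or.inr hub) (top b lb))
    (by
      rintro v ((hv | hv) | hv)
      · exact (he.seg_lv (by omega) hv).1
      · have := (r4 v hv).1
        show lam + 25 * c.K ≤ c.lv v
        omega
      · exact (he.seg_lv (by omega) hv).1)
    (by
      rintro v ((hv | hv) | hv)
      · exact (he.seg_lv (by omega) hv).1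
      · have := ch_lv hv lu.ge
        show lam + 25 * c.K ≤ c.lv v
        omega
      · exact (he.seg_lv (by omega) hv).1)
    (Or.inl (Or.inl (bot t _ (by omega)))) (Or.inr (bot a _ (by omega)))
    (Or.inl (Or.inl (bot u _ (by omega)))) (Or.inr (bot b _ (by omega)))
  obtain ⟨z, hz, z', hz', hd⟩ := cl_iff.1 hx
  have sub : ∀ x, Seg c.σ x (lam + 25 * c.K) (lam + 10000 * c.K) ⊆
      Seg c.σ x (lam + 25 * c.K) (lam + 14000 * c.K) := by
    rintro x _ ⟨i, i1, i2, rfl⟩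
    exact mem_seg x i1 (by omega)
  have hl : c.lv z ≤ lam + 10015 * c.K := by
    rcases hz with (hz | hz) | hz
    · have := (he.seg_lv (by omega) hz).2.1; omega
    · have := (r4 z hz).2; omega
    · have := (he.seg_lv (by omega) hz).2.1; omega
  rcases hz' with (hz' | hz') | hz'
  · rcases hz with (hz | hz) | hz
    · exact Or.inl (Or.inr (cl_iff.2 ⟨z, sub t hz, z', hz', hd⟩))
    · exact absurd hd (not_lt.2 (a1 z hz z' (he.seg_vt hz')))
    · exact Or.inr (Or.inr (Or.inl (Or.inr (cl_iff.2 ⟨z, sub a hz, z', hz', hd⟩))))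
  · have := ch_lv hz' lu.ge
    have := he.lip z z'
    omega
  · rcases hz with (hz | hz) | hz
    · exact Or.inr (Or.inl (Or.inr (cl_iff.2 ⟨z, sub t hz, z', hz', hd⟩)))
    · exact absurd hd (not_lt.2 (a2 z hz z' (he.seg_vt hz')))
    · exact Or.inr (Or.inr (Or.inr (Or.inr (cl_iff.2 ⟨z, sub a hz, z', hz', hd⟩))))

end Cx

theorem quadStmt : QuadStmt.{u} := by
  intro V c lam ρ F ρ' F' D s t a u b h1 h2 h3 d1 d6 hc hn hs
  have hK := s.env.one
  have e : lam + 10000 * c.K + 4000 * c.K = lam + 14000 * c.K := by omega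
  simp only [Cr, not_or, not_lt] at hc
  obtain ⟨d2, d3, d4, d5⟩ := hc
  have ne : ∀ x y, c.Bc (lam + 14000 * c.K) x y → 200 * c.K ≤ c.D (lam + 10000 * c.K) x y →
      ρ' x ≠ ρ' y := fun x y hxy hd h => by
    rw [s.pv'.inj x y (e ▸ hxy) h, Cx.D, Cx.d_self] at hd
    omega
  rcases quad_ord hn (ne _ _ h2 d2) (ne _ _ h3 d3) (ne _ _ (h1.symm.trans h2) d4)
    (ne _ _ (h1.symm.trans h3) d5) (ne _ _ h1 d1) (ne _ _ (h2.symm.trans h3) d6) with h | h
  · exact Cx.quad_key s h1 h2 h3 d1 d2 d3 d4 d5 h.1 h.2 hs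
  · have := Cx.quad_key s (h2.symm.trans h3) h2.symm (h2.symm.trans h1) d6
      (Cx.quad_D _ t u ▸ d2) (Cx.quad_D _ a u ▸ d4) (Cx.quad_D _ t b ▸ d3)
      (Cx.quad_D _ a b ▸ d5) h.1 h.2 hs.symm
    rcases this with h | h | h | h
    · exact Or.inl (h.imp (s.pv.symm _ _) Cx.quad_cl)
    · exact Or.inr (Or.inr (Or.inl (h.imp (s.pv.symm _ _) Cx.quad_cl)))
    · exact Or.inr (Or.inl (h.imp (s.pv.symm _ _) Cx.quad_cl))
    · exact Or.inr (Or.inr (Or.inr (h.imp (s.pv.symm _ _) Cx.quad_cl)))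

end Pool.Agent.Lib.MP_f9389f_co.SC
end

-- part Pool.Agent.Lib.MP_f9389f_co.SC.Legs
section

/-! Virtual legs. -/

namespace Pool.Agent.Lib.MP_f9389f_co.SC

universe u

open SimpleGraph

namespace Cx

variable {V : Type u} {c : Cx V} {lam : ℕ} {ρ ρ' : V → ℕ} {F F' : V → V → Prop} {D : LD V}

/-- The pointwise conditions on a virtual leg. -/
def legsGood (c : Cx V) (lam : ℕ) (D : LD V) (x q z : V) : Prop :=
  c.d x z ≤ 30000 * c.K ∧ lam + 105 * c.K ≤ c.lv z ∧ c.lv z ≤ lam + 14040 * c.K ∧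
    (c.lv z ≤ lam + 4112 * c.K → ∃ e, ∃ z₀ ∈ c.Lg (lam + 4000 * c.K) D e,
      (e = D.rt q ∨ c.V0 (lam + 4000 * c.K) D e (D.rt q)) ∧ c.d z z₀ ≤ 3 * c.K) ∧
    ∀ h, h ≤ 100 * c.K → lam + 4000 * c.K + h + 6 * c.K ≤ c.lv z →
      Ch c.G 1 (c.Up (lam + 4000 * c.K + h)) z x

theorem legs_tok {x pp q : V} {W : Set V} (h1 : F q pp) (h2 : c.Sc (lam + 4000 * c.K) x q)
    (h3 : lam + 4220 * c.K ≤ c.lv x) (h4 : c.lv x ≤ lam + 14000 * c.K) (h5 : Conn c.G 1 W)
    (h6 : x ∈ W) (h7 : q ∈ W) (h8 : ∀ z ∈ W, c.legsGood lam D x q z) : c.Tok lam F D x pp q W :=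
  ⟨h1, h2, h3, h4, h5, h6, h7, fun z hz => (h8 z hz).1, fun z hz => (h8 z hz).2.1,
    fun z hz => (h8 z hz).2.2.1, fun z hz => (h8 z hz).2.2.2.1,
    fun h hh z hz => (h8 z hz).2.2.2.2 h hh⟩

/-- Points of a vertical. -/
theorem legs_vert (s : c.St lam ρ F ρ' F' D) {x y q : V} {k : ℕ}
    (y1 : lam + 4000 * c.K ≤ c.lv y) (y2 : c.lv y ≤ lam + 14000 * c.K)
    (y3 : Ch c.G 1 (c.Up (lam + 4100 * c.K)) y x) (k1 : lam + 105 * c.K ≤ k) (k2 : k ≤ c.lv y)
    (k3 : c.d x (c.σ y k) ≤ 30000 * c.K)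
    (k4 : k ≤ lam + 4112 * c.K → D.rt (c.σ y (lam + 4000 * c.K)) = D.rt q ∨
      c.V0 (lam + 4000 * c.K) D (D.rt (c.σ y (lam + 4000 * c.K))) (D.rt q)) :
    c.legsGood lam D x q (c.σ y k) := by
  have he := s.env
  have hl := he.lev y k k2
  refine ⟨k3, by omega, by omega, fun h => ⟨_, c.σ y k, s.lev.seg_Lg he y1 y2 (by omega),
    k4 (by omega), by rw [d_self]; omega⟩, fun h h1 h2 => ?_⟩
  exact (he.ch_σ y (by omega) k2).symm.trans (y3.mono le_rfl (up_mono (by omega)))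

/-- Points of the ball. -/
theorem legs_ball (s : c.St lam ρ F ρ' F' D) {t q z : V} (ht : c.lv t = lam + 14000 * c.K)
    (hz : z ∈ Nb c.G (3042 * c.K) {c.σ t (lam + 10000 * c.K)}) : c.legsGood lam D t q z := by
  have he := s.env
  have hK := he.one
  have h1 := mem_ball.1 hz
  have h2 := he.lev t (lam + 10000 * c.K) (by omega)
  have h3 := he.lip (c.σ t (lam + 10000 * c.K)) z
  have h4 := he.lip' (c.σ t (lam + 10000 * c.K)) z
  have h5 := he.dσ' t (s := c.lv t) (t := lam + 10000 * c.K) (n := 4000 * c.K) (by omega)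
    (by omega)
  rw [he.top] at h5
  have h6 := he.tri t (c.σ t (lam + 10000 * c.K)) z
  refine ⟨by omega, by omega, by omega, fun h => by omega, fun h h7 _ => ?_⟩
  exact ((he.ch_σ t (by omega) (by omega)).trans
    (he.ch_up (a := c.σ t (lam + 10000 * c.K)) (b := z) (by omega))).symm

theorem legs_dtop (he : c.Env) (t : V) {k n : ℕ} (h1 : c.lv t ≤ k + n) (h2 : k ≤ c.lv t) :
    c.d t (c.σ t k) ≤ n := by
  have := he.dσ' t (s := c.lv t) (t := k) (n := n) h1 (by omega)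
  rwa [he.top] at this

theorem legs_F (s : c.St lam ρ F ρ' F' D) {t u : V} (ht : c.lv t = lam + 14000 * c.K)
    (h : F (c.σ t (lam + 4000 * c.K)) (c.σ u (lam + 4000 * c.K))) :
    ∃ q W, c.Tok lam F D t (c.σ u (lam + 4000 * c.K)) q W ∧ c.Cap lam t ⊆ W := by
  have he := s.env
  refine ⟨c.σ t (lam + 4000 * c.K), Seg c.σ t (lam + 4000 * c.K) (lam + 14000 * c.K) ∪
    Nb c.G (3042 * c.K) {c.σ t (lam + 10000 * c.K)}, legs_tok h
    ⟨by omega, he.ch_σ t le_rfl (by omega)⟩ (by omega) ht.le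
    ((he.conn_seg _ _ _).union' (he.conn_ball _ _) (mem_seg t (by omega) (by omega))
      (subset_nb _ _ _ rfl))
    (Or.inl ⟨_, by omega, le_rfl, he.stop t _ ht.le⟩) (Or.inl (mem_seg t le_rfl (by omega))) ?_, ?_⟩
  · rintro z (⟨k, k1, k2, rfl⟩ | hz)
    · exact legs_vert s (by omega) ht.le (Ch.refl t) (by omega) (by omega)
        (legs_dtop he t (by omega) (by omega)) fun _ => Or.inl rfl
    · exact legs_ball s ht hz
  · rintro z (⟨k, k1, k2, rfl⟩ | hz)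
    · exact Or.inl (mem_seg t (by omega) k2)
    · exact Or.inr hz

theorem legs_D (s : c.St lam ρ F ρ' F' D) {t u : V} (hb : c.Bc (lam + 14000 * c.K) t u)
    (h : c.D (lam + 10000 * c.K) t u < 200 * c.K) :
    ∃ q W, c.Tok lam F D t (c.σ u (lam + 4000 * c.K)) q W ∧ c.Cap lam t ⊆ W := by
  have he := s.env
  have hK := he.one
  have ht := hb.1
  have hu := hb.2.1
  have h' : c.d (c.σ t (lam + 10000 * c.K)) (c.σ u (lam + 10000 * c.K)) < 200 * c.K := h
  refine ⟨c.σ u (lam + 4000 * c.K), c.Cap lam t ∪ Seg c.σ u (lam + 4000 * c.K) (lam + 10000 * c.K),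
    legs_tok (s.pv.refl (he.lev u _ (by omega)))
    ⟨by omega, (hb.2.2.mono le_rfl (up_mono (by omega))).trans (he.ch_σ u le_rfl (by omega))⟩
    (by omega) ht.le
    (((he.conn_seg _ _ _).union' (he.conn_ball _ _) (mem_seg t le_rfl (by omega))
      (subset_nb _ _ _ rfl)).union' (he.conn_seg _ _ _) (Or.inr (mem_ball.2 (by omega)))
      (mem_seg u (i := lam + 10000 * c.K) (by omega) le_rfl))
    (Or.inl (Or.inl ⟨_, by omega, le_rfl, he.stop t _ ht.le⟩))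
    (Or.inr (mem_seg u le_rfl (by omega))) ?_, Set.subset_union_left⟩
  rintro z ((⟨k, k1, k2, rfl⟩ | hz) | ⟨k, k1, k2, rfl⟩)
  · exact legs_vert s (by omega) ht.le (Ch.refl t) (by omega) (by omega)
      (legs_dtop he t (by omega) (by omega)) fun _ => by omega
  · exact legs_ball s ht hz
  · refine legs_vert s (by omega) hu.le (hb.2.2.symm.mono le_rfl (up_mono (by omega)))
      (by omega) (by omega) ?_ fun _ => Or.inl rfl
    have h1 := legs_dtop he t (k := lam + 10000 * c.K) (n := 4000 * c.K) (by omega) (by omega)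
    have h2 := he.dσ' u (s := lam + 10000 * c.K) (t := k) (n := 6000 * c.K) (by omega) (by omega)
    have h3 := he.tri t (c.σ t (lam + 10000 * c.K)) (c.σ u k)
    have h4 := he.tri (c.σ t (lam + 10000 * c.K)) (c.σ u (lam + 10000 * c.K)) (c.σ u k)
    omega

theorem legs_Cl (s : c.St lam ρ F ρ' F' D) {t u : V} (hb : c.Bc (lam + 14000 * c.K) t u)
    {i j : ℕ} (i1 : lam + 111 * c.K ≤ i) (i2 : i ≤ lam + 14000 * c.K) (j1 : lam + 111 * c.K ≤ j)
    (j2 : j ≤ lam + 14000 * c.K) (h : c.d (c.σ t i) (c.σ u j) < 6 * c.K) :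
    ∃ q W, c.Tok lam F D t (c.σ u (lam + 4000 * c.K)) q W ∧ c.Cap lam t ⊆ W := by
  have he := s.env
  have hK := he.one
  have ht := hb.1
  have hu := hb.2.1
  have li := he.lev t i (by omega)
  have lj := he.lev u j (by omega)
  have hf : c.Bc (lam + 4000 * c.K) (c.σ t (lam + 4000 * c.K)) (c.σ u (lam + 4000 * c.K)) :=
    he.bc_feet (by omega) (hb.2.2.mono le_rfl (up_mono (by omega)))
  have gt := s.lev.seg_Lg he (t := t) (by omega) ht.le (i := i) (by omega)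
  have gu := s.lev.seg_Lg he (t := u) (by omega) hu.le (i := j) (by omega)
  have jump : i ≤ lam + 4200 * c.K → c.V0 (lam + 4000 * c.K) D (D.rt (c.σ t (lam + 4000 * c.K)))
      (D.rt (c.σ u (lam + 4000 * c.K))) := fun hi => by
    have := he.lip (c.σ t i) (c.σ u j)
    exact Or.inr ⟨(s.lev.rtX _ hf.1).1, (s.lev.rtX _ hf.2.1).1, s.lev.sgC _ _ hf, _, gt, _, gu,
      by omega, by omega, by omega⟩
  have d1 := legs_dtop he t (k := i) (n := 14000 * c.K) (by omega) (by omega)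
  refine ⟨c.σ u (lam + 4000 * c.K),
    ((Seg c.σ t (min i (lam + 10000 * c.K)) (lam + 14000 * c.K) ∪
      Nb c.G (3042 * c.K) {c.σ t (lam + 10000 * c.K)}) ∪ c.I (c.σ t i) (c.σ u j)) ∪
      Seg c.σ u (min j (lam + 4000 * c.K)) (max j (lam + 4000 * c.K)),
    legs_tok (s.pv.refl hf.2.1)
    ⟨by omega, (hb.2.2.mono le_rfl (up_mono (by omega))).trans (he.ch_σ u le_rfl (by omega))⟩
    (by omega) ht.le
    ((((he.conn_seg _ _ _).union' (he.conn_ball _ _)
      (mem_seg t (i := lam + 10000 * c.K) (by omega) (by omega))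
      (subset_nb _ _ _ rfl)).union' (he.conn_I _ _) (Or.inl (mem_seg t (by omega) i2))
      (left_I _ _)).union' (he.conn_seg _ _ _) (Or.inr (right_I _ _))
      (mem_seg u (by omega) (by omega)))
    (Or.inl (Or.inl (Or.inl ⟨_, by omega, le_rfl, he.stop t _ ht.le⟩)))
    (Or.inr (mem_seg u (by omega) (by omega))) ?_, ?_⟩
  · rintro z (((⟨k, k1, k2, rfl⟩ | hz) | hz) | ⟨k, k1, k2, rfl⟩)
    · exact legs_vert s (by omega) ht.le (Ch.refl t) (by omega) (by omega)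
        (legs_dtop he t (by omega) (by omega)) fun _ => Or.inr (jump (by omega))
    · exact legs_ball s ht hz
    · have h1 := mem_I hz
      have h2 := he.lip (c.σ t i) z
      have h3 := he.lip' (c.σ t i) z
      have h4 := he.tri t (c.σ t i) z
      have h5 := d_comm (c := c) z (c.σ t i)
      refine ⟨by omega, by omega, by omega, fun hl => ?_, fun g g1 g2 => ?_⟩
      · by_cases h6 : c.d z (c.σ u j) ≤ 3 * c.K
        · exact ⟨_, _, gu, Or.inl rfl, h6⟩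
        · exact ⟨_, _, gt, Or.inr (jump (by omega)), by omega⟩
      · exact (he.ch_up (a := z) (b := c.σ t i) (by omega)).trans
          (he.ch_σ t (by omega) (by omega)).symm
    · refine legs_vert s (by omega) hu.le (hb.2.2.symm.mono le_rfl (up_mono (by omega)))
        (by omega) (by omega) ?_ fun _ => Or.inl rfl
      have h2 := he.dσ' u (s := j) (t := k) (n := 14000 * c.K) (by omega) (by omega)
      have h3 := he.tri t (c.σ t i) (c.σ u k)
      have h4 := he.tri (c.σ t i) (c.σ u j) (c.σ u k)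
      omega
  · rintro z (⟨k, k1, k2, rfl⟩ | hz)
    · exact Or.inl (Or.inl (Or.inl (mem_seg t (by omega) k2)))
    · exact Or.inl (Or.inl (Or.inr hz))

theorem legs_core (s : c.St lam ρ F ρ' F' D) (t u : V) (hb : c.Bc (lam + 14000 * c.K) t u)
    (h : c.Inv lam F t u) :
    ∃ q W, c.Tok lam F D t (c.σ u (lam + 4000 * c.K)) q W ∧ c.Cap lam t ⊆ W := by
  have he := s.env
  have ht := hb.1
  have hu := hb.2.1
  rcases h with h | h | h
  · exact legs_D s hb h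
  · exact legs_F s ht h
  · obtain ⟨_, ⟨i, i1, i2, rfl⟩, _, ⟨j, j1, j2, rfl⟩, hd⟩ := cl_iff.1 h
    by_cases hij : lam + 111 * c.K ≤ i ∧ lam + 111 * c.K ≤ j
    · exact legs_Cl s hb hij.1 i2 hij.2 j2 hd
    · refine legs_F s ht (s.pv.close _ _
        (he.bc_feet (by omega) (hb.2.2.mono le_rfl (up_mono (by omega)))) ?_)
      have li := he.lev t i (by omega)
      have lj := he.lev u j (by omega)
      have h1 := he.lip (c.σ t i) (c.σ u j)
      have h2 := he.lip' (c.σ t i) (c.σ u j)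
      have h3 := he.dσ' t (s := lam) (t := i) (n := 117 * c.K) (by omega) (by omega)
      have h4 := he.dσ' u (s := j) (t := lam) (n := 117 * c.K) (by omega) (by omega)
      have h5 := he.tri (c.σ t lam) (c.σ t i) (c.σ u lam)
      have h6 := he.tri (c.σ t i) (c.σ u j) (c.σ u lam)
      unfold Cx.D
      rw [he.coh t _ _ (by omega), he.coh u _ _ (by omega)]
      omega

theorem legs_tiny (s : c.St lam ρ F ρ' F' D) (u w : V) (h : c.Arch (lam + 4000 * c.K) u w) :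
    c.Tok lam F D u (c.σ u (lam + 4000 * c.K)) (c.σ u (lam + 4000 * c.K))
      (Seg c.σ u (lam + 4000 * c.K) (c.lv u) ∪ c.I u w) := by
  have he := s.env
  have hK := he.one
  obtain ⟨h1, h2, -, -, h5⟩ := h
  refine legs_tok (s.pv.refl (he.lev u _ (by omega))) ⟨by omega, he.ch_σ u le_rfl (by omega)⟩
    (by omega) (by omega)
    ((he.conn_seg _ _ _).union' (he.conn_I _ _) ⟨_, by omega, le_rfl, he.top u⟩ (left_I _ _))
    (Or.inr (left_I _ _)) (Or.inl (mem_seg u le_rfl (by omega))) ?_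
  rintro z (⟨k, k1, k2, rfl⟩ | hz)
  · exact legs_vert s (by omega) (by omega) (Ch.refl u) (by omega) k2
      (legs_dtop he u (by omega) k2) fun _ => Or.inl rfl
  · have h6 := mem_I hz
    have h7 := he.lip u z
    have h8 := he.lip' u z
    exact ⟨by omega, by omega, by omega, fun hl => by omega,
      fun g g1 _ => (he.ch_up (a := u) (b := z) (by omega)).symm⟩

end Cx

theorem legsStmt : LegsStmt.{u} := fun _ _ _ _ _ _ _ _ s =>
  ⟨Cx.legs_core s, Cx.legs_tiny s⟩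

end Pool.Agent.Lib.MP_f9389f_co.SC
end

-- part Pool.Agent.Lib.MP_f9389f_co.SC.CoreD
section

/-! Choices for the child cores. -/

namespace Pool.Agent.Lib.MP_f9389f_co.SC

universe u

open SimpleGraph

section

variable {V : Type u} {c : Cx V} {lam : ℕ} {ρ ρ' : V → ℕ} {F F' : V → V → Prop} {D : LD V}
  {H E : SimpleGraph ℕ}

/-- The choices for one child core. -/
structure CoreAt (c : Cx V) (lam : ℕ) (F : V → V → Prop) (ρ' : V → ℕ) (D : LD V)
    (H E : SimpleGraph ℕ) (t₀ : V) (lg : Prop) (pp q : V → V) (W : V → Set V) (T : ℕ × ℕ)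
    (lr val : V → ℕ) : Prop where
  sep : ∀ t r s v, c.Bc (lam + 14000 * c.K) t₀ t → c.Bc (lam + 14000 * c.K) t₀ r →
    c.Bc (lam + 14000 * c.K) t₀ s → c.Bc (lam + 14000 * c.K) t₀ v →
    (Sep (lr t) (lr r) (lr s) (lr v) ↔ Sep (ρ' t) (ρ' r) (ρ' s) (ρ' v))
  inj : ∀ t r, c.Bc (lam + 14000 * c.K) t₀ t → c.Bc (lam + 14000 * c.K) t₀ r → lr t = lr r → t = r
  small : ¬ lg → ∀ t r, val t = val r
  valX : ∀ t, c.Bc (lam + 14000 * c.K) t₀ t → val t ∈ D.X ∧
    Near H 3700000 (D.rt (c.σ t (lam + 4000 * c.K))) (val t)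
  tok : lg → ∀ t, c.Bc (lam + 14000 * c.K) t₀ t → c.Cap lam t ⊆ W t ∧
    c.Tok lam F D t (pp t) (q t) (W t) ∧ IsTop E D.X T ∧ val t = proj E D.X T (D.rt (pp t)) ∧
    Near H 1700 (D.rt (c.σ t (lam + 4000 * c.K))) (val t)
  obj : lg → ∀ t r, c.Bc (lam + 14000 * c.K) t₀ t → c.Bc (lam + 14000 * c.K) t₀ r →
    lr t ≤ lr r → D.rt (pp t) ≤ D.rt (pp r)
  ref : lg → ∃ a : Fin 4 → V, (∀ i, c.Bc (lam + 14000 * c.K) t₀ (a i)) ∧
    ∀ i k, i ≠ k → ¬ Near E 1920 (val (a i)) (val (a k))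

/-- Related verticals have near feet. -/
theorem coreD_near (hS : c.St lam ρ F ρ' F' D) (hO : (c.band (lam + 4000 * c.K) D).HOut H E)
    (hG : c.BandG (lam + 4000 * c.K) D H) {t u : V} (h : c.Bc (lam + 14000 * c.K) t u)
    (hi : c.Inv lam F t u) :
    Near H 55 (D.rt (c.σ t (lam + 4000 * c.K))) (D.rt (c.σ u (lam + 4000 * c.K))) := by
  have he := hS.env
  have h1 := h.1
  have h2 := h.2.1
  rcases hi with hi | hi | hi
  · have h3 : c.d (c.σ t (lam + 10000 * c.K)) (c.σ u (lam + 10000 * c.K)) < 200 * c.K := hi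
    have := hG.jump 11 _ _ (h3.le.trans (by omega)) fun v hv => by
      have k1 := Cx.mem_I hv
      have k2 := he.lip (c.σ t (lam + 10000 * c.K)) v
      have k3 := he.lip' (c.σ t (lam + 10000 * c.K)) v
      have k4 := he.lev t (lam + 10000 * c.K) (by omega)
      omega
    rwa [he.coh t _ _ (by omega), he.coh u _ _ (by omega)] at this
  · exact (hO.e1.near _ _ (hO.ok.v0M _ _ (hS.lev.v0_of_F hS.pv he.one hi))).mono (by omega)
  · obtain ⟨_, ⟨i, k1, k2, rfl⟩, _, ⟨j, k3, k4, rfl⟩, k5⟩ := Cx.cl_iff.1 hi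
    have hb := he.bc_feet (n := lam + 4000 * c.K) (by omega)
      (h.2.2.mono le_rfl (Cx.up_mono (by omega)))
    have k6 := he.lev_le t i
    have k7 := he.lev_le u j
    refine (hO.e1.near _ _ (Or.inr ⟨(hS.lev.rtX _ hb.1).1, (hS.lev.rtX _ hb.2.1).1,
      hS.lev.sgC _ _ hb, _, hS.lev.seg_Lg he (by omega) (by omega) k1, _,
      hS.lev.seg_Lg he (by omega) (by omega) k3, by omega, by omega, by omega⟩)).mono (by omega)

theorem coreD_at (hStepA : StepAStmt.{u}) (hPath : PathStmt) (hFace : FaceStmt)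
    (hS : c.St lam ρ F ρ' F' D) (hO : (c.band (lam + 4000 * c.K) D).HOut H E)
    (hG : c.BandG (lam + 4000 * c.K) D H) (hQ : c.Quad lam ρ' F D) (hL : c.Legs lam F D)
    (hC : CoreFace (c.band (lam + 4000 * c.K) D) H E) (t₀ : V) :
    ∃ lg pp q W T lr val, CoreAt c lam F ρ' D H E t₀ lg pp q W T lr val := by
  have he := hS.env
  have e1 : lam + 4000 * c.K + 10000 * c.K = lam + 14000 * c.K := by omega
  have e2 : lam + 10000 * c.K + 4000 * c.K = lam + 14000 * c.K := by omega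
  have sc : (c.band (lam + 4000 * c.K) D).Sc = c.Bc (lam + 14000 * c.K) := by
    rw [← e1]
    rfl
  have inj : ∀ t r, c.Bc (lam + 14000 * c.K) t₀ t → c.Bc (lam + 14000 * c.K) t₀ r →
      ρ' t = ρ' r → t = r := fun t r h1 h2 => hS.pv'.inj t r (e2 ▸ h1.symm.trans h2)
  have pX : ∀ t, c.lv t = lam + 14000 * c.K → D.rt (c.σ t (lam + 4000 * c.K)) ∈ D.X :=
    fun t h => (hS.lev.rtX _ (he.lev t _ (by omega))).1
  by_cases hl : (c.band (lam + 4000 * c.K) D).Large H t₀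
  swap
  · refine ⟨False, id, id, fun _ => ∅, (0, 0), ρ', fun _ => D.rt (c.σ t₀ (lam + 4000 * c.K)),
      fun _ _ _ _ _ _ _ _ => Iff.rfl, inj, fun _ _ _ => rfl, fun t ht => ⟨pX _ ht.1, ?_⟩,
      False.elim, False.elim, False.elim⟩
    by_contra k
    exact hl ⟨t, t₀, sc ▸ ht, sc ▸ Cx.Bc.refl ht.1, k⟩
  obtain ⟨a, ha, ha'⟩ := hC.refs t₀ hl
  obtain ⟨T, hT, hT'⟩ := hC.face t₀ hl
  rw [sc] at ha hT'
  have fin : {t | c.Bc (lam + 14000 * c.K) t₀ t}.Finite :=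
    (he.fin (lam + 14000 * c.K)).subset fun t ht => ht.2.1.le
  have mem : ∀ {t}, t ∈ fin.toFinset ↔ c.Bc (lam + 14000 * c.K) t₀ t := fin.mem_toFinset
  have nr : ∀ {t u}, c.Bc (lam + 14000 * c.K) t₀ t → c.Bc (lam + 14000 * c.K) t₀ u →
      ¬ Near H 605000 (D.rt (c.σ t (lam + 4000 * c.K))) (D.rt (c.σ u (lam + 4000 * c.K))) →
      ¬ c.Inv lam F t u := fun h1 h2 k hi =>
    k ((coreD_near hS hO hG (h1.symm.trans h2) hi).mono (by omega))
  obtain ⟨lr, s, h1, h2, h3, h4⟩ := hStepA V fin.toFinset ρ'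
    (fun t => D.rt (c.σ t (lam + 4000 * c.K))) (Near H 605000) a
    (fun t ht r hr => inj t r (mem.1 ht) (mem.1 hr)) (Near.refl _ _) (fun _ _ => Near.symm)
    (fun i => mem.2 (ha i)) (fun x i k k1 k2 => by_contra fun e => ha' i k e (k1.symm.trans k2))
    fun t ht t' ht' u hu u' hu' k1 k2 k3 k4 => by
      rw [mem] at ht ht' hu hu'
      simp only [Cr, not_or] at k3
      obtain ⟨k5, k6, k7, k8⟩ := k3
      have n5 := nr ht hu k5
      have n6 := nr ht hu' k6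
      have n7 := nr ht' hu k7
      have n8 := nr ht' hu' k8
      by_contra k
      rcases hQ t t' u u' (ht.symm.trans ht') (ht.symm.trans hu) (ht.symm.trans hu')
        (not_lt.1 fun j => nr ht ht' k1 (Or.inl j)) (not_lt.1 fun j => nr hu hu' k2 (Or.inl j))
        (by
          rintro (j | j | j | j)
          exacts [n5 (Or.inl j), n6 (Or.inl j), n7 (Or.inl j), n8 (Or.inl j)]) k k4 with
        j | j | j | j
      exacts [n5 (Or.inr j), n6 (Or.inr j), n7 (Or.inr j), n8 (Or.inr j)]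
  have hs : ∀ t, c.Bc (lam + 14000 * c.K) t₀ t →
      c.Bc (lam + 14000 * c.K) t₀ (s t) ∧ c.Inv lam F t (s t) := fun t ht => by
    obtain ⟨k1, k2⟩ := h4 t (mem.2 ht)
    rw [mem] at k1
    refine ⟨k1, ?_⟩
    rcases k2 with k2 | ⟨-, x, hx, y, hy, k3, k4, k5, k6, k7, k8, k9⟩
    · have := he.one
      rw [k2]
      exact Or.inl (by rw [Cx.D, Cx.d_self]; omega)
    rw [mem] at hx hy
    have n4 := nr ht hy k4
    have n5 := nr hx k1 fun j => k5 j.symm
    have n7 := nr hx hy k7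
    by_contra k
    rcases hQ t x (s t) y (ht.symm.trans hx) (ht.symm.trans k1) (ht.symm.trans hy)
      (not_lt.1 fun j => nr ht hx k3 (Or.inl j)) (not_lt.1 fun j => nr k1 hy k6 (Or.inl j))
      (by
        rintro (j | j | j | j)
        exacts [k (Or.inl j), n4 (Or.inl j), n5 (Or.inl j), n7 (Or.inl j)]) k8 k9 with
      j | j | j | j
    exacts [k (Or.inr j), n4 (Or.inr j), n5 (Or.inr j), n7 (Or.inr j)]
  have h5 : ∀ t, ∃ q W, c.Bc (lam + 14000 * c.K) t₀ t →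
      c.Tok lam F D t (c.σ (s t) (lam + 4000 * c.K)) q W ∧ c.Cap lam t ⊆ W := fun t => by
    by_cases ht : c.Bc (lam + 14000 * c.K) t₀ t
    · obtain ⟨q, W, k⟩ := hL.core t (s t) (ht.symm.trans (hs t ht).1) (hs t ht).2
      exact ⟨q, W, fun _ => k⟩
    · exact ⟨t, ∅, fun k => absurd k ht⟩
  choose q W h5 using h5
  have h6 : ∀ t, c.Bc (lam + 14000 * c.K) t₀ t → Near H 1700 (D.rt (c.σ t (lam + 4000 * c.K)))
      (proj E D.X T (D.rt (c.σ (s t) (lam + 4000 * c.K)))) := fun t ht =>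
    hT' t _ ht (pX _ (hs t ht).1.2.1)
      (coreD_near hS hO hG (ht.symm.trans (hs t ht).1) (hs t ht).2)
  refine ⟨True, fun t => c.σ (s t) (lam + 4000 * c.K), q, W, T, lr,
    fun t => proj E D.X T (D.rt (c.σ (s t) (lam + 4000 * c.K))),
    fun t r u v k1 k2 k3 k4 => h2 t (mem.2 k1) r (mem.2 k2) u (mem.2 k3) v (mem.2 k4),
    fun t r k1 k2 => h1 (mem.2 k1) (mem.2 k2), fun k => absurd trivial k,
    fun t ht => ⟨(hFace.mem E _ T _ hO.nc hT (pX _ (hs t ht).1.2.1)).1, (h6 t ht).mono (by omega)⟩,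
    fun _ t ht => ⟨(h5 t ht).2, (h5 t ht).1, hT, rfl, h6 t ht⟩,
    fun _ t r k1 k2 => h3 t (mem.2 k1) r (mem.2 k2), fun _ => ⟨a, ha, fun i k e j => ?_⟩⟩
  have := hPath.lip ℕ ℕ E H id 624 1920 _ _ hO.cv j
  exact ha' i k e ((((h6 _ (ha i)).trans this).trans (h6 _ (ha k)).symm).mono (by omega))

end

theorem coreDStmt (hStepA : StepAStmt.{u}) (hQuad : QuadStmt.{u}) (hLegs : LegsStmt.{u})
    (hBandG : BandGStmt.{u}) (hCoreFace : CoreFaceStmt.{u}) (hPath : PathStmt) (hFace : FaceStmt)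
    (hRank : RankStmt.{u}) : CoreDStmt.{u} := by
  intro V c lam ρ F ρ' F' D H E hS hO
  have _ := hRank
  choose lg pp q W T lr val h using coreD_at hStepA hPath hFace hS hO
    (hBandG V c lam ρ F D H hS.env hS.lev hO.e1) (hQuad V c lam ρ F ρ' F' D hS)
    (hLegs V c lam ρ F ρ' F' D hS) (hCoreFace V _ H E hO)
  have : Nonempty V := ⟨c.o⟩
  obtain ⟨rep, r1, r2⟩ : ∃ rep : V → V,
      (∀ t, c.lv t = lam + 14000 * c.K → c.Bc (lam + 14000 * c.K) (rep t) t) ∧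
      ∀ t r, c.Bc (lam + 14000 * c.K) t r → rep r = rep t :=
    ⟨fun t => Classical.epsilon (c.Bc (lam + 14000 * c.K) t),
      fun t ht => (Classical.epsilon_spec ⟨t, Cx.Bc.refl ht⟩).symm,
      fun t r k => congrArg _ (funext fun _ => propext ⟨k.trans, k.symm.trans⟩)⟩
  refine ⟨fun t => ¬ lg (rep t), fun t => pp (rep t) t, fun t => q (rep t) t,
    fun t => W (rep t) t, fun t => T (rep t), fun t => lr (rep t) t, fun t => val (rep t) t,
    fun t r s v k1 k2 k3 => ?_, fun t r k => ?_, fun t r k e => ?_,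
    fun t ht => (h _).valX t (r1 t ht), fun t ht e => (h _).tok (not_not.1 e) t (r1 t ht),
    fun t r k e => ?_, fun t ht e => ?_⟩
  · have k := r1 t k1.1
    rw [r2 t r k1, r2 t s k2, r2 t v k3]
    exact (h _).sep t r s v k (k.trans k1) (k.trans k2) (k.trans k3)
  · rw [r2 t r k]
    exact (h _).inj t r (r1 t k.1) ((r1 t k.1).trans k)
  · rw [r2 t r k]
    exact ⟨e, (h _).small e t r⟩
  · rw [r2 t r k]
    exact ⟨rfl, (h _).obj (not_not.1 e) t r (r1 t k.1) ((r1 t k.1).trans k)⟩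
  · obtain ⟨a, k1, k2⟩ := (h _).ref (not_not.1 e)
    have k3 := fun i => (r1 t ht).symm.trans (k1 i)
    refine ⟨a, k3, fun i k j => ?_⟩
    rw [r2 t _ (k3 i), r2 t _ (k3 k)]
    exact k2 i k j

end Pool.Agent.Lib.MP_f9389f_co.SC
end

-- part Pool.Agent.Lib.MP_f9389f_co.SC.Tiny
section

/-! Tiny blocks. -/

namespace Pool.Agent.Lib.MP_f9389f_co.SC

universe u

open SimpleGraph

/-- A maximal independent subset of a finite set. -/
theorem tiny_max {α : Type u} (R : α → α → Prop) (hs : ∀ x y, R x y → R y x) (C : Finset α) :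
    ∃ Y : Finset α, (∀ y ∈ Y, y ∈ C) ∧ (∀ x ∈ Y, ∀ y ∈ Y, x ≠ y → ¬ R x y) ∧
      ∀ k ∈ C, k ∈ Y ∨ ∃ y ∈ Y, R k y := by
  classical
  induction C using Finset.induction_on with
  | empty => exact ⟨∅, by simp, by simp, by simp⟩
  | insert a s _ ih =>
    obtain ⟨Y, h1, h2, h3⟩ := ih
    by_cases e : ∃ y ∈ Y, R a y
    · refine ⟨Y, fun y hy => Finset.mem_insert_of_mem (h1 y hy), h2, fun k hk => ?_⟩
      rcases Finset.mem_insert.1 hk with rfl | hk
      exacts [Or.inr e, h3 k hk]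
    · refine ⟨insert a Y, fun y hy => ?_, fun x hx y hy hxy => ?_, fun k hk => ?_⟩
      · rcases Finset.mem_insert.1 hy with rfl | hy
        exacts [Finset.mem_insert_self _ _, Finset.mem_insert_of_mem (h1 y hy)]
      · rcases Finset.mem_insert.1 hx with hx' | hx' <;>
          rcases Finset.mem_insert.1 hy with hy' | hy'
        exacts [absurd (hx'.trans hy'.symm) hxy, fun r => e ⟨y, hy', hx' ▸ r⟩,
          fun r => e ⟨x, hx', hy' ▸ hs _ _ r⟩, h2 x hx' y hy' hxy]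
      · rcases Finset.mem_insert.1 hk with rfl | hk
        · exact Or.inl (Finset.mem_insert_self _ _)
        · rcases h3 k hk with h | ⟨y, hy, h⟩
          exacts [Or.inl (Finset.mem_insert_of_mem h), Or.inr ⟨y, Finset.mem_insert_of_mem hy, h⟩]

/-- An end of a short pair with far projections is near its projection. -/
theorem tiny_near (hFace : FaceStmt) (hPath : PathStmt) {H E : SimpleGraph ℕ} {X : Finset ℕ}
    {T : ℕ × ℕ} {a e : ℕ} (hH : NC H) (hE : NCOn E X) (cv : ∀ a c, E.Adj a c → Near H 624 a c)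
    (hT : IsTop E X T) (ha : a ∈ X) (he : e ∈ X) (hn : Near H 10 a e)
    (hf : ¬ Near E 1920 (proj E X T a) (proj E X T e)) : Near H 1700 a (proj E X T a) := by
  by_cases h0 : a ∈ Face E X T
  · rw [hFace.fix E X T a h0]; exact Near.refl _ _ _
  obtain ⟨c, d, hcd, -, -, hb, -, -, -, b3⟩ := hFace.bey E X T a hE hT ha h0
  have hb' : Btw c d a ∨ Out c d a := hb.imp And.left And.left
  have hc := cv c d hcd
  have hp := b3 a ha (Or.inr (Or.inr (by unfold Sep Btw Out at *; omega)))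
  have hs : Sep c d a e := by
    by_contra hs
    have hq := b3 e he (by tauto)
    refine hf ?_
    rcases hp with hp | hp <;> rcases hq with hq | hq <;> rw [hp, hq]
    exacts [Near.refl _ _ _, (Near.of_adj hcd).mono (by norm_num),
      (Near.of_adj hcd.symm).mono (by norm_num), Near.refl _ _ _]
  have h1 := hPath.cut H 10 624 a e c d hH hn hc hs
  rcases hp with hp | hp <;> rw [hp]
  exacts [h1.mono (by norm_num), (h1.trans hc).mono (by norm_num)]

theorem tinyStmt (hFace : FaceStmt) (hPath : PathStmt) : TinyStmt.{u} := by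
  intro V c lam ρ F D H E he hl h
  set L := lam + 4000 * c.K with hL
  have hE : NCOn E D.X := h.nc
  have hfin : {k : V × V × (ℕ × ℕ) | c.Arch L k.1 k.2.1 ∧ IsTop E D.X k.2.2 ∧
      ¬ Near E 1920 (c.pf L D E k.2.2 k.1) (c.pf L D E k.2.2 k.2.1) ∧
      Near H 1700 (D.rt (c.σ k.1 L)) (c.pf L D E k.2.2 k.1) ∧
      Near H 1700 (D.rt (c.σ k.2.1 L)) (c.pf L D E k.2.2 k.2.1)}.Finite :=
    ((he.fin (L + 10000 * c.K)).prod ((he.fin (L + 10000 * c.K)).prod
      (hFace.fin E D.X hE))).subset fun k hk => ⟨hk.1.2.1, hk.1.2.2.2.1, hk.2.1⟩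
  obtain ⟨Y, y1, y2, y3⟩ := tiny_max (fun k k' : V × V × (ℕ × ℕ) => k.2.2 = k'.2.2 ∧
    ((Near E 480 (c.pf L D E k.2.2 k.1) (c.pf L D E k.2.2 k'.1) ∧
      Near E 480 (c.pf L D E k.2.2 k.2.1) (c.pf L D E k.2.2 k'.2.1)) ∨
    (Near E 480 (c.pf L D E k.2.2 k.1) (c.pf L D E k.2.2 k'.2.1) ∧
      Near E 480 (c.pf L D E k.2.2 k.2.1) (c.pf L D E k.2.2 k'.1)))) (by
    rintro ⟨u, w, T⟩ ⟨u', w', T'⟩ ⟨e, h1⟩
    dsimp only at e h1 ⊢
    subst e
    refine ⟨rfl, ?_⟩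
    rcases h1 with h1 | h1
    exacts [Or.inl ⟨h1.1.symm, h1.2.symm⟩, Or.inr ⟨h1.2.symm, h1.1.symm⟩]) hfin.toFinset
  refine ⟨Y, fun k hk => hfin.mem_toFinset.1 (y1 k hk), fun u w u' w' T h1 h2 h3 => ?_,
    fun T a e hT ⟨u, w, har, h1, h2⟩ hn => ?_⟩
  · have har : c.Arch L u w := (hfin.mem_toFinset.1 (y1 _ h1)).1
    have hne : (u, w, T) ≠ (u', w', T) := by
      intro e
      obtain rfl : u = u' := congrArg Prod.fst e
      exact h3 (Cx.Bc.refl (he.lev u L (by have := har.1; omega)))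
    have := y2 _ h1 _ h2 hne
    exact ⟨fun e => this ⟨rfl, Or.inl e⟩, fun e => this ⟨rfl, Or.inr e⟩⟩
  · by_cases hf : Near E 1920 (proj E D.X T a) (proj E D.X T e)
    · exact Or.inl hf
    right
    subst h1 h2
    have ha := (hl.rtX _ (he.lev u L (by have := har.1; omega))).1
    have hb := (hl.rtX _ (he.lev w L (by have := har.2.2.1; omega))).1
    have n1 := tiny_near hFace hPath h.e1.nc hE h.cv hT ha hb hn hf
    have n2 := tiny_near hFace hPath h.e1.nc hE h.cv hT hb ha hn.symm fun e => hf e.symm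
    rcases y3 (u, w, T) (hfin.mem_toFinset.2 ⟨har, hT, hf, n1, n2⟩) with e | ⟨⟨u', w', T'⟩, e, e1, e2⟩
    · exact ⟨u, w, e, Or.inl ⟨Near.refl _ _ _, Near.refl _ _ _⟩⟩
    · dsimp only at e1 e2
      subst e1
      exact ⟨u', w', e, e2⟩

end Pool.Agent.Lib.MP_f9389f_co.SC
end

-- part Pool.Agent.Lib.MP_f9389f_co.SC.TD
section

/-! The tokens. -/

namespace Pool.Agent.Lib.MP_f9389f_co.SC

universe u

open SimpleGraph

theorem td_code {ι κ : Type*} (Θ : Finset ι) (k : ι → κ) :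
    ∃ n : ι → ℕ, ∀ s ∈ Θ, ∀ t ∈ Θ, (n s = n t ↔ k s = k t) := by
  obtain ⟨f, hf⟩ := Set.countable_iff_exists_injOn.1 (Θ.finite_toSet.image k).countable
  exact ⟨fun s => f (k s), fun s hs t ht =>
    ⟨fun e => hf ⟨s, hs, rfl⟩ ⟨t, ht, rfl⟩ e, fun e => congrArg f e⟩⟩

theorem td_refl {α : Type*} (E : SimpleGraph α) (n : ℕ) {a b : α} (h : a = b) : Near E n a b :=
  h ▸ ⟨.nil, Nat.zero_le _⟩

theorem td_symm {α : Type*} {E : SimpleGraph α} {n : ℕ} {a b : α} (h : Near E n a b) :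
    Near E n b a := by
  obtain ⟨p, hp⟩ := h
  exact ⟨p.reverse, by simpa using hp⟩

theorem td_mem {H : SimpleGraph ℕ} {X : Finset ℕ} (h : ∀ a b, H.Adj a b → a ∈ X) {n a b : ℕ}
    (k : Near H n a b) (ha : a ∈ X) : b ∈ X := by
  obtain ⟨p, -⟩ := k
  induction p with
  | nil => exact ha
  | cons e _ ih => exact ih (h _ _ e.symm)

theorem td_cls {V : Type u} {c : Cx V} {n : ℕ} {a b : V} (hb : c.lv b = n) :
    {r | c.Bc n a r} = {r | c.Bc n b r} ↔ c.Bc n a b :=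
  ⟨fun e => (Set.ext_iff.1 e b).2 (Cx.Bc.refl hb),
    fun e => Set.ext fun _ => ⟨e.symm.trans, e.trans⟩⟩

theorem td_arch {V : Type u} {c : Cx V} {L : ℕ} {u w : V} (h : c.Arch L u w) : c.Arch L w u :=
  ⟨h.2.2.1, h.2.2.2.1, h.1, h.2.1, Cx.d_comm u w ▸ h.2.2.2.2⟩

theorem tDStmt (hCoreD : CoreDStmt.{u}) (hTiny : TinyStmt.{u}) (hLegs : LegsStmt.{u})
    (hRank : RankStmt.{u}) : TDStmt.{u} := by
  classical
  intro V c lam ρ F ρ' F' D H E st ho
  obtain ⟨sm, pp, q, W, T, lr, val, C⟩ := hCoreD V c lam ρ F ρ' F' D H E st ho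
  obtain ⟨Y, hY⟩ := hTiny V c lam ρ F D H E st.env st.lev ho
  have lg := hLegs V c lam ρ F ρ' F' D st
  have he := st.env
  have fin : {t | c.lv t = lam + 14000 * c.K}.Finite := (he.fin _).subset fun _ h => le_of_eq h
  let x : V × V × (ℕ × ℕ) × Bool → V := fun k => bif k.2.2.2 then k.2.1 else k.1
  let L := lam + 4000 * c.K
  obtain ⟨Θ, h1, h2⟩ : ∃ Θ : Finset (V ⊕ (V × V × (ℕ × ℕ) × Bool)),
      (∀ t, Sum.inl t ∈ Θ ↔ c.lv t = lam + 14000 * c.K) ∧
      ∀ u w S β, Sum.inr (u, w, S, β) ∈ Θ ↔ (u, w, S) ∈ Y :=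
    ⟨fin.toFinset.disjSum ((Y ×ˢ Finset.univ).image fun k => (k.1.1, k.1.2.1, k.1.2.2, k.2)),
      by simp, fun u w S β => by
        simp only [Finset.inr_mem_disjSum, Finset.mem_image, Finset.mem_product, Finset.mem_univ,
          and_true, Prod.mk.injEq]
        exact ⟨by rintro ⟨k, hk, rfl, rfl, rfl, -⟩; exact hk, fun h => ⟨(_, β), h, rfl, rfl, rfl, rfl⟩⟩⟩
  let P : V ⊕ (V × V × (ℕ × ℕ) × Bool) → V := Sum.elim pp fun k => c.σ (x k) L
  obtain ⟨oid, ho1⟩ := td_code Θ (Sum.map (fun t => {r | c.Bc (lam + 14000 * c.K) t r})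
    fun k => (k.1, k.2.1, k.2.2.1))
  obtain ⟨pid, hp⟩ := td_code Θ fun τ => {r | c.Bc L (P τ) r}
  have oll : ∀ t r, Sum.inl t ∈ Θ → Sum.inl r ∈ Θ →
      (oid (.inl t) = oid (.inl r) ↔ c.Bc (lam + 14000 * c.K) t r) := fun t r ht hr => by
    rw [ho1 _ ht _ hr, Sum.map_inl, Sum.map_inl, Sum.inl.injEq, td_cls ((h1 r).1 hr)]
  have ol : ∀ t τ, Sum.inl t ∈ Θ → τ ∈ Θ → oid (.inl t) = oid τ →
      ∃ r, τ = .inl r ∧ c.Bc (lam + 14000 * c.K) t r := by
    rintro t (r | k) ht hr e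
    · exact ⟨r, rfl, (oll t r ht hr).1 e⟩
    · simpa using (ho1 _ ht _ hr).1 e
  have or : ∀ u w S β τ, Sum.inr (u, w, S, β) ∈ Θ → τ ∈ Θ → oid (.inr (u, w, S, β)) = oid τ →
      ∃ γ, τ = .inr (u, w, S, γ) := by
    rintro u w S β (r | ⟨u', w', S', γ⟩) ht hr e
    · simpa using (ho1 _ ht _ hr).1 e
    · have := (ho1 _ ht _ hr).1 e
      simp only [Sum.map_inr, Sum.inr.injEq, Prod.mk.injEq] at this
      obtain ⟨rfl, rfl, rfl⟩ := this
      exact ⟨γ, rfl⟩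
  have orr : ∀ u w S β γ, (u, w, S) ∈ Y → oid (.inr (u, w, S, β)) = oid (.inr (u, w, S, γ)) :=
    fun u w S β γ h => (ho1 _ ((h2 _ _ _ _).2 h) _ ((h2 _ _ _ _).2 h)).2 rfl
  have tk : ∀ u w S β, (u, w, S) ∈ Y → c.Tok lam F D (x (u, w, S, β)) (c.σ (x (u, w, S, β)) L)
      (c.σ (x (u, w, S, β)) L) (Seg c.σ (x (u, w, S, β)) L (c.lv (x (u, w, S, β))) ∪ c.I u w) ∧
      Near H 1700 (D.rt (c.σ (x (u, w, S, β)) L)) (c.pf L D E S (x (u, w, S, β))) := by
    intro u w S β h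
    obtain ⟨a1, -, -, a4, a5⟩ := hY.cand _ h
    cases β
    · exact ⟨lg.tiny u w a1, a4⟩
    · exact ⟨Cx.I_comm u w ▸ lg.tiny w u (td_arch a1), a5⟩
  have ch : ∀ u w S β γ, (u, w, S) ∈ Y →
      Ch c.G 1 (c.Up (lam + 4180 * c.K)) (x (u, w, S, β)) (x (u, w, S, γ)) := by
    intro u w S β γ h
    obtain ⟨a1, -, -, -, a5⟩ := (hY.cand _ h).1
    have k : Ch c.G 1 (c.Up (lam + 4180 * c.K)) u w := he.ch_up (by
      change _ ≤ c.lv u at a1
      change c.d u w < _ at a5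
      omega)
    cases β <;> cases γ
    exacts [Ch.refl _, k, k.symm, Ch.refl _]
  have far : ∀ u w S β, (u, w, S) ∈ Y →
      ¬ Near E 1920 (c.pf L D E S (x (u, w, S, β))) (c.pf L D E S (x (u, w, S, !β))) := by
    intro u w S β h
    have k := (hY.cand _ h).2.2.1
    cases β
    exacts [k, mt td_symm k]
  have ft : ∀ u w S β, (u, w, S) ∈ Y → c.Bc L (c.σ u L) (c.σ (x (u, w, S, β)) L) := by
    intro u w S β h
    have k := (tk u w S false h).1.xlo
    exact he.bc_feet (le_trans (by omega) k)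
      ((ch u w S false β h).mono le_rfl (Cx.up_mono (by omega)))
  have two : ∀ t, Sum.inl t ∈ Θ → ¬ sm t → ∀ τ, (∀ s ∈ Θ, oid s = oid (.inl t) →
      s = .inl t ∨ s = τ) → False := by
    intro t ht hs τ h
    obtain ⟨a, a1, a2⟩ := C.ref t ((h1 t).1 ht) hs
    have k : ∀ i, Sum.inl (a i) = .inl t ∨ Sum.inl (a i) = τ := fun i =>
      h _ ((h1 _).2 (a1 i).2.1) ((oll _ _ ((h1 _).2 (a1 i).2.1) ht).2 (a1 i).symm)
    have k2 : ∀ i j, i ≠ j → (Sum.inl (a i) : V ⊕ (V × V × (ℕ × ℕ) × Bool)) ≠ .inl (a j) :=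
      fun i j ij e => a2 i j ij (td_refl _ _ (by rw [Sum.inl.inj e]))
    rcases k 0 with e0 | e0 <;> rcases k 1 with e1 | e1 <;> rcases k 2 with e2 | e2 <;> first
      | exact k2 0 1 (by decide) (e0.trans e1.symm)
      | exact k2 0 2 (by decide) (e0.trans e2.symm)
      | exact k2 1 2 (by decide) (e1.trans e2.symm)
  refine ⟨⟨Θ, .inl, Sum.elim sm fun _ => False, oid, pid, Sum.elim id x, P,
    Sum.elim q fun k => c.σ (x k) L, Sum.elim W fun k => Seg c.σ (x k) L (c.lv (x k)) ∪ c.I k.1 k.2.1,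
    Sum.elim T fun k => k.2.2.1, Sum.elim lr fun k => D.rt (c.σ (x k) L),
    Sum.elim val fun k => c.pf L D E k.2.2.1 (x k)⟩, fun t ht => ⟨(h1 t).2 ht, rfl⟩,
    fun t r h => (oll t r ((h1 t).2 h.1) ((h1 r).2 h.2.1)).2 h, C.sep,
    fun t ht hs => (C.tok t ht hs).1, ?_, ?_, ?_, ?_, ?_, ?_, ?_, ?_, ?_, ?_⟩
  · rintro (t | k) ht τ hτ hs e
    · obtain ⟨r, rfl, hr⟩ := ol t τ ht hτ e
      exact ⟨(C.small t r hr hs).1, (C.small t r hr hs).2, rfl, hr⟩
    · exact hs.elim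
  · rintro (t | ⟨u, w, S, β⟩) ht τ hτ e e'
    · obtain ⟨r, rfl, hr⟩ := ol t τ ht hτ e
      exact congrArg _ (C.inj t r hr e')
    · obtain ⟨γ, rfl⟩ := or u w S β τ ht hτ e
      by_cases k : γ = β
      · rw [k]
      · obtain rfl : γ = !β := Bool.eq_not_of_ne k
        exact absurd (td_refl _ _ (congrArg (proj E D.X S) e')) (far u w S β ((h2 _ _ _ _).1 ht))
  · rintro (t | ⟨u, w, S, β⟩) ht
    · exact (C.valX t ((h1 t).1 ht)).1
    · obtain ⟨k1, k2⟩ := tk u w S β ((h2 _ _ _ _).1 ht)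
      exact td_mem ho.e1.mem k2 (st.lev.rtX _ (st.pv.sub _ _ k1.fq).1).1
  · rintro (t | ⟨u, w, S, β⟩) ht
    · have k := (h1 t).1 ht
      exact ⟨le_of_le_of_eq (by omega) k.symm, k.le, (C.valX t k).2⟩
    · obtain ⟨k1, k2⟩ := tk u w S β ((h2 _ _ _ _).1 ht)
      obtain ⟨p, hp⟩ := k2
      exact ⟨le_trans (by omega) k1.xlo, k1.xhi, p, hp.trans (by norm_num)⟩
  · rintro (t | ⟨u, w, S, β⟩) ht hs
    · exact (C.tok t ((h1 t).1 ht) hs).2
    · obtain ⟨k1, k2⟩ := tk u w S β ((h2 _ _ _ _).1 ht)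
      exact ⟨k1, (hY.cand _ ((h2 _ _ _ _).1 ht)).2.1, rfl, k2⟩
  · rintro (t | ⟨u, w, S, β⟩) ht τ hτ hs e
    · obtain ⟨r, rfl, hr⟩ := ol t τ ht hτ e
      exact ⟨(C.obj t r hr hs).1, hr.2.2.mono le_rfl (Cx.up_mono (by omega)), (C.obj t r hr hs).2⟩
    · obtain ⟨γ, rfl⟩ := or u w S β τ ht hτ e
      exact ⟨rfl, ch u w S β γ ((h2 _ _ _ _).1 ht), id⟩
  · intro τ hτ τ' hτ' _ hs
    refine (hp τ hτ τ' hτ').trans (td_cls ?_)
    rcases τ' with t | ⟨u, w, S, β⟩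
    · exact (st.pv.sub _ _ (C.tok t ((h1 t).1 hτ') hs).2.1.fq).2.1
    · exact (ft u w S β ((h2 _ _ _ _).1 hτ')).2.1
  · rintro (t | ⟨u, w, S, β⟩) ht hs
    · obtain ⟨a, a1, a2⟩ := C.ref t ((h1 t).1 ht) hs
      exact .inr ⟨fun i => .inl (a i), fun i => ⟨(h1 _).2 (a1 i).2.1,
        (oll _ _ ((h1 _).2 (a1 i).2.1) ht).2 (a1 i).symm⟩, a2⟩
    · have k := (h2 _ _ _ _).1 ht
      refine .inl ⟨.inr (u, w, S, !β), (h2 _ _ _ _).2 k, orr _ _ _ _ _ k, far u w S β k,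
        fun s hs e => ?_⟩
      obtain ⟨γ, rfl⟩ := or u w S β s ht hs e.symm
      cases β <;> cases γ <;> simp
  · rintro (t | ⟨u, w, S, β⟩) ht t' ht' s hs s' hs' n1 n2 e1 e2 e3 e4 a1 a2 d1 d2 k1 k2
    · exact two t ht n1 t' a1
    rcases s with s | ⟨u', w', S', γ⟩
    · exact two s hs n2 s' a2
    obtain rfl : S = S' := e1
    obtain ⟨β', rfl⟩ := or u w S β t' ht ht' e2
    obtain ⟨γ', rfl⟩ := or u' w' S γ s' hs hs' e3
    have y1 := (h2 _ _ _ _).1 ht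
    have y2 := (h2 _ _ _ _).1 hs
    obtain ⟨m1, m2⟩ := hY.np u w u' w' S y1 y2 fun b => e4 ((hp _ ht _ hs).2
      ((td_cls (ft u' w' S γ y2).2.1).2 (((ft u w S β y1).symm.trans b).trans (ft u' w' S γ y2))))
    cases β <;> cases β' <;> cases γ <;> cases γ' <;> first
      | exact d1 rfl
      | exact d2 rfl
      | exact m1 ⟨k1, k2⟩
      | exact m1 ⟨k2, k1⟩
      | exact m2 ⟨k1, k2⟩
      | exact m2 ⟨k2, k1⟩
  · intro S a e hS ha hn
    refine (hY.cov S a e hS ha hn).imp_right ?_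
    rintro ⟨u, w, h, ⟨k1, k2⟩ | ⟨k1, k2⟩⟩
    · exact ⟨.inr (u, w, S, false), (h2 _ _ _ _).2 h, .inr (u, w, S, true), (h2 _ _ _ _).2 h, id,
        orr _ _ _ _ _ h, k1, k2, u, .inr (Cx.left_I u w), .inr (Cx.left_I u w)⟩
    · exact ⟨.inr (u, w, S, true), (h2 _ _ _ _).2 h, .inr (u, w, S, false), (h2 _ _ _ _).2 h, id,
        orr _ _ _ _ _ h, k1, k2, u, .inr (Cx.left_I u w), .inr (Cx.left_I u w)⟩

end Pool.Agent.Lib.MP_f9389f_co.SC
end
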