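import Mathlib
import Pool.Agent.Lib.MP_f9389f_co.SC.Basic

-- part Pool.Agent.Lib.MP_f9389f_co.SC.Rank
section

/-! Ranks, groups and parity. -/

namespace Pool.Agent.Lib.MP_f9389f_co.SC

universe u

open SimpleGraph

theorem rankStmt : RankStmt.{u} := by
  intro ι κ _ Θ key _
  classical
  refine ⟨fun t => 1 + (Θ.filter fun s => key s < key t).card, fun t => by positivity,
    fun t ht u _ => ⟨fun h => ?_, fun h => ?_⟩⟩
  · by_contra h'
    have hs : (Θ.filter fun s => key s < key u) ⊆ Θ.filter fun s => key s < key t := by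
      intro s hs
      rw [Finset.mem_filter] at hs ⊢
      exact ⟨hs.1, lt_of_lt_of_le hs.2 (not_lt.1 h')⟩
    have := Finset.card_le_card hs
    simp only at h
    omega
  · have hs : (Θ.filter fun s => key s < key t) ⊂ Θ.filter fun s => key s < key u := by
      refine Finset.ssubset_iff_subset_ne.2 ⟨fun s hs => ?_, fun e => ?_⟩
      · rw [Finset.mem_filter] at hs ⊢
        exact ⟨hs.1, hs.2.trans h⟩
      · have h1 : t ∈ Θ.filter fun s => key s < key u := Finset.mem_filter.2 ⟨ht, h⟩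
        rw [← e] at h1
        exact lt_irrefl _ (Finset.mem_filter.1 h1).2
    have := Finset.card_lt_card hs
    simp only
    omega

section

variable {ι : Type u} {Θ : Finset ι} {r oid : ι → ℕ}

theorem rank_xsymm {t u : ι} (h : Xing Θ r oid t u) : Xing Θ r oid u t := by
  obtain ⟨ht, hu, h | ⟨t', ht', u', hu', e1, e2, h⟩⟩ := h
  · exact ⟨hu, ht, Or.inl h.symm⟩
  · exact ⟨hu, ht, Or.inr ⟨u', hu', t', ht', e2, e1, h.symm⟩⟩

theorem rank_gsymm {t u : ι} (h : Grp Θ r oid t u) : Grp Θ r oid u t := by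
  induction h with
  | single h => exact Relation.TransGen.single (rank_xsymm h)
  | tail _ h ih => exact Relation.TransGen.head (rank_xsymm h) ih

theorem rank_gmem {t u : ι} (h : Grp Θ r oid t u) : u ∈ Θ := by
  induction h with
  | single h => exact h.2.1
  | tail _ h _ => exact h.2.1

theorem rank_grefl {t : ι} (h : t ∈ Θ) : Grp Θ r oid t t :=
  Relation.TransGen.single ⟨h, h, Or.inl rfl⟩

theorem rank_gtrans {t u v : ι} (h : Grp Θ r oid t u) (h' : Grp Θ r oid u v) : Grp Θ r oid t v :=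
  Relation.TransGen.trans h h'

theorem rank_gob {a s s' : ι} (h : Grp Θ r oid a s) (hs : s' ∈ Θ) (e : oid s = oid s') :
    Grp Θ r oid a s' :=
  Relation.TransGen.tail h ⟨rank_gmem h, hs, Or.inl e⟩

theorem rank_n1 {x y p q : ℕ} (h1 : x ≠ p ∧ x ≠ q) (h2 : y ≠ p ∧ y ≠ q) (h : ¬ Sep x y p q) :
    Btw p q x ↔ Btw p q y := by
  unfold Sep Btw Out at *; omega

theorem rank_n2 {x x' y y' p q : ℕ} (h1 : x ≠ p ∧ x ≠ q) (h1' : x' ≠ p ∧ x' ≠ q)
    (h2 : y ≠ p ∧ y ≠ q) (h2' : y' ≠ p ∧ y' ≠ q) (e1 : Btw p q x ↔ Btw p q x')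
    (e2 : Btw p q y ↔ Btw p q y') (h : Sep x x' y y') : Btw p q x ↔ Btw p q y := by
  unfold Sep Btw Out at *; omega

theorem rank_n3 {x y p q : ℕ} (e : Btw p q x ↔ Btw p q y) : ¬ Sep p q x y := by
  unfold Sep Btw Out at *; omega

/-- A class none of whose object chords crosses `(p, q)` lies on one side of `(p, q)`. -/
theorem rank_side {a : ι} {p q : ℕ} (ha : a ∈ Θ)
    (hne : ∀ s, Grp Θ r oid a s → r s ≠ p ∧ r s ≠ q)
    (hob : ∀ s s', Grp Θ r oid a s → s' ∈ Θ → oid s = oid s' → ¬ Sep (r s) (r s') p q)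
    {c : ι} (h : Grp Θ r oid a c) : Btw p q (r a) ↔ Btw p q (r c) := by
  have ob : ∀ s s', Grp Θ r oid a s → s' ∈ Θ → oid s = oid s' →
      (Btw p q (r s) ↔ Btw p q (r s')) := fun s s' hs hs' e =>
    rank_n1 (hne s hs) (hne s' (rank_gob hs hs' e)) (hob s s' hs hs' e)
  have step : ∀ t u, Grp Θ r oid a t → Xing Θ r oid t u → (Btw p q (r t) ↔ Btw p q (r u)) := by
    intro t u ht hx
    have hu : Grp Θ r oid a u := Relation.TransGen.tail ht hx
    obtain ⟨-, hu', h | ⟨t', ht', u', hu'', e1, e2, h⟩⟩ := hx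
    · exact ob t u ht hu' h
    · exact rank_n2 (hne t ht) (hne t' (rank_gob ht ht' e1)) (hne u hu)
        (hne u' (rank_gob hu hu'' e2)) (ob t t' ht ht' e1) (ob u u' hu hu'' e2) h
  induction h with
  | single h => exact step _ _ (rank_grefl ha) h
  | tail h0 h ih => exact ih.trans (step _ _ h0 h)

end

theorem ncgStmt : NcgStmt.{u} := by
  intro ι Θ r oid hr a c b d hac hbd hs
  by_contra hab
  have ha : a ∈ Θ := rank_gmem (rank_gsymm hac)
  have hb : b ∈ Θ := rank_gmem (rank_gsymm hbd)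
  have ne : ∀ s u, Grp Θ r oid a s → Grp Θ r oid b u → r s ≠ r u := by
    intro s u hs hu e
    have := hr (Finset.mem_coe.2 (rank_gmem hs)) (Finset.mem_coe.2 (rank_gmem hu)) e
    subst this
    exact hab (rank_gtrans hs (rank_gsymm hu))
  have c1 : ∀ u u', Grp Θ r oid b u → u' ∈ Θ → oid u = oid u' →
      ¬ Sep (r u) (r u') (r a) (r c) := by
    intro u u' hu hu' e
    refine rank_n3 (rank_side ha (fun s hs => ⟨ne s u hs hu, ne s u' hs (rank_gob hu hu' e)⟩)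
      (fun s s' hs hs' e' hx => hab ?_) hac)
    exact rank_gtrans (Relation.TransGen.tail hs
      ⟨rank_gmem hs, rank_gmem hu, Or.inr ⟨s', hs', u', hu', e', e, hx⟩⟩) (rank_gsymm hu)
  exact rank_n3 (rank_side hb
    (fun s hs => ⟨(ne a s (rank_grefl ha) hs).symm, (ne c s hac hs).symm⟩) c1 hbd) hs

theorem parStmt : ParStmt.{u} := by
  intro ι r t t' u u' h1 h2 h3 h4
  unfold Sep Btw Out df
  rw [Int.odd_iff]
  split_ifs <;> omega

end Pool.Agent.Lib.MP_f9389f_co.SC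
end

-- part Pool.Agent.Lib.MP_f9389f_co.SC.Max
section

/-! The lifted maximum rule. -/

namespace Pool.Agent.Lib.MP_f9389f_co.SC

universe u

open SimpleGraph

theorem max_tri {ι : Type u} (ρ : ι → ℕ) (w t u : ι) : df ρ w u ≤ df ρ w t + df ρ t u := by
  unfold df; split_ifs <;> omega

theorem max_div {N a b d : ℤ} (hN : 0 < N) (h : a ≤ b + N * d) : a / N ≤ b / N + d := by
  have := Int.ediv_le_ediv hN h
  rwa [Int.add_mul_ediv_left _ _ hN.ne'] at this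

theorem maxStmt : MaxStmt.{u} := by
  intro ι Θ ρ val i hρ
  classical
  rcases Θ.eq_empty_or_nonempty with rfl | hne
  · exact ⟨ρ, val, i, hρ, by simp, by simp, by simp⟩
  obtain ⟨N, hN, hval⟩ : ∃ N : ℤ, 0 < N ∧ ∀ u ∈ Θ, (val u : ℤ) < N := by
    refine ⟨((Θ.sup val : ℕ) : ℤ) + 1, by positivity, fun u hu => ?_⟩
    have : val u ≤ Θ.sup val := Finset.le_sup hu
    omega
  have ex : ∀ t, ∃ w ∈ Θ, ∀ u ∈ Θ, (val u : ℤ) - N * (df ρ u t + i t - i u) ≤
      (val w : ℤ) - N * (df ρ w t + i t - i w) := fun t =>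
    Θ.exists_max_image (fun u => (val u : ℤ) - N * (df ρ u t + i t - i u)) hne
  choose w hw hmax using ex
  obtain ⟨M, hM⟩ : ∃ M : ι → ℤ, ∀ t, M t = (val (w t) : ℤ) - N * (df ρ (w t) t + i t - i (w t)) :=
    ⟨_, fun _ => rfl⟩
  have hle : ∀ t u, M t ≤ M u + N * (df ρ t u + i u - i t) := by
    intro t u
    have h1 := hmax u (w t) (hw t)
    have h2 := mul_le_mul_of_nonneg_left (max_tri ρ (w t) t u) hN.le
    rw [hM t, hM u]
    nlinarith
  have hmod : ∀ t, M t % N = val (w t) := by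
    intro t
    rw [hM t, Int.sub_mul_emod_self_left]
    exact Int.emod_eq_of_lt (by positivity) (hval _ (hw t))
  obtain ⟨ρ', -, hρ'⟩ := rankStmt ι (ℤ ×ₗ ℕ) Θ (fun t => toLex (-(M t / N) - i t, ρ t))
    (fun t ht u hu e => hρ ht hu (congrArg (fun z => (ofLex z).2) e))
  simp only [Prod.Lex.toLex_lt_toLex] at hρ'
  have key : ∀ t ∈ Θ, ∀ u ∈ Θ, t ≠ u →
      df ρ t u + i u - i t = df ρ' t u + -(M u / N) - -(M t / N) := by
    intro t ht u hu htu
    have h1 := max_div hN (hle t u)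
    have h2 := max_div hN (hle u t)
    have h3 : ρ t ≠ ρ u := fun e => htu (hρ ht hu e)
    have h4 := hρ' u hu t ht
    unfold df at *
    split_ifs at * <;> omega
  refine ⟨ρ', fun t => val (w t), fun t => -(M t / N), fun t ht u hu e => ?_, key,
    fun t ht u hu h => ?_, fun t ht => ?_⟩
  · have h1 := hρ' t ht u hu
    have h2 := hρ' u hu t ht
    refine hρ ht hu ?_
    omega
  · by_cases e : t = u
    · rw [e]
    have h1 := key t ht u hu e
    have h2 := hle t u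
    have h3 : df ρ' t u = 0 := by unfold df; rw [if_neg (by omega)]
    rw [h1, h3] at h2
    have h4 := Int.emod_add_mul_ediv (M t) N
    have h5 := Int.emod_add_mul_ediv (M u) N
    rw [hmod] at h4 h5
    have h6 : (val (w t) : ℤ) ≤ val (w u) := by nlinarith
    exact_mod_cast h6
  · by_cases e : val (w t) = val t
    · exact Or.inl e
    refine Or.inr ⟨w t, hw t, fun e' => e (by rw [e']), ?_, rfl⟩
    have h1 := hmax t t ht
    have h2 : df ρ t t = 0 := by unfold df; rw [if_neg (lt_irrefl _)]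
    rw [h2] at h1
    have h3 := hval _ (hw t)
    have h4 : N * (df ρ (w t) t + i t - i (w t)) < N * df val (w t) t := by
      have h5 : (0 : ℤ) ≤ val t := by positivity
      unfold df at *
      by_cases h6 : val t < val (w t)
      · rw [if_pos h6]; nlinarith
      · rw [if_neg h6]
        have h7 : (val (w t) : ℤ) < val t := by
          have : val (w t) < val t := by omega
          exact_mod_cast this
        nlinarith
    exact lt_of_mul_lt_mul_left h4 hN.le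

end Pool.Agent.Lib.MP_f9389f_co.SC
end

-- part Pool.Agent.Lib.MP_f9389f_co.SC.GFacts
section

/-! The second family of chords. -/

namespace Pool.Agent.Lib.MP_f9389f_co.SC

universe u

open SimpleGraph

theorem gf_trans {x y a b d : ℕ} (h : ¬ Sep x y a b) (h' : ¬ Sep x y b d) (h1 : b ≠ x)
    (h2 : b ≠ y) : ¬ Sep x y a d := by
  unfold Sep Btw Out at *; omega

theorem gf_half {c e x z y d : ℕ} (h : Sep x z y d) (h1 : ¬ Sep c e y d) (h2 : ¬ Sep c e x z)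
    (h3 : y ≠ c) (h4 : y ≠ e) : ¬ Sep c e y x ∧ ¬ Sep c e y z ∧
      ((x ≠ c ∧ x ≠ e) ∨ (z ≠ c ∧ z ≠ e)) := by
  unfold Sep Btw Out at *
  rcases h with ⟨h | h, k | k⟩ | ⟨h | h, k | k⟩ <;> rcases lt_trichotomy c e with j | j | j <;>
    omega

theorem gf_ne {c e y d : ℕ} (h : Sep c e y d) : y ≠ c ∧ y ≠ e ∧ d ≠ c ∧ d ≠ e := by
  unfold Sep Btw Out at *; omega

/-- Two crossers of a chord stay on one side of a chord that crosses none of the three. -/
theorem gf_x {c e x z y d y' d' : ℕ} (h : Sep x z y d) (h' : Sep x z y' d') (h1 : ¬ Sep c e y d)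
    (h1' : ¬ Sep c e y' d') (h2 : ¬ Sep c e x z) : ¬ Sep c e y y' := fun k => by
  obtain ⟨a1, a2, a3, a4⟩ := gf_ne k
  obtain ⟨b1, b2, b3⟩ := gf_half h h1 h2 a1 a2
  obtain ⟨c1, c2, -⟩ := gf_half h' h1' h2 a3 a4
  rcases b3 with b3 | b3
  · exact gf_trans b1 (fun j => c1 j.swap') b3.1 b3.2 k
  · exact gf_trans b2 (fun j => c2 j.swap') b3.1 b3.2 k

theorem gf_bey {y e a d P Q : ℕ} (h : (Btw y e a ∧ ¬ Btw y e d) ∨ (Out y e a ∧ ¬ Out y e d))
    (h1 : ¬ Sep y e P Q) (h2 : Sep y d P Q) : ¬ Sep a y P Q ∧ a ≠ P ∧ a ≠ Q := by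
  unfold Sep Btw Out at *
  rcases h2 with ⟨h2 | h2, k | k⟩ | ⟨h2 | h2, k | k⟩ <;>
    rcases h with ⟨h | h, j⟩ | ⟨h | h, j⟩ <;> omega

theorem gf_move {y d a c P Q : ℕ} (h : Sep y d P Q) (h1 : ¬ Sep a y P Q ∧ a ≠ P ∧ a ≠ Q)
    (h2 : ¬ Sep c d P Q ∧ c ≠ P ∧ c ≠ Q) : Sep a c P Q := by
  unfold Sep Btw Out at *
  rcases h with ⟨h | h, k | k⟩ | ⟨h | h, k | k⟩ <;> omega

theorem gf_self {y d P Q : ℕ} (h : Sep y d P Q) : ¬ Sep y y P Q ∧ y ≠ P ∧ y ≠ Q := by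
  unfold Sep Btw Out at *; omega

variable {ι : Type u} {b : Band ι} {H : SimpleGraph ℕ}

theorem gf_frS {n a c : ℕ} (h : b.Fr H n a c) : b.Fr H n c a := fun t r h1 h2 h3 => by
  have := h t r h1 h2 h3.swap
  unfold Cr at *; tauto

theorem gf_k0 {a c : ℕ} (h : (b.K0 H).Adj a c) : H.Adj a c ∧ b.Fr H 100 a c := by
  rcases h.2 with k | k
  exacts [k, ⟨k.1.symm, gf_frS k.2⟩]

/-- A chord that separates two points of a face separates the points behind them. -/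
theorem gf_att {T : ℕ × ℕ} {a y d P Q : ℕ} (h : b.Att H T a y) (hd : d ∈ Face (b.K0 H) b.X T)
    (h1 : ∀ e, (b.K0 H).Adj y e → ¬ Sep y e P Q) (h2 : Sep y d P Q) :
    ¬ Sep a y P Q ∧ a ≠ P ∧ a ≠ Q := by
  rcases h.2.2 with rfl | ⟨e, k, k'⟩
  · exact gf_self h2
  · exact gf_bey (k'.imp (fun j => ⟨j.1, j.2 d hd⟩) fun j => ⟨j.1, j.2 d hd⟩) (h1 e k) h2

theorem gf_mq (e1 : EmuOut b.Mem b.X H) {x s : ℕ} (h : ∃ y, b.Mq s y ∧ b.Mq y x) :
    Near H 10 x s := by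
  have k : ∀ {a c}, b.Mq a c → Near H 5 a c := fun h =>
    h.elim (e1.near _ _) fun e => e ▸ Near.refl _ _ _
  obtain ⟨y, h1, h2⟩ := h
  exact ((k h1).trans (k h2)).symm

/-- A kept edge does not separate feet that are far from one of its ends. -/
theorem gf_wall {y e n : ℕ} {t r : ι} (h : (b.K0 H).Adj y e) (ht : b.Large H t) (hr : b.Sc t r)
    (hn : 101 ≤ n) (h1 : ¬ Near H n y (b.p t)) (h2 : ¬ Near H n y (b.p r)) :
    ¬ Sep y e (b.p t) (b.p r) := fun k => by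
  have a := Near.of_adj (gf_k0 h).1
  rcases (gf_k0 h).2 t r ht hr k with j | j | j | j
  exacts [h1 (j.mono (by omega)), h2 (j.mono (by omega)), h1 ((a.trans j).mono (by omega)),
    h2 ((a.trans j).mono (by omega))]

/-- A free chord near `y` does not separate feet that are far from `y`. -/
theorem gf_free (e1 : EmuOut b.Mem b.X H) {a c y y' m n : ℕ} {t r : ι} (h : b.Free a c)
    (hr : b.Sc t r) (ha : Near H m y a) (hc : Near H m y' c) (hn : m + 10 ≤ n)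
    (h1 : ¬ Cr (Near H n) y y' (b.p t) (b.p r)) : ¬ Sep a c (b.p t) (b.p r) := fun k => by
  refine h1 ?_
  rcases h t r hr k with j | j | j | j
  exacts [.inl ((ha.trans (gf_mq e1 j)).mono hn), .inr (.inl ((ha.trans (gf_mq e1 j)).mono hn)),
    .inr (.inr (.inl ((hc.trans (gf_mq e1 j)).mono hn))),
    .inr (.inr (.inr ((hc.trans (gf_mq e1 j)).mono hn)))]

/-- A crosser of an edge is near the ends of the edge. -/
theorem gf_near (hPath : PathStmt) (hH : NC H) {x z y d : ℕ} (h : H.Adj x z) (h1 : Near H 5 y d)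
    (h2 : Sep x z y d) : Near H 6 y x := by
  obtain ⟨i, j, k, e | e⟩ := hPath.thru H 5 y d x z h1 h2.symm fun c d k => hH c d x z k h
  exacts [e.1.mono (by omega), (e.1.trans (Near.of_adj h.symm)).mono (by omega)]

theorem gFactsStmt (hPath : PathStmt) (hFace : FaceStmt) : GFactsStmt.{u} := by
  intro ι b H ok e1
  have nc0 : NCOn (b.K0 H) b.X := ⟨fun a c x y h h' => e1.nc a c x y (gf_k0 h).1 (gf_k0 h').1,
    fun a c h => e1.mem a c (gf_k0 h).1, ok.pos⟩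
  have x0 : ∀ {y y'}, b.G0 H y y' → y ∈ b.X := fun ⟨_, _, _, _, _, h, _⟩ => h.1.1
  have w0 : ∀ {y y'}, b.G0 H y y' → Wall (b.K0 H) y y' := fun ⟨T, _, _, h1, _, h2, h3, _⟩ =>
    hFace.wall _ _ T _ _ nc0 h1 h2.1 h3.1
  have n0 : ∀ {y y'}, b.G0 H y y' → Near H 5 y y' := fun ⟨_, _, _, _, _, _, _, h⟩ => h
  refine ⟨nc0, ?_, ?_, ?_, ?_, ?_, ?_, ?_⟩
  · rintro y y' ⟨T, a, c, h1, h2, h3, h4, h5⟩
    exact ⟨T, c, a, h1, ok.v0S _ _ h2, h4, h3, h5.symm⟩
  · rintro y y' ⟨x, z, d, d', h1, h2, h3, h4, h5, h6⟩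
    exact ⟨x, z, d', d, h1, h3, h2, h5, h4, gf_frS h6⟩
  · rintro y y' (h | ⟨x, z, d, d', -, h, -⟩)
    exacts [x0 h, x0 h]
  · rintro y y' (h | ⟨x, z, d, d', h1, h2, h3, h4, h5, -⟩)
    · exact w0 h
    · exact fun c e k => gf_x h4 h5 (w0 h2 c e k) (w0 h3 c e k) (e1.nc _ _ _ _ (gf_k0 k).1 h1.1)
  · rintro y y' (h | ⟨x, z, d, d', h1, h2, h3, h4, h5, -⟩)
    · exact (n0 h).mono (by omega)
    · exact (gf_near hPath e1.nc h1.1 (n0 h2) h4).trans (gf_near hPath e1.nc h1.1 (n0 h3) h5).symm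
  · rintro y y' (⟨T, a, c, -, h2, h3, h4, -⟩ | ⟨x, z, d, d', -, -, -, -, -, h⟩)
    swap
    · exact h
    intro t r ht hr k
    by_contra j
    have j' := j
    simp only [Cr, not_or] at j'
    exact gf_free e1 (ok.free a c h2) hr h3.2.1.symm h4.2.1.symm (by omega) j (gf_move k
      (gf_att h3 h4.1 (fun e i => gf_wall i ht hr (by omega) j'.1 j'.2.1) k)
      (gf_att h4 h3.1 (fun e i => gf_wall i ht hr (by omega) j'.2.2.1 j'.2.2.2) k.swap))
  · rintro y y' x z ⟨x', z', d, d', h1, h2, h3, h4, h5, -⟩ h k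
    by_contra j
    simp only [not_or, not_exists, not_and] at j
    exact gf_x h4 h5 (j.1 d h2) (j.2 d' h3) (e1.nc _ _ _ _ h.1 h1.1) k

end Pool.Agent.Lib.MP_f9389f_co.SC
end

-- part Pool.Agent.Lib.MP_f9389f_co.SC.Tie
section

/-! Crossers of a lifted edge. -/

namespace Pool.Agent.Lib.MP_f9389f_co.SC

universe u

open SimpleGraph

theorem tie_c1 {y e a c P Q : ℕ} (h : Sep a y P Q) (h1 : ¬ Sep y e P Q) (h2 : ¬ Sep a c P Q)
    (h3 : c ≠ P) (h4 : c ≠ Q) : (Btw y e a → Btw y e c) ∧ (Out y e a → Out y e c) := by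
  unfold Sep Btw Out at *
  rcases h with ⟨h | h, k | k⟩ | ⟨h | h, k | k⟩ <;> omega

theorem tie_c2 {y e a c x z : ℕ} (h : Sep a c x z) :
    (Btw y e a → Btw y e c → Btw y e x ∨ Btw y e z) ∧
      (Out y e a → Out y e c → Out y e x ∨ Out y e z) := by
  unfold Sep Btw Out at *
  rcases h with ⟨h | h, k | k⟩ | ⟨h | h, k | k⟩ <;> omega

theorem tie_c3 {y e x z d : ℕ} (h : Sep x z y d) (h1 : ¬ Sep y e x z) :
    (Btw y e x ∨ Btw y e z → Btw y e d) ∧ (Out y e x ∨ Out y e z → Out y e d) := by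
  unfold Sep Btw Out at *
  rcases h with ⟨h | h, k | k⟩ | ⟨h | h, k | k⟩ <;> omega

theorem tie_self (a P Q : ℕ) : ¬ Sep a a P Q := by
  unfold Sep Btw Out at *; omega

variable {ι : Type u} {b : Band ι} {H : SimpleGraph ℕ}

/-- The low member behind a crosser crosses the edge. -/
theorem tie_sep (hH : NC H) {T : ℕ × ℕ} {a c y d x z : ℕ} (h : H.Adj x z) (h1 : b.Att H T a y)
    (h2 : b.Att H T c d) (k : Sep x z y d) : Sep a c x z :=
  gf_move k.symm (gf_att h1 h2.1 (fun _ i => hH _ _ _ _ (gf_k0 i).1 h) k.symm)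
    (gf_att h2 h1.1 (fun _ i => hH _ _ _ _ (gf_k0 i).1 h) k.symm.swap)

/-- A crosser lies on the side of its label. -/
theorem tie_side (ok : b.OK) (e1 : EmuOut b.Mem b.X H) {T : ℕ × ℕ} {a c y d x z w : ℕ} {t r : ι}
    (h : H.Adj x z) (hv : b.V0 a c) (h1 : b.Att H T a y) (h2 : b.Att H T c d) (k : Sep x z y d)
    (hw : b.Free a w ∨ b.Free c w) (hn : Near H 266 y w) (ht : b.Large H t) (hr : b.Sc t r)
    (j1 : ¬ Near H 300 y (b.p t)) (j2 : ¬ Near H 300 y (b.p r)) :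
    ¬ Sep (b.p t) (b.p r) y w := by
  have j : ¬ Cr (Near H 300) y y (b.p t) (b.p r) := by
    unfold Cr; tauto
  have na : Near H 266 y a := h1.2.1.symm.mono (by omega)
  have nc : Near H 266 y c := (h1.2.1.symm.trans (e1.near a c (ok.v0M a c hv))).mono (by omega)
  have ne : ∀ {s}, Near H 266 y s → s ≠ b.p t ∧ s ≠ b.p r := fun i =>
    ⟨fun e => j1 (e ▸ i.mono (by omega)), fun e => j2 (e ▸ i.mono (by omega))⟩
  have s1 := gf_free e1 (ok.free a c hv) hr na nc (by omega) j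
  have s2 : ¬ Sep a y (b.p t) (b.p r) := fun i => by
    rcases h1.2.2 with rfl | ⟨e, i1, i2⟩
    · exact tie_self _ _ _ i
    have a1 := tie_c1 i (gf_wall i1 ht hr (by omega) j1 j2) s1 (ne nc).1 (ne nc).2
    have a2 := tie_c2 (y := y) (e := e) (tie_sep e1.nc h h1 h2 k)
    have a3 := tie_c3 k (e1.nc _ _ _ _ (gf_k0 i1).1 h)
    rcases i2 with i2 | i2
    exacts [i2.2 d h2.1 (a3.1 (a2.1 i2.1 (a1.1 i2.1))), i2.2 d h2.1 (a3.2 (a2.2 i2.1 (a1.2 i2.1)))]
  refine gf_trans (fun i => s2 i.symm.swap) ?_ (ne na).1 (ne na).2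
  rcases hw with hw | hw
  · exact fun i => gf_free e1 hw hr na hn (by omega) j i.symm
  · exact gf_trans (fun i => s1 i.symm) (fun i => gf_free e1 hw hr nc hn (by omega) j i.symm)
      (ne nc).1 (ne nc).2

theorem tieStmt (hPath : PathStmt) (hFace : FaceStmt) : TieStmt.{u} := by
  classical
  intro ι b H ok e1 _ x z hl
  have _ := hFace
  obtain ⟨n, v, hv⟩ := e1.chain x z hl.1
  let S := (Finset.range (n + 1)).image (fun i => (v i).1) ∪
    (Finset.range (n + 1)).image fun i => (v i).2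
  have m1 : ∀ i ≤ n, (v i).1 ∈ S := fun i hi => Finset.mem_union_left _
    (Finset.mem_image_of_mem _ (Finset.mem_range.2 (by omega)))
  have m2 : ∀ i ≤ n, (v i).2 ∈ S := fun i hi => Finset.mem_union_right _
    (Finset.mem_image_of_mem _ (Finset.mem_range.2 (by omega)))
  have near : ∀ w ∈ S, Near H 260 x w := by
    have l := hPath.links b.Mem (Near H 10) x z n v hv (fun a c h => (e1.near a c h).mono (by omega))
      fun a c p q h h' k => .inl (hPath.meet H 5 5 a c p q e1.nc (e1.near _ _ h) (e1.near _ _ h') k)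
    have p : ∀ w, Near (fromRel (Near H 10)) 26 x w → Near H 260 x w := fun w =>
      hPath.lip ℕ ℕ _ H id 10 26 x w fun s s' k => k.2.elim id Near.symm
    intro w hw
    rcases Finset.mem_union.1 hw with hw | hw <;> obtain ⟨i, hi, rfl⟩ := Finset.mem_image.1 hw
    exacts [p _ (l i (by have := Finset.mem_range.1 hi; omega)).1,
      p _ (l i (by have := Finset.mem_range.1 hi; omega)).2]
  have ex : ∀ y d, ∃ w, b.G0 H y d → Sep x z y d → w ∈ S ∧ ∃ T a c, b.V0 a c ∧ b.Att H T a y ∧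
      b.Att H T c d ∧ (b.Free a w ∨ b.Free c w) := fun y d => by
    by_cases h : b.G0 H y d ∧ Sep x z y d
    swap
    · exact ⟨0, fun h1 h2 => absurd ⟨h1, h2⟩ h⟩
    obtain ⟨⟨T, a, c, -, h2, h3, h4, -⟩, k⟩ := h
    have f : ∀ s, b.Free s s := fun s t r _ i => absurd i (tie_self _ _ _)
    suffices H : ∃ w ∈ S, b.Free a w ∨ b.Free c w from
      H.imp fun w hw _ _ => ⟨hw.1, T, a, c, h2, h3, h4, hw.2⟩
    obtain ⟨i, hi, j | j⟩ := hPath.touch _ x z n v a c hv (tie_sep e1.nc hl.1 h3 h4 k).symm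
    · rcases ok.tie a c _ _ h2 (hv.2.1 i hi) j.symm with j | j | j | j
      exacts [⟨_, m1 i hi, .inl j⟩, ⟨_, m2 i hi, .inl j⟩, ⟨_, m1 i hi, .inr j⟩, ⟨_, m2 i hi, .inr j⟩]
    · rcases j with j | j | j | j
      exacts [⟨_, m1 i hi, .inl (j ▸ f _)⟩, ⟨_, m1 i hi, .inr (j ▸ f _)⟩,
        ⟨_, m2 i hi, .inl (j ▸ f _)⟩, ⟨_, m2 i hi, .inr (j ▸ f _)⟩]
  choose lab hlab using ex
  refine ⟨S, lab, (Finset.card_union_le _ _).trans ?_, fun y d h k => (hlab y d h k).1,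
    fun y d y' d' h k h' k' e => ⟨x, z, d, d', hl, h, h', k, k', fun t r ht hr s => ?_⟩⟩
  · have := hv.1
    have c1 := (Finset.card_image_le (s := Finset.range (n + 1)) (f := fun i => (v i).1))
    have c2 := (Finset.card_image_le (s := Finset.range (n + 1)) (f := fun i => (v i).2))
    rw [Finset.card_range] at c1 c2
    omega
  by_contra j
  simp only [Cr, not_or] at j
  obtain ⟨w1, T, a, c, a1, a2, a3, a4⟩ := hlab y d h k
  obtain ⟨-, T', a', c', b1, b2, b3, b4⟩ := hlab y' d' h' k'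
  rw [← e] at b4
  have n0 : ∀ {y y'}, b.G0 H y y' → Near H 5 y y' := fun ⟨_, _, _, _, _, _, _, h⟩ => h
  have n1 := (gf_near hPath e1.nc hl.1 (n0 h) k).trans (near _ w1)
  have n2 := (gf_near hPath e1.nc hl.1 (n0 h') k').trans (near _ w1)
  exact gf_trans (tie_side ok e1 hl.1 a1 a2 a3 k a4 n1 ht hr j.1 j.2.1)
    (fun i => tie_side ok e1 hl.1 b1 b2 b3 k' b4 n2 ht hr j.2.2.1 j.2.2.2 i.swap')
    (fun i => j.1 (i ▸ n1.mono (by omega))) (fun i => j.2.1 (i ▸ n1.mono (by omega))) s.symm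

end Pool.Agent.Lib.MP_f9389f_co.SC
end

-- part Pool.Agent.Lib.MP_f9389f_co.SC.BandOK
section

/-! The band of a level. -/

namespace Pool.Agent.Lib.MP_f9389f_co.SC

universe u

open SimpleGraph

theorem bo_cr_mk {α : Type*} {R : α → α → Prop} {a c b d x y : α} (hx : x = a ∨ x = c)
    (hy : y = b ∨ y = d) (h : R x y) : Cr R a c b d := by
  rcases hx with rfl | rfl <;> rcases hy with rfl | rfl
  exacts [Or.inl h, Or.inr (Or.inl h), Or.inr (Or.inr (Or.inl h)), Or.inr (Or.inr (Or.inr h))]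

theorem bo_cr_ex {α : Type*} {R : α → α → Prop} {a c b d : α} (h : Cr R a c b d) :
    ∃ x y, (x = a ∨ x = c) ∧ (y = b ∨ y = d) ∧ R x y := by
  rcases h with h | h | h | h
  exacts [⟨_, _, Or.inl rfl, Or.inl rfl, h⟩, ⟨_, _, Or.inl rfl, Or.inr rfl, h⟩,
    ⟨_, _, Or.inr rfl, Or.inl rfl, h⟩, ⟨_, _, Or.inr rfl, Or.inr rfl, h⟩]

namespace Cx

variable {V : Type u} {c : Cx V} {lam : ℕ} {ρ : V → ℕ} {F : V → V → Prop} {D : LD V}

theorem Lev.lg_le (h : c.Lev lam ρ F D) {a : ℕ} (ha : a ∈ D.X) {u : V}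
    (hu : u ∈ c.Lg (lam + 4000 * c.K) D a) : c.lv u ≤ lam + 4000 * c.K + 10000 * c.K := by
  rcases hu with hu | hu
  · have := h.hi a ha u hu; omega
  · exact hu.2.1

theorem Lev.lg_high (h : c.Lev lam ρ F D) {a : ℕ} (ha : a ∈ D.X) {u : V}
    (hu : u ∈ c.Lg (lam + 4000 * c.K) D a) (hl : lam + 4040 * c.K < c.lv u) :
    D.rt (c.σ u (lam + 4000 * c.K)) = a := by
  rcases hu with hu | hu
  · have := h.hi a ha u hu; omega
  · exact hu.2.2

theorem Lev.sgX' (h : c.Lev lam ρ F D) {a e : ℕ} (hs : D.Sg a e) : e ∈ D.X :=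
  h.sgX _ _ (h.sgS _ _ hs)

/-- All four ends of two crossing chords lie in one group. -/
theorem Lev.sg4 (h : c.Lev lam ρ F D) {a e b f x y : ℕ} (h1 : D.Sg a e) (h2 : D.Sg b f)
    (hs : Sep a e b f) (hx : x = a ∨ x = e) (hy : y = b ∨ y = f) : D.Sg x y := by
  have h3 := h.sgN _ _ _ _ h1 h2 hs
  have h4 : D.Sg x a := by
    rcases hx with rfl | rfl
    exacts [h.sgR _ (h.sgX _ _ h1), h.sgS _ _ h1]
  have h5 : D.Sg b y := by
    rcases hy with rfl | rfl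
    exacts [h.sgR _ (h.sgX _ _ h2), h2]
  exact h.sgT _ _ _ (h.sgT _ _ _ h4 h3) h5

theorem J.symm {L k a e : ℕ} (hS : ∀ a e, D.Sg a e → D.Sg e a) (h : c.J L D k a e) :
    c.J L D k e a := by
  obtain ⟨h1, h2, h3, u, hu, w, hw, h4, h5, h6⟩ := h
  exact ⟨h2, h1, hS _ _ h3, w, hw, u, hu, by rwa [d_comm], h6, h5⟩

theorem J.mono {L k k' a e : ℕ} (h : c.J L D k a e) (hk : k ≤ k') : c.J L D k' a e := by
  obtain ⟨h1, h2, h3, u, hu, w, hw, h4, h5, h6⟩ := h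
  exact ⟨h1, h2, h3, u, hu, w, hw, h4, h5.trans hk, h6.trans hk⟩

theorem Lev.v0S (h : c.Lev lam ρ F D) {L a e : ℕ} (hv : c.V0 L D a e) : c.V0 L D e a :=
  hv.imp (h.fzS _ _) (J.symm h.sgS)

theorem Lev.memS (h : c.Lev lam ρ F D) {L a e : ℕ} (hv : c.Mem L D a e) : c.Mem L D e a :=
  hv.imp (h.fzS _ _) (J.symm h.sgS)

theorem V0.mem {L a e : ℕ} (hv : c.V0 L D a e) : c.Mem L D a e :=
  hv.imp id fun h => h.mono (by omega)

/-- A chord crossing a fuzzy pair is joined to it by a low member. -/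
theorem Lev.fz_cross (h : c.Lev lam ρ F D) {a e b f : ℕ} (h1 : D.Fz a e) (h2 : D.Sg b f)
    (hs : Sep a e b f) : Cr (c.V0 (lam + 4000 * c.K) D) a e b f := by
  have h0 := (h.fzG _ _ h1).1
  obtain ⟨x, y, hx, hy, hr⟩ := bo_cr_ex (h.fzc a e b f h1
    (h.sg4 h0 h2 hs (Or.inl rfl) (Or.inl rfl)) (h.sg4 h0 h2 hs (Or.inl rfl) (Or.inr rfl)) hs)
  refine bo_cr_mk hx hy (hr.imp id fun hr => ?_)
  have hxy := h.sg4 h0 h2 hs hx hy
  obtain ⟨z, hz, z', hz', hd⟩ := cl_iff.1 hr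
  have h3 := h.hi _ (h.sgX _ _ hxy) z hz
  have h4 := h.hi _ (h.sgX' hxy) z' hz'
  exact ⟨h.sgX _ _ hxy, h.sgX' hxy, hxy, z, Or.inl hz, z', Or.inl hz', by omega, by omega,
    by omega⟩

/-- A point of the realisation of a jump. -/
def Pt (c : Cx V) (lam : ℕ) (D : LD V) (a e : ℕ) (u w z : V) : Prop :=
  ∃ s g, (s = a ∨ s = e) ∧ g ∈ c.Lg (lam + 4000 * c.K) D s ∧ 2 * c.d z g ≤ c.d u w ∧
    (c.lv g ≤ c.lv u ∨ c.lv g ≤ c.lv w ∨ c.lv g ≤ lam + 4040 * c.K) ∧ (g = z ∨ g = u ∨ g = w)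

theorem Lev.real (he : c.Env) (h : c.Lev lam ρ F D) {a e : ℕ} {u w : V} (hs : D.Sg a e)
    (hu : u ∈ c.Lg (lam + 4000 * c.K) D a) (hw : w ∈ c.Lg (lam + 4000 * c.K) D e)
    (hd : c.d u w < 40 * c.K) : D.Fz a e ∨ ∃ P : Set V, Conn c.G 1 P ∧ P ⊆ c.Up (D.fl a) ∧
      D.An a ⊆ P ∧ D.An e ⊆ P ∧ ∀ z ∈ P, c.Pt lam D a e u w z := by
  have ha := h.sgX _ _ hs
  have hb := h.sgX' hs
  have hf := h.flo a ha
  by_cases hl : c.lv u < D.fl a + 40 * c.K
  · have h1 := he.lip u w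
    refine Or.inl (h.dip a e hs u (hu.resolve_right fun h2 => ?_) w
      (hw.resolve_right fun h2 => ?_) hd hl)
    · have := h2.1; omega
    · have := h2.1; omega
  obtain ⟨Y, y1, y2, y3, y4, y5, y6⟩ := h.leg he ha hu
  obtain ⟨Z, z1, z2, z3, z4, z5, z6⟩ := h.leg he hb hw
  refine Or.inr ⟨(Y ∪ c.I u w) ∪ Z,
    (y1.union' (he.conn_I u w) y3 (left_I u w)).union' z1 (Or.inr (right_I u w)) z3, ?_,
    fun z hz => Or.inl (Or.inl (y2 hz)), fun z hz => Or.inr (z2 hz), ?_⟩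
  · rintro z ((hz | hz) | hz)
    · exact y5 hz
    · have h1 := mem_I hz
      have h2 := he.lip' u z
      show D.fl a ≤ c.lv z
      omega
    · rw [h.sgF a e hs]; exact z5 hz
  · rintro z ((hz | hz) | hz)
    · exact ⟨a, z, Or.inl rfl, y4 hz, by simp [d_self], by have := y6 z hz; tauto, Or.inl rfl⟩
    · have h1 := mem_I hz
      rcases le_total (c.d u z) (c.d z w) with h2 | h2
      · exact ⟨a, u, Or.inl rfl, hu, by rw [d_comm z u]; omega, Or.inl le_rfl,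
          Or.inr (Or.inl rfl)⟩
      · exact ⟨e, w, Or.inr rfl, hw, by omega, Or.inr (Or.inl le_rfl), Or.inr (Or.inr rfl)⟩
    · exact ⟨e, z, Or.inr rfl, z4 hz, by simp [d_self], by have := z6 z hz; tauto, Or.inl rfl⟩

theorem Lev.sg_feet (he : c.Env) (h : c.Lev lam ρ F D) {n : ℕ} {t r : V}
    (hn : lam + 4000 * c.K ≤ n) (ht : n ≤ c.lv t) (hc : Ch c.G 1 (c.Up n) t r) :
    D.Sg (D.rt (c.σ t (lam + 4000 * c.K))) (D.rt (c.σ r (lam + 4000 * c.K))) :=
  h.sgC _ _ (he.bc_feet (hn.trans ht) (hc.mono le_rfl (up_mono hn)))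

theorem free_of_cr {L a e b f : ℕ} (h : c.Lev lam ρ F D) (hc : Cr (c.Mem L D) a e b f) :
    Cr (fun x s => ∃ y, (c.band L D).Mq s y ∧ (c.band L D).Mq y x) a e b f := by
  obtain ⟨x, y, hx, hy, hr⟩ := bo_cr_ex hc
  exact bo_cr_mk hx hy ⟨y, Or.inr rfl, Or.inl (h.memS hr)⟩

theorem Lev.free_fz (he : c.Env) (h : c.Lev lam ρ F D) {a e : ℕ} (h1 : D.Fz a e) :
    (c.band (lam + 4000 * c.K) D).Free a e := by
  intro t r htr hs
  have h2 : c.Bc (lam + 4000 * c.K + 10000 * c.K) t r := htr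
  have h3 := h.sg_feet he (Nat.le_add_right _ _) h2.1.ge h2.2.2
  obtain ⟨x, y, hx, hy, hr⟩ := bo_cr_ex (h.fz_cross h1 h3 hs)
  exact free_of_cr h (bo_cr_mk hx hy hr.mem)

/-- Low wide jumps are free. -/
theorem Lev.free_low (he : c.Env) (h : c.Lev lam ρ F D) {a e : ℕ} {u w : V} (hs : D.Sg a e)
    (hu : u ∈ c.Lg (lam + 4000 * c.K) D a) (hw : w ∈ c.Lg (lam + 4000 * c.K) D e)
    (hd : c.d u w < 26 * c.K) (h1 : c.lv u ≤ lam + 4400 * c.K) (h2 : c.lv w ≤ lam + 4400 * c.K) :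
    (c.band (lam + 4000 * c.K) D).Free a e := by
  rcases h.real he hs hu hw (by omega) with hf | ⟨P, p1, p2, p3, p4, p5⟩
  · exact h.free_fz he hf
  intro t r htr hsep
  have h3 : c.Bc (lam + 4000 * c.K + 10000 * c.K) t r := htr
  have h4 := h.sg_feet he (Nat.le_add_right _ _) h3.1.ge h3.2.2
  have hsep' : Sep a e (D.rt (c.σ t (lam + 4000 * c.K))) (D.rt (c.σ r (lam + 4000 * c.K))) := hsep
  have lg : ∀ x, c.lv x = lam + 4000 * c.K + 10000 * c.K →
      x ∈ c.Lg (lam + 4000 * c.K) D (D.rt (c.σ x (lam + 4000 * c.K))) := fun x hx =>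
    Or.inr ⟨by omega, hx.le, rfl⟩
  obtain ⟨Y, y1, y2, y3, y4, y5, -⟩ := h.leg he (h.sgX _ _ h4) (lg t h3.1)
  obtain ⟨Z, z1, z2, z3, z4, z5, -⟩ := h.leg he (h.sgX' h4) (lg r h3.2.1)
  have hab := h.sg4 hs h4 hsep' (Or.inl rfl) (Or.inl rfl)
  have haf := h.sg4 hs h4 hsep' (Or.inl rfl) (Or.inr rfl)
  have hfl := h.flo a (h.sgX _ _ hs)
  have hcore : ∀ z, Ch c.G 1 (c.Up (lam + 4000 * c.K + 10000 * c.K)) t z →
      lam + 4000 * c.K + 10000 * c.K ≤ c.lv z := fun z hz => ch_lv hz h3.1.ge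
  refine free_of_cr h ?_
  rcases h.cl a e _ _ hs hab haf hsep' P
    ((Y ∪ {z | Ch c.G 1 (c.Up (lam + 4000 * c.K + 10000 * c.K)) t z}) ∪ Z) p1
    ((y1.union' (conn_comp _ _ _ t) y3 (Ch.refl t)).union' z1 (Or.inr h3.2.2) z3) p2 (by
      rintro z ((hz | hz) | hz)
      · rw [h.sgF _ _ hab]; exact y5 hz
      · have := hcore z hz
        show D.fl a ≤ c.lv z
        omega
      · rw [h.sgF _ _ haf]; exact z5 hz) p3 p4 (fun z hz => Or.inl (Or.inl (y2 hz)))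
    (fun z hz => Or.inr (z2 hz)) with hc | hc
  · obtain ⟨x, y, hx, hy, hr⟩ := bo_cr_ex hc
    exact bo_cr_mk hx hy (Or.inl hr)
  obtain ⟨z, hz, z', hz', hzz⟩ := cl_iff.1 hc
  obtain ⟨s, g, hs', hg, g1, g2, -⟩ := p5 z hz
  have t1 := he.tri g z z'
  have t2 := he.lip g z'
  rw [d_comm g z] at t1
  have key : ∀ y, (y = D.rt (c.σ t (lam + 4000 * c.K)) ∨ y = D.rt (c.σ r (lam + 4000 * c.K))) →
      z' ∈ c.Lg (lam + 4000 * c.K) D y → Cr (c.Mem (lam + 4000 * c.K) D) a e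
        (D.rt (c.σ t (lam + 4000 * c.K))) (D.rt (c.σ r (lam + 4000 * c.K))) := by
    intro y hy hz'
    have hsy := h.sg4 hs h4 hsep' hs' hy
    exact bo_cr_mk hs' hy (Or.inr ⟨h.sgX _ _ hsy, h.sgX' hsy, hsy, g, hg, z', hz', by omega,
      by omega, by omega⟩)
  rcases hz' with (hz' | hz') | hz'
  · exact key _ (Or.inl rfl) (y4 hz')
  · have := hcore z' hz'
    omega
  · exact key _ (Or.inr rfl) (z4 hz')

theorem Lev.free_v0 (he : c.Env) (h : c.Lev lam ρ F D) {a e : ℕ}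
    (hv : c.V0 (lam + 4000 * c.K) D a e) : (c.band (lam + 4000 * c.K) D).Free a e := by
  rcases hv with hv | ⟨-, -, h3, u, hu, w, hw, h4, h5, h6⟩
  · exact h.free_fz he hv
  · exact h.free_low he h3 hu hw (by omega) (by omega) (by omega)

/-- Two crossing members are joined by a low member or by close points of the legs. -/
theorem Lev.cross (he : c.Env) (h : c.Lev lam ρ F D) {a e x y k k' : ℕ}
    (h1 : D.Fz a e ∨ c.J (lam + 4000 * c.K) D k a e) (h2 : D.Fz x y ∨ c.J (lam + 4000 * c.K) D k' x y)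
    (hs : Sep a e x y) : Cr (c.V0 (lam + 4000 * c.K) D) a e x y ∨ ∃ s s' g g', (s = a ∨ s = e) ∧
      (s' = x ∨ s' = y) ∧ D.Sg s s' ∧ g ∈ c.Lg (lam + 4000 * c.K) D s ∧
      g' ∈ c.Lg (lam + 4000 * c.K) D s' ∧ c.d g g' < 26 * c.K ∧
      (c.lv g ≤ k ∨ c.lv g ≤ lam + 4040 * c.K) ∧ (c.d g g' < 20 * c.K ∨
        (c.J (lam + 4000 * c.K) D (c.lv g + 20 * c.K) a e ∧
          c.J (lam + 4000 * c.K) D (c.lv g' + 20 * c.K) x y)) := by
  have s1 : D.Sg a e := h1.elim (fun h1 => (h.fzG _ _ h1).1) fun h1 => h1.2.2.1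
  have s2 : D.Sg x y := h2.elim (fun h1 => (h.fzG _ _ h1).1) fun h1 => h1.2.2.1
  by_cases f1 : D.Fz a e
  · exact Or.inl (h.fz_cross f1 s2 hs)
  by_cases f2 : D.Fz x y
  · obtain ⟨p, q, hp, hq, hr⟩ := bo_cr_ex (h.fz_cross f2 s1 hs.symm)
    exact Or.inl (bo_cr_mk hq hp (h.v0S hr))
  obtain ⟨a1, a2, -, u, hu, w, hw, a3, a4, a5⟩ := h1.resolve_left f1
  obtain ⟨b1, b2, -, u', hu', w', hw', b3, b4, b5⟩ := h2.resolve_left f2
  obtain ⟨P, p1, p2, p3, p4, p5⟩ := (h.real he s1 hu hw (by omega)).resolve_left f1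
  obtain ⟨Q, q1, q2, q3, q4, q5⟩ := (h.real he s2 hu' hw' (by omega)).resolve_left f2
  have hax := h.sg4 s1 s2 hs (Or.inl rfl) (Or.inl rfl)
  rw [← h.sgF _ _ hax] at q2
  rcases h.cl a e x y s1 hax (h.sg4 s1 s2 hs (Or.inl rfl) (Or.inr rfl)) hs P Q p1 q1 p2 q2 p3 p4
    q3 q4 with hc | hc
  · obtain ⟨p, q, hp, hq, hr⟩ := bo_cr_ex hc
    exact Or.inl (bo_cr_mk hp hq (Or.inl hr))
  obtain ⟨z, hz, z', hz', hzz⟩ := cl_iff.1 hc
  obtain ⟨s, g, hs1, hg, g1, g2, g3⟩ := p5 z hz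
  obtain ⟨s', g', hs2, hg', g1', -, g3'⟩ := q5 z' hz'
  have t1 := he.tri g z z'
  have t2 := he.tri g z' g'
  rw [d_comm g z] at t1
  refine Or.inr ⟨s, s', g, g', hs1, hs2, h.sg4 s1 s2 hs hs1 hs2, hg, hg', by omega, by omega, ?_⟩
  by_cases hd : c.d g g' < 20 * c.K
  · exact Or.inl hd
  have l1 := he.lip u w
  have l2 := he.lip' u w
  have l3 := he.lip u' w'
  have l4 := he.lip' u' w'
  refine Or.inr ⟨⟨a1, a2, s1, u, hu, w, hw, a3, ?_⟩, ⟨b1, b2, s2, u', hu', w', hw', b3, ?_⟩⟩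
  · rcases g3 with rfl | rfl | rfl
    · rw [d_self] at t1; omega
    · omega
    · omega
  · rcases g3' with rfl | rfl | rfl
    · rw [d_self] at t2; omega
    · omega
    · omega

end Cx

theorem bandStmt : BandStmt.{u} := by
  intro V c lam ρ F D he h
  have hK := he.one
  refine ⟨h.pos, fun a e => h.memS, fun a e hm => h.sgX _ _ (h.mem_sg hm), fun a e => h.v0S,
    fun a e => Cx.V0.mem, ?_, fun t r => Cx.Bc.symm, fun t r s => Cx.Bc.trans, ?_,
    fun a e => h.free_v0 he, ?_, ?_, ?_, ?_⟩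
  · rintro a e ⟨u, w, ⟨h1, h2, h3, h4, h5⟩, h6, h7⟩
    exact ⟨w, u, ⟨h3, h4, h1, h2, by rwa [Cx.d_comm]⟩, h7, h6⟩
  · intro t r htr
    have h3 : c.Bc (lam + 4000 * c.K + 10000 * c.K) t r := htr
    exact (h.rtX _ (he.lev t _ (by rw [h3.1]; omega))).1
  · intro a e x y hv hm hs
    rcases h.cross he hv hm hs with hc | ⟨s, s', g, g', h1, h2, h3, h4, h5, h6, h7, -⟩
    · obtain ⟨p, q, hp, hq, hr⟩ := bo_cr_ex hc
      exact bo_cr_mk hp hq (h.free_v0 he hr)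
    · have := he.lip g g'
      exact bo_cr_mk h1 h2 (h.free_low he h3 h4 h5 h6 (by omega) (by omega))
  · intro a e x y hv hm hs
    rcases h.cross he hv hm hs with hc | ⟨s, s', g, g', h1, h2, h3, h4, h5, h6, -, h8⟩
    · obtain ⟨p, q, hp, hq, hr⟩ := bo_cr_ex hc
      exact Or.inr (bo_cr_mk hp hq (Or.inl hr))
    have l1 := he.lip g g'
    have l2 := he.lip' g g'
    have x1 := h.sgX _ _ h3
    have x2 := h.sgX' h3
    by_cases hh : lam + 4220 * c.K ≤ c.lv g ∧ lam + 4220 * c.K ≤ c.lv g'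
    · exact Or.inr (bo_cr_mk h1 h2 (Or.inr ⟨g, g', ⟨by omega, h.lg_le x1 h4, by omega,
        h.lg_le x2 h5, by omega⟩, h.lg_high x1 h4 (by omega), h.lg_high x2 h5 (by omega)⟩))
    rcases h8 with h8 | ⟨h8, h9⟩
    · exact Or.inr (bo_cr_mk h1 h2 (Or.inl (Or.inr ⟨x1, x2, h3, g, h4, g', h5, h8, by omega,
        by omega⟩)))
    · exact Or.inl ⟨Or.inr (h8.mono (by omega)), Or.inr (h9.mono (by omega))⟩
  · rintro a e (hm | ⟨x1, x2, h3, u, hu, w, hw, h4, h5, h6⟩)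
    · exact Or.inl (Or.inl hm)
    have l1 := he.lip u w
    have l2 := he.lip' u w
    by_cases hh : c.lv u ≤ lam + 4300 * c.K ∧ c.lv w ≤ lam + 4300 * c.K
    · exact Or.inl (Or.inr ⟨x1, x2, h3, u, hu, w, hw, h4, by omega, by omega⟩)
    · exact Or.inr ⟨u, w, ⟨by omega, h5, by omega, h6, by omega⟩, h.lg_high x1 hu (by omega),
        h.lg_high x2 hw (by omega)⟩
  · intro t r htr
    have h3 : c.Bc (lam + 4000 * c.K + 10000 * c.K) t r := htr
    have h4 := he.conn_base (n := lam + 4000 * c.K + 10000 * c.K) (by omega) h3.1.ge t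
      ⟨h3.1, Ch.refl _⟩ r ⟨h3.2.1, h3.2.2⟩
    refine Relation.ReflTransGen.mono ?_ _ _ h4
    rintro x y ⟨⟨x1, x2⟩, ⟨y1, y2⟩, hxy⟩
    have h5 := h.sg_feet he (Nat.le_add_right _ _) x1.ge (x2.symm.trans y2)
    have h6 : c.d x y ≤ 1 := hxy
    exact ⟨⟨h3.1, x1, x2⟩, ⟨h3.1, y1, y2⟩, Or.inl (Or.inr ⟨h.sgX _ _ h5, h.sgX' h5, h5, x,
      Or.inr ⟨by omega, x1.le, rfl⟩, y, Or.inr ⟨by omega, y1.le, rfl⟩, by omega, x1.le, y1.le⟩)⟩

end Pool.Agent.Lib.MP_f9389f_co.SC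
end

-- part Pool.Agent.Lib.MP_f9389f_co.SC.BandG
section

/-! Lengths and jumps in the band. -/

namespace Pool.Agent.Lib.MP_f9389f_co.SC

universe u

open SimpleGraph

theorem bg_end (hPath : PathStmt) {C R : ℕ → ℕ → Prop} {X : Finset ℕ} {H : SimpleGraph ℕ}
    (hH : EmuOut C X H) (h1 : ∀ a c, C a c → R a c)
    (h2 : ∀ a c b d, C a c → C b d → Sep a c b d → Cr R a c b d) {A B : ℕ} (h : H.Adj A B) :
    Near (fromRel R) 26 A B := by
  obtain ⟨n, v, hv⟩ := hH.chain A B h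
  have := hPath.links C R A B n v hv h1 h2 n le_rfl
  rcases hv.2.2.2.2 with e | e <;> rw [e]
  exacts [this.1, this.2]

theorem bg_dist {V : Type u} {c : Cx V} (he : c.Env) (f : ℕ → V) (k : ℕ) {Γ : SimpleGraph ℕ}
    (hΓ : ∀ a e, Γ.Adj a e → c.d (f a) (f e) ≤ k) {n a e : ℕ} (h : Near Γ n a e) :
    c.d (f a) (f e) ≤ n * k := by
  induction n generalizing a with
  | zero => rw [h.zero, Cx.d_self]; omega
  | succ n ih =>
    obtain ⟨x, hx, h'⟩ := h.succ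
    have h1 := ih h'
    have h2 := he.tri (f a) (f x) (f e)
    have h3 : c.d (f a) (f x) ≤ k := by
      rcases hx with rfl | hx
      · rw [Cx.d_self]; omega
      · exact hΓ _ _ hx
    rw [Nat.succ_mul]; omega

theorem Cx.Lev.lg_loc {V : Type u} {c : Cx V} {lam : ℕ} {ρ : V → ℕ} {F : V → V → Prop} {D : LD V}
    (he : c.Env) (h : c.Lev lam ρ F D) {a : ℕ} (ha : a ∈ D.X) {u : V}
    (hu : u ∈ c.Lg (lam + 4000 * c.K) D a) : c.d (D.loc a) u ≤ 40000 * c.K := by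
  rcases hu with hu | ⟨h1, h2, rfl⟩
  · exact h.rad a ha u hu
  · rw [(h.rtX _ (he.lev u _ h1)).2]
    have := he.dσ u h1
    rw [he.top] at this
    omega

theorem bandGStmt (hPath : PathStmt) (hBand : BandStmt.{u}) : BandGStmt.{u} := by
  intro V c lam ρ F D H he h hH
  have hK := he.one
  refine ⟨fun a e hae => ?_, fun a e hae => ?_, ?_⟩
  · have h1 := bg_end hPath (R := D.Sg) hH (fun a e => h.mem_sg) (fun a e x y h1 h2 hs =>
      Or.inl (h.sgN _ _ _ _ (h.mem_sg h1) (h.mem_sg h2) hs)) hae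
    refine h1.induct (D.Sg a) (h.sgR a (hH.mem a e hae)) fun x y hx hxy => ?_
    exact h.sgT _ _ _ hx (hxy.2.elim id (h.sgS _ _))
  · have key : ∀ s s' g g', D.Sg s s' → g ∈ c.Lg (lam + 4000 * c.K) D s →
        g' ∈ c.Lg (lam + 4000 * c.K) D s' → c.d g g' < 26 * c.K →
        c.d (D.loc s) (D.loc s') ≤ 140000 * c.K := by
      intro s s' g g' h1 h2 h3 h4
      have h5 := h.lg_loc he (h.sgX _ _ h1) h2
      have h6 := h.lg_loc he (h.sgX' h1) h3
      have h7 := he.tri (D.loc s) g g'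
      have h8 := he.tri (D.loc s) g' (D.loc s')
      rw [Cx.d_comm g'] at h8
      omega
    have km : ∀ a e, c.Mem (lam + 4000 * c.K) D a e → c.d (D.loc a) (D.loc e) ≤ 140000 * c.K := by
      rintro a e (hm | ⟨-, -, h3, u, hu, w, hw, h4, -⟩)
      · exact (h.fzG a e hm).2
      · exact key a e u w h3 hu hw (by omega)
    have h1 := bg_end hPath (R := fun a e => c.d (D.loc a) (D.loc e) ≤ 140000 * c.K) hH km
      (fun a e x y h1 h2 hs => by
        rcases h.cross he h1 h2 hs with hc | ⟨s, s', g, g', h1, h2, h3, h4, h5, h6, -⟩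
        · obtain ⟨p, q, hp, hq, hr⟩ := bo_cr_ex hc
          exact bo_cr_mk hp hq (km _ _ hr.mem)
        · exact bo_cr_mk h1 h2 (key _ _ _ _ h3 h4 h5 h6)) hae
    have h2 := bg_dist he D.loc (140000 * c.K) (fun a e (hae : (fromRel _).Adj a e) =>
      hae.2.elim id fun h => by rwa [Cx.d_comm]) h1
    omega
  · have one : ∀ u w, c.d u w ≤ 19 * c.K → (∀ v ∈ c.I u w, lam + 4000 * c.K ≤ c.lv v ∧
        c.lv v ≤ lam + 4000 * c.K + 10000 * c.K) →
        Near H 5 (D.rt (c.σ u (lam + 4000 * c.K))) (D.rt (c.σ w (lam + 4000 * c.K))) := by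
      intro u w h1 h2
      have hu := h2 u (Cx.left_I u w)
      have hw := h2 w (Cx.right_I u w)
      have h5 := h.sg_feet he le_rfl hu.1 (he.ch_I fun v hv => (h2 v hv).1)
      exact hH.near _ _ (Or.inr ⟨h.sgX _ _ h5, h.sgX' h5, h5, u, Or.inr ⟨hu.1, hu.2, rfl⟩, w,
        Or.inr ⟨hw.1, hw.2, rfl⟩, by omega, hu.2, hw.2⟩)
    intro n
    induction n with
    | zero =>
      intro u w h1 _
      have : u = w := (he.conn.dist_eq_zero_iff).1 (by have : c.d u w = 0 := by omega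
                                                       exact this)
      rw [this]; exact Near.refl _ _ _
    | succ n ih =>
      intro u w h1 h2
      by_cases hd : c.d u w ≤ 19 * c.K
      · exact (one u w hd h2).mono (by omega)
      obtain ⟨v, hv, e⟩ := he.exists_I u w (n := 19 * c.K) (by omega)
      have h3 := Cx.mem_I hv
      have h4 : c.I v w ⊆ c.I u w := by
        rw [Cx.I_comm v w, Cx.I_comm u w]
        exact he.I_sub (by rwa [Cx.I_comm])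
      rw [Nat.succ_mul] at h1
      exact ((one u v e.le fun x hx => h2 x (he.I_sub hv hx)).trans
        (ih v w (by omega) fun x hx => h2 x (h4 hx))).mono (by omega)

end Pool.Agent.Lib.MP_f9389f_co.SC
end

-- part Pool.Agent.Lib.MP_f9389f_co.SC.TokG
section

/-! Geometry of tokens. -/

namespace Pool.Agent.Lib.MP_f9389f_co.SC

universe u

open SimpleGraph

theorem tg_split {a c x y : ℕ} (h : Sep a c x y) (b : ℕ) :
    b = x ∨ b = y ∨ Sep a b x y ∨ Sep b c x y := by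
  unfold Sep Btw Out at *; omega

namespace Cx

variable {V : Type u} {c : Cx V} {lam : ℕ} {ρ : V → ℕ} {F : V → V → Prop} {D : LD V}

theorem Tok.qlv {x pp q : V} {W : Set V} (hp : c.Prov lam ρ F) (h : c.Tok lam F D x pp q W) :
    c.lv q = lam + 4000 * c.K := (hp.sub _ _ h.fq).1

/-- A low point of a virtual leg or of the anchor below it is near a leg. -/
theorem Tok.loc {x pp q z : V} {W : Set V} (h : c.Tok lam F D x pp q W)
    (hz : z ∈ W ∪ D.An (D.rt q)) (hl : c.lv z ≤ lam + 4112 * c.K) :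
    ∃ e, ∃ z₀ ∈ c.Lg (lam + 4000 * c.K) D e,
      (e = D.rt q ∨ c.V0 (lam + 4000 * c.K) D e (D.rt q)) ∧ c.d z z₀ ≤ 3 * c.K := by
  rcases hz with hz | hz
  · exact h.low z hz hl
  · exact ⟨_, z, Or.inl hz, Or.inl rfl, by simp [d_self]⟩

theorem tg_low (he : c.Env) (hp : c.Prov lam ρ F) (h : c.Lev lam ρ F D) {x pp q x' pp' q' z z' : V}
    {W W' : Set V} (t : c.Tok lam F D x pp q W) (t' : c.Tok lam F D x' pp' q' W')
    (hs : D.Sg (D.rt q) (D.rt q')) (hz : z ∈ W ∪ D.An (D.rt q)) (hz' : z' ∈ W' ∪ D.An (D.rt q'))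
    (hd : c.d z z' < 6 * c.K) (hl : c.lv z ≤ lam + 4100 * c.K ∨ c.lv z' ≤ lam + 4100 * c.K) :
    Near (fromRel (c.V0 (lam + 4000 * c.K) D)) 3 (D.rt q) (D.rt q') := by
  have l1 := he.lip z z'
  have l2 := he.lip' z z'
  obtain ⟨e, g, hg, he1, hd1⟩ := t.loc hz (by omega)
  obtain ⟨e', g', hg', he2, hd2⟩ := t'.loc hz' (by omega)
  have s1 : D.Sg e (D.rt q) := he1.elim (fun h1 => by rw [h1]; exact h.sgR _ (h.sgX _ _ hs))
    h.v0_sg
  have s2 : D.Sg e' (D.rt q') := he2.elim (fun h1 => by rw [h1]; exact h.sgR _ (h.sgX' hs))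
    h.v0_sg
  have s3 := h.sgT _ _ _ (h.sgT _ _ _ s1 hs) (h.sgS _ _ s2)
  have t1 := he.tri g z z'
  have t2 := he.tri g z' g'
  rw [d_comm g z] at t1
  have l3 := he.lip z g
  have l4 := he.lip z' g'
  have n1 : Near (fromRel (c.V0 (lam + 4000 * c.K) D)) 1 e (D.rt q) :=
    he1.elim (fun h1 => by rw [h1]; exact Near.refl _ _ _) near_rel
  have n2 : Near (fromRel (c.V0 (lam + 4000 * c.K) D)) 1 e' (D.rt q') :=
    he2.elim (fun h1 => by rw [h1]; exact Near.refl _ _ _) near_rel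
  have n3 : Near (fromRel (c.V0 (lam + 4000 * c.K) D)) 1 e e' := near_rel (Or.inr
    ⟨h.sgX _ _ s3, h.sgX' s3, s3, g, hg, g', hg', by omega, by omega, by omega⟩)
  exact (n1.symm.trans n3).trans n2

theorem tg_an (h : c.Lev lam ρ F D) {q : V} {W : Set V} (hq : c.lv q = lam + 4000 * c.K) :
    c.An' lam q W ⊆ W ∪ D.An (D.rt q) := Set.union_subset_union_right _ (h.seg q hq)

theorem Tok.bc (he : c.Env) (hp : c.Prov lam ρ F) {x pp q x' pp' q' : V} {W W' : Set V}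
    (t : c.Tok lam F D x pp q W) (t' : c.Tok lam F D x' pp' q' W')
    (hc : Ch c.G 1 (c.Up (lam + 4000 * c.K)) x x') : c.Bc (lam + 4000 * c.K) q q' :=
  ⟨t.qlv hp, t'.qlv hp, (t.xq.2.symm.trans hc).trans t'.xq.2⟩

/-- One step of fuzz keeps a crossing. -/
theorem tg_move (hp : c.Prov lam ρ F) {a a' e b f : V} (h1 : F a' a)
    (hb : c.Bc (lam + 4000 * c.K) a b) (hf : c.Bc (lam + 4000 * c.K) a f)
    (hs : Sep (ρ a) (ρ e) (ρ b) (ρ f)) (hn : ¬ Cr F a' a b f) : Sep (ρ a') (ρ e) (ρ b) (ρ f) := by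
  have h2 := hp.sub _ _ h1
  rcases tg_split hs (ρ a') with h3 | h3 | h3 | h3
  · rw [hp.inj _ _ (h2.trans hb) h3] at h1
    exact absurd (Or.inr (Or.inr (Or.inl (hp.symm _ _ h1)))) hn
  · rw [hp.inj _ _ (h2.trans hf) h3] at h1
    exact absurd (Or.inr (Or.inr (Or.inr (hp.symm _ _ h1)))) hn
  · exact absurd (hp.clo a' a b f h1 (h2.trans hb) (h2.trans hf) h3.swap) hn
  · exact h3

theorem tg_f3 (hp : c.Prov lam ρ F) {a e b f : V} (h : F3 F a e)
    (hb : c.Bc (lam + 4000 * c.K) a b) (hf : c.Bc (lam + 4000 * c.K) a f)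
    (hs : Sep (ρ a) (ρ e) (ρ b) (ρ f)) : Cr (F3 F) a e b f := by
  obtain ⟨x, y, h1, h2, h3⟩ := h
  by_contra hn
  have bx := hp.sub _ _ h1
  have by' := hp.sub _ _ h2
  have be := hp.sub _ _ h3
  have k : ∀ s t, (s = a ∨ s = e) → (t = b ∨ t = f) → ¬ F3 F s t := fun s t hs ht h =>
    hn (bo_cr_mk hs ht h)
  have rb : ∀ t, (t = b ∨ t = f) → F t t := by
    rintro t (rfl | rfl)
    exacts [hp.refl hb.2.1, hp.refl hf.2.1]
  have s1 := tg_move hp (hp.symm _ _ h1) hb hf hs fun h => by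
    obtain ⟨s, t, rfl | rfl, ht, hr⟩ := bo_cr_ex h
    · exact k a t (Or.inl rfl) ht ⟨_, _, h1, hr, rb t ht⟩
    · exact k s t (Or.inl rfl) ht ⟨_, _, hr, rb t ht, rb t ht⟩
  have s2 := tg_move hp (hp.symm _ _ h2) (bx.symm.trans hb) (bx.symm.trans hf) s1 fun h => by
    obtain ⟨s, t, rfl | rfl, ht, hr⟩ := bo_cr_ex h
    · exact k a t (Or.inl rfl) ht ⟨_, _, h1, h2, hr⟩
    · exact k a t (Or.inl rfl) ht ⟨_, _, h1, hr, rb t ht⟩
  obtain ⟨s, t, rfl | rfl, ht, hr⟩ := bo_cr_ex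
    (hp.clo y e b f h3 ((bx.trans by').symm.trans hb) ((bx.trans by').symm.trans hf) s2)
  · exact k a t (Or.inl rfl) ht ⟨_, _, h1, h2, hr⟩
  · exact k s t (Or.inr rfl) ht ⟨_, _, hr, rb t ht, rb t ht⟩

theorem tg_xl (hp : c.Prov lam ρ F) {p0 p1 p2 p3 q0 q1 q2 q3 : V} (f0 : F q0 p0) (f1 : F q1 p1)
    (f2 : F q2 p2) (f3 : F q3 p3) (b1 : c.Bc (lam + 4000 * c.K) p0 p1)
    (b2 : c.Bc (lam + 4000 * c.K) p0 p2) (b3 : c.Bc (lam + 4000 * c.K) p0 p3)
    (hs : Sep (ρ p0) (ρ p1) (ρ p2) (ρ p3)) (hn : ¬ Cr (F3 F) p0 p1 p2 p3) :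
    Sep (ρ q0) (ρ q1) (ρ q2) (ρ q3) ∧ ¬ Cr F q0 q1 q2 q3 := by
  have key : ∀ s s' t t', ((s = p0 ∧ (s' = q0 ∨ s' = p0)) ∨ (s = p1 ∧ (s' = q1 ∨ s' = p1))) →
      ((t = p2 ∧ (t' = q2 ∨ t' = p2)) ∨ (t = p3 ∧ (t' = q3 ∨ t' = p3))) → ¬ F s' t' := by
    intro s s' t t' h1 h2 h
    refine hn (bo_cr_mk (h1.imp And.left And.left) (h2.imp And.left And.left) ⟨s', t', ?_, h, ?_⟩)
    · rcases h1 with ⟨rfl, rfl | rfl⟩ | ⟨rfl, rfl | rfl⟩
      exacts [hp.symm _ _ f0, hp.refl b1.1, hp.symm _ _ f1, hp.refl b1.2.1]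
    · rcases h2 with ⟨rfl, rfl | rfl⟩ | ⟨rfl, rfl | rfl⟩
      exacts [f2, hp.refl b2.2.1, f3, hp.refl b3.2.1]
  have c0 := hp.sub _ _ f0
  have c1 := hp.sub _ _ f1
  have c2 := hp.sub _ _ f2
  have s0 := tg_move hp f0 b2 b3 hs fun h => by
    rcases h with h | h | h | h
    exacts [key p0 _ p2 _ (by tauto) (by tauto) h, key p0 _ p3 _ (by tauto) (by tauto) h,
      key p0 _ p2 _ (by tauto) (by tauto) h, key p0 _ p3 _ (by tauto) (by tauto) h]
  have s1 := tg_move hp f1 (b1.symm.trans b2) (b1.symm.trans b3) s0.swap fun h => by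
    rcases h with h | h | h | h
    exacts [key p1 _ p2 _ (by tauto) (by tauto) h, key p1 _ p3 _ (by tauto) (by tauto) h,
      key p1 _ p2 _ (by tauto) (by tauto) h, key p1 _ p3 _ (by tauto) (by tauto) h]
  have s2 := tg_move hp f2 ((b2.symm.trans b1).trans c1.symm) (b2.symm.trans c0.symm) s1.symm
    fun h => by
    rcases h with h | h | h | h <;> replace h := hp.symm _ _ h
    exacts [key p1 _ p2 _ (by tauto) (by tauto) h, key p0 _ p2 _ (by tauto) (by tauto) h,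
      key p1 _ p2 _ (by tauto) (by tauto) h, key p0 _ p2 _ (by tauto) (by tauto) h]
  have s3 := tg_move hp f3 ((b3.symm.trans b1).trans c1.symm) (b3.symm.trans c0.symm) s2.swap
    fun h => by
    rcases h with h | h | h | h <;> replace h := hp.symm _ _ h
    exacts [key p1 _ p3 _ (by tauto) (by tauto) h, key p0 _ p3 _ (by tauto) (by tauto) h,
      key p1 _ p3 _ (by tauto) (by tauto) h, key p0 _ p3 _ (by tauto) (by tauto) h]
  refine ⟨s3.symm.swap.swap', fun h => ?_⟩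
  rcases h with h | h | h | h
  exacts [key p0 _ p2 _ (by tauto) (by tauto) h, key p0 _ p3 _ (by tauto) (by tauto) h,
    key p1 _ p2 _ (by tauto) (by tauto) h, key p1 _ p3 _ (by tauto) (by tauto) h]

theorem tg_xl' (hp : c.Prov lam ρ F) {x pp q : Fin 4 → V} {W : Fin 4 → Set V}
    (t : ∀ i, c.Tok lam F D (x i) (pp i) (q i) (W i))
    (b : ∀ i, c.Bc (lam + 4000 * c.K) (pp 0) (pp i))
    (hs : Sep (ρ (pp 0)) (ρ (pp 1)) (ρ (pp 2)) (ρ (pp 3)))
    (hn : ¬ Cr (F3 F) (pp 0) (pp 1) (pp 2) (pp 3)) (P Q : Set V) (p1 : Conn c.G 1 P)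
    (q1 : Conn c.G 1 Q) (p2 : P ⊆ c.Up (lam + 25 * c.K)) (q2 : Q ⊆ c.Up (lam + 25 * c.K))
    (a0 : c.An' lam (q 0) (W 0) ⊆ P) (a1 : c.An' lam (q 1) (W 1) ⊆ P)
    (a2 : c.An' lam (q 2) (W 2) ⊆ Q) (a3 : c.An' lam (q 3) (W 3) ⊆ Q) : c.Cl P Q := by
  obtain ⟨h1, h2⟩ := tg_xl hp (t 0).fq (t 1).fq (t 2).fq (t 3).fq (b 1) (b 2) (b 3) hs hn
  have bq : ∀ i, c.Bc (lam + 4000 * c.K) (q 0) (q i) := fun i =>
    ((hp.sub _ _ (t 0).fq).trans (b i)).trans (hp.sub _ _ (t i).fq).symm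
  have m : ∀ i, c.σ (q i) (lam + 25 * c.K) ∈ c.An' lam (q i) (W i) := fun i =>
    Or.inr (mem_seg _ le_rfl (by omega))
  exact hp.xl _ _ _ _ (bq 1) (bq 2) (bq 3) h1 h2 P Q p1 q1 p2 q2 (a0 (m 0)) (a1 (m 1)) (a2 (m 2))
    (a3 (m 3))

/-- Two virtual legs with sets `A`, `A'` below them and the component that joins their tops. -/
theorem tg_conn {x pp q x' pp' q' : V} {W W' A A' : Set V} {n : ℕ}
    (t : c.Tok lam F D x pp q W) (t' : c.Tok lam F D x' pp' q' W') (hA : Conn c.G 1 A)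
    (hA' : Conn c.G 1 A') (hq : q ∈ A) (hq' : q' ∈ A') (hc : Ch c.G 1 (c.Up n) x x') :
    Conn c.G 1 (((W ∪ A) ∪ {z | Ch c.G 1 (c.Up n) x z}) ∪ (W' ∪ A')) :=
  ((t.conn.union' hA t.qW hq).union' (conn_comp _ _ _ x) (Or.inl t.xW) (Ch.refl x)).union'
    (t'.conn.union' hA' t'.qW hq') (Or.inr hc) (Or.inl t'.xW)

/-- A high point of such a set is joined to the first top. -/
theorem tg_up {x pp q x' pp' q' z : V} {W W' A A' : Set V} {n k : ℕ}
    (t : c.Tok lam F D x pp q W) (t' : c.Tok lam F D x' pp' q' W')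
    (hA : ∀ z ∈ A, c.lv z ≤ lam + 4040 * c.K) (hA' : ∀ z ∈ A', c.lv z ≤ lam + 4040 * c.K)
    (hc : Ch c.G 1 (c.Up n) x x') (hk : k ≤ 100 * c.K) (hn : lam + 4000 * c.K + k ≤ n)
    (hz : z ∈ ((W ∪ A) ∪ {z | Ch c.G 1 (c.Up n) x z}) ∪ (W' ∪ A'))
    (h1 : lam + 4040 * c.K < c.lv z) (h2 : lam + 4000 * c.K + k + 6 * c.K ≤ c.lv z) :
    Ch c.G 1 (c.Up (lam + 4000 * c.K + k)) z x := by
  rcases hz with ((hz | hz) | hz) | hz | hz
  · exact t.up k hk z hz h2
  · have := hA z hz; omega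
  · exact (Ch.mono hz le_rfl (up_mono hn)).symm
  · exact (t'.up k hk z hz h2).trans (hc.mono le_rfl (up_mono hn)).symm
  · have := hA' z hz; omega

end Cx

theorem tokGStmt : TokGStmt.{u} := by
  intro V c lam ρ F ρ' F' D hSt
  have he := hSt.env
  have hp := hSt.pv
  have h := hSt.lev
  have hK := he.one
  refine ⟨?_, ?_, fun a e b f => Cx.tg_f3 hp, fun x pp q W => Cx.tg_xl' hp, ?_⟩
  · rintro x pp q W x' pp' q' W' t t' hs ⟨z, hz, z', hz', hd, hl⟩
    exact Cx.tg_low he hp h t t' hs (Cx.tg_an h (t.qlv hp) hz) (Cx.tg_an h (t'.qlv hp) hz') hd hl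
  · intro x pp q W t c1 c2 hn hs
    have s1 := h.sgC _ _ ((t 0).bc he hp (t 1) (c1.mono le_rfl (Cx.up_mono (by omega))))
    have s2 := h.sgC _ _ ((t 2).bc he hp (t 3) (c2.mono le_rfl (Cx.up_mono (by omega))))
    have X : ∀ i, D.rt (q i) ∈ D.X := fun i => (h.rtX _ ((t i).qlv hp)).1
    have s02 := h.sg4 s1 s2 hs (Or.inl rfl) (Or.inl rfl)
    have s03 := h.sg4 s1 s2 hs (Or.inl rfl) (Or.inr rfl)
    have fl := h.flo _ (X 0)
    have lo : ∀ i, D.Sg (D.rt (q 0)) (D.rt (q i)) →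
        W i ∪ D.An (D.rt (q i)) ⊆ c.Up (D.fl (D.rt (q 0))) := by
      rintro i hi z (hz | hz)
      · exact Cx.up_mono (by omega) ((t i).lo hz)
      · rw [h.sgF _ _ hi]; exact h.lo _ (X i) hz
    have lc : ∀ i, {z | Ch c.G 1 (c.Up (lam + 4088 * c.K)) (x i) z} ⊆ c.Up (lam + 4088 * c.K) :=
      fun i z hz => Cx.ch_lv hz (by have := (t i).xlo; omega)
    have cn : ∀ i k, Ch c.G 1 (c.Up (lam + 4088 * c.K)) (x i) (x k) → _ := fun i k hc =>
      Cx.tg_conn (t i) (t k) (h.conn _ (X i)) (h.conn _ (X k)) (h.mem_An ((t i).qlv hp))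
        (h.mem_An ((t k).qlv hp)) hc
    rcases h.cl _ _ _ _ s1 s02 s03 hs _ _ (cn 0 1 c1) (cn 2 3 c2)
      (Set.union_subset (Set.union_subset (lo 0 (h.sgR _ (X 0)))
        ((lc 0).trans (Cx.up_mono (by omega)))) (lo 1 s1))
      (Set.union_subset (Set.union_subset (lo 2 s02) ((lc 2).trans (Cx.up_mono (by omega))))
        (lo 3 s03)) (fun z hz => Or.inl (Or.inl (Or.inr hz))) (fun z hz => Or.inr (Or.inr hz))
      (fun z hz => Or.inl (Or.inl (Or.inr hz))) (fun z hz => Or.inr (Or.inr hz)) with hc | hc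
    · obtain ⟨a, b, ha, hb, hr⟩ := bo_cr_ex hc
      exact bo_cr_mk ha hb ((near_rel (R := c.V0 (lam + 4000 * c.K) D) (Or.inl hr)).mono
        (by omega))
    obtain ⟨z, hz, z', hz', hd⟩ := Cx.cl_iff.1 hc
    have l1 := he.lip z z'
    have l2 := he.lip' z z'
    by_cases hl : c.lv z ≤ lam + 4050 * c.K
    · have k1 : ∃ i, (i = 0 ∨ i = 1) ∧ z ∈ W i ∪ D.An (D.rt (q i)) := by
        rcases hz with (hz | hz) | hz
        · exact ⟨0, Or.inl rfl, hz⟩
        · have : lam + 4088 * c.K ≤ c.lv z := lc 0 hz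
          omega
        · exact ⟨1, Or.inr rfl, hz⟩
      have k2 : ∃ i, (i = 2 ∨ i = 3) ∧ z' ∈ W i ∪ D.An (D.rt (q i)) := by
        rcases hz' with (hz' | hz') | hz'
        · exact ⟨2, Or.inl rfl, hz'⟩
        · have : lam + 4088 * c.K ≤ c.lv z' := lc 2 hz'
          omega
        · exact ⟨3, Or.inr rfl, hz'⟩
      obtain ⟨i, hi, k1⟩ := k1
      obtain ⟨k, hk, k2⟩ := k2
      have hi' : D.rt (q i) = D.rt (q 0) ∨ D.rt (q i) = D.rt (q 1) :=
        hi.imp (fun e => by rw [e]) fun e => by rw [e]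
      have hk' : D.rt (q k) = D.rt (q 2) ∨ D.rt (q k) = D.rt (q 3) :=
        hk.imp (fun e => by rw [e]) fun e => by rw [e]
      exact bo_cr_mk hi' hk' (Cx.tg_low he hp h (t i) (t k) (h.sg4 s1 s2 hs hi' hk') k1 k2 hd
        (Or.inl (by omega)))
    · have u1 := Cx.tg_up (k := 0) (t 0) (t 1) (h.hi _ (X 0)) (h.hi _ (X 1)) c1 (by omega)
        (by omega) hz (by omega) (by omega)
      have u2 := Cx.tg_up (k := 0) (t 2) (t 3) (h.hi _ (X 2)) (h.hi _ (X 3)) c2 (by omega)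
        (by omega) hz' (by omega) (by omega)
      exact absurd ((t 0).bc he hp (t 2)
        ((u1.symm.trans (he.ch_up (by omega))).trans u2)) hn
  · intro x pp q W t b hs hn c1 c2
    have sl : ∀ i, ∀ z ∈ Seg c.σ (q i) (lam + 25 * c.K) (lam + 4000 * c.K),
        lam + 25 * c.K ≤ c.lv z ∧ c.lv z ≤ lam + 4000 * c.K := fun i z hz =>
      ⟨(he.seg_lv ((t i).qlv hp).ge hz).1, (he.seg_lv ((t i).qlv hp).ge hz).2.1⟩
    have lo : ∀ i, W i ∪ Seg c.σ (q i) (lam + 25 * c.K) (lam + 4000 * c.K) ⊆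
        c.Up (lam + 25 * c.K) := by
      rintro i z (hz | hz)
      · exact Cx.up_mono (by omega) ((t i).lo hz)
      · exact (sl i z hz).1
    have lc : ∀ i, {z | Ch c.G 1 (c.Up (lam + 4180 * c.K)) (x i) z} ⊆ c.Up (lam + 4180 * c.K) :=
      fun i z hz => Cx.ch_lv hz (by have := (t i).xlo; omega)
    have qm : ∀ i, q i ∈ Seg c.σ (q i) (lam + 25 * c.K) (lam + 4000 * c.K) := fun i =>
      ⟨_, by omega, le_rfl, he.stop _ _ ((t i).qlv hp).le⟩
    have cn : ∀ i k, Ch c.G 1 (c.Up (lam + 4180 * c.K)) (x i) (x k) → _ := fun i k hc =>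
      Cx.tg_conn (t i) (t k) (he.conn_seg _ _ _) (he.conn_seg _ _ _) (qm i) (qm k) hc
    obtain ⟨z, hz, z', hz', hd⟩ := Cx.cl_iff.1 (Cx.tg_xl' hp t b hs hn _ _ (cn 0 1 c1) (cn 2 3 c2)
      (Set.union_subset (Set.union_subset (lo 0) ((lc 0).trans (Cx.up_mono (by omega)))) (lo 1))
      (Set.union_subset (Set.union_subset (lo 2) ((lc 2).trans (Cx.up_mono (by omega)))) (lo 3))
      (fun z hz => Or.inl (Or.inl hz)) (fun z hz => Or.inr hz) (fun z hz => Or.inl (Or.inl hz))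
      (fun z hz => Or.inr hz))
    have l1 := he.lip z z'
    have l2 := he.lip' z z'
    by_cases hl : c.lv z ≤ lam + 4100 * c.K ∨ c.lv z' ≤ lam + 4100 * c.K
    · left
      have k1 : ∃ i, (i = 0 ∨ i = 1) ∧ z ∈ c.An' lam (q i) (W i) := by
        rcases hz with (hz | hz) | hz
        · exact ⟨0, Or.inl rfl, hz⟩
        · have : lam + 4180 * c.K ≤ c.lv z := lc 0 hz
          omega
        · exact ⟨1, Or.inr rfl, hz⟩
      have k2 : ∃ i, (i = 2 ∨ i = 3) ∧ z' ∈ c.An' lam (q i) (W i) := by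
        rcases hz' with (hz' | hz') | hz'
        · exact ⟨2, Or.inl rfl, hz'⟩
        · have : lam + 4180 * c.K ≤ c.lv z' := lc 2 hz'
          omega
        · exact ⟨3, Or.inr rfl, hz'⟩
      obtain ⟨i, hi, k1⟩ := k1
      obtain ⟨k, hk, k2⟩ := k2
      exact bo_cr_mk hi hk ⟨z, k1, z', k2, hd, hl⟩
    · right
      have sl' : ∀ i, ∀ z ∈ Seg c.σ (q i) (lam + 25 * c.K) (lam + 4000 * c.K),
          c.lv z ≤ lam + 4040 * c.K := fun i z hz => by have := (sl i z hz).2; omega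
      have u1 := Cx.tg_up (k := 88 * c.K) (t 0) (t 1) (sl' 0) (sl' 1) c1 (by omega)
        (by omega) hz (by omega) (by omega)
      have u2 := Cx.tg_up (k := 88 * c.K) (t 2) (t 3) (sl' 2) (sl' 3) c2 (by omega)
        (by omega) hz' (by omega) (by omega)
      rw [show lam + 4088 * c.K = lam + 4000 * c.K + 88 * c.K by omega]
      exact (u1.symm.trans (he.ch_up (by omega))).trans u2

end Pool.Agent.Lib.MP_f9389f_co.SC
end
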