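import Mathlib
import Pool.Agent.Lib.MP_f9389f_co.SC.Basic
import Pool.Agent.Lib.MP_f9389f_co.CbQI
import Pool.Agent.Lib.MP_f9389f_co.CbK33

-- part Pool.Agent.Lib.MP_f9389f_co.SC.Uni
section

/-! Boundaries of bonds and the vertical geodesics. -/

namespace Pool.Agent.Lib.MP_f9389f_co.SC

universe u

open SimpleGraph

theorem uni_const {V : Type u} {G : SimpleGraph V} (hG : G.Connected) {B : Set V}
    {g : V → ZMod 2} (h : ∀ a ∈ B, ∀ b ∈ B, G.Adj a b → g a + g b = 0) {a b : V}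
    (hab : Ch G 1 B a b) : g a = g b := by
  have key : ∀ x y : ZMod 2, x + y = 0 → x = y := by decide
  induction hab with
  | refl => rfl
  | tail _ h2 ih =>
    rcases eq_or_adj_of_dist hG h2.2.2 with e | e
    · rw [ih, e]
    · rw [ih]; exact key _ _ (h _ h2.1 _ h2.2.1 e)

open Classical in
theorem uni_prop {a b d x y z : Prop} (pa : x → a) (pb : y → b) (pd : z → d)
    (s1 : a → b → ¬ d → x → y) (s2 : b → a → ¬ d → y → x) (s3 : a → d → ¬ b → x → z)
    (s4 : d → a → ¬ b → z → x) (s5 : b → d → ¬ a → y → z) (s6 : d → b → ¬ a → z → y) :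
    ((if (x ∧ ¬ b) ∨ (y ∧ ¬ a) then 1 else 0) + (if (y ∧ ¬ d) ∨ (z ∧ ¬ b) then 1 else 0) +
      (if (x ∧ ¬ d) ∨ (z ∧ ¬ a) then 1 else 0) : ZMod 2) = 0 := by
  have two : (1 : ZMod 2) + 1 = 0 := by decide
  by_cases ha : a <;> by_cases hb : b <;> by_cases hd : d <;> by_cases qa : x <;>
    by_cases qb : y <;> by_cases qd : z <;> simp_all

theorem uniStmt : UniStmt.{u} := by
  classical
  intro V G hG hT A hA hA' a₀ h₀ a₁ h₁
  set S : Set V := {a | a ∈ A ∧ ∃ b, b ∉ A ∧ G.Adj a b} with hS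
  by_contra hn
  have hP : ∀ a, Ch G 1 S a₀ a → a ∈ A := fun a h => (h.mem h₀).1
  have hstep : ∀ a b d, a ∈ A → b ∈ A → d ∉ A → G.Adj a b → G.Adj a d → G.Adj b d →
      Ch G 1 S a₀ a → Ch G 1 S a₀ b := fun a b d ha hb hd h1 h2 h3 h4 =>
    h4.tail ⟨ha, d, hd, h2⟩ ⟨hb, d, hd, h3⟩ (dist_le_one_of_adj h1)
  obtain ⟨g, hg⟩ := hT (fun a b => if (Ch G 1 S a₀ a ∧ b ∉ A) ∨ (Ch G 1 S a₀ b ∧ a ∉ A) then 1 else 0)
    (fun a b => by simp only [or_comm]) (by
      intro a b d h1 h2 h3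
      exact uni_prop (hP a) (hP b) (hP d) (fun x y z => hstep a b d x y z h1 h3 h2)
        (fun x y z => hstep b a d x y z h1.symm h2 h3)
        (fun x y z => hstep a d b x y z h3 h1 h2.symm)
        (fun x y z => hstep d a b x y z h3.symm h2.symm h1)
        (fun x y z => hstep b d a x y z h2 h1.symm h3.symm)
        (fun x y z => hstep d b a x y z h2.symm h3.symm h1.symm))
  obtain ⟨ha₀, b₀, hb₀, e₀⟩ := h₀
  obtain ⟨ha₁, b₁, hb₁, e₁⟩ := h₁
  have c1 : g a₀ = g a₁ := uni_const hG (fun a ha b hb e => by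
    rw [← hg a b e, if_neg]
    rintro (h | h)
    exacts [h.2 hb, h.2 ha]) (hA a₀ ha₀ a₁ ha₁)
  have c2 : g b₀ = g b₁ := uni_const hG (fun a ha b hb e => by
    rw [← hg a b e, if_neg]
    rintro (h | h)
    exacts [ha (hP a h.1), hb (hP b h.1)]) (hA' b₀ hb₀ b₁ hb₁)
  have c3 := hg a₀ b₀ e₀
  have c4 := hg a₁ b₁ e₁
  rw [if_pos (Or.inl ⟨Ch.refl _, hb₀⟩)] at c3
  rw [if_neg (by rintro (h | h); exacts [hn h.1, h.2 ha₁]), ← c1, ← c2, ← c3] at c4
  exact zero_ne_one c4

theorem uni_ball {V : Type u} {G : SimpleGraph V} (hG : G.Connected)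
    (hf : ∀ v, (G.neighborSet v).Finite) (o : V) (n : ℕ) : {v | G.dist o v ≤ n}.Finite := by
  induction n with
  | zero =>
    refine (Set.finite_singleton o).subset fun v hv => ?_
    exact ((hG.dist_eq_zero_iff).1 (Nat.le_zero.1 hv)).symm
  | succ n ih =>
    refine (ih.union (ih.biUnion fun x _ => hf x)).subset fun v hv => ?_
    by_cases h : G.dist o v ≤ n
    · exact Or.inl h
    · have hv' : G.dist o v ≤ n + 1 := hv
      obtain ⟨x, h1, h2⟩ := exists_step hG (show G.dist o v = n + 1 by omega)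
      rcases eq_or_adj_of_dist hG h2 with e | e
      · rw [e] at h1; omega
      · exact Or.inr (Set.mem_biUnion (show x ∈ {v | G.dist o v ≤ n} from h1.le) e)

theorem envStmt : EnvStmt.{u} := by
  intro V G K o hG hf hU hK hn
  have hpar : ∀ v, ∃ x, G.dist o x = G.dist o v - 1 ∧ G.dist x v ≤ 1 := by
    intro v
    rcases h : G.dist o v with _ | n
    · exact ⟨v, h, by simp⟩
    · exact exists_step hG h
  choose par h1 h2 using hpar
  have hit : ∀ k x, G.dist o (par^[k] x) = G.dist o x - k := by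
    intro k x
    induction k with
    | zero => simp
    | succ k ih => rw [Function.iterate_succ_apply', h1, ih]; omega
  refine ⟨fun x t => par^[G.dist o x - t] x, hG, hK, hn, hU, uni_ball hG hf o, ?_, ?_, ?_, ?_⟩
  · intro x t ht
    have ht' : t ≤ G.dist o x := ht
    show G.dist o (par^[G.dist o x - t] x) = t
    rw [hit]; omega
  · intro x t ht
    have ht' : G.dist o x ≤ t := ht
    show par^[G.dist o x - t] x = x
    rw [Nat.sub_eq_zero_of_le ht']; rfl
  · intro x t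
    show G.dist (par^[G.dist o x - t] x) (par^[G.dist o x - (t + 1)] x) ≤ 1
    by_cases ht : t < G.dist o x
    · rw [show G.dist o x - t = G.dist o x - (t + 1) + 1 by omega, Function.iterate_succ_apply']
      exact h2 _
    · rw [show G.dist o x - t = G.dist o x - (t + 1) by omega]; simp
  · intro x s t hst
    show par^[G.dist o (par^[G.dist o x - t] x) - s] (par^[G.dist o x - t] x) =
      par^[G.dist o x - s] x
    rw [← Function.iterate_add_apply, hit]
    congr 1; omega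

end Pool.Agent.Lib.MP_f9389f_co.SC
end

-- part Pool.Agent.Lib.MP_f9389f_co.SC.Pow
section

/-! The power graph. -/

namespace Pool.Agent.Lib.MP_f9389f_co.SC

universe u

open SimpleGraph Finset

section

variable {V : Type u} {G : SimpleGraph V} {W : Sym2 V → ZMod 2} {s : ℕ}

/-- The sum of a function over the edges of a walk. -/
def powS (W : Sym2 V → ZMod 2) {x y : V} (p : G.Walk x y) : ZMod 2 := (p.edges.map W).sum

theorem pow_ball (hc : G.Connected) (hf : ∀ v, (G.neighborSet v).Finite) (x : V) (n : ℕ) :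
    {y | G.dist x y ≤ n}.Finite := by
  induction n with
  | zero => exact (Set.finite_singleton x).subset fun y hy =>
      (hc.dist_eq_zero_iff.1 (Nat.le_zero.1 hy)).symm
  | succ n ih =>
    refine (ih.union (ih.biUnion fun y _ => hf y)).subset fun y hy => ?_
    obtain ⟨p, hp⟩ := hc.exists_walk_length_eq_dist y x
    cases p with
    | nil => exact .inl (by simp)
    | @cons _ v _ h q =>
      refine .inr (Set.mem_biUnion (x := v) ?_ h.symm)
      have h1 := dist_le q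
      have h2 : G.dist x y ≤ n + 1 := hy
      rw [Walk.length_cons, dist_comm] at hp
      rw [dist_comm] at h1
      exact (by omega : G.dist x v ≤ n)

theorem pow_append {x y z : V} (p : G.Walk x y) (q : G.Walk y z) :
    powS W (p.append q) = powS W p + powS W q := by simp [powS]

theorem pow_nodup [DecidableEq V] {x y : V} {p : G.Walk x y} (h : p.edges.Nodup)
    {F : Finset (Sym2 V)} (k : p.edges.toFinset ⊆ F) :
    powS W p = ∑ e ∈ F, (if e ∈ p.edges then 1 else 0) * W e := by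
  rw [powS, ← List.sum_toFinset _ h, ← sum_subset k fun e _ j => by
    rw [if_neg (by simpa using j), zero_mul]]
  exact sum_congr rfl fun e j => by rw [if_pos (by simpa using j), one_mul]

theorem pow_cycle (hs : ShortCycles G s)
    (h : ∀ (v : V) (p : G.Walk v v), p.length ≤ s → powS W p = 0) {v : V} {p : G.Walk v v}
    (hp : p.IsCycle) : powS W p = 0 := by
  classical
  obtain ⟨n, w, z, h1, h2⟩ := hs v p hp
  let F := p.edges.toFinset ∪ univ.biUnion fun i => (z i).edges.toFinset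
  have h3 : ∀ e, (if e ∈ p.edges then 1 else 0 : ZMod 2) =
      ∑ i, if e ∈ (z i).edges then 1 else 0 := fun e => by
    rw [sum_boole, ← Set.ncard_coe_finset, coe_filter]
    simp only [mem_univ, true_and, h2]
    split_ifs with k
    · exact (ZMod.natCast_eq_one_iff_odd.2 k).symm
    · exact (ZMod.natCast_eq_zero_iff_even.2 (Nat.not_odd_iff_even.1 k)).symm
  rw [pow_nodup hp.isTrail.edges_nodup (F := F) subset_union_left]
  simp only [h3, sum_mul]
  rw [sum_comm]
  refine sum_eq_zero fun i _ => ?_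
  rw [← pow_nodup (h1 i).1.isTrail.edges_nodup
    ((subset_biUnion_of_mem (fun i => (z i).edges.toFinset) (mem_univ i)).trans subset_union_right)]
  exact h _ _ (h1 i).2

theorem pow_path (h : ∀ (v : V) (p : G.Walk v v), p.IsCycle → powS W p = 0) {x y : V}
    (p : G.Walk x y) : ∃ q : G.Walk x y, q.IsPath ∧ powS W q = powS W p := by
  classical
  induction p with
  | nil => exact ⟨.nil, by simp, rfl⟩
  | @cons x x' y a p ih =>
    obtain ⟨q, h1, h2⟩ := ih
    have h3 : powS W (.cons a p) = powS W (.cons a q) := by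
      simpa only [powS, Walk.edges_cons, List.map_cons, List.sum_cons, add_right_inj] using h2.symm
    by_cases k : x ∈ q.support
    · refine ⟨q.dropUntil x k, h1.dropUntil k, ?_⟩
      have h4 : powS W (.cons a (q.takeUntil x k)) = 0 := by
        by_cases j : s(x, x') ∈ (q.takeUntil x k).edges
        · rw [(h1.takeUntil k).eq_adj_toWalk_of_mem_edges (Sym2.eq_swap ▸ j)]
          simp [powS, Sym2.eq_swap (a := x), CharTwo.add_self_eq_zero]
        · exact h _ _ ((Walk.cons_isCycle_iff _ _).2 ⟨h1.takeUntil k, j⟩)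
      have h5 := pow_append (W := W) (.cons a (q.takeUntil x k)) (q.dropUntil x k)
      rw [Walk.cons_append, q.take_spec k, h4, zero_add] at h5
      rw [h3, h5]
    · exact ⟨.cons a q, h1.cons k, h3.symm⟩

theorem pow_eq (h : ∀ (v : V) (p : G.Walk v v), p.IsCycle → powS W p = 0) {x y : V}
    (p q : G.Walk x y) : powS W p = powS W q := by
  obtain ⟨r, h1, h2⟩ := pow_path h (p.append q.reverse)
  rw [(Walk.isPath_iff_nil.1 h1).eq_nil, pow_append] at h2
  have h3 : powS W q.reverse = powS W q := by simp [powS]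
  rw [h3] at h2
  exact (CharTwo.add_eq_zero.1 h2.symm)

end

theorem powStmt : PowStmt.{u} := by
  classical
  intro V G s hc hf hs
  let G' : SimpleGraph V := fromRel fun x y => G.dist x y ≤ s + 1
  have adj : ∀ x y, G'.Adj x y ↔ x ≠ y ∧ G.dist x y ≤ s + 1 := fun x y => by
    simp only [G', fromRel_adj, dist_comm (u := y), or_self]
  have le : G ≤ G' := fun x y h => (adj x y).2 ⟨h.ne, by rw [dist_eq_one_iff_adj.2 h]; omega⟩
  refine ⟨G', hc.mono le, fun v => (pow_ball hc hf v (s + 1)).subset fun y h => ((adj v y).1 h).2,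
    fun ω h1 h2 => ?_, fun x y => (hc x y).dist_anti le, fun x y => ?_⟩
  · let W : Sym2 V → ZMod 2 := Sym2.lift ⟨ω, h1⟩
    let ω' : V → V → ZMod 2 := fun a b => if a = b then 0 else ω a b
    have A : ∀ (o y z : V) (p : G.Walk y z), (∀ v ∈ p.support, G.dist o v ≤ s + 1) →
        powS W p = ω' o y + ω' o z := fun o y z p => by
      induction p with
      | nil => exact fun _ => (CharTwo.add_self_eq_zero _).symm
      | @cons y y' z a p ih =>
        intro k
        have k1 := k y (by simp)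
        have k2 := k y' (by simp)
        have h3 : ω y y' + ω' o y' = ω' o y := by
          by_cases e : o = y
          · subst e
            simp only [ω', if_neg a.ne, if_true, CharTwo.add_self_eq_zero]
          · by_cases e' : o = y'
            · subst e'
              simp only [ω', if_neg e, if_true, add_zero, h1 y o]
            · have := h2 o y y' ((adj _ _).2 ⟨e, k1⟩) (le a) ((adj _ _).2 ⟨e', k2⟩)
              rw [add_assoc, CharTwo.add_eq_zero] at this
              simp only [ω', if_neg e, if_neg e', this]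
        rw [← h3, add_assoc, ← ih fun v j => k v (by simp [j])]
        simp [powS, W]
    have B : ∀ (x y : V) (p : G.Walk x y), p.length ≤ s + 1 → powS W p = ω' x y := fun x y p k => by
      rw [A x x y p fun v j => ((dist_le (p.takeUntil v j)).trans
        (p.length_takeUntil_le_length j)).trans k]
      simp [ω']
    have C : ∀ (v : V) (p : G.Walk v v), p.IsCycle → powS W p = 0 := fun v p =>
      pow_cycle hs fun v p k => (B v v p (by omega)).trans (if_pos rfl)
    obtain ⟨o⟩ := hc.nonempty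
    refine ⟨fun v => powS W (hc o v).some, fun a b k => ?_⟩
    obtain ⟨p, hp⟩ := hc.exists_walk_length_eq_dist a b
    obtain ⟨k1, k2⟩ := (adj a b).1 k
    beta_reduce
    rw [pow_eq C (hc o b).some ((hc o a).some.append p), pow_append, ← add_assoc,
      CharTwo.add_self_eq_zero, zero_add, B a b p (hp ▸ k2)]
    exact (if_neg k1).symm
  · obtain ⟨p, hp⟩ := (hc.mono le).exists_walk_length_eq_dist x y
    rw [← hp]
    clear hp
    induction p with
    | nil => simp
    | @cons x x' y a p ih =>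
      have := hc.dist_triangle (u := x) (v := x') (w := y)
      have := ((adj _ _).1 a).2
      rw [Walk.length_cons, mul_add]
      omega

end Pool.Agent.Lib.MP_f9389f_co.SC
end

-- part Pool.Agent.Lib.MP_f9389f_co.SC.AnnP
section

/-! Annular connectivity: passage to a power, and graphs with short cycles. -/

namespace Pool.Agent.Lib.MP_f9389f_co.SC

universe u

open SimpleGraph

variable {V : Type u} {G : SimpleGraph V} {o : V} {s : ℕ}

theorem ann_ch (hG : G.Connected) (h : AnnConn G o s) {n : ℕ} {x y : V} (hx : G.dist o x = n)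
    (hy : G.dist o y = n) (hc : Ch G 1 {w | n ≤ G.dist o w} x y) :
    Ch G 1 {v | n ≤ G.dist o v + s ∧ G.dist o v ≤ n + s} x y := by
  obtain ⟨p, -, hp⟩ := hc.exists_path hG hx.ge
  obtain ⟨q, hq⟩ := h x y p (hx.trans hy.symm) fun v hv => hx.le.trans (hp v hv)
  exact (conn_support q x q.start_mem_support y q.end_mem_support).mono le_rfl fun v hv =>
    hx ▸ hq v hv

/-- A vertex can be lowered along a geodesic. -/
theorem ann_down (hG : G.Connected) (o : V) {n : ℕ} (v : V) (hv : n ≤ G.dist o v) :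
    ∃ w, G.dist o w = n ∧ Ch G 1 {z | n ≤ G.dist o z ∧ G.dist o z ≤ G.dist o v} v w := by
  obtain ⟨k, hk⟩ := Nat.exists_eq_add_of_le hv
  induction k generalizing v with
  | zero => exact ⟨v, hk, Ch.refl _⟩
  | succ k ih =>
    obtain ⟨x, h1, h2⟩ := exists_step hG (show G.dist o v = n + k + 1 from hk)
    obtain ⟨w, h3, h4⟩ := ih x (by omega) h1
    exact ⟨w, h3, (Ch.single (show v ∈ {z | n ≤ G.dist o z ∧ G.dist o z ≤ G.dist o v} from
      ⟨hv, le_rfl⟩) ⟨by omega, by omega⟩ (by rwa [dist_comm])).trans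
      (h4.mono le_rfl fun z hz => ⟨hz.1, by have := hz.2; omega⟩)⟩

theorem annStmt : AnnStmt.{u} := by
  classical
  intro V G o s hc hf hs
  let G' : SimpleGraph V := fromRel fun x y => G.dist x y ≤ 2 * s + 1
  have adj : ∀ x y, G'.Adj x y ↔ x ≠ y ∧ G.dist x y ≤ 2 * s + 1 := fun x y => by
    simp only [G', fromRel_adj, dist_comm (u := y), or_self]
  have le : G ≤ G' := fun x y h => (adj x y).2 ⟨h.ne, by rw [dist_eq_one_iff_adj.2 h]; omega⟩
  have hc' : G'.Connected := hc.mono le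
  have d1 : ∀ x y, G'.dist x y ≤ G.dist x y := fun x y => (hc x y).dist_anti le
  have d2 : ∀ x y, G.dist x y ≤ (2 * s + 1) * G'.dist x y := fun x y => by
    obtain ⟨p, hp⟩ := hc'.exists_walk_length_eq_dist x y
    rw [← hp]
    clear hp
    induction p with
    | nil => simp
    | @cons x x' y a p ih =>
      have := hc.dist_triangle (u := x) (v := x') (w := y)
      have := ((adj _ _).1 a).2
      rw [Walk.length_cons, mul_add]
      omega
  have d3 : ∀ x y, G.dist x y ≤ 2 * s + 1 → G'.dist x y ≤ 1 := fun x y h => by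
    by_cases e : x = y
    · simp [e]
    · exact dist_le_one_of_adj ((adj x y).2 ⟨e, h⟩)
  have d4 : ∀ k y, G.dist o y ≤ (2 * s + 1) * k → G'.dist o y ≤ k := by
    intro k
    induction k with
    | zero => exact fun y h => (d1 o y).trans (by simpa using h)
    | succ k ih =>
      intro y h
      by_cases e : G.dist o y ≤ (2 * s + 1) * k
      · exact (ih y e).trans (by omega)
      have key : ∀ j, j ≤ G.dist o y → ∃ w, G.dist o w + j = G.dist o y ∧ G.dist w y ≤ j := by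
        intro j
        induction j with
        | zero => exact fun _ => ⟨y, rfl, by simp⟩
        | succ j ihj =>
          intro hj
          obtain ⟨w, h1, h2⟩ := ihj (by omega)
          obtain ⟨x, h3, h4⟩ := exists_step hc (show G.dist o w = G.dist o w - 1 + 1 by omega)
          have := tri hc x w y
          exact ⟨x, by omega, by omega⟩
      obtain ⟨w, h1, h2⟩ := key (G.dist o y - (2 * s + 1) * k) (by omega)
      rw [Nat.mul_succ] at h
      have h3 := ih w (by omega)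
      have h4 := d3 w y (by omega)
      have := tri hc' o w y
      omega
  refine ⟨G', hc', fun v => (pow_ball hc hf v (2 * s + 1)).subset fun y h => ((adj v y).1 h).2,
    ?_, d1, d2⟩
  intro n x hx
  rcases n with _ | n
  · intro a ha b hb
    rw [← (hc'.dist_eq_zero_iff).1 ha.1, ← (hc'.dist_eq_zero_iff).1 hb.1]
    exact Ch.refl _
  obtain ⟨N, hN⟩ : ∃ N, N = (2 * s + 1) * n := ⟨_, rfl⟩
  have up : ∀ v, n + 1 ≤ G'.dist o v ↔ N + 1 ≤ G.dist o v := fun v => by
    have h1 := d2 o v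
    have h2 := d4 n v
    constructor
    · intro h; by_contra h'; omega
    · intro h
      by_contra h'
      have := Nat.mul_le_mul_left (2 * s + 1) (show G'.dist o v ≤ n by omega)
      omega
  have bs : ∀ v, N + 1 ≤ G.dist o v → G.dist o v ≤ N + 1 + 2 * s → G'.dist o v = n + 1 :=
    fun v h1 h2 => le_antisymm (d4 _ v (by rw [Nat.mul_succ]; omega)) ((up v).2 h1)
  set U : Set V := {w | n + 1 ≤ G'.dist o w} with hU
  set B : Set V := {v | G'.dist o v = n + 1 ∧ Ch G' 1 U x v} with hB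
  -- chains of `G` in the band stay in the base
  have band : ∀ a b, a ∈ B → Ch G 1 {v | N + 1 ≤ G.dist o v ∧ G.dist o v ≤ N + 1 + 2 * s} a b →
      Ch G' 1 B a b := by
    intro a b ha h
    induction h with
    | refl => exact Ch.refl _
    | tail _ h2 ih =>
      have h3 := ih.mem ha
      have h4 := (d1 _ _).trans h2.2.2
      have h5 := bs _ h2.2.1.1 h2.2.1.2
      exact ih.tail h3 ⟨h5, h3.2.tail h3.1.ge h5.ge h4⟩ h4
  -- `T a v`: the vertex `v` hangs over a point that is joined to `a` in the base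
  let T : V → V → Prop := fun a v => N + 1 ≤ G.dist o v ∧ ∃ w, Ch G' 1 B a w ∧
    ((G.dist o v ≤ N + 1 + s ∧ w = v) ∨ (G.dist o w = N + 1 + s ∧
      Ch G 1 {z | N + 1 + s ≤ G.dist o z} v w))
  have t1 : ∀ a ∈ B, ∀ v, T a v → G.dist o v ≤ N + 1 + 2 * s → Ch G' 1 B a v := by
    rintro a ha v ⟨h0, w, h1, ⟨-, rfl⟩ | ⟨h2, h3⟩⟩ hv
    · exact h1
    have h4 : N + 1 + s ≤ G.dist o v := Ch.mem (A := {z | N + 1 + s ≤ G.dist o z}) h3.symm h2.ge
    obtain ⟨w', h5, h6⟩ := ann_down hc o v h4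
    have h7 := ann_ch hc hs h2 h5 (h3.symm.trans (h6.mono le_rfl fun z hz => hz.1))
    exact h1.trans (band _ _ (h1.mem ha) (Ch.trans (h7.mono le_rfl fun z hz =>
      ⟨by have := hz.1; omega, by have := hz.2; omega⟩) (h6.symm.mono le_rfl fun z hz =>
      ⟨by have := hz.1; omega, by have := hz.2; omega⟩)))
  have t2 : ∀ a ∈ B, ∀ v, Ch G' 1 B a v → T a v := by
    intro a ha v h
    have h1 := h.mem ha
    have h2 := (up v).1 h1.1.ge
    have h3 := d2 o v
    rw [h1.1, Nat.mul_succ] at h3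
    refine ⟨h2, ?_⟩
    by_cases e : G.dist o v ≤ N + 1 + s
    · exact ⟨v, h, Or.inl ⟨e, rfl⟩⟩
    · obtain ⟨w, h5, h6⟩ := ann_down hc o v (show N + 1 + s ≤ G.dist o v by omega)
      exact ⟨w, h.trans (band _ _ h1 (h6.mono le_rfl fun z hz =>
        ⟨by have := hz.1; omega, by have := hz.2; omega⟩)),
        Or.inr ⟨h5, h6.mono le_rfl fun z hz => hz.1⟩⟩
  have t3 : ∀ a ∈ B, ∀ v v', T a v → Ch G 1 {z | N + 1 ≤ G.dist o z} v v' → T a v' := by
    intro a ha v v' h hv
    induction hv with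
    | refl => exact h
    | @tail y z _ h2 ih =>
      have e1 := tri hc o y z
      have e2 := tri hc o z y
      rw [dist_comm (u := z) (v := y)] at e2
      have e3 : G.dist y z ≤ 1 := h2.2.2
      have e5 : G.dist z y ≤ 1 := by rwa [SimpleGraph.dist_comm]
      have e4 : N + 1 ≤ G.dist o z := h2.2.1
      by_cases e : N + 1 + s ≤ G.dist o y ∧ N + 1 + s ≤ G.dist o z
      · obtain ⟨-, w, h5, ⟨h6, rfl⟩ | ⟨h6, h7⟩⟩ := ih
        · exact ⟨e4, w, h5, Or.inr ⟨by omega, Ch.single e.2 e.1 e5⟩⟩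
        · exact ⟨e4, w, h5, Or.inr ⟨h6, Ch.trans (Ch.single e.2 e.1 e5) h7⟩⟩
      · have h5 := t1 a ha y ih (by omega)
        exact t2 a ha z (h5.trans (band _ _ (h5.mem ha)
          (Ch.single ⟨ih.1, by omega⟩ ⟨e4, by omega⟩ e3)))
  have t4 : ∀ a ∈ B, ∀ v, Ch G' 1 U a v → T a v := by
    intro a ha v h
    induction h with
    | refl => exact t2 a ha a (Ch.refl _)
    | @tail y z h1 h2 ih =>
      have e1 := (up y).1 h2.1
      have e2 := (up z).1 h2.2.1
      have e3 : G.dist y z ≤ 2 * s + 1 :=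
        (d2 y z).trans (by have := Nat.mul_le_mul_left (2 * s + 1) h2.2.2; omega)
      by_cases e : G.dist o y ≤ N + 1 + 2 * s ∧ G.dist o z ≤ N + 1 + 2 * s
      · have h5 := t1 a ha y ih e.1
        have h6 := h5.mem ha
        exact t2 a ha z (h5.tail h6 ⟨bs z e2 e.2, h6.2.tail h2.1 h2.2.1 h2.2.2⟩ h2.2.2)
      · refine t3 a ha y z ih ((ch_interval hc y z).mono le_rfl fun w hw => ?_)
        have h5 : G.dist y w + G.dist w z = G.dist y z := hw
        have h6 := tri hc o w y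
        have h7 := tri hc o w z
        rw [dist_comm (u := w) (v := y)] at h6
        show N + 1 ≤ G.dist o w
        omega
  intro a ha b hb
  have h3 := d2 o b
  rw [hb.1, Nat.mul_succ] at h3
  exact t1 a ha b (t4 a ha b (ha.2.symm.trans hb.2)) (by omega)

/-- A locally finite graph whose cycle space is generated by cycles of length at most `s` has
connected annuli about every vertex. -/
theorem annConn_of_shortCycles (hG : G.Connected) (hf : ∀ v, (G.neighborSet v).Finite)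
    (h : ShortCycles G s) (o : V) : AnnConn G o (2 * s + 1) := by
  obtain ⟨G', g1, -, g3, g4, g5⟩ := powStmt V G s hG hf h
  intro x y p hxy hp
  obtain ⟨n, hn⟩ : ∃ n, G.dist o x = n := ⟨_, rfl⟩
  rw [hn] at hxy hp ⊢
  rcases n with _ | n
  · have e1 := (hG.dist_eq_zero_iff).1 hn
    have e2 := (hG.dist_eq_zero_iff).1 hxy.symm
    subst e1; subst e2
    exact ⟨Walk.nil, by simp⟩
  set U : Set V := {w | n + 1 ≤ G.dist o w} with hU
  set A : Set V := {v | Ch G 1 U x v} with hA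
  have lift : ∀ {B : Set V}, Conn G 1 B → Conn G' 1 B := fun {B} hB a ha b hb => by
    have := hB a ha b hb
    clear hb
    induction this with
    | refl => exact Ch.refl _
    | tail _ h2 ih => exact ih.tail h2.1 h2.2.1 ((g4 _ _).trans h2.2.2)
  have hAU : ∀ v ∈ A, n + 1 ≤ G.dist o v := fun v hv => Ch.mem (A := U) hv hn.ge
  have hc : Conn G 1 Aᶜ := by
    refine conn_of_base o fun v hv => ?_
    obtain ⟨k, hk⟩ : ∃ k, G.dist o v = k := ⟨_, rfl⟩
    induction k generalizing v with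
    | zero => rw [(hG.dist_eq_zero_iff).1 hk]; exact Ch.refl _
    | succ k ih =>
      obtain ⟨w, h1, h2⟩ := exists_step hG hk
      have h3 : w ∈ Aᶜ := fun h3 => by
        have := hAU w h3
        exact hv (Ch.tail h3 this (show n + 1 ≤ G.dist o v by omega) h2)
      exact (ih w h3 h1).tail h3 hv h2
  have bd : ∀ v ∈ A, G.dist o v = n + 1 → v ∈ {a | a ∈ A ∧ ∃ b, b ∉ A ∧ G'.Adj a b} := by
    intro v hv h1
    obtain ⟨w, h2, h3⟩ := exists_step hG h1
    refine ⟨hv, w, fun h4 => by have := hAU w h4; omega, ?_⟩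
    rcases eq_or_adj_of_dist g1 ((g4 _ _).trans h3) with e | e
    · rw [e] at h2; omega
    · exact e.symm
  have lv : ∀ v ∈ {a | a ∈ A ∧ ∃ b, b ∉ A ∧ G'.Adj a b}, n + 1 ≤ G.dist o v ∧
      G.dist o v ≤ n + 1 + s := by
    rintro v ⟨h1, b, h2, h3⟩
    refine ⟨hAU v h1, ?_⟩
    by_contra h4
    have h5 := g5 v b
    rw [dist_eq_one_iff_adj.2 h3] at h5
    refine h2 (Ch.trans h1 ((ch_interval hG v b).mono le_rfl fun w hw => ?_))
    have h6 : G.dist v w + G.dist w b = G.dist v b := hw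
    have h7 := tri hG o w v
    rw [dist_comm (u := w) (v := v)] at h7
    show n + 1 ≤ G.dist o w
    omega
  have hy : y ∈ A := (conn_support p x p.start_mem_support y p.end_mem_support).mono le_rfl hp
  have key := uniStmt V G' g1 g3 A (lift (conn_comp _ _ _ _)) (lift hc) x (bd x (Ch.refl _) hn) y
    (bd y hy hxy.symm)
  have fin : Ch G 1 {v | n + 1 ≤ G.dist o v + (2 * s + 1) ∧ G.dist o v ≤ n + 1 + (2 * s + 1)}
      x y := by
    clear hy hp hxy p
    induction key with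
    | refl => exact Ch.refl _
    | @tail a b _ h2 ih =>
      refine ih.trans ((ch_interval hG a b).mono le_rfl fun w hw => ?_)
      have h6 : G.dist a w + G.dist w b = G.dist a b := hw
      have h1 := lv a h2.1
      have h3 := g5 a b
      have h4 := Nat.mul_le_mul_left (s + 1) h2.2.2
      have h7 := tri hG o w a
      have h8 := tri hG o a w
      rw [dist_comm (u := w) (v := a)] at h7
      exact ⟨by omega, by omega⟩
  obtain ⟨q, -, hq⟩ := fin.exists_path hG ⟨by omega, by omega⟩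
  exact ⟨q, hq⟩

end Pool.Agent.Lib.MP_f9389f_co.SC
end

-- part Pool.Agent.Lib.MP_f9389f_co.SC.Top
section

/-! Reduction to the core statement. -/

namespace Pool.Agent.Lib.MP_f9389f_co.SC

universe u

open SimpleGraph

theorem top_qi {V W : Type*} {G : SimpleGraph V} {H : SimpleGraph W} {f : V → W} {M A : ℕ}
    (hM : 1 ≤ M) (h1 : ∀ x y, G.dist x y ≤ M * (H.dist (f x) (f y) + A))
    (h2 : ∀ x y, H.dist (f x) (f y) ≤ M * G.dist x y + A) (h3 : ∀ w, ∃ x, H.dist w (f x) ≤ A) :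
    IsQI G H f M A := by
  refine ⟨fun x y => ⟨?_, by exact_mod_cast h2 x y⟩, h3⟩
  rw [sub_le_iff_le_add, inv_mul_le_iff₀ (by exact_mod_cast hM)]
  exact_mod_cast h1 x y

theorem mainStmt (hAnn : AnnStmt.{u}) (hEnv : EnvStmt.{u}) (hCore : CoreStmt.{u}) :
    MainStmt.{u} := by
  intro K s
  obtain ⟨M, A, hM, h⟩ := hCore (3 * 0 + (2 * s + 1) * (2 * ((2 * s + 1) * (3 * 0 + 1)) + K))
  have s1 : 1 ≤ 2 * s + 1 := by omega
  refine ⟨M * (2 * s + 1), A, Nat.mul_pos hM s1, fun V G hG hf ⟨o, hs⟩ hK => ?_⟩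
  obtain ⟨G', g1, g2, g3, g4, g5⟩ := hAnn V G o s hG hf hs
  have q : IsQI G G' id (2 * s + 1) 0 := top_qi s1 g5
    (fun x y => (g4 x y).trans (Nat.le_mul_of_pos_left _ s1)) fun w => ⟨w, by simp⟩
  obtain ⟨σ, e⟩ := hEnv V G' _ o g1 g2 g3 (Nat.add_pos_right _
    (Nat.mul_pos s1 (by omega))) (mt (HasFatMinor.of_qi hG g1 q s1) hK)
  obtain ⟨W, H, f, k0, k1, k2, k3⟩ := h V _ rfl e
  refine ⟨W, H, f, k0, k1, top_qi (Nat.mul_pos hM s1) (fun x y => ?_) (fun x y => ?_) k2.2, k3⟩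
  · rw [mul_comm M, mul_assoc]
    exact (g5 x y).trans (Nat.mul_le_mul_left _ (k2.lower hM x y))
  · exact (k2.upper x y).trans (Nat.add_le_add_right (Nat.mul_le_mul
      (Nat.le_mul_of_pos_right _ s1) (g4 x y)) _)

end Pool.Agent.Lib.MP_f9389f_co.SC
end

-- part Pool.Agent.Lib.MP_f9389f_co.SC.Claw
section

/-! The claw lemma. -/

namespace Pool.Agent.Lib.MP_f9389f_co.SC

universe u

open SimpleGraph

theorem claw_conn_iUnion {V : Type u} {G : SimpleGraph V} {B : Set V} {S : Fin 3 → Set V}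
    (hB : Conn G 1 B) (hS : ∀ i, Conn G 1 (S i)) (hm : ∀ i, ∃ a ∈ B, a ∈ S i) :
    Conn G 1 (B ∪ ⋃ i, S i) := by
  obtain ⟨z, hz, -⟩ := hm 0
  refine conn_of_base z fun a ha => ?_
  rcases ha with ha | ha
  · exact (hB z hz a ha).mono le_rfl Set.subset_union_left
  · obtain ⟨i, hi⟩ := Set.mem_iUnion.1 ha
    obtain ⟨b, hb, hb'⟩ := hm i
    exact ((hB z hz b hb).mono le_rfl Set.subset_union_left).trans
      ((hS i b hb' a hi).mono le_rfl fun v hv => Or.inr (Set.mem_iUnion.2 ⟨i, hv⟩))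

theorem claw_D {V : Type u} {c : Cx V} (h : c.Env) {x y u w : V} {lam a b : ℕ} (hu : u ∈ c.Vt x)
    (hw : w ∈ c.Vt y) (h1 : lam ≤ c.lv u + a) (h2 : c.lv u ≤ lam + a) (h3 : lam ≤ c.lv w + b)
    (h4 : c.lv w ≤ lam + b) : c.D lam x y ≤ a + c.d u w + b := by
  have e1 := h.vt_near hu h1 h2
  have e2 := h.vt_near hw h3 h4
  rw [Cx.d_comm] at e2
  have e3 := h.tri (c.σ x lam) u (c.σ y lam)
  have e4 := h.tri u w (c.σ y lam)
  unfold Cx.D
  omega

theorem clawStmt : ClawStmt.{u} := by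
  intro V c h lam L n₀ n x A z h1 h2 h3 hB d12 d01 d02 hA hz hy hap hlev
  have hK := h.one
  have hL : ∀ i, c.lv (x i) = L := fun i => (hB i i).1
  obtain ⟨r, r0, r1⟩ : ∃ r : Fin 3 → ℕ, r 0 = n + 2 * c.K ∧ ∀ i, i ≠ 0 → r i = n₀ + 2 * c.K :=
    ⟨fun i => if i = 0 then n + 2 * c.K else n₀ + 2 * c.K, by simp, fun i hi => by simp [hi]⟩
  have rr : ∀ i, r i ≤ n + 2 * c.K := fun i => by
    by_cases hi : i = 0
    · rw [hi, r0]
    · rw [r1 i hi]; omega
  have d0 : ∀ i, i ≠ 0 → 2 * n + 6 * c.K ≤ c.D lam (x 0) (x i) := fun i hi => by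
    fin_cases i
    · exact absurd rfl hi
    · exact d01
    · exact d02
  have dsym : ∀ a b, c.D lam a b = c.D lam b a := fun a b => Cx.d_comm _ _
  have d1 : ∀ i k, i ≠ k → i ≠ 0 → k ≠ 0 → 2 * n₀ + 7 * c.K ≤ c.D lam (x i) (x k) := by
    intro i k hik hi hk
    fin_cases i <;> fin_cases k <;> first | exact absurd rfl hik | exact absurd rfl hi | exact absurd rfl hk | skip
    · exact d12
    · exact (dsym _ _) ▸ d12
  set Z : Fin 3 → Set V := fun i => Seg c.σ (x i) (lam - r i) (lam + r i) with hZ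
  have Zm : ∀ i, ∀ v ∈ Z i, v ∈ c.Vt (x i) ∧ lam ≤ c.lv v + r i ∧ c.lv v ≤ lam + r i := by
    intro i v hv
    have e1 := rr i
    have e2 := h.seg_lv (x := x i) (by rw [hL]; omega) hv
    exact ⟨h.seg_vt hv, by omega, by omega⟩
  obtain ⟨C, C1, C2, C3, C4⟩ := trimStmt V c.G h.conn c.K hK Z A z hz hA
    (fun i => ⟨_, hy i, Cx.mem_seg _ (by omega) (by omega)⟩)
    (fun i k hik => (hap i k hik).mono le_rfl subset_rfl fun v hv => (Zm k v hv).1)
  set U : Set V := {v | Ch c.G 1 (c.Up L) (x 0) v} ∪ ⋃ i, Seg c.σ (x i) (lam + r i + c.K) L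
    with hU
  set Dn : Set V := {v | c.lv v ≤ lam - n - 3 * c.K} ∪ ⋃ i, Seg c.σ (x i) 0 (lam - r i - c.K)
    with hDn
  have Um : ∀ u ∈ U, lam + n + 3 * c.K ≤ c.lv u ∨
      ∃ i, i ≠ 0 ∧ u ∈ c.Vt (x i) ∧ lam + n₀ + 3 * c.K ≤ c.lv u := by
    rintro u (hu | hu)
    · have := Cx.ch_lv hu (hL 0).ge
      exact Or.inl (by omega)
    · obtain ⟨i, hi⟩ := Set.mem_iUnion.1 hu
      have e2 := h.seg_lv (x := x i) (hL i).ge hi
      by_cases e : i = 0
      · subst e; exact Or.inl (by omega)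
      · have := r1 i e
        exact Or.inr ⟨i, e, h.seg_vt hi, by omega⟩
  have Dm : ∀ u ∈ Dn, c.lv u + n + 3 * c.K ≤ lam ∨
      ∃ i, i ≠ 0 ∧ u ∈ c.Vt (x i) ∧ c.lv u + n₀ + 3 * c.K ≤ lam := by
    rintro u (hu | hu)
    · have : c.lv u ≤ lam - n - 3 * c.K := hu
      exact Or.inl (by omega)
    · obtain ⟨i, hi⟩ := Set.mem_iUnion.1 hu
      have e2 := h.seg_lv (x := x i) (by rw [hL]; omega) hi
      by_cases e : i = 0
      · subst e; exact Or.inl (by omega)
      · have := r1 i e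
        exact Or.inr ⟨i, e, h.seg_vt hi, by omega⟩
  have W : ∀ u, u ∈ U ∨ u ∈ Dn → (lam + n + 3 * c.K ≤ c.lv u ∨ c.lv u + n + 3 * c.K ≤ lam) ∨
      ∃ i, i ≠ 0 ∧ u ∈ c.Vt (x i) ∧
        (lam + n₀ + 3 * c.K ≤ c.lv u ∨ c.lv u + n₀ + 3 * c.K ≤ lam) := by
    rintro u (hu | hu)
    · rcases Um u hu with e | ⟨i, e1, e2, e3⟩
      exacts [Or.inl (Or.inl e), Or.inr ⟨i, e1, e2, Or.inl e3⟩]
    · rcases Dm u hu with e | ⟨i, e1, e2, e3⟩
      exacts [Or.inl (Or.inr e), Or.inr ⟨i, e1, e2, Or.inr e3⟩]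
  have y0 : c.lv (c.σ (x 0) lam) = lam := h.lev _ _ (by rw [hL]; omega)
  have WC : ∀ u, u ∈ U ∨ u ∈ Dn → ∀ v ∈ C, 3 * c.K ≤ c.d u v := by
    intro u hu v hv
    obtain ⟨k, hk⟩ := C1 v hv
    have l1 := h.lip u v
    have l2 := h.lip' u v
    rcases hlev k v hk with e | e
    · rcases W u hu with f | ⟨i, -, -, f⟩ <;> omega
    · have l3 := h.lip (c.σ (x 0) lam) v
      have l4 := h.lip' (c.σ (x 0) lam) v
      rcases W u hu with f | ⟨i, f1, f2, -⟩
      · omega
      · by_contra g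
        have g1 := d0 i f1
        have g2 := h.vt_near (n := lam) (k := n + 3 * c.K - 1) f2 (by omega) (by omega)
        have g3 := h.tri (c.σ (x 0) lam) v (c.σ (x i) lam)
        have g4 := h.tri v u (c.σ (x i) lam)
        rw [Cx.d_comm v u, Cx.d_comm u (c.σ (x i) lam)] at g4
        unfold Cx.D at g1
        omega
  have WZ : ∀ u, u ∈ U ∨ u ∈ Dn → ∀ j, ∀ v ∈ Z j, c.K ≤ c.d u v := by
    intro u hu j v hv
    obtain ⟨z1, z2, z3⟩ := Zm j v hv
    have l1 := h.lip u v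
    have l2 := h.lip' u v
    have e1 := rr j
    rcases W u hu with f | ⟨i, f1, f2, f3⟩
    · omega
    · by_cases e : j = 0
      · subst e
        by_contra g
        have g1 := d0 i f1
        have g2 := claw_D h (lam := lam) (a := n + 2 * c.K) (b := n + 3 * c.K - 1) z1 f2
          (by omega) (by omega) (by omega) (by omega)
        rw [Cx.d_comm v u] at g2
        omega
      · have := r1 j e
        omega
  have UD : ∀ u ∈ U, ∀ v ∈ Dn, 3 * c.K ≤ c.d u v := by
    intro u hu v hv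
    have l2 := h.lip' u v
    rcases Um u hu with e | ⟨i, -, -, e⟩ <;> rcases Dm v hv with f | ⟨j, -, -, f⟩ <;> omega
  have cU : Conn c.G 1 U := claw_conn_iUnion (conn_comp _ _ _ _) (fun i => h.conn_seg _ _ _)
    fun i => ⟨x i, (hB 0 i).2.2, L, by have := rr i; omega, le_rfl, h.stop _ _ (hL i).le⟩
  have cD : Conn c.G 1 Dn := claw_conn_iUnion (h.conn_low _) (fun i => h.conn_seg _ _ _)
    fun i => ⟨c.σ (x i) 0, (h.lev_le _ _).trans (Nat.zero_le _),
      Cx.mem_seg _ le_rfl (Nat.zero_le _)⟩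
  refine h.nof (k33Stmt V c.G h.conn c.K ![U, Dn, C] Z ?_ (fun i => h.conn_seg _ _ _) ?_ ?_ ?_ ?_)
  · intro a
    fin_cases a
    exacts [cU, cD, C2]
  · have a01 : Apart c.G (3 * c.K) U Dn := UD
    have a02 : Apart c.G (3 * c.K) U C := fun u hu => WC u (Or.inl hu)
    have a12 : Apart c.G (3 * c.K) Dn C := fun u hu => WC u (Or.inr hu)
    intro a b hab
    fin_cases a <;> fin_cases b
    exacts [absurd rfl hab, a01, a02, a01.symm, absurd rfl hab, a12, a02.symm, a12.symm,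
      absurd rfl hab]
  · intro i k hik u hu w hw
    obtain ⟨u1, u2, u3⟩ := Zm i u hu
    obtain ⟨w1, w2, w3⟩ := Zm k w hw
    have g := claw_D h u1 w1 u2 u3 w2 w3
    show 3 * c.K ≤ c.d u w
    by_cases e : i = 0
    · subst e
      have := d0 k hik.symm
      have := r1 k hik.symm
      omega
    · by_cases e' : k = 0
      · subst e'
        have := d0 i e
        have := r1 i e
        rw [dsym] at g
        omega
      · have := d1 i k hik e e'
        have := r1 i e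
        have := r1 k e'
        omega
  · intro a i
    fin_cases a
    exacts [fun u hu => WZ u (Or.inl hu) i, fun u hu => WZ u (Or.inr hu) i, C3 i]
  · intro a i
    have e1 := rr i
    fin_cases a
    · exact ⟨c.σ (x i) (lam + r i + c.K),
        Or.inr (Set.mem_iUnion.2 ⟨i, Cx.mem_seg _ le_rfl (by omega)⟩), c.σ (x i) (lam + r i),
        Cx.mem_seg _ (by omega) le_rfl, h.dσ' _ (by omega) (by omega)⟩
    · exact ⟨c.σ (x i) (lam - r i - c.K),
        Or.inr (Set.mem_iUnion.2 ⟨i, Cx.mem_seg _ (Nat.zero_le _) le_rfl⟩), c.σ (x i) (lam - r i),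
        Cx.mem_seg _ le_rfl (by omega), h.dσ' _ (by omega) (by omega)⟩
    · exact C4 i

end Pool.Agent.Lib.MP_f9389f_co.SC
end

-- part Pool.Agent.Lib.MP_f9389f_co.SC.XL
section

/-! The cross lemma. -/

namespace Pool.Agent.Lib.MP_f9389f_co.SC

universe u

open SimpleGraph Cx

variable {V : Type u} {c : Cx V} {lam : ℕ}

theorem xl_k33 (h : c.Env) {X0 X1 X2 Z0 Z1 Z2 : Set V}
    (cX : Conn c.G 1 X0 ∧ Conn c.G 1 X1 ∧ Conn c.G 1 X2)
    (cZ : Conn c.G 1 Z0 ∧ Conn c.G 1 Z1 ∧ Conn c.G 1 Z2)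
    (aX : Apart c.G (3 * c.K) X0 X1 ∧ Apart c.G (3 * c.K) X0 X2 ∧ Apart c.G (3 * c.K) X1 X2)
    (aZ : Apart c.G (3 * c.K) Z0 Z1 ∧ Apart c.G (3 * c.K) Z0 Z2 ∧ Apart c.G (3 * c.K) Z2 Z1)
    (a0 : Apart c.G c.K X0 Z0 ∧ Apart c.G c.K X1 Z0 ∧ Apart c.G c.K X2 Z0)
    (a1 : Apart c.G c.K X0 Z1 ∧ Apart c.G c.K X1 Z1 ∧ Apart c.G c.K X2 Z1)
    (a2 : Apart c.G c.K X0 Z2 ∧ Apart c.G c.K X2 Z2 ∧ Apart c.G c.K X1 Z2)
    (t0 : (∃ x ∈ X0, ∃ z ∈ Z0, c.d x z ≤ c.K) ∧ (∃ x ∈ X0, ∃ z ∈ Z1, c.d x z ≤ c.K) ∧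
      ∃ x ∈ X0, ∃ z ∈ Z2, c.d x z ≤ c.K)
    (t1 : (∃ x ∈ X1, ∃ z ∈ Z0, c.d x z ≤ c.K) ∧ (∃ x ∈ X1, ∃ z ∈ Z1, c.d x z ≤ c.K) ∧
      ∃ x ∈ X1, ∃ z ∈ Z2, c.d x z ≤ c.K)
    (t2 : (∃ x ∈ X2, ∃ z ∈ Z0, c.d x z ≤ c.K) ∧ (∃ x ∈ X2, ∃ z ∈ Z1, c.d x z ≤ c.K) ∧
      ∃ x ∈ X2, ∃ z ∈ Z2, c.d x z ≤ c.K) : False := by
  refine h.nof (k33Stmt V c.G h.conn c.K ![X0, X1, X2] ![Z0, Z1, Z2] ?_ ?_ ?_ ?_ ?_ ?_)
  · intro a
    fin_cases a
    exacts [cX.1, cX.2.1, cX.2.2]
  · intro a
    fin_cases a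
    exacts [cZ.1, cZ.2.1, cZ.2.2]
  · intro a b e
    fin_cases a <;> fin_cases b
    exacts [absurd rfl e, aX.1, aX.2.1, aX.1.symm, absurd rfl e, aX.2.2, aX.2.1.symm, aX.2.2.symm,
      absurd rfl e]
  · intro a b e
    fin_cases a <;> fin_cases b
    exacts [absurd rfl e, aZ.1, aZ.2.1, aZ.1.symm, absurd rfl e, aZ.2.2.symm, aZ.2.1.symm, aZ.2.2,
      absurd rfl e]
  · intro a b
    fin_cases a <;> fin_cases b
    exacts [a0.1, a1.1, a2.1, a0.2.1, a1.2.1, a2.2.2, a0.2.2, a1.2.2, a2.2.1]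
  · intro a b
    fin_cases a <;> fin_cases b
    exacts [t0.1, t0.2.1, t0.2.2, t1.1, t1.2.1, t1.2.2, t2.1, t2.2.1, t2.2.2]

/-- Cut a connected set at a sphere. -/
theorem xl_trim (h : c.Env) {M : Set V} (hM : Conn c.G 1 M) {y u v : V} {n : ℕ} (hu : u ∈ M)
    (hv : v ∈ M) (h1 : n ≤ c.d y u) (h2 : c.d y v < n) : ∃ M' ⊆ M, Conn c.G 1 M' ∧ u ∈ M' ∧
      (∀ p ∈ M', n ≤ c.d y p) ∧ ∃ w ∈ M', c.d y w = n := by
  obtain ⟨z, w, k1, -, k2, -, k3, k4, -⟩ :=
    (hM u hu v hv).entry (fun x => c.d y x < n) (by omega) h2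
  have hm : ∀ p, Ch c.G 1 (M ∩ {x | ¬ c.d y x < n}) u p → p ∈ M ∩ {x | ¬ c.d y x < n} :=
    fun p hp => hp.mem ⟨hu, not_lt.2 h1⟩
  refine ⟨_, fun p hp => (hm p hp).1, conn_comp c.G 1 _ u, Ch.refl _,
    fun p hp => not_lt.1 (hm p hp).2, z, k1, ?_⟩
  have k5 : c.d z w ≤ 1 := k4
  have := h.tri y w z
  have := d_comm (c := c) z w
  omega

variable (c lam) in
/-- The numerical description of a point of a hub. -/
def XlHub (y x : V) : Prop := c.d y x ≤ 39 * c.K ∧ lam ≤ c.lv x + 24 * c.K ∧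
  c.lv x ≤ lam + 24 * c.K ∧ (c.d y x ≤ 24 * c.K ∨ c.d y x + lam ≤ 15 * c.K + c.lv x)

theorem xl_hub (h : c.Env) {y b : V} (hy : c.lv y = lam) (hb : lam + 25 * c.K ≤ c.lv b)
    (hd : c.d (c.σ b lam) y < 15 * c.K) : ∃ X : Set V, Conn c.G 1 X ∧ (∀ x ∈ X, XlHub c lam y x) ∧
      (∃ x ∈ X, c.d x (c.σ b (lam + 25 * c.K)) ≤ c.K) ∧
      ∀ w, c.d y w = 25 * c.K → ∃ x ∈ X, c.d x w ≤ c.K := by
  rw [d_comm] at hd
  refine ⟨Nb c.G (24 * c.K) {y} ∪ Seg c.σ b lam (lam + 24 * c.K),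
    (h.conn_ball _ _).union' (h.conn_seg _ _ _) (Cx.mem_ball.2 (by omega))
      (mem_seg b le_rfl (by omega)), ?_,
    ⟨_, .inr (mem_seg b (by omega) le_rfl), h.dσ' b (by omega) (by omega)⟩, fun w hw => ?_⟩
  · rintro x (hx | hx)
    · rw [Cx.mem_ball] at hx
      have := h.lip y x
      have := h.lip' y x
      exact ⟨by omega, by omega, by omega, .inl hx⟩
    · obtain ⟨k1, k2, k3⟩ := h.seg_lv (by omega) hx
      have := h.dσ b k1
      rw [k3] at this
      have := h.tri y (c.σ b lam) x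
      exact ⟨by omega, by omega, by omega, .inr (by omega)⟩
  · obtain ⟨x, k1, k2⟩ := h.exists_I y w (n := 24 * c.K) (by omega)
    have := mem_I k1
    exact ⟨x, .inl (Cx.mem_ball.2 k2.le), by omega⟩

theorem XlHub.far (h : c.Env) {y x p : V} (hx : XlHub c lam y x) (h1 : c.lv p ≤ lam + 2 * c.K)
    (h2 : 25 * c.K ≤ c.d y p) : c.K ≤ c.d x p := by
  have := h.tri y x p
  have := h.lip' x p
  obtain ⟨-, -, -, k | k⟩ := hx <;> omega

variable (c lam) in
/-- The numerical description of a point of a wing. -/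
def XlWing (M : Set V) (y y' t w : V) : Prop := (w ∈ M ∧ 25 * c.K ≤ c.d y' w) ∨
  (c.d y w ≤ 41 * c.K ∧ lam ≤ c.lv w + 26 * c.K ∧
    (c.lv w ≤ lam + 15 * c.K ∨ c.d w t + c.lv w ≤ lam + 25 * c.K))

theorem xl_low (h : c.Env) (hl : 6000 * c.K ≤ lam) (a : V) :
    ∃ x ∈ {v | c.lv v ≤ lam - 27 * c.K}, c.d x (c.σ a (lam - 26 * c.K)) ≤ c.K :=
  ⟨_, h.lev_le a _, h.dσ' a (by omega) (by omega)⟩

theorem xl_wing (h : c.Env) (hl : 6000 * c.K ≤ lam) {M : Set V} (hM : Conn c.G 1 M)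
    {y y' a m m' : V} (hy : c.lv y = lam) (ha : lam + 25 * c.K ≤ c.lv a)
    (hd : c.d (c.σ a lam) y < 15 * c.K) (hm : m ∈ M) (hm' : m' ∈ M) (h1 : c.d y m ≤ 4 * c.K)
    (h2 : c.d y' m' ≤ 4 * c.K) (h3 : 152 * c.K ≤ c.d y y') : ∃ W : Set V, Conn c.G 1 W ∧
      (∀ w ∈ W, XlWing c lam M y y' (c.σ a (lam + 25 * c.K)) w) ∧ c.σ a (lam + 25 * c.K) ∈ W ∧
      c.σ a (lam - 26 * c.K) ∈ W ∧ ∃ w ∈ W, c.d y' w = 25 * c.K := by
  have := h.one
  have := h.tri y m y'
  have := d_comm (c := c) m y'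
  obtain ⟨M', k1, k2, k3, k4, w, k5, k6⟩ :=
    xl_trim h hM (y := y') (n := 25 * c.K) hm hm' (by omega) (by omega)
  refine ⟨Seg c.σ a (lam - 26 * c.K) (lam + 25 * c.K) ∪ c.I (c.σ a lam) y ∪ c.I y m ∪ M',
    (((h.conn_seg _ _ _).union' (h.conn_I _ _) (mem_seg a (by omega) (by omega))
      (left_I _ _)).union' (h.conn_I _ _) (.inr (right_I _ _)) (left_I _ _)).union' k2
      (.inr (right_I _ _)) k3, ?_, .inl (.inl (.inl (mem_seg a (by omega) le_rfl))),
    .inl (.inl (.inl (mem_seg a le_rfl (by omega)))), w, .inr k5, k6⟩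
  rintro x (((hx | hx) | hx) | hx)
  · obtain ⟨e1, e2, e3⟩ := h.seg_lv ha hx
    have e4 := h.dσ a e2
    have e5 := h.dσ' a (s := lam) (t := c.lv x) (n := 26 * c.K) (by omega) (by omega)
    rw [e3] at e4 e5
    have := h.tri y (c.σ a lam) x
    have := d_comm (c := c) y (c.σ a lam)
    exact .inr ⟨by omega, by omega, .inr (by omega)⟩
  · have := mem_I hx
    have := h.lip x y
    have := h.lip' x y
    have := d_comm (c := c) x y
    exact .inr ⟨by omega, by omega, .inl (by omega)⟩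
  · have := mem_I hx
    have := h.lip y x
    have := h.lip' y x
    exact .inr ⟨by omega, by omega, .inl (by omega)⟩
  · exact .inl ⟨k1 hx, k4 x hx⟩

theorem xl_half (h : c.Env) (hl : 6000 * c.K ≤ lam) {y y' y'' t : V} {M P W X X' Z : Set V}
    (hP : P ⊆ c.Up (lam + 25 * c.K))
    (hM : ∀ p ∈ M, (lam ≤ c.lv p + 2 * c.K ∧ c.lv p ≤ lam + 2 * c.K) ∧ 73 * c.K < c.d y'' p)
    (hW : ∀ w ∈ W, XlWing c lam M y y' t w) (hX : ∀ x ∈ X, XlHub c lam y' x)
    (hX' : ∀ x ∈ X', XlHub c lam y'' x) (h1 : 152 * c.K ≤ c.d y y') (h2 : 152 * c.K ≤ c.d y y'')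
    (hZ : ∀ v ∈ Z, ∃ z, c.lv z ≤ lam + 2 * c.K ∧ 73 * c.K < c.d y z ∧
      (∀ p ∈ M, 10 * c.K ≤ c.d p z) ∧ lam ≤ c.lv v + 26 * c.K ∧ c.d v z + c.lv v ≤ c.lv z) :
    (Apart c.G c.K {v | c.lv v ≤ lam - 27 * c.K} (P ∪ W) ∧ Apart c.G c.K X (P ∪ W) ∧
      Apart c.G c.K X' (P ∪ W)) ∧ Apart c.G (3 * c.K) (P ∪ W) Z := by
  have hP' : ∀ p ∈ P, lam + 25 * c.K ≤ c.lv p := hP
  refine ⟨⟨fun x hx w hw => ?_, fun x hx w hw => ?_, fun x hx w hw => ?_⟩, fun w hw v hv => ?_⟩
  · have : c.lv x ≤ lam - 27 * c.K := hx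
    have := h.lip x w
    show _ ≤ c.d x w
    rcases hw with hw | hw
    · have := hP' w hw
      omega
    · rcases hW w hw with k | k
      · have := hM w k.1
        omega
      · omega
  · have k0 := hX x hx
    show _ ≤ c.d x w
    rcases hw with hw | hw
    · have := hP' w hw
      have := h.lip x w
      have := k0.2.2.1
      omega
    · rcases hW w hw with k | k
      · exact k0.far h (hM w k.1).1.2 k.2
      · have := k0.1
        have := h.tri y w y'
        have := h.tri w x y'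
        have := d_comm (c := c) x y'
        have := d_comm (c := c) x w
        omega
  · have k0 := hX' x hx
    show _ ≤ c.d x w
    rcases hw with hw | hw
    · have := hP' w hw
      have := h.lip x w
      have := k0.2.2.1
      omega
    · rcases hW w hw with k | k
      · have := hM w k.1
        exact k0.far h this.1.2 (by omega)
      · have := k0.1
        have := h.tri y w y''
        have := h.tri w x y''
        have := d_comm (c := c) x y''
        have := d_comm (c := c) x w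
        omega
  · obtain ⟨z, k1, k2, k3, k4, k5⟩ := hZ v hv
    have := h.lip' w v
    have := h.tri w v z
    show _ ≤ c.d w v
    rcases hw with hw | hw
    · have := hP' w hw
      omega
    · rcases hW w hw with k | k
      · have := hM w k.1
        have := k3 w k.1
        omega
      · have := h.tri y w z
        omega

theorem xl_up (h : c.Env) {y y' t : V} {M P Q W : Set V} (hP : P ⊆ c.Up (lam + 25 * c.K))
    (hPQ : Apart c.G (6 * c.K) P Q) (ht : t ∈ Q) (hM : ∀ p ∈ M, c.lv p ≤ lam + 2 * c.K)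
    (hW : ∀ w ∈ W, XlWing c lam M y y' t w) : Apart c.G (3 * c.K) P W := by
  intro p hp w hw
  have : lam + 25 * c.K ≤ c.lv p := hP hp
  have : 6 * c.K ≤ c.d p t := hPQ p hp t ht
  have := h.lip' p w
  have := h.tri p w t
  show _ ≤ c.d p w
  rcases hW w hw with k | k
  · have := hM w k.1
    omega
  · omega

theorem xLStmt : XLStmt.{u} := by
  intro V c h lam hl hS x₀ Tk τ hR A hA B hB C hC E hE t1 t2 t3 dAB dAC dAE dBC dBE dCE a b e f
    la lb le lf da db de df P Q cP cQ uP uQ aP eP bQ fQ hPQ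
  have hK := h.one
  have bc : ∀ X ∈ Tk, ∀ Y ∈ Tk, c.Bc (lam + 4000 * c.K) X Y := fun X hX Y hY =>
    (hR.base X hX).symm.trans (hR.base Y hY)
  have ly : ∀ X ∈ Tk, c.lv (c.σ X lam) = lam := fun X hX =>
    h.lev X lam (by rw [(hR.base X hX).2.1]; omega)
  have dc : ∀ X Y, c.D lam X Y = c.D lam Y X := fun X Y => d_comm _ _
  have dBA := dc A B ▸ dAB
  have dCA := dc A C ▸ dAC
  have dEA := dc A E ▸ dAE
  have dCB := dc B C ▸ dBC
  have dEB := dc B E ▸ dBE
  have dEC := dc C E ▸ dCE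
  obtain ⟨M1, c1, l1, p1, n1, n1'⟩ := hR.rim A hA B hB t1
  obtain ⟨M2, c2, l2, p2, n2, n2'⟩ := hR.rim B hB C hC t2
  obtain ⟨M3, c3, l3, p3, n3, n3'⟩ := hR.rim C hC E hE t3
  have r1 : ∀ X ∈ Tk, τ B ≤ τ X → c.RimSet lam M1 A B X := fun X hX k =>
    ⟨c1, l1, p1 A hA (by omega), p1 B hB (by omega), p1 X hX (.inr k), n1, n1'⟩
  have r2 : ∀ X ∈ Tk, τ X ≤ τ B ∨ τ C ≤ τ X → c.RimSet lam M2 B C X := fun X hX k =>
    ⟨c2, l2, p2 B hB (by omega), p2 C hC (by omega), p2 X hX k, n2, n2'⟩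
  have r3 : ∀ X ∈ Tk, τ X ≤ τ C → c.RimSet lam M3 C E X := fun X hX k =>
    ⟨c3, l3, p3 C hC (by omega), p3 E hE (by omega), p3 X hX (.inl k), n3, n3'⟩
  have far := fun X Y Z M (hX : X ∈ Tk) (hY : Y ∈ Tk) (hZ : Z ∈ Tk) =>
    hS.far (73 * c.K) X Y Z M (by omega) (by omega) (bc X hX Y hY) (bc X hX Z hZ)
  have f1C := far A B C M1 hA hB hC (r1 C hC (by omega)) (by omega) (by omega) (by omega)
  have f1E := far A B E M1 hA hB hE (r1 E hE (by omega)) (by omega) (by omega) (by omega)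
  have f2A := far B C A M2 hB hC hA (r2 A hA (by omega)) (by omega) (by omega) (by omega)
  have f2E := far B C E M2 hB hC hE (r2 E hE (by omega)) (by omega) (by omega) (by omega)
  have f3A := far C E A M3 hC hE hA (r3 A hA (by omega)) (by omega) (by omega) (by omega)
  have f3B := far C E B M3 hC hE hB (r3 B hB (by omega)) (by omega) (by omega) (by omega)
  have w12 := hS.two A B C M1 M2 (bc A hA B hB) (bc A hA C hC) (r1 C hC (by omega)) c2 l2
    (p2 A hA (by omega)) (p2 B hB (by omega)) n2' (by omega) (by omega) (by omega)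
  have w13 := hS.two A B C M1 M3 (bc A hA B hB) (bc A hA C hC) (r1 C hC (by omega)) c3 l3
    (p3 A hA (by omega)) (p3 B hB (by omega)) n3 (by omega) (by omega) (by omega)
  have w32 := hS.two C E B M3 M2 (bc C hC E hE) (bc C hC B hB) (r3 B hB (by omega)) c2 l2
    (p2 C hC (by omega)) (p2 E hE (by omega)) n2 (by omega) (by omega) (by omega)
  obtain ⟨m1, hm1, e1⟩ := n1
  obtain ⟨m1', hm1', e1'⟩ := n1'
  obtain ⟨m2, hm2, e2⟩ := n2
  obtain ⟨m2', hm2', e2'⟩ := n2'
  obtain ⟨m3, hm3, e3⟩ := n3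
  obtain ⟨m3', hm3', e3'⟩ := n3'
  obtain ⟨X1, cX1, hX1, ⟨x1, hx1, tx1⟩, sX1⟩ := xl_hub h (ly B hB) (by omega) db
  obtain ⟨X2, cX2, hX2, ⟨x2, hx2, tx2⟩, sX2⟩ := xl_hub h (ly C hC) (by omega) de
  obtain ⟨W1, cW1, hW1, uW1, lW1, w1, hw1, ew1⟩ :=
    xl_wing h hl c1 (ly A hA) (by omega) da hm1 hm1' e1 e1' dAB
  obtain ⟨W3, cW3, hW3, uW3, lW3, w3, hw3, ew3⟩ :=
    xl_wing h hl c3 (ly E hE) (by omega) df hm3' hm3 e3' e3 dEC
  unfold Cx.D at *
  generalize c.σ A lam = yA at *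
  generalize c.σ B lam = yB at *
  generalize c.σ C lam = yC at *
  generalize c.σ E lam = yE at *
  obtain ⟨N1, s1, cN1, hN1, fN1, u, hu, eu⟩ := xl_trim h c2 (y := yC) (n := 25 * c.K) hm2 hm2'
    (by have := h.tri yC m2 yB; have := d_comm (c := c) m2 yB; omega) (by omega)
  have du : 127 * c.K ≤ c.d yB u := by
    have := h.tri yC u yB
    have := d_comm (c := c) u yB
    omega
  obtain ⟨N, s2, cN, hN, fN, u', hu', eu'⟩ := xl_trim h cN1 (y := yB) (n := 25 * c.K) hu hN1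
    (by omega) (by omega)
  obtain ⟨N3, s3, -, -, -, z, hz, ez⟩ := xl_trim h cN (y := yB) (n := 70 * c.K) hN hu'
    (by omega) (by omega)
  have hzN := s3 hz
  have lz := l2 z (s1 (s2 hzN))
  have hZ : ∀ v ∈ N ∪ Seg c.σ z (lam - 26 * c.K) (c.lv z), ∃ z ∈ N, lam ≤ c.lv v + 26 * c.K ∧
      c.d v z + c.lv v ≤ c.lv z ∧ 25 * c.K ≤ c.d yB v ∧ 25 * c.K ≤ c.d yC v := by
    rintro v (hv | hv)
    · have := l2 v (s1 (s2 hv))
      exact ⟨v, hv, by omega, by rw [d_self]; omega, fN v hv, fN1 v (s2 hv)⟩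
    · obtain ⟨k1, k2, k3⟩ := h.seg_lv le_rfl hv
      have k4 := h.dσ z k2
      rw [k3, h.top] at k4
      have := h.tri yB v z
      have := h.tri yC v z
      have := h.tri yC z yB
      have := d_comm (c := c) z yB
      exact ⟨z, hzN, by omega, by omega, by omega, by omega⟩
  obtain ⟨a0, z01⟩ := xl_half h hl uP (fun p hp => ⟨l1 p hp, f1C p hp⟩) hW1 hX1 hX2 dAB dAC
    (Z := N ∪ Seg c.σ z (lam - 26 * c.K) (c.lv z)) fun v hv => by
      obtain ⟨z, k1, k2, k3, -⟩ := hZ v hv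
      have k4 := s1 (s2 k1)
      have := f2A z k4
      have := fN z k1
      exact ⟨z, (l2 z k4).2, f2A z k4, fun p hp => w12 p hp z k4 (by omega) (by omega), k2, k3⟩
  obtain ⟨a2, z21⟩ := xl_half h hl uQ (fun p hp => ⟨l3 p hp, f3B p hp⟩) hW3 hX2 hX1 dEC dEB
    (Z := N ∪ Seg c.σ z (lam - 26 * c.K) (c.lv z)) fun v hv => by
      obtain ⟨z, k1, k2, k3, -⟩ := hZ v hv
      have k4 := s1 (s2 k1)
      have := f2E z k4
      have := fN1 z (s2 k1)
      exact ⟨z, (l2 z k4).2, f2E z k4, fun p hp => w32 p hp z k4 (by omega) (by omega), k2, k3⟩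
  have lowX : ∀ (y : V) (X : Set V), (∀ x ∈ X, XlHub c lam y x) →
      Apart c.G (3 * c.K) {v | c.lv v ≤ lam - 27 * c.K} X := fun y X hX v hv x hx => by
    have : c.lv v ≤ lam - 27 * c.K := hv
    have := h.lip v x
    have := (hX x hx).2.1
    show _ ≤ c.d v x
    omega
  have tch : ∀ {X Z : Set V} {w : V}, w ∈ Z → (∃ x ∈ X, c.d x w ≤ c.K) →
      ∃ x ∈ X, ∃ z ∈ Z, c.d x z ≤ c.K := fun hw ⟨x, hx, k⟩ => ⟨x, hx, _, hw, k⟩
  refine xl_k33 h ⟨h.conn_low _, cX1, cX2⟩ ⟨cP.union' cW1 aP uW1,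
      cN.union' (h.conn_seg _ _ _) hzN ⟨c.lv z, by omega, le_rfl, h.top z⟩, cQ.union' cW3 fQ uW3⟩
    ⟨lowX _ _ hX1, lowX _ _ hX2, fun x hx x' hx' => ?_⟩ ⟨z01, ?_, z21⟩ a0
    ⟨fun x hx v hv => ?_, fun x hx v hv => ?_, fun x hx v hv => ?_⟩ a2
    ⟨tch (.inr lW1) (xl_low h hl _),
      tch (.inr (mem_seg z le_rfl (by omega))) (xl_low h hl _),
      tch (.inr lW3) (xl_low h hl _)⟩
    ⟨tch (.inr hw1) (sX1 _ ew1), tch (.inl hu') (sX1 _ eu'), tch (.inl bQ) ⟨x1, hx1, tx1⟩⟩
    ⟨tch (.inl eP) ⟨x2, hx2, tx2⟩, tch (.inl hN) (sX2 _ eu), tch (.inr hw3) (sX2 _ ew3)⟩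
  · have := (hX1 x hx).1
    have := (hX2 x' hx').1
    have := h.tri yB x yC
    have := h.tri x x' yC
    have := d_comm (c := c) x' yC
    show _ ≤ c.d x x'
    omega
  · rintro v (hv | hv) w (hw | hw)
    · exact le_trans (by omega) (hPQ v hv w hw)
    · exact xl_up h uP hPQ fQ (fun p hp => (l3 p hp).2) hW3 v hv w hw
    · exact (xl_up h uQ hPQ.symm aP (fun p hp => (l1 p hp).2) hW1).symm v hv w hw
    · show _ ≤ c.d v w
      have := d_comm (c := c) v w
      rcases hW1 v hv with k | k <;> rcases hW3 w hw with k' | k'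
      · have := f3A w k'.1
        have := f3B w k'.1
        have := w13 v k.1 w k'.1 (by omega) (by omega)
        omega
      · have := f1E v k.1
        have := h.tri yE w v
        omega
      · have := f3A w k'.1
        have := h.tri yA v w
        omega
      · have := h.tri yA v yE
        have := h.tri v w yE
        have := d_comm (c := c) w yE
        omega
  · obtain ⟨z, -, k, -⟩ := hZ v hv
    have : c.lv x ≤ lam - 27 * c.K := hx
    have := h.lip x v
    show _ ≤ c.d x v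
    omega
  · obtain ⟨z, k1, -, k2, k3, -⟩ := hZ v hv
    have := l2 z (s1 (s2 k1))
    exact (hX1 x hx).far h (by omega) k3
  · obtain ⟨z, k1, -, k2, -, k3⟩ := hZ v hv
    have := l2 z (s1 (s2 k1))
    exact (hX2 x hx).far h (by omega) k3

end Pool.Agent.Lib.MP_f9389f_co.SC
end
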