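import Mathlib
import Pool.Agent.Lib.MP_f9389f_co.SC.XL


import Pool.Agent.Lib.MP_f9389f_co.SC.Side



import Pool.Agent.Lib.MP_f9389f_co.SC.Emu

import Pool.Agent.Lib.MP_f9389f_co.SC.TokG

import Pool.Agent.Lib.MP_f9389f_co.SC.StepA



import Pool.Agent.Lib.MP_f9389f_co.SC.Even



import Pool.Agent.Lib.MP_f9389f_co.SC.CoreFace










import Pool.Agent.Lib.MP_f9389f_co.SC.TD





import Pool.Agent.Lib.MP_f9389f_co.SC.Link


import Pool.Agent.Lib.MP_f9389f_co.SC.QI





/-! Assembly of the short cycle case. -/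

namespace Pool.Agent.Lib.MP_f9389f_co.SC

universe u

theorem main : MainStmt.{u} :=
  have hAnn : AnnStmt.{u} := annStmt
  have hEnv : EnvStmt.{u} := envStmt
  have hHam : HamStmt.{u} := hamStmt
  have hRim : RimStmt.{u} := rimStmt hHam
  have hSide : SideStmt.{u} := sideStmt
  have hXL : XLStmt.{u} := xLStmt
  have hClaw : ClawStmt.{u} := clawStmt
  have hRank : RankStmt.{u} := rankStmt
  have hProv : ProvStmt.{u} := provStmt hRim hSide hXL hClaw hRank
  have hBase : BaseStmt.{u} := baseStmt hRank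
  have hBand : BandStmt.{u} := bandStmt
  have hEmu : EmuStmt := emuStmt
  have hPath : PathStmt := pathStmt
  have hFace : FaceStmt := faceStmt hPath
  have hGFacts : GFactsStmt.{u} := gFactsStmt hPath hFace
  have hTie : TieStmt.{u} := tieStmt hPath hFace
  have hV0 : V0Stmt.{u} := v0Stmt hPath hFace
  have hInFace : InFaceStmt.{u} := inFaceStmt hPath hFace
  have hSeq : SeqStmt := seqStmt hPath hFace
  have hH : HStmt.{u} := hStmt hEmu hGFacts hTie hV0 hInFace hSeq hPath hFace
  have hMax : MaxStmt.{u} := maxStmt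
  have hPar : ParStmt.{u} := parStmt
  have hStepA : StepAStmt.{u} := stepAStmt hMax hPar
  have hQuad : QuadStmt.{u} := quadStmt
  have hLegs : LegsStmt.{u} := legsStmt
  have hBandG : BandGStmt.{u} := bandGStmt hPath hBand
  have hCoreFace : CoreFaceStmt.{u} := coreFaceStmt hPath hFace
  have hCoreD : CoreDStmt.{u} := coreDStmt hStepA hQuad hLegs hBandG hCoreFace hPath hFace hRank
  have hTiny : TinyStmt.{u} := tinyStmt hFace hPath
  have hTD : TDStmt.{u} := tDStmt hCoreD hTiny hLegs hRank
  have hBef : BefStmt.{u} := befStmt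
  have hDel : DelStmt.{u} := delStmt
  have hTri : TriStmt.{u} := triStmt
  have hEven : EvenStmt.{u} := evenStmt hPar
  have hPot : PotStmt.{u} := potStmt
  have hOrd : OrdStmt.{u} := ordStmt hBef hDel hTri hEven hPot hMax hPar
  have hGlob : GlobStmt.{u} := globStmt hFace hRank
  have hTokG : TokGStmt.{u} := tokGStmt
  have hOrd2 : Ord2Stmt.{u} := ord2Stmt hOrd hGlob hRank hTokG hFace hPath
  have hNcg : NcgStmt.{u} := ncgStmt
  have hChild : ChildStmt.{u} := childStmt hTokG hNcg
  have hLink : LinkStmt.{u} := linkStmt hBandG hFace hPath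
  have hStep : StepStmt.{u} := stepStmt hBand hH hTD hOrd2 hChild hLink
  have hPlanar : PlanarStmt := planarStmt
  have hQI : QIStmt.{u} := qIStmt hPath
  have hCore : CoreStmt.{u} := coreStmt hProv hBase hStep hPlanar hQI
  mainStmt hAnn hEnv hCore

end Pool.Agent.Lib.MP_f9389f_co.SC
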